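import Pool.Agent.Helper79.G.Base
import Pool.Agent.Helper87.LS.Rec
import Pool.Agent.Helper45.TFL.Defs

/-!
# MP_e98778_an (full): analysis on a triangulated translation surface

Cocycles, the piecewise linear forms, Lipschitz functions on the surface, the Hodge norm, the mean,
linear maps acting on surfaces, realisations of a triangulation by a `Surf`, isomorphisms of the
families of motions.
-/

set_option autoImplicit false

open MeasureTheory Set Pool.Agent.Helper87.LS Pool.Agent.Helper79.G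

namespace Pool.Agent.Helper72.TF

noncomputable section

variable {H : Type}

/-! ### Cocycles -/

/-- Real cocycles: functions of darts, odd under `opp`, with zero sum over every triangle. -/
def Coch (T : Tri H) : Submodule ℝ (H → ℝ) where
  carrier := {x | (∀ h, x (T.opp h) = -x h) ∧ ∀ h, x h + x (T.next h) + x (T.next (T.next h)) = 0}
  add_mem' := by
    rintro x y ⟨hx, hx'⟩ ⟨hy, hy'⟩
    refine ⟨fun h => ?_, fun h => ?_⟩
    · simp only [Pi.add_apply, hx h, hy h]; ring
    · have h1 := hx' h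
      have h2 := hy' h
      simp only [Pi.add_apply]; linarith
  zero_mem' := by simp
  smul_mem' := by
    rintro c x ⟨hx, hx'⟩
    refine ⟨fun h => ?_, fun h => ?_⟩
    · simp only [Pi.smul_apply, hx h, smul_neg]
    · have h1 := hx' h
      simp only [Pi.smul_apply, smul_eq_mul]
      have : c * x h + c * x (T.next h) + c * x (T.next (T.next h))
        = c * (x h + x (T.next h) + x (T.next (T.next h))) := by ring
      rw [this, h1, mul_zero]

/-- Functions of the vertices: functions of corners (= darts, the corner is at the start of the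
dart) which agree at the corners `h` and `next (opp h)` of the same vertex. -/
def Vert (T : Tri H) : Submodule ℝ (H → ℝ) where
  carrier := {c | ∀ h, c (T.next (T.opp h)) = c h}
  add_mem' := by intro x y hx hy h; simp [hx h, hy h]
  zero_mem' := by intro h; simp
  smul_mem' := by intro a x hx h; simp [hx h]

/-- The coboundary of a function of corners. -/
def dv (T : Tri H) : (H → ℝ) →ₗ[ℝ] (H → ℝ) where
  toFun c h := c (T.next h) - c h
  map_add' x y := by ext h; simp; ring
  map_smul' a x := by ext h; simp; ring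

/-- Coboundaries. -/
def Cob (T : Tri H) : Submodule ℝ (H → ℝ) := (Vert T).map (dv T)

/-- Integer valued functions of darts. -/
def IntF (H : Type) : AddSubgroup (H → ℝ) where
  carrier := {x | ∀ h, ∃ m : ℤ, x h = m}
  add_mem' := by
    intro x y hx hy h
    obtain ⟨m, hm⟩ := hx h
    obtain ⟨k, hk⟩ := hy h
    exact ⟨m + k, by simp [hm, hk]⟩
  zero_mem' := by intro h; exact ⟨0, by simp⟩
  neg_mem' := by
    intro x hx h
    obtain ⟨m, hm⟩ := hx h
    exact ⟨-m, by simp [hm]⟩

/-- Integer cocycles. -/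
def CochZ (T : Tri H) : AddSubgroup (H → ℝ) := (Coch T).toAddSubgroup ⊓ IntF H

/-- Scalar product of plane vectors. -/
def dot (z w : ℂ) : ℝ := z.re * w.re + z.im * w.im

/-- The cocycle of a constant form: `h ↦ ⟨ω, vec h⟩`. -/
def cst (T : Tri H) (ω : ℂ) : H → ℝ := fun h => dot ω (T.vec h)

/-- Twice the area of the triangle of `h`. -/
def ar (T : Tri H) (h : H) : ℝ := cr (T.vec h) (T.vec (T.next h))

/-- The constant gradient on the triangle of `h` with increments `x h`, `x (next h)` along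
`vec h`, `vec (next h)`. -/
def omega (T : Tri H) (x : H → ℝ) (h : H) : ℂ :=
  ((x (T.next h) : ℂ) * (Complex.I * T.vec h) - (x h : ℂ) * (Complex.I * T.vec (T.next h))) /
    (ar T h : ℂ)

/-! ### Functions on the surface -/

/-- The open and the closed triangle of `h`, positions relative to the start of `h`. -/
def Op (T : Tri H) (h : H) : Set ℂ := {z | T.Int h z}

def Cl (T : Tri H) (h : H) : Set ℂ := {z | 0 ≤ T.a0 h z ∧ 0 ≤ T.a1 h z ∧ 0 ≤ T.a2 h z}

/-- Lipschitz functions on the surface. -/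
structure Fn (T : Tri H) (f : H → ℂ → ℝ) : Prop where
  lip : ∃ C : NNReal, ∀ h, LipschitzOnWith C (f h) (Cl T h)
  rot : ∀ h, ∀ z ∈ Cl T h, f (T.next h) (z - T.vec h) = f h z
  edge : ∀ h, ∀ t ∈ Icc (0 : ℝ) 1, f (T.opp h) (t * T.vec h - T.vec h) = f h (t * T.vec h)

/-- The gradient of a real function on the plane, as a complex number. -/
def grad (f : ℂ → ℝ) (z : ℂ) : ℂ := ⟨fderiv ℝ f z 1, fderiv ℝ f z Complex.I⟩

/-- The energy of the form `x + df` (each triangle is counted by its three darts). -/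
def en [Fintype H] (T : Tri H) (x : H → ℝ) (f : H → ℂ → ℝ) : ℝ :=
  (∑ h, ∫ z in Op T h, ‖omega T x h + grad (f h) z‖ ^ 2) / 3

/-- The square of the Hodge norm of the class of `x` (modulo coboundaries). -/
def hn2 [Fintype H] (T : Tri H) (x : H → ℝ) : ℝ := ⨅ f : {f : H → ℂ → ℝ // Fn T f}, en T x f.1

/-- The integral of the form `x` over the surface (a covector). -/
def qT [Fintype H] (T : Tri H) (x : H → ℝ) : ℂ := (∑ h, (ar T h : ℂ) * omega T x h) / 6

/-! ### Linear maps acting on surfaces -/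

/-- The surface `A T`, for `A` of determinant one. -/
def act (T : Tri H) (A : ℂ ≃ₗ[ℝ] ℂ) (hA : LinearMap.det (A : ℂ →ₗ[ℝ] ℂ) = 1) : Tri H where
  next := T.next
  opp := T.opp
  vec h := A (T.vec h)
  next3 := T.next3
  opp2 := T.opp2
  vec_opp h := by rw [T.vec_opp, map_neg]
  closed h := by rw [← map_add, ← map_add, T.closed, map_zero]
  pos h := by rw [cr_map, hA, one_mul]; exact T.pos h

/-- The matrix `g_{s,u}` acting on plane vectors: `(x, y) ↦ (e^s (x - u y), e^{-s} y)`. -/
def gsu (s u : ℝ) : ℂ ≃ₗ[ℝ] ℂ where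
  toFun z := ⟨Real.exp s * (z.re - u * z.im), Real.exp (-s) * z.im⟩
  invFun z := ⟨Real.exp (-s) * z.re + u * (Real.exp s * z.im), Real.exp s * z.im⟩
  map_add' := by intro z w; apply Complex.ext <;> simp <;> ring
  map_smul' := by intro c z; apply Complex.ext <;> simp <;> ring
  left_inv := by
    intro z
    have h1 : Real.exp (-s) * Real.exp s = 1 := by rw [← Real.exp_add]; simp
    apply Complex.ext
    · simp only
      linear_combination (z.re - u * z.im) * h1 + u * z.im * h1
    · simp only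
      linear_combination z.im * h1
  right_inv := by
    intro z
    have h1 : Real.exp (-s) * Real.exp s = 1 := by rw [← Real.exp_add]; simp
    apply Complex.ext
    · simp only
      linear_combination z.re * h1
    · simp only
      linear_combination z.im * h1

@[simp] theorem gsu_re (s u : ℝ) (z : ℂ) : (gsu s u z).re = Real.exp s * (z.re - u * z.im) := rfl
@[simp] theorem gsu_im (s u : ℝ) (z : ℂ) : (gsu s u z).im = Real.exp (-s) * z.im := rfl

theorem det_gsu (s u : ℝ) : LinearMap.det ((gsu s u : ℂ ≃ₗ[ℝ] ℂ) : ℂ →ₗ[ℝ] ℂ) = 1 := by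
  have h1 : Real.exp s * Real.exp (-s) = 1 := by rw [← Real.exp_add]; simp
  have h := cr_map (gsu s u) 1 Complex.I
  have h2 : cr 1 Complex.I = 1 := by simp [cr]
  rw [h2, mul_one] at h
  rw [← h]
  simp only [cr, gsu_re, gsu_im, Complex.one_re, Complex.one_im, Complex.I_re, Complex.I_im]
  linear_combination h1

/-- The surface `g_{s,u} T`. -/
def lev (T : Tri H) (s u : ℝ) : Tri H := act T (gsu s u) (det_gsu s u)

/-! ### Surfaces of helper87 -/

/-- The triangulation of a `Surf`. -/
def ofSurf (S : Surf) : Tri (Fin S.n × Fin 3) where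
  next := (Equiv.refl _).prodCongr (Equiv.addRight 1)
  opp := ⟨S.glue, S.glue, S.invol, S.invol⟩
  vec := S.vec
  next3 h := by
    rcases h with ⟨i, k⟩
    simp only [Equiv.prodCongr_apply, Prod.map_apply, Equiv.refl_apply, Equiv.coe_addRight]
    have : k + 1 + 1 + 1 = k := by revert k; decide
    rw [this]
  opp2 := S.invol
  vec_opp := S.vec_glue
  closed h := by
    rcases h with ⟨i, k⟩
    simp only [Equiv.prodCongr_apply, Prod.map_apply, Equiv.refl_apply, Equiv.coe_addRight,
      Surf.vec]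
    have : k + 1 + 1 + 1 = k := by revert k; decide
    rw [this]; ring
  pos h := by
    rcases h with ⟨i, k⟩
    simp only [Equiv.prodCongr_apply, Prod.map_apply, Equiv.refl_apply, Equiv.coe_addRight]
    rw [S.cr_vec_succ]
    exact S.area2_pos i

/-- Connectedness of a surface. -/
def Connected (S : Surf) : Prop := (ofSurf S).Conn

/-- The motions of `S` and `Y` are isomorphic, `A` being the derivative. -/
def LinIso (S Y : Surf) (A : ℂ ≃ₗ[ℝ] ℂ) : Prop :=
  ∃ Φ Ψ : ℂ → ℂ, MeasurePreserving Φ S.μ Y.μ ∧ MeasurePreserving Ψ Y.μ S.μ ∧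
    (∀ᵐ x ∂S.μ, Ψ (Φ x) = x) ∧ (∀ᵐ x ∂Y.μ, Φ (Ψ x) = x) ∧
    ∀ v : ℂ, ∀ᵐ x ∂S.μ, Φ (S.F v x) = Y.F (A v) (Φ x)

/-- `Y` is the surface `A S` with another triangulation: the motions are isomorphic, and the
cocycles correspond to each other, with all structures. -/
structure Eqv (S Y : Surf) (A : ℂ ≃ₗ[ℝ] ℂ) : Prop where
  iso : LinIso S Y A
  coc : ∃ L : (Fin S.n × Fin 3 → ℝ) →ₗ[ℝ] (Fin Y.n × Fin 3 → ℝ),
    (∀ x ∈ Coch (ofSurf S), L x ∈ Coch (ofSurf Y)) ∧
    (∀ y ∈ Coch (ofSurf Y), ∃ x ∈ Coch (ofSurf S), L x = y) ∧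
    (∀ x ∈ Coch (ofSurf S), x ∈ CochZ (ofSurf S) ↔ L x ∈ CochZ (ofSurf Y)) ∧
    (∀ x ∈ Coch (ofSurf S), x ∈ Cob (ofSurf S) ↔ L x ∈ Cob (ofSurf Y)) ∧
    (∀ ω : ℂ, L (fun h => dot ω (A (S.vec h))) = cst (ofSurf Y) ω) ∧
    (∀ x ∈ Coch (ofSurf S), ∀ (B : ℂ ≃ₗ[ℝ] ℂ) (hB : LinearMap.det (B : ℂ →ₗ[ℝ] ℂ) = 1)
      (C : ℂ ≃ₗ[ℝ] ℂ) (hC : LinearMap.det (C : ℂ →ₗ[ℝ] ℂ) = 1), (∀ z, C z = B (A z)) →
      hn2 (act (ofSurf Y) B hB) (L x) = hn2 (act (ofSurf S) C hC) x ∧
      qT (act (ofSurf Y) B hB) (L x) = qT (act (ofSurf S) C hC) x)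

/-- The surface `g_{s,u} S` has a triangulation with `n` triangles, edges at most `K` and areas at
least `1/(2K)`. -/
def TameAt (S : Surf) (K s u : ℝ) : Prop :=
  ∃ Y : Surf, Y.n = S.n ∧ Connected Y ∧ (∀ e, ‖Y.vec e‖ ≤ K) ∧ (∀ i, 1 / K ≤ Y.area2 i) ∧
    Eqv S Y (gsu s u)

/-- The class `c dy` is `δ`-close to the integer classes on `g_{s,u} S`. -/
def Close (S : Surf) (s u c δ : ℝ) : Prop :=
  ∃ m ∈ CochZ (ofSurf S), hn2 (lev (ofSurf S) s u) (fun h => c * (S.vec h).im - m h) < δ ^ 2

end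

end Pool.Agent.Helper72.TF
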