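import Pool.Agent.Helper72.TF.Core

/-!
# BASE, block TF-BA: algebra of cocycles and constant gradients

Write `D = ar T h = cr (vec h) (vec (next h)) > 0` and `J z = I * z`; `dot (J z) w = cr z w`.
`omega T x h = (x (next h) J vec h - x h J vec (next h)) / D`, so `dot (omega) (vec h) = x h`,
`dot (omega) (vec (next h)) = x (next h)`; the vector `omega` is determined by these two numbers.
For a cocycle the third side `vec (prev h) = -(vec h + vec (next h))` also fits, hence
`omega T x (next h) = omega T x h`.
`adj A` is the inverse transpose of `A` (for `det A = 1`): `dot (adj A w) (A z) = dot w z`.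

`qT_cob`: with `x = dv c`, `c ∈ Vert T`:  `6 q = ∑ (x (next h) J vec h - x h J vec (next h))`
`= ∑ x h J (vec (prev h) - vec (next h))` (reindexing by `next`), then reindexing the part
`c (next h)`: `= J ∑ c h (2 vec (next h) - vec h - vec (prev h)) = 3 J ∑ c h vec (next h)`, and
`vec (next h) = -vec h + vec (opp (prev h))`, where `c (opp (prev h)) = c h` because
`next (opp (opp (prev h))) = h`; the sum is `0` by reindexing with `h ↦ opp (prev h)`.
-/

set_option autoImplicit false

open MeasureTheory Set Pool.Agent.Helper87.LS Pool.Agent.Helper79.G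

namespace Pool.Agent.Helper72.TF

noncomputable section

variable {H : Type} (T : Tri H)

theorem ar_pos (h : H) : 0 < ar T h := T.pos h

theorem ar_next (h : H) : ar T (T.next h) = ar T h := by
  have hc : T.vec (T.next (T.next h)) = -(T.vec h + T.vec (T.next h)) := by
    have := T.closed h
    linear_combination this
  unfold ar
  rw [hc]
  simp only [cr, Complex.neg_re, Complex.neg_im, Complex.add_re, Complex.add_im]
  ring

/-- Real and imaginary parts of `omega` (helper16). -/
private theorem omega_re16 (x : H → ℝ) (h : H) : (omega T x h).re =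
    (x h * (T.vec (T.next h)).im - x (T.next h) * (T.vec h).im) / ar T h := by
  unfold omega
  rw [Complex.div_ofReal_re]
  congr 1
  simp only [Complex.sub_re, Complex.mul_re, Complex.ofReal_re, Complex.ofReal_im, Complex.I_re,
    Complex.I_im, Complex.mul_im]
  ring

private theorem omega_im16 (x : H → ℝ) (h : H) : (omega T x h).im =
    (x (T.next h) * (T.vec h).re - x h * (T.vec (T.next h)).re) / ar T h := by
  unfold omega
  rw [Complex.div_ofReal_im]
  congr 1
  simp only [Complex.sub_im, Complex.mul_re, Complex.ofReal_re, Complex.ofReal_im, Complex.I_re,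
    Complex.I_im, Complex.mul_im]
  ring

/-! ### TF-BA1 -/

theorem dot_I_mul (z w : ℂ) : dot (Complex.I * z) w = cr z w := by
  simp only [dot, cr, Complex.mul_re, Complex.mul_im, Complex.I_re, Complex.I_im]
  ring

theorem dot_omega (x : H → ℝ) (h : H) : dot (omega T x h) (T.vec h) = x h := by
  have hD : ar T h ≠ 0 := ne_of_gt (ar_pos T h)
  unfold dot
  rw [omega_re16, omega_im16]
  field_simp
  simp only [ar, cr]
  ring

theorem dot_omega_next (x : H → ℝ) (h : H) :
    dot (omega T x h) (T.vec (T.next h)) = x (T.next h) := by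
  have hD : ar T h ≠ 0 := ne_of_gt (ar_pos T h)
  unfold dot
  rw [omega_re16, omega_im16]
  field_simp
  simp only [ar, cr]
  ring

theorem omega_unique {x : H → ℝ} {h : H} {w : ℂ} (h1 : dot w (T.vec h) = x h)
    (h2 : dot w (T.vec (T.next h)) = x (T.next h)) : omega T x h = w := by
  have hD : ar T h ≠ 0 := ne_of_gt (ar_pos T h)
  apply Complex.ext
  · rw [omega_re16, ← h1, ← h2, div_eq_iff hD]
    simp only [ar, cr, dot]
    ring
  · rw [omega_im16, ← h1, ← h2, div_eq_iff hD]
    simp only [ar, cr, dot]
    ring

theorem omega_next {x : H → ℝ} (hx : x ∈ Coch T) (h : H) :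
    omega T x (T.next h) = omega T x h := by
  refine omega_unique T (dot_omega_next T x h) ?_
  have hc : T.vec (T.next (T.next h)) = -(T.vec h + T.vec (T.next h)) := by
    have := T.closed h
    linear_combination this
  have h1 := dot_omega T x h
  have h2 := dot_omega_next T x h
  have h3 := hx.2 h
  have h4 : dot (omega T x h) (T.vec (T.next (T.next h))) =
      -(dot (omega T x h) (T.vec h) + dot (omega T x h) (T.vec (T.next h))) := by
    rw [hc]
    simp only [dot, Complex.neg_re, Complex.neg_im, Complex.add_re, Complex.add_im]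
    ring
  rw [h4, h1, h2]
  linarith

theorem dot_omega_prev {x : H → ℝ} (hx : x ∈ Coch T) (h : H) :
    dot (omega T x h) (T.vec (T.prev h)) = x (T.prev h) := by
  have h1 := dot_omega_next T x (T.next h)
  rw [omega_next T hx h] at h1
  exact h1

theorem omega_add (x y : H → ℝ) (h : H) : omega T (x + y) h = omega T x h + omega T y h := by
  unfold omega
  simp only [Pi.add_apply]
  push_cast
  ring

theorem omega_smul (c : ℝ) (x : H → ℝ) (h : H) : omega T (c • x) h = (c : ℂ) * omega T x h := by
  unfold omega
  simp only [Pi.smul_apply, smul_eq_mul]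
  push_cast
  ring

theorem cst_mem (w : ℂ) : cst T w ∈ Coch T := by
  refine ⟨fun h => ?_, fun h => ?_⟩
  · simp only [cst, T.vec_opp, dot, Complex.neg_re, Complex.neg_im]
    ring
  · have hc : T.vec (T.next (T.next h)) = -(T.vec h + T.vec (T.next h)) := by
      have := T.closed h
      linear_combination this
    simp only [cst]
    rw [hc]
    simp only [dot, Complex.neg_re, Complex.neg_im, Complex.add_re, Complex.add_im]
    ring

theorem omega_cst (w : ℂ) (h : H) : omega T (cst T w) h = w :=
  omega_unique T rfl rfl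

/-- The inverse transpose of a matrix of determinant one. -/
def adj (A : ℂ ≃ₗ[ℝ] ℂ) (w : ℂ) : ℂ := Complex.I * A (-(Complex.I * w))

theorem dot_adj {A : ℂ ≃ₗ[ℝ] ℂ} (hA : LinearMap.det (A : ℂ →ₗ[ℝ] ℂ) = 1) (w z : ℂ) :
    dot (adj A w) (A z) = dot w z := by
  unfold adj
  rw [dot_I_mul, cr_map, hA, one_mul]
  simp only [dot, cr, Complex.neg_re, Complex.neg_im, Complex.mul_re, Complex.mul_im,
    Complex.I_re, Complex.I_im]
  ring

theorem omega_act (A : ℂ ≃ₗ[ℝ] ℂ) (hA : LinearMap.det (A : ℂ →ₗ[ℝ] ℂ) = 1) (x : H → ℝ) (h : H) :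
    omega (act T A hA) x h = adj A (omega T x h) := by
  refine omega_unique (act T A hA) ?_ ?_
  · change dot (adj A (omega T x h)) (A (T.vec h)) = x h
    rw [dot_adj hA, dot_omega]
  · change dot (adj A (omega T x h)) (A (T.vec (T.next h))) = x (T.next h)
    rw [dot_adj hA, dot_omega_next]

/-- The inverse transpose of `gsu s u`: `(a, b) ↦ (e^{-s} a, e^s (b + u a))`. -/
theorem adj_gsu (s u : ℝ) (w : ℂ) :
    adj (gsu s u) w = ⟨Real.exp (-s) * w.re, Real.exp s * (w.im + u * w.re)⟩ := by
  unfold adj
  apply Complex.ext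
  · simp only [Complex.mul_re, Complex.I_re, Complex.I_im, gsu_re, gsu_im, Complex.neg_re,
      Complex.neg_im, Complex.mul_im]
    ring
  · simp only [Complex.mul_re, Complex.I_re, Complex.I_im, gsu_re, gsu_im, Complex.neg_re,
      Complex.neg_im, Complex.mul_im]
    ring

theorem ar_act (A : ℂ ≃ₗ[ℝ] ℂ) (hA : LinearMap.det (A : ℂ →ₗ[ℝ] ℂ) = 1) (h : H) :
    ar (act T A hA) h = ar T h := by
  change cr (A (T.vec h)) (A (T.vec (T.next h))) = cr (T.vec h) (T.vec (T.next h))
  rw [cr_map, hA, one_mul]

end

end Pool.Agent.Helper72.TF
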