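import Pool.Agent.Helper72.TF.BE3

/-! Block TF-BE4, see the header of BE1.lean. -/

set_option autoImplicit false

open MeasureTheory Set Pool.Agent.Helper87.LS Pool.Agent.Helper79.G

namespace Pool.Agent.Helper72.TF

noncomputable section

variable {H : Type} {T : Tri H} [Fintype H]

/-! ### TF-BE4: linear maps -/

namespace BE4

theorem cr_A {A : ℂ ≃ₗ[ℝ] ℂ} (hA : LinearMap.det (A : ℂ →ₗ[ℝ] ℂ) = 1) (u w : ℂ) :
    cr (A u) (A w) = cr u w := by
  rw [cr_map, hA, one_mul]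

omit [Fintype H] in
theorem mem_Cl_act (A : ℂ ≃ₗ[ℝ] ℂ) (hA : LinearMap.det (A : ℂ →ₗ[ℝ] ℂ) = 1) (h : H) (z : ℂ) :
    A z ∈ Cl (act T A hA) h ↔ z ∈ Cl T h := by
  have h0 : (act T A hA).a0 h (A z) = T.a0 h z := cr_A hA _ _
  have h1 : (act T A hA).a1 h (A z) = T.a1 h z := by
    change cr (A (T.vec (T.next h))) (A z - A (T.vec h)) = _
    rw [← map_sub]; exact cr_A hA _ _
  have h2 : (act T A hA).a2 h (A z) = T.a2 h z := cr_A hA _ _
  change (0 ≤ (act T A hA).a0 h (A z) ∧ 0 ≤ (act T A hA).a1 h (A z) ∧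
    0 ≤ (act T A hA).a2 h (A z)) ↔ _
  rw [h0, h1, h2]; rfl

omit [Fintype H] in
theorem mem_Op_act (A : ℂ ≃ₗ[ℝ] ℂ) (hA : LinearMap.det (A : ℂ →ₗ[ℝ] ℂ) = 1) (h : H) (z : ℂ) :
    A z ∈ Op (act T A hA) h ↔ z ∈ Op T h := by
  have h0 : (act T A hA).a0 h (A z) = T.a0 h z := cr_A hA _ _
  have h1 : (act T A hA).a1 h (A z) = T.a1 h z := by
    change cr (A (T.vec (T.next h))) (A z - A (T.vec h)) = _
    rw [← map_sub]; exact cr_A hA _ _
  have h2 : (act T A hA).a2 h (A z) = T.a2 h z := cr_A hA _ _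
  change (0 < (act T A hA).a0 h (A z) ∧ 0 < (act T A hA).a1 h (A z) ∧
    0 < (act T A hA).a2 h (A z)) ↔ _
  rw [h0, h1, h2]; rfl

/-- The continuous version of a linear equivalence of the plane. -/
def cA (A : ℂ ≃ₗ[ℝ] ℂ) : ℂ ≃L[ℝ] ℂ := A.toContinuousLinearEquiv

@[simp] theorem cA_apply (A : ℂ ≃ₗ[ℝ] ℂ) (z : ℂ) : cA A z = A z := rfl
@[simp] theorem cA_symm_apply (A : ℂ ≃ₗ[ℝ] ℂ) (z : ℂ) : (cA A).symm z = A.symm z := rfl

theorem map_real_mul (A : ℂ ≃ₗ[ℝ] ℂ) (t : ℝ) (v : ℂ) : A ((t : ℂ) * v) = (t : ℂ) * A v := by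
  rw [← Complex.real_smul, map_smul, Complex.real_smul]

end BE4

omit [Fintype H] in
theorem Fn_act (A : ℂ ≃ₗ[ℝ] ℂ) (hA : LinearMap.det (A : ℂ →ₗ[ℝ] ℂ) = 1) (f : H → ℂ → ℝ) :
    Fn (act T A hA) f ↔ Fn T (fun h z => f h (A z)) := by
  constructor
  · rintro ⟨⟨C, hC⟩, hrot, hedge⟩
    refine ⟨⟨C * ‖((BE4.cA A : ℂ ≃L[ℝ] ℂ) : ℂ →L[ℝ] ℂ)‖₊, fun h => ?_⟩, fun h z hz => ?_,
      fun h t ht => ?_⟩
    · refine (hC h).comp (((BE4.cA A : ℂ ≃L[ℝ] ℂ) : ℂ →L[ℝ] ℂ).lipschitz.lipschitzOnWith) ?_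
      intro z hz
      exact (BE4.mem_Cl_act A hA h z).2 hz
    · have := hrot h (A z) ((BE4.mem_Cl_act A hA h z).2 hz)
      change f (T.next h) (A z - A (T.vec h)) = f h (A z) at this
      rw [← map_sub] at this
      exact this
    · have := hedge h t ht
      change f (T.opp h) (t * A (T.vec h) - A (T.vec h)) = f h (t * A (T.vec h)) at this
      rw [← BE4.map_real_mul, ← map_sub] at this
      exact this
  · rintro ⟨⟨C, hC⟩, hrot, hedge⟩
    refine ⟨⟨C * ‖(((BE4.cA A).symm : ℂ ≃L[ℝ] ℂ) : ℂ →L[ℝ] ℂ)‖₊, fun h => ?_⟩, fun h z hz => ?_,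
      fun h t ht => ?_⟩
    · have h1 := (hC h).comp ((((BE4.cA A).symm : ℂ ≃L[ℝ] ℂ) : ℂ →L[ℝ] ℂ).lipschitz.lipschitzOnWith
        (s := Cl (act T A hA) h)) (fun z hz => by
          refine (BE4.mem_Cl_act A hA h _).1 ?_
          simpa using hz)
      intro y hy z hz
      have h2 := h1 hy hz
      simpa using h2
    · obtain ⟨w, rfl⟩ := A.surjective z
      have := hrot h w ((BE4.mem_Cl_act A hA h w).1 hz)
      change f (T.next h) (A w - A (T.vec h)) = f h (A w)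
      rw [← map_sub]
      exact this
    · have := hedge h t ht
      change f (T.opp h) (t * A (T.vec h) - A (T.vec h)) = f h (t * A (T.vec h))
      rw [← BE4.map_real_mul, ← map_sub]
      exact this

namespace BE4

theorem dot_right_inj {a b : ℂ} (h : ∀ u, dot a u = dot b u) : a = b := by
  have h1 := h 1
  have h2 := h Complex.I
  simp [dot] at h1 h2
  exact Complex.ext h1 h2

theorem dot_grad (f : ℂ → ℝ) (z u : ℂ) : dot (grad f z) u = fderiv ℝ f z u := by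
  have hu : u = u.re • (1 : ℂ) + u.im • Complex.I := by
    apply Complex.ext <;> simp
  conv_rhs => rw [hu]
  rw [map_add, map_smul, map_smul]
  simp only [dot, grad, smul_eq_mul]
  ring

theorem fderiv_A (A : ℂ ≃ₗ[ℝ] ℂ) (f : ℂ → ℝ) (w u : ℂ) :
    fderiv ℝ (fun z => f (A z)) w u = fderiv ℝ f (A w) (A u) := by
  have h := (cA A).comp_right_fderiv (f := f) (x := w)
  have h2 : (f ∘ (cA A)) = fun z => f (A z) := rfl
  rw [h2] at h
  rw [h]
  rfl

theorem grad_A (A : ℂ ≃ₗ[ℝ] ℂ) (hA : LinearMap.det (A : ℂ →ₗ[ℝ] ℂ) = 1) (f : ℂ → ℝ) (w : ℂ) :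
    grad f (A w) = adj A (grad (fun z => f (A z)) w) := by
  apply dot_right_inj
  intro u
  obtain ⟨v, rfl⟩ := A.surjective u
  rw [dot_adj hA, dot_grad, dot_grad, fderiv_A]

theorem adj_add (A : ℂ ≃ₗ[ℝ] ℂ) (w z : ℂ) : adj A (w + z) = adj A w + adj A z := by
  simp only [adj]
  rw [mul_add, neg_add, map_add, mul_add]

theorem measurePreserving_A (A : ℂ ≃ₗ[ℝ] ℂ) (hA : LinearMap.det (A : ℂ →ₗ[ℝ] ℂ) = 1) :
    MeasurePreserving (A : ℂ → ℂ) volume volume := by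
  refine ⟨(cA A).continuous.measurable, ?_⟩
  have hd : LinearMap.det (A : ℂ →ₗ[ℝ] ℂ) ≠ 0 := by rw [hA]; exact one_ne_zero
  have := Measure.map_linearMap_addHaar_eq_smul_addHaar (μ := (volume : Measure ℂ)) hd
  rw [hA] at this
  simpa using this

end BE4

theorem en_act (A : ℂ ≃ₗ[ℝ] ℂ) (hA : LinearMap.det (A : ℂ →ₗ[ℝ] ℂ) = 1) (x : H → ℝ)
    (f : H → ℂ → ℝ) :
    en (act T A hA) x f =
      (∑ h, ∫ z in Op T h, ‖adj A (omega T x h + grad (fun z => f h (A z)) z)‖ ^ 2) / 3 := by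
  unfold en
  congr 1
  refine Finset.sum_congr rfl fun h _ => ?_
  have hpre : (A : ℂ → ℂ) ⁻¹' (Op (act T A hA) h) = Op T h := by
    ext z; exact BE4.mem_Op_act A hA h z
  have hme : MeasurableEmbedding (A : ℂ → ℂ) :=
    (BE4.cA A).toHomeomorph.measurableEmbedding
  have := (BE4.measurePreserving_A A hA).setIntegral_preimage_emb hme
    (fun z => ‖omega (act T A hA) x h + grad (f h) z‖ ^ 2) (Op (act T A hA) h)
  rw [hpre] at this
  rw [← this]
  refine setIntegral_congr_fun ?_ ?_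
  · exact (isOpen_Op T h).measurableSet
  · intro z _
    simp only
    rw [omega_act, BE4.grad_A A hA, ← BE4.adj_add]

theorem hn2_act_le (A : ℂ ≃ₗ[ℝ] ℂ) (hA : LinearMap.det (A : ℂ →ₗ[ℝ] ℂ) = 1) {K : ℝ}
    (hK : ∀ w, ‖adj A w‖ ≤ K * ‖w‖) (x : H → ℝ) : hn2 (act T A hA) x ≤ K ^ 2 * hn2 T x := by
  have key : ∀ f : H → ℂ → ℝ, Fn T f → hn2 (act T A hA) x ≤ K ^ 2 * en T x f := by
    intro f hf
    have hf' : Fn (act T A hA) (fun h z => f h (A.symm z)) := by
      rw [Fn_act]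
      simpa using hf
    refine (hn2_le hf' x).trans ?_
    rw [en_act]
    unfold en
    rw [← mul_div_assoc, Finset.mul_sum]
    refine div_le_div_of_nonneg_right ?_ (by norm_num)
    refine Finset.sum_le_sum fun h _ => ?_
    rw [← integral_const_mul]
    refine integral_mono_of_nonneg (Filter.Eventually.of_forall fun z => by positivity)
      ((hf.intOn h _).const_mul _) (Filter.Eventually.of_forall fun z => ?_)
    simp only [LinearEquiv.symm_apply_apply]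
    rw [← mul_pow]
    exact pow_le_pow_left₀ (norm_nonneg _) (hK _) 2
  rcases eq_or_ne K 0 with rfl | hK0
  · have := key 0 (Fn.zero T)
    simpa using this
  · have hKp : 0 < K ^ 2 := by positivity
    rw [← div_le_iff₀' hKp]
    refine le_of_forall_gt_imp_ge_of_dense fun c hc => ?_
    obtain ⟨f, hf, hfc⟩ := exists_en_lt hc
    rw [div_le_iff₀' hKp]
    exact (key f hf).trans (mul_le_mul_of_nonneg_left hfc.le hKp.le)

omit [Fintype H] in
/-- `lev (lev T s u₀) t w = lev T (s + t) (u₀ + w e^{-2s})`. -/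
theorem lev_lev (T : Tri H) (s u₀ t w : ℝ) :
    lev (lev T s u₀) t w = lev T (s + t) (u₀ + w * Real.exp (-(2 * s))) := by
  unfold lev act
  congr 1
  funext h
  apply Complex.ext
  · simp only [gsu_re, gsu_im]
    have h1 : Real.exp (s + t) = Real.exp s * Real.exp t := Real.exp_add s t
    have h2 : Real.exp (-(2 * s)) = Real.exp (-s) * Real.exp (-s) := by
      rw [← Real.exp_add]; ring_nf
    have h3 : Real.exp s * Real.exp (-s) = 1 := by rw [← Real.exp_add]; simp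
    rw [h1, h2]
    linear_combination (w * Real.exp t * Real.exp (-s) * (T.vec h).im) * h3
  · simp only [gsu_im]
    have h1 : Real.exp (-(s + t)) = Real.exp (-s) * Real.exp (-t) := by
      rw [← Real.exp_add]; ring_nf
    rw [h1]; ring

namespace BE4

theorem norm_adj_diag (t : ℝ) (w : ℂ) : ‖adj (gsu t 0) w‖ ≤ Real.exp |t| * ‖w‖ := by
  have h1 : Real.exp (-t) ≤ Real.exp |t| := Real.exp_le_exp.2 (neg_le_abs t)
  have h2 : Real.exp t ≤ Real.exp |t| := Real.exp_le_exp.2 (le_abs_self t)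
  have hn : ‖adj (gsu t 0) w‖ ^ 2 ≤ (Real.exp |t| * ‖w‖) ^ 2 := by
    rw [adj_gsu, mul_pow, ← Complex.normSq_eq_norm_sq, ← Complex.normSq_eq_norm_sq,
      Complex.normSq_apply, Complex.normSq_apply]
    simp only [zero_mul, add_zero]
    have e1 : Real.exp (-t) ^ 2 ≤ Real.exp |t| ^ 2 :=
      pow_le_pow_left₀ (Real.exp_pos _).le h1 2
    have e2 : Real.exp t ^ 2 ≤ Real.exp |t| ^ 2 := pow_le_pow_left₀ (Real.exp_pos _).le h2 2
    nlinarith [mul_nonneg (sub_nonneg.2 e1) (sq_nonneg w.re),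
      mul_nonneg (sub_nonneg.2 e2) (sq_nonneg w.im)]
  exact le_of_sq_le_sq hn (by positivity)

end BE4

/-- Two levels over the same slope. -/
theorem hn2_lev_up (s t u : ℝ) (ht : 0 ≤ t) (x : H → ℝ) :
    hn2 (lev T (s + t) u) x ≤ Real.exp (2 * t) * hn2 (lev T s u) x := by
  have h := lev_lev T s u t 0
  rw [zero_mul, add_zero] at h
  rw [← h]
  have h2 := hn2_act_le (T := lev T s u) (gsu t 0) (det_gsu t 0) (K := Real.exp |t|)
    (BE4.norm_adj_diag t) x
  rw [abs_of_nonneg ht] at h2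
  have h3 : Real.exp t ^ 2 = Real.exp (2 * t) := by
    rw [← Real.exp_nat_mul]; norm_num
  rw [h3] at h2
  exact h2

theorem hn2_lev_down (s t u : ℝ) (ht : 0 ≤ t) (x : H → ℝ) :
    hn2 (lev T s u) x ≤ Real.exp (2 * t) * hn2 (lev T (s + t) u) x := by
  have h := lev_lev T (s + t) u (-t) 0
  rw [zero_mul, add_zero, add_neg_cancel_right] at h
  rw [← h]
  have h2 := hn2_act_le (T := lev T (s + t) u) (gsu (-t) 0) (det_gsu (-t) 0) (K := Real.exp |(-t)|)
    (BE4.norm_adj_diag (-t)) x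
  rw [abs_neg, abs_of_nonneg ht] at h2
  have h3 : Real.exp t ^ 2 = Real.exp (2 * t) := by
    rw [← Real.exp_nat_mul]; norm_num
  rw [h3] at h2
  exact h2

/-- Two slopes in a cell (the matrix `L_w`, `|w| ≤ 1`, has norm `≤ (1 + √5)/2`). -/
theorem hn2_lev_cell (s u u₀ : ℝ) (hu : |u - u₀| ≤ Real.exp (-(2 * s))) (x : H → ℝ) :
    hn2 (lev T s u) x ≤ 3 * hn2 (lev T s u₀) x := by
  set w : ℝ := (u - u₀) * Real.exp (2 * s) with hw
  have he : Real.exp (2 * s) * Real.exp (-(2 * s)) = 1 := by rw [← Real.exp_add]; simp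
  have hw1 : |w| ≤ 1 := by
    rw [hw, abs_mul, abs_of_pos (Real.exp_pos _), ← he, mul_comm]
    exact mul_le_mul_of_nonneg_left hu (Real.exp_pos _).le
  have h := lev_lev T s u₀ 0 w
  have h' : u₀ + w * Real.exp (-(2 * s)) = u := by
    rw [hw]; linear_combination (u - u₀) * he
  rw [add_zero, h'] at h
  rw [← h]
  have hK : ∀ z : ℂ, ‖adj (gsu 0 w) z‖ ≤ Real.sqrt 3 * ‖z‖ := by
    intro z
    have hn : ‖adj (gsu 0 w) z‖ ^ 2 ≤ (Real.sqrt 3 * ‖z‖) ^ 2 := by
      rw [adj_gsu, mul_pow, Real.sq_sqrt (by norm_num), ← Complex.normSq_eq_norm_sq,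
        ← Complex.normSq_eq_norm_sq, Complex.normSq_apply, Complex.normSq_apply]
      simp only [neg_zero, Real.exp_zero, one_mul]
      have hw2 : w ^ 2 ≤ 1 := by
        rw [← sq_abs]; exact pow_le_one₀ (abs_nonneg _) hw1
      have ha : 2 * (w * z.re) * z.im ≤ (w * z.re) ^ 2 + z.im ^ 2 := two_mul_le_add_sq _ _
      have hb : (w * z.re) ^ 2 ≤ z.re ^ 2 := by
        rw [mul_pow]; nlinarith [sq_nonneg z.re]
      nlinarith [sq_nonneg z.im, sq_nonneg z.re]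
    exact le_of_sq_le_sq hn (by positivity)
  have h2 := hn2_act_le (T := lev T s u₀) (gsu 0 w) (det_gsu 0 w) hK x
  rw [Real.sq_sqrt (by norm_num)] at h2
  exact h2

end

end Pool.Agent.Helper72.TF
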