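import Pool.Agent.Helper72.TF.BE2b

/-! Block TF-BE3, see the header of BE1.lean. -/

set_option autoImplicit false

open MeasureTheory Set Pool.Agent.Helper87.LS Pool.Agent.Helper79.G

namespace Pool.Agent.Helper72.TF

noncomputable section

variable {H : Type} {T : Tri H}

/-! ### TF-BE3: energy and norm -/

variable [Fintype H]

theorem en_nonneg (x : H → ℝ) (f : H → ℂ → ℝ) : 0 ≤ en T x f := by
  unfold en
  apply div_nonneg _ (by norm_num)
  exact Finset.sum_nonneg fun h _ => integral_nonneg fun z => sq_nonneg _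

theorem hn2_nonneg (x : H → ℝ) : 0 ≤ hn2 T x :=
  Real.iInf_nonneg fun f => en_nonneg x f.1

theorem hn2_le {f : H → ℂ → ℝ} (hf : Fn T f) (x : H → ℝ) : hn2 T x ≤ en T x f := by
  unfold hn2
  exact ciInf_le (f := fun f : {f : H → ℂ → ℝ // Fn T f} => en T x f.1)
    ⟨0, by rintro _ ⟨g, rfl⟩; exact en_nonneg x g.1⟩ ⟨f, hf⟩

theorem exists_en_lt {x : H → ℝ} {c : ℝ} (hc : hn2 T x < c) : ∃ f, Fn T f ∧ en T x f < c := by
  have : Nonempty {f : H → ℂ → ℝ // Fn T f} := ⟨⟨0, Fn.zero T⟩⟩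
  obtain ⟨f, hf⟩ := exists_lt_of_ciInf_lt hc
  exact ⟨f.1, f.2, hf⟩

private theorem le_hn2_38 {x : H → ℝ} {c : ℝ} (h : ∀ f, Fn T f → c ≤ en T x f) : c ≤ hn2 T x := by
  have : Nonempty {f : H → ℂ → ℝ // Fn T f} := ⟨⟨0, Fn.zero T⟩⟩
  exact le_ciInf fun f => h f.1 f.2

private theorem grad_add_38 {f g : ℂ → ℝ} {z : ℂ} (hf : DifferentiableAt ℝ f z)
    (hg : DifferentiableAt ℝ g z) : grad (f + g) z = grad f z + grad g z := by
  unfold grad
  rw [fderiv_add hf hg]
  apply Complex.ext <;> simp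

private theorem grad_smul_38 (c : ℝ) (f : ℂ → ℝ) (z : ℂ) : grad (c • f) z = (c : ℂ) * grad f z := by
  unfold grad
  rw [fderiv_const_smul_field]
  apply Complex.ext <;> simp

omit [Fintype H] in
private theorem diff_pl_38 (c : H → ℝ) (h : H) (z : ℂ) : DifferentiableAt ℝ (pl T c h) z := by
  have : pl T c h = fun z => c h + ((omega T (dv T c) h).re * Complex.reCLM z
      + (omega T (dv T c) h).im * Complex.imCLM z) := by
    funext z
    simp [pl, dot]
  rw [this]
  fun_prop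

private theorem en_pl_38 (x c : H → ℝ) {f : H → ℂ → ℝ} (hf : Fn T f) :
    en T x (f + pl T c) = en T (x + dv T c) f := by
  unfold en
  congr 1
  refine Finset.sum_congr rfl fun h _ => ?_
  refine integral_congr_ae ?_
  filter_upwards [hf.ae_diff h] with z hz
  have h1 : (f + pl T c) h = f h + pl T c h := rfl
  rw [h1, grad_add_38 hz (diff_pl_38 c h z), grad_pl, omega_add]
  congr 2
  ring

private theorem hn2_le_add_cob_38 (x : H → ℝ) {y : H → ℝ} (hy : y ∈ Cob T) :
    hn2 T x ≤ hn2 T (x + y) := by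
  obtain ⟨c, hc, rfl⟩ := hy
  refine le_hn2_38 fun f hf => ?_
  rw [← en_pl_38 x c hf]
  exact hn2_le (hf.add (Fn_pl T hc)) x

theorem hn2_add_cob (x : H → ℝ) {y : H → ℝ} (hy : y ∈ Cob T) : hn2 T (x + y) = hn2 T x := by
  refine le_antisymm ?_ (hn2_le_add_cob_38 x hy)
  have h := hn2_le_add_cob_38 (x + y) ((Cob T).neg_mem hy)
  rwa [add_neg_cancel_right] at h

private theorem grad_zero_38 (z : ℂ) : grad (0 : ℂ → ℝ) z = 0 := by
  unfold grad
  apply Complex.ext <;> simp

theorem hn2_cob {y : H → ℝ} (hy : y ∈ Cob T) : hn2 T y = 0 := by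
  have h := hn2_add_cob (0 : H → ℝ) hy
  rw [zero_add] at h
  rw [h]
  refine le_antisymm ?_ (hn2_nonneg _)
  refine (hn2_le (Fn.zero T) 0).trans (le_of_eq ?_)
  unfold en
  have h0 : ∀ h : H, omega T 0 h = 0 := by
    intro h
    simp [omega]
  simp [h0, grad_zero_38]

private theorem en_smul_38 (c : ℝ) (x : H → ℝ) (f : H → ℂ → ℝ) :
    en T (c • x) (c • f) = c ^ 2 * en T x f := by
  unfold en
  rw [← mul_div_assoc, Finset.mul_sum]
  congr 1
  refine Finset.sum_congr rfl fun h _ => ?_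
  rw [← integral_const_mul]
  congr 1
  funext z
  have h1 : (c • f) h = c • f h := rfl
  rw [h1, grad_smul_38, omega_smul, ← mul_add, norm_mul, Complex.norm_real, mul_pow, Real.norm_eq_abs,
    sq_abs]

private theorem hn2_smul_le_38 (c : ℝ) (x : H → ℝ) : hn2 T (c • x) ≤ c ^ 2 * hn2 T x := by
  rcases eq_or_ne c 0 with rfl | hc
  · rw [zero_smul]
    have : hn2 T (0 : H → ℝ) = 0 := hn2_cob (Cob T).zero_mem
    rw [this]
    simp
  · have hc2 : 0 < c ^ 2 := by positivity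
    rw [← div_le_iff₀' hc2]
    refine le_hn2_38 fun f hf => ?_
    rw [div_le_iff₀' hc2, ← en_smul_38]
    exact hn2_le (hf.smul c) _

theorem hn2_smul (c : ℝ) (x : H → ℝ) : hn2 T (c • x) = c ^ 2 * hn2 T x := by
  refine le_antisymm (hn2_smul_le_38 c x) ?_
  rcases eq_or_ne c 0 with rfl | hc
  · have := hn2_nonneg (T := T) ((0 : ℝ) • x)
    simpa using this
  · have hc2 : 0 < c ^ 2 := by positivity
    have h := hn2_smul_le_38 (T := T) c⁻¹ (c • x)
    rw [smul_smul, inv_mul_cancel₀ hc, one_smul, inv_pow] at h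
    rwa [← div_eq_inv_mul, le_div_iff₀' hc2] at h

theorem hn2_neg (x : H → ℝ) : hn2 T (-x) = hn2 T x := by
  have h := hn2_smul (T := T) (-1) x
  rw [neg_one_smul] at h
  rw [h]
  ring

/-- Upper bound by the affine form. -/
theorem hn2_le_pl (x : H → ℝ) : hn2 T x ≤ (∑ h, ar T h / 2 * ‖omega T x h‖ ^ 2) / 3 := by
  refine (hn2_le (Fn.zero T) x).trans (le_of_eq ?_)
  unfold en
  congr 1
  refine Finset.sum_congr rfl fun h _ => ?_
  have h1 : ∀ z : ℂ, ‖omega T x h + grad ((0 : H → ℂ → ℝ) h) z‖ ^ 2 = ‖omega T x h‖ ^ 2 := by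
    intro z
    have : (0 : H → ℂ → ℝ) h = 0 := rfl
    rw [this, grad_zero_38, add_zero]
  simp only [h1]
  rw [setIntegral_const, measureReal_def, volume_Op, ENNReal.toReal_ofReal, smul_eq_mul]
  have := ar_pos T h
  positivity

end

end Pool.Agent.Helper72.TF
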