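import Pool.Agent.Helper72.TF.BI0

/-!
# MP_e98778_an (full), BASE, block TF-BI2 (proof by helper6)

`linIso_of_rel`. `ψ (pt S h z) = pt Y (σ h) (A z)` for `z ∈ Op (ofSurf S) h`, well defined: for `x ∈ tri (S.P i)`
take `h = (i, 0)`, `z = x - S.P i 0`; the other two darts of the triangle give the same point, because
`σ (i, k + 1) = next (σ (i, k))` and `Y.vec (σ h) = A (S.vec h)`. Outside `S.D` put anything (identity).
`ell` is transported: `Y.ell (σ h) (ψ x) = S.ell h x` on the triangle (`det A = 1`, `cr_map`), so `ψ` maps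
`tri (S.P i)` onto `tri (Y.P j)`, `j = (σ (i, 0)).1`; `i ↦ j` is a bijection (three darts per triangle).
Measure preserving: `μ` is the sum of the Lebesgue measures on the disjoint triangles and `ψ` is affine with
determinant one on each of them. The inverse is the map for `σ.symm`, `A.symm` (`Rel.symm`).
Equivariance: every `S.Hop w x y` is carried to `Y.Hop (A w) (ψ x) (ψ y)` (same triangle: clear; across the
edge `(i, k)`: across `σ (i, k)`, `glue` is transported by `Rel`, the parameter `s` is the same,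
`Surf.mem_openSegment_iff` of Geo.lean), hence `S.Straight` to `Y.Straight` by induction, and `ae_straight`
(AeS.lean) + `F_eq` (Str.lean) give the claim for a.e. `x` (or use `sim`).
-/

set_option autoImplicit false

open MeasureTheory Set Pool.Agent.Helper87.LS Pool.Agent.Helper79.G

namespace Pool.Agent.Helper72.TF

noncomputable section

/-! ### Piecewise affine maps of surfaces -/

open Classical in
/-- The map which is `f i` on the triangle `i` and the identity outside the triangles. -/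
def pw6 (S : Surf) (f : Fin S.n → ℂ → ℂ) (z : ℂ) : ℂ :=
  if h : ∃ i, z ∈ tri (S.P i) then f h.choose z else z

theorem pw6_eq (S : Surf) (f : Fin S.n → ℂ → ℂ) {i : Fin S.n} {z : ℂ} (hz : z ∈ tri (S.P i)) :
    pw6 S f z = f i z := by
  have h : ∃ i, z ∈ tri (S.P i) := ⟨i, hz⟩
  unfold pw6
  rw [dif_pos h, Surf.tri_unique h.choose_spec hz]

theorem pw6_eq_self (S : Surf) (f : Fin S.n → ℂ → ℂ) {z : ℂ} (hz : z ∉ S.D) :
    pw6 S f z = z := by
  unfold pw6
  rw [dif_neg]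
  rintro ⟨i, hi⟩
  exact hz (mem_iUnion.2 ⟨i, hi⟩)

theorem pw6_preimage (S : Surf) (f : Fin S.n → ℂ → ℂ) (B : Set ℂ) :
    pw6 S f ⁻¹' B = (⋃ i, (tri (S.P i) ∩ f i ⁻¹' B)) ∪ (S.Dᶜ ∩ B) := by
  ext z
  by_cases hz : z ∈ S.D
  · obtain ⟨i, hi⟩ := mem_iUnion.1 hz
    rw [mem_preimage, pw6_eq S f hi]
    constructor
    · intro h
      exact Or.inl (mem_iUnion.2 ⟨i, hi, h⟩)
    · rintro (h | h)
      · obtain ⟨j, hj, h'⟩ := mem_iUnion.1 h
        rw [Surf.tri_unique hi hj]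
        exact h'
      · exact absurd hz h.1
  · rw [mem_preimage, pw6_eq_self S f hz]
    constructor
    · intro h
      exact Or.inr ⟨hz, h⟩
    · rintro (h | h)
      · obtain ⟨j, hj, -⟩ := mem_iUnion.1 h
        exact absurd (mem_iUnion.2 ⟨j, hj⟩) hz
      · exact h.2

theorem measurable_pw6 (S : Surf) (f : Fin S.n → ℂ → ℂ) (hf : ∀ i, Measurable (f i)) :
    Measurable (pw6 S f) := by
  intro B hB
  rw [pw6_preimage]
  exact (MeasurableSet.iUnion fun i => (S.isOpen_tri i).measurableSet.inter (hf i hB)).union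
    (S.measurableSet_D.compl.inter hB)

theorem mu_eq_sum6 (S : Surf) {B : Set ℂ} (hB : MeasurableSet B) :
    S.μ B = ∑ i, volume (tri (S.P i) ∩ B) := by
  have h1 : S.μ B = volume (B ∩ S.D) := Measure.restrict_apply' S.measurableSet_D
  have h2 : B ∩ S.D = ⋃ i, (tri (S.P i) ∩ B) := by
    ext z
    simp only [Surf.D, mem_inter_iff, mem_iUnion]
    tauto
  rw [h1, h2, measure_iUnion]
  · exact tsum_fintype _
  · intro i j hij
    exact (S.disj i j hij).mono inter_subset_left inter_subset_left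
  · intro i
    exact (S.isOpen_tri i).measurableSet.inter hB

/-- A map which is on each open triangle of `S` an affine map of determinant one onto an open triangle
of `Y`, bijectively on triangles, is measure preserving. -/
theorem measurePreserving_of_affine (S Y : Surf) (τ : Fin S.n → Fin Y.n)
    (hτ : Function.Bijective τ) (A : Fin S.n → ℂ ≃ₗ[ℝ] ℂ)
    (hA : ∀ i, LinearMap.det (A i : ℂ →ₗ[ℝ] ℂ) = 1) (c : Fin S.n → ℂ)
    (hm : ∀ i z, A i z + c i ∈ tri (Y.P (τ i)) ↔ z ∈ tri (S.P i)) {ψ : ℂ → ℂ}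
    (hψm : Measurable ψ) (hψ : ∀ i, ∀ z ∈ tri (S.P i), ψ z = A i z + c i) :
    MeasurePreserving ψ S.μ Y.μ := by
  refine ⟨hψm, ?_⟩
  ext B hB
  rw [Measure.map_apply hψm hB, mu_eq_sum6 S (hψm hB), mu_eq_sum6 Y hB]
  refine Fintype.sum_bijective τ hτ _ _ fun i => ?_
  have h1 : tri (S.P i) ∩ ψ ⁻¹' B =
      (A i : ℂ →ₗ[ℝ] ℂ) ⁻¹' ((fun z => z + c i) ⁻¹' (tri (Y.P (τ i)) ∩ B)) := by
    ext z
    simp only [mem_inter_iff, mem_preimage, LinearEquiv.coe_coe]
    constructor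
    · rintro ⟨h1, h2⟩
      rw [hψ i z h1] at h2
      exact ⟨(hm i z).2 h1, h2⟩
    · rintro ⟨h1, h2⟩
      have h3 := (hm i z).1 h1
      rw [hψ i z h3]
      exact ⟨h3, h2⟩
  rw [h1, Measure.addHaar_preimage_linearMap volume (by rw [hA i]; exact one_ne_zero), hA i,
    measure_preimage_add_right]
  simp

/-! ### The data of a relabelling -/

/-- Relabelling of the darts of `S` by those of `Y`, the vectors being transformed by `A`. -/
structure Dat6 (S Y : Surf) (A : ℂ ≃ₗ[ℝ] ℂ) (σ : (Fin S.n × Fin 3) ≃ (Fin Y.n × Fin 3)) :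
    Prop where
  nx : ∀ i k, σ (i, k + 1) = ((σ (i, k)).1, (σ (i, k)).2 + 1)
  gl : ∀ e, σ (S.glue e) = Y.glue (σ e)
  vc : ∀ e, Y.vec (σ e) = A (S.vec e)

section
variable {S Y : Surf} {A : ℂ ≃ₗ[ℝ] ℂ} {σ : (Fin S.n × Fin 3) ≃ (Fin Y.n × Fin 3)}

theorem Dat6.symm (h : Dat6 S Y A σ) : Dat6 Y S A.symm σ.symm where
  nx j l := by
    rw [Equiv.symm_apply_eq, h.nx]
    simp only [Prod.mk.eta, Equiv.apply_symm_apply]
  gl e := by
    rw [Equiv.symm_apply_eq, h.gl, Equiv.apply_symm_apply]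
  vc e := by
    have := h.vc (σ.symm e)
    rw [Equiv.apply_symm_apply] at this
    rw [this, LinearEquiv.symm_apply_apply]

theorem Dat6.fst (h : Dat6 S Y A σ) (i : Fin S.n) (k : Fin 3) : (σ (i, k)).1 = (σ (i, 0)).1 := by
  have h1 := h.nx i 0
  have h2 := h.nx i 1
  have e1 : (0 : Fin 3) + 1 = 1 := rfl
  have e2 : (1 : Fin 3) + 1 = 2 := rfl
  rw [e1] at h1
  rw [e2] at h2
  fin_cases k
  · rfl
  · show (σ (i, 1)).1 = _
    rw [h1]
  · show (σ (i, 2)).1 = _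
    rw [h2, h1]

theorem Dat6.snd (h : Dat6 S Y A σ) (i : Fin S.n) (k : Fin 3) :
    (σ (i, k)).2 = (σ (i, 0)).2 + k := by
  have h1 := h.nx i 0
  have h2 := h.nx i 1
  have e1 : (0 : Fin 3) + 1 = 1 := rfl
  have e2 : (1 : Fin 3) + 1 = 2 := rfl
  rw [e1] at h1
  rw [e2] at h2
  fin_cases k
  · show (σ (i, 0)).2 = (σ (i, 0)).2 + 0
    rw [add_zero]
  · show (σ (i, 1)).2 = _
    rw [h1]
    rfl
  · show (σ (i, 2)).2 = _
    rw [h2, h1]
    show (σ (i, 0)).2 + 1 + 1 = (σ (i, 0)).2 + 2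
    rw [add_assoc, e2]

/-- The translation part on the triangle `i`. -/
def cc6 (S Y : Surf) (A : ℂ ≃ₗ[ℝ] ℂ) (σ : (Fin S.n × Fin 3) ≃ (Fin Y.n × Fin 3))
    (i : Fin S.n) : ℂ := Y.P (σ (i, 0)).1 (σ (i, 0)).2 - A (S.P i 0)

theorem Dat6.step (h : Dat6 S Y A σ) (i : Fin S.n) (k : Fin 3) :
    Y.P (σ (i, k + 1)).1 (σ (i, k + 1)).2 - A (S.P i (k + 1)) =
      Y.P (σ (i, k)).1 (σ (i, k)).2 - A (S.P i k) := by
  have h1 := h.vc (i, k)
  rw [h.nx]
  simp only [Surf.vec, map_sub] at h1 ⊢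
  linear_combination h1

theorem Dat6.P_eq (h : Dat6 S Y A σ) (i : Fin S.n) (k : Fin 3) :
    Y.P (σ (i, k)).1 (σ (i, k)).2 = A (S.P i k) + cc6 S Y A σ i := by
  have h1 := h.step i 0
  have h2 := h.step i 1
  have e1 : (0 : Fin 3) + 1 = 1 := rfl
  have e2 : (1 : Fin 3) + 1 = 2 := rfl
  rw [e1] at h1
  rw [e2] at h2
  unfold cc6
  fin_cases k
  · show Y.P (σ (i, 0)).1 (σ (i, 0)).2 = A (S.P i 0) + _
    ring
  · show Y.P (σ (i, 1)).1 (σ (i, 1)).2 = A (S.P i 1) + _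
    linear_combination h1
  · show Y.P (σ (i, 2)).1 (σ (i, 2)).2 = A (S.P i 2) + _
    linear_combination h1 + h2

theorem Dat6.ell_eq (h : Dat6 S Y A σ) (hA : LinearMap.det (A : ℂ →ₗ[ℝ] ℂ) = 1) (i : Fin S.n)
    (k : Fin 3) (z : ℂ) : Y.ell (σ (i, k)) (A z + cc6 S Y A σ i) = S.ell (i, k) z := by
  have e : A z + cc6 S Y A σ i - (A (S.P i k) + cc6 S Y A σ i) = A (z - S.P i k) := by
    rw [map_sub]; ring
  unfold Surf.ell
  rw [h.vc, h.P_eq, e, cr_map, hA, one_mul]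

theorem Dat6.mem_iff (h : Dat6 S Y A σ) (hA : LinearMap.det (A : ℂ →ₗ[ℝ] ℂ) = 1) (i : Fin S.n)
    (z : ℂ) : A z + cc6 S Y A σ i ∈ tri (Y.P (σ (i, 0)).1) ↔ z ∈ tri (S.P i) := by
  rw [Y.mem_tri, S.mem_tri]
  constructor
  · intro h1 k
    have h2 := h1 (σ (i, k)).2
    rw [← h.fst i k, Prod.mk.eta, h.ell_eq hA] at h2
    exact h2
  · intro h1 l
    have h2 := h1 (l - (σ (i, 0)).2)
    rw [← h.ell_eq hA] at h2
    have e : σ (i, l - (σ (i, 0)).2) = ((σ (i, 0)).1, l) := by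
      apply Prod.ext
      · exact h.fst i _
      · rw [h.snd]
        simp
    rw [e] at h2
    exact h2

theorem Dat6.inv_fst (h : Dat6 S Y A σ) (i : Fin S.n) :
    (σ.symm ((σ (i, 0)).1, 0)).1 = i := by
  have h1 := h.symm.fst (σ (i, 0)).1 (σ (i, 0)).2
  rw [Prod.mk.eta, Equiv.symm_apply_apply] at h1
  exact h1.symm

theorem Dat6.inv_cc (h : Dat6 S Y A σ) (i : Fin S.n) :
    cc6 Y S A.symm σ.symm (σ (i, 0)).1 = -A.symm (cc6 S Y A σ i) := by
  have h1 := h.symm.P_eq (σ (i, 0)).1 (σ (i, 0)).2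
  rw [Prod.mk.eta, Equiv.symm_apply_apply, h.P_eq i 0, map_add, LinearEquiv.symm_apply_apply] at h1
  linear_combination -h1

theorem Dat6.bij (h : Dat6 S Y A σ) : Function.Bijective fun i : Fin S.n => (σ (i, 0)).1 := by
  refine Function.bijective_iff_has_inverse.2 ⟨fun j => (σ.symm (j, 0)).1, fun i => h.inv_fst i,
    fun j => ?_⟩
  exact h.symm.inv_fst j

/-- The piecewise affine map. -/
def ps6 (S Y : Surf) (A : ℂ ≃ₗ[ℝ] ℂ) (σ : (Fin S.n × Fin 3) ≃ (Fin Y.n × Fin 3)) : ℂ → ℂ :=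
  pw6 S fun i z => A z + cc6 S Y A σ i

theorem ps6_eq {i : Fin S.n} {z : ℂ} (hz : z ∈ tri (S.P i)) :
    ps6 S Y A σ z = A z + cc6 S Y A σ i := pw6_eq S _ hz

theorem measurable_ps6 : Measurable (ps6 S Y A σ) := by
  refine measurable_pw6 S _ fun i => Measurable.add_const ?_ _
  exact (LinearMap.continuous_of_finiteDimensional (A : ℂ →ₗ[ℝ] ℂ)).measurable

theorem Dat6.mp (h : Dat6 S Y A σ) (hA : LinearMap.det (A : ℂ →ₗ[ℝ] ℂ) = 1) :
    MeasurePreserving (ps6 S Y A σ) S.μ Y.μ :=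
  measurePreserving_of_affine S Y (fun i => (σ (i, 0)).1) h.bij (fun _ => A) (fun _ => hA)
    (cc6 S Y A σ) (fun i z => h.mem_iff hA i z) measurable_ps6 fun _ _ hz => ps6_eq hz

theorem Dat6.ps_mem (h : Dat6 S Y A σ) (hA : LinearMap.det (A : ℂ →ₗ[ℝ] ℂ) = 1) {i : Fin S.n}
    {z : ℂ} (hz : z ∈ tri (S.P i)) : ps6 S Y A σ z ∈ tri (Y.P (σ (i, 0)).1) := by
  rw [ps6_eq hz]
  exact (h.mem_iff hA i z).2 hz

theorem Dat6.left_inv (h : Dat6 S Y A σ) (hA : LinearMap.det (A : ℂ →ₗ[ℝ] ℂ) = 1) {z : ℂ}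
    (hz : z ∈ S.D) : ps6 Y S A.symm σ.symm (ps6 S Y A σ z) = z := by
  obtain ⟨i, hi⟩ := mem_iUnion.1 hz
  rw [ps6_eq (h.ps_mem hA hi), ps6_eq hi, h.inv_cc, map_add, LinearEquiv.symm_apply_apply]
  ring

theorem Dat6.hop (h : Dat6 S Y A σ) (hA : LinearMap.det (A : ℂ →ₗ[ℝ] ℂ) = 1) {w x y : ℂ}
    (hxy : S.Hop w x y) : Y.Hop (A w) (ps6 S Y A σ x) (ps6 S Y A σ y) := by
  obtain ⟨i, hx, ⟨hy, hyx⟩ | ⟨k, hy, hyx, s, hs, hseg⟩⟩ := hxy
  · refine ⟨(σ (i, 0)).1, h.ps_mem hA hx, Or.inl ⟨h.ps_mem hA hy, ?_⟩⟩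
    rw [ps6_eq hx, ps6_eq hy, hyx, map_add]
    ring
  · have e0 : ((σ (i, 0)).1, (σ (i, k)).2) = σ (i, k) := by rw [← h.fst i k]
    have e1 : (Y.glue ((σ (i, 0)).1, (σ (i, k)).2)).1 = (σ ((S.glue (i, k)).1, 0)).1 := by
      rw [e0, ← h.gl, ← h.fst _ (S.glue (i, k)).2]
    refine ⟨(σ (i, 0)).1, h.ps_mem hA hx, Or.inr ⟨(σ (i, k)).2, ?_, ?_, s, hs, ?_⟩⟩
    · rw [e1]
      exact h.ps_mem hA hy
    · have h1 := h.P_eq (S.glue (i, k)).1 (S.glue (i, k)).2
      have h2 := h.P_eq i (k + 1)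
      rw [Prod.mk.eta, h.gl] at h1
      rw [h.nx] at h2
      rw [e0, ps6_eq hx, ps6_eq hy, hyx]
      simp only [Surf.shift, map_add, map_sub] at h1 h2 ⊢
      rw [h1, h2]
      ring
    · obtain ⟨a, b, ha, hb, hab, hz⟩ := hseg
      have h1 := h.P_eq i k
      have h2 := h.P_eq i (k + 1)
      rw [h.nx] at h2
      simp only at h2
      rw [← h.fst i k]
      refine ⟨a, b, ha, hb, hab, ?_⟩
      rw [h1, h2, ps6_eq hx]
      have h3 := congrArg A hz
      rw [map_add, map_add, map_smul, map_smul] at h3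
      have h4 : A ((s : ℂ) * w) = (s : ℂ) * A w := by
        have := map_smul A s w
        rw [Complex.real_smul, Complex.real_smul] at this
        exact this
      rw [h4] at h3
      have hab' : (a : ℂ) + b = 1 := by exact_mod_cast congrArg (fun r : ℝ => (r : ℂ)) hab
      simp only [Complex.real_smul] at h3 ⊢
      linear_combination h3 + cc6 S Y A σ i * hab'

theorem Dat6.straight (h : Dat6 S Y A σ) (hA : LinearMap.det (A : ℂ →ₗ[ℝ] ℂ) = 1) {w x y : ℂ}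
    (hxy : S.Straight w x y) : Y.Straight (A w) (ps6 S Y A σ x) (ps6 S Y A σ y) := by
  have hmul : ∀ (r : ℝ) (v : ℂ), A ((r : ℂ) * v) = (r : ℂ) * A v := by
    intro r v
    have := map_smul A r v
    rw [Complex.real_smul, Complex.real_smul] at this
    exact this
  induction hxy with
  | hop h1 => exact Surf.Straight.hop (h.hop hA h1)
  | @trans r v x y z h0 h1 _ _ ih1 ih2 =>
    rw [hmul] at ih1 ih2
    exact Surf.Straight.trans h0 h1 ih1 ih2

end

/-! ### TF-BI2 -/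

theorem linIso_of_rel (S Y : Surf) (A : ℂ ≃ₗ[ℝ] ℂ) (hA : LinearMap.det (A : ℂ →ₗ[ℝ] ℂ) = 1)
    (σ : (Fin S.n × Fin 3) ≃ (Fin Y.n × Fin 3)) (h : Rel (act (ofSurf S) A hA) (ofSurf Y) σ) :
    LinIso S Y A := by
  have hd : Dat6 S Y A σ := ⟨fun i k => h.next (i, k), fun e => h.opp e, fun e => h.vec e⟩
  have hA' : LinearMap.det (A.symm : ℂ →ₗ[ℝ] ℂ) = 1 := by
    have h1 := LinearEquiv.det_mul_det_symm A
    rw [hA, one_mul] at h1
    exact h1
  refine ⟨ps6 S Y A σ, ps6 Y S A.symm σ.symm, hd.mp hA, hd.symm.mp hA', ?_, ?_, fun v => ?_⟩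
  · filter_upwards [ae_restrict_mem S.measurableSet_D] with x hx
    exact hd.left_inv hA hx
  · filter_upwards [ae_restrict_mem Y.measurableSet_D] with x hx
    have := hd.symm.left_inv hA' hx
    rw [LinearEquiv.symm_symm, Equiv.symm_symm] at this
    exact this
  · filter_upwards [S.ae_straight v] with x hx
    exact (Surf.F_eq (hd.straight hA hx)).symm

end

end Pool.Agent.Helper72.TF
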