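import Pool.Agent.Helper72.TF.BI3d

/-!
# MP_e98778_an (full), BASE, block TF-BI3 (helper87)

`linIso_flip`: a flip does not change the motions. See BI3a (criterion), BI3b (plane geometry), BI3c
(the map `psi`), BI3d (hops inside a triangle).
-/

set_option autoImplicit false

open MeasureTheory Set Filter Topology Pool.Agent.Helper87.LS Pool.Agent.Helper79.G

namespace Pool.Agent.Helper72.TF

namespace FL87

noncomputable section

variable {S Y : Surf} {e : Fin S.n × Fin 3} {he : (ofSurf S).Flippable e}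
  {σ : (Fin S.n × Fin 3) ≃ (Fin Y.n × Fin 3)}

/-- The glued edge. -/
theorem edge_glue (S : Surf) (g : Fin S.n × Fin 3) {q : ℂ}
    (hq : q ∈ openSegment ℝ (S.P g.1 g.2) (S.P g.1 (g.2 + 1))) :
    q + S.shift g ∈ openSegment ℝ (S.P (S.glue g).1 (S.glue g).2)
      (S.P (S.glue g).1 ((S.glue g).2 + 1)) := by
  obtain ⟨a, b, ha, hb, hab, rfl⟩ := hq
  refine ⟨b, a, hb, ha, by linarith, ?_⟩
  have h1 := S.opp g
  have hab' : (a : ℂ) + b = 1 := by exact_mod_cast hab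
  simp only [Surf.shift, Complex.real_smul]
  linear_combination (a : ℂ) * h1 + (S.P (S.glue g).1 (S.glue g).2 - S.P g.1 (g.2 + 1)) * hab'

section rel

variable (h : Rel ((ofSurf S).flip e he) (ofSurf Y) σ)

include h

/-- The edges different from `e`, `opp e` are translated. -/
theorem edge_tr {g : Fin S.n × Fin 3} (h1 : g ≠ e) (h2 : g ≠ (ofSurf S).opp e) {q : ℂ}
    (hq : q ∈ openSegment ℝ (S.P g.1 g.2) (S.P g.1 (g.2 + 1))) :
    q + tr σ g ∈ openSegment ℝ (Y.P (σ g).1 (σ g).2) (Y.P (σ g).1 ((σ g).2 + 1)) := by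
  obtain ⟨a, b, ha, hb, hab, rfl⟩ := hq
  refine ⟨a, b, ha, hb, hab, ?_⟩
  have e1 : Y.P (σ g).1 ((σ g).2 + 1) = Y.P (σ g).1 (σ g).2 + S.vec g := by
    rw [← rel_vec_ne h h1 h2]
    change _ = Y.P (σ g).1 (σ g).2 + (Y.P (σ g).1 ((σ g).2 + 1) - Y.P (σ g).1 (σ g).2)
    ring
  have e2 : S.P g.1 (g.2 + 1) = S.P g.1 g.2 + S.vec g := by
    change _ = S.P g.1 g.2 + (S.P g.1 (g.2 + 1) - S.P g.1 g.2)
    ring
  have hab' : (a : ℂ) + b = 1 := by exact_mod_cast hab
  rw [e1, e2]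
  simp only [tr, sp, Complex.real_smul]
  linear_combination (Y.P (σ g).1 (σ g).2 - S.P g.1 g.2) * hab'

/-- Approach of a point of an edge. -/
theorem approach {g : Fin S.n × Fin 3} (h1 : g ≠ e) (h2 : g ≠ (ofSurf S).opp e) {x u : ℂ}
    (hx : x ∈ tri (S.P g.1)) (gx : x ∈ GG e σ)
    (hq : x + u ∈ openSegment ℝ (S.P g.1 g.2) (S.P g.1 (g.2 + 1))) :
    ∃ η : ℝ, 0 < η ∧ η < 1 ∧ Val e σ g (x + ((1 - η : ℝ) : ℂ) * u) ∧
      Y.Straight (((1 - η : ℝ) : ℂ) * u) (psi e σ x) (psi e σ (x + ((1 - η : ℝ) : ℂ) * u)) := by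
  have hq' := edge_tr h h1 h2 hq
  rw [mem_edge_dart] at hq hq'
  rw [mem_tri_dart] at hx
  have hcont : ∀ l : Fin Y.n × Fin 3, 0 < Y.ell l (x + u + tr σ g) →
      ∀ᶠ η : ℝ in 𝓝[>] 0, 0 < Y.ell l (x + ((1 - η : ℝ) : ℂ) * u + tr σ g) := by
    intro l hl
    have hc : Continuous fun η : ℝ => Y.ell l (x + ((1 - η : ℝ) : ℂ) * u + tr σ g) := by
      refine (Y.continuous_ell l).comp ?_
      fun_prop
    have ht := (hc.tendsto 0).mono_left (nhdsWithin_le_nhds (s := Ioi 0))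
    have h0 : Y.ell l (x + ((1 - (0 : ℝ) : ℝ) : ℂ) * u + tr σ g) = Y.ell l (x + u + tr σ g) := by
      simp
    rw [h0] at ht
    exact ht.eventually (lt_mem_nhds hl)
  obtain ⟨η, ⟨hη1, hη2⟩, hη3, hη4⟩ := ((hcont _ hq'.2.1).and ((hcont _ hq'.2.2).and
    (Ioo_mem_nhdsGT (one_pos : (0 : ℝ) < 1)))).exists.imp (fun η hη =>
      (⟨⟨hη.1, hη.2.1⟩, hη.2.2.1, hη.2.2.2⟩ : (_ ∧ _) ∧ _ ∧ _))
  have hell : ∀ l : Fin S.n × Fin 3, S.ell l (x + ((1 - η : ℝ) : ℂ) * u) =
      η * S.ell l x + (1 - η) * S.ell l (x + u) := by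
    intro l
    rw [S.ell_add_mul, S.ell_add]; ring
  have hpos : ∀ l : Fin S.n × Fin 3, 0 < S.ell l x → 0 ≤ S.ell l (x + u) →
      0 < S.ell l (x + ((1 - η : ℝ) : ℂ) * u) := by
    intro l k1 k2
    rw [hell]
    have := mul_pos hη3 k1
    have := mul_nonneg (by linarith : (0 : ℝ) ≤ 1 - η) k2
    linarith
  have hmem : x + ((1 - η : ℝ) : ℂ) * u ∈ tri (S.P g.1) := by
    rw [mem_tri_dart]
    exact ⟨hpos _ hx.1 hq.1.ge, hpos _ hx.2.1 hq.2.1.le, hpos _ hx.2.2 hq.2.2.le⟩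
  have hval : Val e σ g (x + ((1 - η : ℝ) : ℂ) * u) := by
    refine ⟨h1, h2, hmem, ?_⟩
    rw [mem_tri_dart]
    refine ⟨?_, hη1, hη2⟩
    rw [ell_tr h h1 h2]
    exact ((mem_tri_dart S g _).1 hmem).1
  refine ⟨η, hη3, hη4, hval, Surf.Straight.hop ?_⟩
  exact hop_same h ((mem_tri_dart S g x).2 hx) hmem gx ⟨g, hval⟩

theorem straight_cross {g : Fin S.n × Fin 3} (h1 : g ≠ e) (h2 : g ≠ (ofSurf S).opp e)
    {w x y : ℂ} {s : ℝ} (hx : x ∈ tri (S.P g.1)) (hy : y ∈ tri (S.P (S.glue g).1))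
    (gx : x ∈ GG e σ) (gy : y ∈ GG e σ) (hxy : y = x + w + S.shift g) (hs0 : 0 < s) (hs1 : s < 1)
    (hs : x + (s : ℂ) * w ∈ openSegment ℝ (S.P g.1 g.2) (S.P g.1 (g.2 + 1))) :
    Y.Straight w (psi e σ x) (psi e σ y) := by
  have h1' : S.glue g ≠ e := by
    intro hg
    apply h2
    have := S.invol g
    rw [hg] at this
    exact this.symm
  have h2' : S.glue g ≠ (ofSurf S).opp e := by
    intro hg
    apply h1
    have h3 := S.invol g
    rw [hg] at h3
    have h4 := (ofSurf S).opp2 e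
    exact h3.symm.trans h4
  obtain ⟨η, hη0, hη1, hv, hst⟩ := approach h h1 h2 hx gx hs
  have hs' : y + -(((1 - s : ℝ) : ℂ) * w) ∈ openSegment ℝ (S.P (S.glue g).1 (S.glue g).2)
      (S.P (S.glue g).1 ((S.glue g).2 + 1)) := by
    have := edge_glue S g hs
    have e1 : x + (s : ℂ) * w + S.shift g = y + -(((1 - s : ℝ) : ℂ) * w) := by
      rw [hxy]; push_cast; ring
    rwa [e1] at this
  obtain ⟨ζ, hζ0, hζ1, hv', hst'⟩ := approach h h1' h2' hy gy hs'
  set x1 := x + ((1 - η : ℝ) : ℂ) * ((s : ℂ) * w) with hx1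
  set y1 := y + ((1 - ζ : ℝ) : ℂ) * -(((1 - s : ℝ) : ℂ) * w) with hy1
  have hst1 : Y.Straight ((((1 - η) * s : ℝ) : ℂ) * w) (psi e σ x) (psi e σ x1) := by
    have e1 : ((1 - η : ℝ) : ℂ) * ((s : ℂ) * w) = (((1 - η) * s : ℝ) : ℂ) * w := by
      push_cast; ring
    rwa [e1] at hst
  have hst2 : Y.Straight ((((1 - ζ) * (1 - s) : ℝ) : ℂ) * w) (psi e σ y1) (psi e σ y) := by
    have := Surf.straight_symm hst'
    have e1 : -(((1 - ζ : ℝ) : ℂ) * -(((1 - s : ℝ) : ℂ) * w)) = (((1 - ζ) * (1 - s) : ℝ) : ℂ) * w := by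
      push_cast; ring
    rwa [e1] at this
  have hmid0 : 0 < η * s + ζ * (1 - s) := by
    have := mul_pos hη0 hs0
    have := mul_pos hζ0 (by linarith : (0 : ℝ) < 1 - s)
    linarith
  have hmid : Y.Hop (((η * s + ζ * (1 - s) : ℝ) : ℂ) * w) (psi e σ x1) (psi e σ y1) := by
    rw [psi_Val h hv, psi_Val h hv']
    refine hop_cross Y (σ g) (s := η * s / (η * s + ζ * (1 - s))) hv.2.2.2 ?_ ?_ ?_ ?_ ?_
    · rw [rel_opp h]; exact hv'.2.2.2
    · rw [shift_sp, rel_opp h, rel_vec_ne h h1 h2]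
      have e1 : S.shift g = sp S (S.glue g) - (sp S g + S.vec g) := shift_sp S g
      rw [e1] at hxy
      rw [hx1, hy1, hxy]
      unfold tr
      push_cast
      ring
    · have := mul_pos hη0 hs0
      positivity
    · rw [div_lt_one hmid0]
      have := mul_pos hζ0 (by linarith : (0 : ℝ) < 1 - s)
      linarith
    · have e1 : x1 + tr σ g + ((η * s / (η * s + ζ * (1 - s)) : ℝ) : ℂ) *
          (((η * s + ζ * (1 - s) : ℝ) : ℂ) * w) = x + (s : ℂ) * w + tr σ g := by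
        have hne : ((η * s + ζ * (1 - s) : ℝ) : ℂ) ≠ 0 := by exact_mod_cast hmid0.ne'
        have e2 : ((η * s / (η * s + ζ * (1 - s)) : ℝ) : ℂ) * (((η * s + ζ * (1 - s) : ℝ) : ℂ) * w) =
            ((η * s : ℝ) : ℂ) * w := by
          rw [Complex.ofReal_div]; field_simp
        rw [e2, hx1]; push_cast; ring
      rw [e1]
      exact edge_tr h h1 h2 hs
  have k1 := Surf.straight_comp (mul_pos (by linarith : (0 : ℝ) < 1 - η) hs0) hmid0 hst1
    (Surf.Straight.hop hmid)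
  have k2 := Surf.straight_comp (by
      have := mul_pos (by linarith : (0 : ℝ) < 1 - η) hs0
      linarith) (mul_pos (by linarith : (0 : ℝ) < 1 - ζ) (by linarith : (0 : ℝ) < 1 - s)) k1 hst2
  have e1 : (((1 - η) * s + (η * s + ζ * (1 - s)) + (1 - ζ) * (1 - s) : ℝ) : ℂ) * w = w := by
    push_cast; ring
  rwa [e1] at k2

theorem hop_straight {w x y : ℂ} (gx : x ∈ GG e σ) (gy : y ∈ GG e σ) (hxy : S.Hop w x y) :
    Y.Straight w (psi e σ x) (psi e σ y) := by
  obtain ⟨i, hx, ⟨hy, rfl⟩ | ⟨k, hy, hyx, s, ⟨hs0, hs1⟩, hs⟩⟩ := hxy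
  · exact Surf.Straight.hop (hop_same h hx hy gx gy)
  by_cases h1 : (i, k) = e
  · subst h1
    obtain ⟨z, rfl⟩ : ∃ z, x = z + sp S (i, k) := ⟨x - sp S (i, k), by ring⟩
    have e1 : y = z + w + sp S ((ofSurf S).next ((ofSurf S).opp (i, k))) := by
      rw [hyx, shift_sp, sp_next]
      have hv : S.vec ((ofSurf S).opp (i, k)) = - S.vec (i, k) := (ofSurf S).vec_opp (i, k)
      rw [hv]
      change _ + (sp S ((ofSurf S).opp (i, k)) - _) = _
      ring
    rw [e1] at hy gy ⊢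
    rw [psi_S1 h hx, psi_S2 h hy]
    exact Surf.Straight.hop (hop_quad h ((memS1 he z).1 hx).1 ((memS2 he (z + w)).1 hy).1
      ((GG_S1 h hx).1 gx) ((GG_S2 h hy).1 gy))
  by_cases h2 : (i, k) = (ofSurf S).opp e
  · have hx' : x ∈ tri (S.P ((ofSurf S).opp e).1) := by rw [← h2]; exact hx
    have hg : S.glue (i, k) = e := by rw [h2]; exact (ofSurf S).opp2 e
    rw [hg] at hy
    obtain ⟨z, rfl⟩ : ∃ z, x = z + sp S ((ofSurf S).next ((ofSurf S).opp e)) :=
      ⟨x - sp S ((ofSurf S).next ((ofSurf S).opp e)), by ring⟩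
    have e1 : y = z + w + sp S e := by
      rw [hyx, shift_sp, hg, h2, sp_next]
      ring
    rw [e1] at hy gy ⊢
    rw [psi_S2 h hx', psi_S1 h hy]
    exact Surf.Straight.hop (hop_quad h ((memS2 he z).1 hx').1 ((memS1 he (z + w)).1 hy).1
      ((GG_S2 h hx').1 gx) ((GG_S1 h hy).1 gy))
  exact straight_cross h h1 h2 hx hy gx gy hyx hs0 hs1 hs

theorem fstY_ne : (σ ((ofSurf S).opp e)).1 ≠ (σ e).1 := by
  intro hf
  have hs := (ofSurf S).six e
  have e1 : (ofSurf Y).next (σ e) = σ ((ofSurf S).prev e) := by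
    rw [rel_next h, (ofSurf S).flipNext_e]
  have e2 : (ofSurf Y).prev (σ e) = σ ((ofSurf S).next ((ofSurf S).opp e)) := by
    change (ofSurf Y).next ((ofSurf Y).next (σ e)) = _
    rw [e1, rel_next h, (ofSurf S).flipNext_b]
  rcases same_fst Y hf with h1 | h1 | h1
  · exact hs.2.2.2.1 (σ.injective h1)
  · rw [e1] at h1; exact hs.2.2.2.2.2.1 (σ.injective h1)
  · rw [e2] at h1; exact hs.2.2.2.2.2.2.2.2.2.1 (σ.injective h1).symm

theorem fstY_out {g : Fin S.n × Fin 3} (hg : (ofSurf S).Out e g) :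
    (σ g).1 ≠ (σ e).1 ∧ (σ g).1 ≠ (σ ((ofSurf S).opp e)).1 := by
  have e1 : (ofSurf Y).next (σ e) = σ ((ofSurf S).prev e) := by
    rw [rel_next h, (ofSurf S).flipNext_e]
  have e2 : (ofSurf Y).prev (σ e) = σ ((ofSurf S).next ((ofSurf S).opp e)) := by
    change (ofSurf Y).next ((ofSurf Y).next (σ e)) = _
    rw [e1, rel_next h, (ofSurf S).flipNext_b]
  have e3 : (ofSurf Y).next (σ ((ofSurf S).opp e)) = σ ((ofSurf S).prev ((ofSurf S).opp e)) := by
    rw [rel_next h, (ofSurf S).flipNext_e']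
  have e4 : (ofSurf Y).prev (σ ((ofSurf S).opp e)) = σ ((ofSurf S).next e) := by
    change (ofSurf Y).next ((ofSurf Y).next (σ ((ofSurf S).opp e))) = _
    rw [e3, rel_next h, (ofSurf S).flipNext_d]
  obtain ⟨g1, g2, g3, g4, g5, g6⟩ := hg
  constructor
  · intro hf
    rcases same_fst Y hf with h1 | h1 | h1
    · exact g1 (σ.injective h1)
    · rw [e1] at h1; exact g3 (σ.injective h1)
    · rw [e2] at h1; exact g5 (σ.injective h1)
  · intro hf
    rcases same_fst Y hf with h1 | h1 | h1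
    · exact g4 (σ.injective h1)
    · rw [e3] at h1; exact g6 (σ.injective h1)
    · rw [e4] at h1; exact g2 (σ.injective h1)

/-- Description of the good points. -/
theorem GG_cases {x : ℂ} (gx : x ∈ GG e σ) :
    (∃ g, (ofSurf S).Out e g ∧ psi e σ x = x + tr σ g ∧ psi e σ x ∈ tri (Y.P (σ g).1)) ∨
    (∃ z, psi e σ x = yq e σ z ∧ Kq e z ∧ dq e z ≠ 0 ∧
      ((x = z + sp S e ∧ 0 < cr (S.vec e) z) ∨
        (x = z + sp S ((ofSurf S).next ((ofSurf S).opp e)) ∧ cr (S.vec e) z < 0))) := by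
  have hxD := GG_sub gx
  obtain ⟨i, hi⟩ := mem_iUnion.1 hxD
  by_cases h1 : i = e.1
  · subst h1
    obtain ⟨z, rfl⟩ : ∃ z, x = z + sp S e := ⟨x - sp S e, by ring⟩
    refine Or.inr ⟨z, psi_S1 h hi, ((memS1 he z).1 hi).1, (GG_S1 h hi).1 gx, Or.inl ⟨rfl, ?_⟩⟩
    exact ((memS1 he z).1 hi).2
  by_cases h2 : i = ((ofSurf S).opp e).1
  · subst h2
    obtain ⟨z, rfl⟩ : ∃ z, x = z + sp S ((ofSurf S).next ((ofSurf S).opp e)) :=
      ⟨x - sp S ((ofSurf S).next ((ofSurf S).opp e)), by ring⟩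
    refine Or.inr ⟨z, psi_S2 h hi, ((memS2 he z).1 hi).1, (GG_S2 h hi).1 gx, Or.inr ⟨rfl, ?_⟩⟩
    exact ((memS2 he z).1 hi).2
  have ho : (ofSurf S).Out e (i, 0) := out_of_fst h1 h2
  refine Or.inl ⟨(i, 0), ho, psi_out h ho hi, ?_⟩
  rw [psi_out h ho hi]
  exact memY_out h ho hi

theorem yq_tri {z : ℂ} (hK : Kq e z) (hd : dq e z ≠ 0) :
    (0 < dq e z ∧ yq e σ z ∈ tri (Y.P (σ e).1) ∧
      yq e σ z = z + sp Y (σ ((ofSurf S).next ((ofSurf S).opp e)))) ∨
    (dq e z < 0 ∧ yq e σ z ∈ tri (Y.P (σ ((ofSurf S).opp e)).1) ∧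
      yq e σ z = z + (sp Y (σ ((ofSurf S).prev ((ofSurf S).opp e))) -
      S.vec ((ofSurf S).next ((ofSurf S).opp e)))) := by
  rcases lt_or_gt_of_ne hd with hd | hd
  · right
    have : yq e σ z = z + (sp Y (σ ((ofSurf S).prev ((ofSurf S).opp e))) -
      S.vec ((ofSurf S).next ((ofSurf S).opp e))) := by
      unfold yq; rw [if_neg (not_lt.2 hd.le)]
    refine ⟨hd, ?_, this⟩
    rw [this]; exact (mY2 h z).2 ⟨hK, hd⟩
  · left
    have : yq e σ z = z + sp Y (σ ((ofSurf S).next ((ofSurf S).opp e))) := by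
      unfold yq; rw [if_pos hd]
    refine ⟨hd, ?_, this⟩
    rw [this]; exact (mY1 h z).2 ⟨hK, hd⟩

theorem psi_inj : InjOn (psi e σ) (GG e σ) := by
  intro x gx x' gx' hxx
  rcases GG_cases h gx with ⟨g, ho, k1, k2⟩ | ⟨z, k1, k2, k3, k4⟩ <;>
    rcases GG_cases h gx' with ⟨g', ho', k1', k2'⟩ | ⟨z', k1', k2', k3', k4'⟩
  · rw [← hxx] at k2'
    have hf : (σ g').1 = (σ g).1 := Y.tri_unique k2' k2
    have e1 : (ofSurf Y).next (σ g) = σ ((ofSurf S).next g) := by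
      rw [rel_next h, (ofSurf S).flipNext_out ho]
    have e2 : (ofSurf Y).prev (σ g) = σ ((ofSurf S).next ((ofSurf S).next g)) := by
      change (ofSurf Y).next ((ofSurf Y).next (σ g)) = _
      rw [e1, rel_next h, (ofSurf S).flipNext_out ho.next]
    have ht : tr σ g' = tr σ g := by
      rcases same_fst Y hf with h1 | h1 | h1
      · rw [σ.injective h1]
      · rw [e1] at h1
        rw [σ.injective h1, tr_next_out h ho]
      · rw [e2] at h1
        rw [σ.injective h1, tr_next_out h ho.next, tr_next_out h ho]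
    rw [k1, k1', ht] at hxx
    exact add_right_cancel hxx
  · exfalso
    rw [hxx, k1'] at k2
    have := fstY_out h ho
    rcases yq_tri h k2' k3' with ⟨_, q, _⟩ | ⟨_, q, _⟩
    · exact this.1 (Y.tri_unique k2 q)
    · exact this.2 (Y.tri_unique k2 q)
  · exfalso
    rw [← hxx, k1] at k2'
    have := fstY_out h ho'
    rcases yq_tri h k2 k3 with ⟨_, q, _⟩ | ⟨_, q, _⟩
    · exact this.1 (Y.tri_unique k2' q)
    · exact this.2 (Y.tri_unique k2' q)
  · rw [k1, k1'] at hxx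
    have hz : z = z' := by
      rcases yq_tri h k2 k3 with ⟨_, q, q2⟩ | ⟨_, q, q2⟩ <;>
        rcases yq_tri h k2' k3' with ⟨_, q', q2'⟩ | ⟨_, q', q2'⟩
      · rw [q2, q2'] at hxx; exact add_right_cancel hxx
      · rw [← hxx] at q'; exact absurd (Y.tri_unique q' q) (fstY_ne h)
      · rw [← hxx] at q'; exact absurd (Y.tri_unique q q') (fstY_ne h)
      · rw [q2, q2'] at hxx; exact add_right_cancel hxx
    subst hz
    rcases k4 with ⟨r1, r2⟩ | ⟨r1, r2⟩ <;> rcases k4' with ⟨r1', r2'⟩ | ⟨r1', r2'⟩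
    · rw [r1, r1']
    · linarith
    · linarith
    · rw [r1, r1']

theorem psi_mem {x : ℂ} (gx : x ∈ GG e σ) : psi e σ x ∈ Y.D := by
  rcases GG_cases h gx with ⟨g, _, _, k2⟩ | ⟨z, k1, k2, k3, _⟩
  · exact mem_iUnion.2 ⟨_, k2⟩
  · rw [k1]; exact yq_mem h k2 k3

theorem psi_loc {x : ℂ} (gx : x ∈ GG e σ) :
    ∀ᶠ w in 𝓝 (0 : ℂ), psi e σ (x + w) = psi e σ x + w := by
  obtain ⟨g, hg⟩ := gx
  have h1 : Tendsto (fun w : ℂ => x + w) (𝓝 0) (𝓝 x) := by
    have : Tendsto (fun w : ℂ => x + w) (𝓝 0) (𝓝 (x + 0)) :=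
      (continuous_const.add continuous_id).tendsto 0
    rwa [add_zero] at this
  filter_upwards [h1.eventually ((isOpen_Val g).mem_nhds hg)] with w hw
  rw [psi_Val h hg, psi_Val h hw]; ring

theorem GG_null : volume (S.D \ GG e σ) = 0 := by
  have hU : S.vec ((ofSurf S).prev ((ofSurf S).opp e)) + S.vec ((ofSurf S).next e) ≠ 0 := by
    intro h0
    have hq := (quad_of he).da
    have e1 : S.vec ((ofSurf S).next e) = -S.vec ((ofSurf S).prev ((ofSurf S).opp e)) := by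
      linear_combination h0
    rw [e1] at hq
    have : cr (S.vec ((ofSurf S).prev ((ofSurf S).opp e)))
        (-S.vec ((ofSurf S).prev ((ofSurf S).opp e))) = 0 := by
      simp only [cr, Complex.neg_re, Complex.neg_im]; ring
    linarith
  set U := S.vec ((ofSurf S).prev ((ofSurf S).opp e)) + S.vec ((ofSurf S).next e) with hUdef
  set C := S.vec ((ofSurf S).next ((ofSurf S).opp e)) with hC
  have hsub : S.D \ GG e σ ⊆ {x | cr U (x - (sp S e + C)) = 0} ∪
      {x | cr U (x - (sp S ((ofSurf S).next ((ofSurf S).opp e)) + C)) = 0} := by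
    rintro x ⟨hx, hg⟩
    obtain ⟨i, hi⟩ := mem_iUnion.1 hx
    by_cases h1 : i = e.1
    · subst h1
      left
      obtain ⟨z, rfl⟩ : ∃ z, x = z + sp S e := ⟨x - sp S e, by ring⟩
      rw [GG_S1 h hi, not_not] at hg
      change cr U (z + sp S e - (sp S e + C)) = 0
      have e1 : z + sp S e - (sp S e + C) = z - C := by ring
      rw [e1]; exact hg
    by_cases h2 : i = ((ofSurf S).opp e).1
    · subst h2
      right
      obtain ⟨z, rfl⟩ : ∃ z, x = z + sp S ((ofSurf S).next ((ofSurf S).opp e)) :=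
        ⟨x - sp S ((ofSurf S).next ((ofSurf S).opp e)), by ring⟩
      rw [GG_S2 h hi, not_not] at hg
      change cr U (z + sp S ((ofSurf S).next ((ofSurf S).opp e)) -
        (sp S ((ofSurf S).next ((ofSurf S).opp e)) + C)) = 0
      have e1 : z + sp S ((ofSurf S).next ((ofSurf S).opp e)) -
        (sp S ((ofSurf S).next ((ofSurf S).opp e)) + C) = z - C := by ring
      rw [e1]; exact hg
    exfalso
    apply hg
    have ho : (ofSurf S).Out e (i, 0) := out_of_fst h1 h2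
    exact ⟨(i, 0), ho.1, ho.2.2.2.1, hi, memY_out h ho hi⟩
  refine measure_mono_null hsub (measure_union_null ?_ ?_)
  · exact line_null hU _ 0
  · exact line_null hU _ 0

theorem area_eq : volume S.D = volume Y.D := by
  rw [volume_D, volume_D]
  congr 1
  have h1 : (ofSurf Y).area = ((ofSurf S).flip e he).area := by
    unfold Tri.area
    congr 1
    rw [← Equiv.sum_comp σ]
    refine Finset.sum_congr rfl fun g _ => ?_
    rw [h.vec, ← h.next, h.vec]
  rw [h1, area_flip]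

end rel

end

end FL87

/-! ### TF-BI3 -/

open FL87 in

theorem linIso_flip (S Y : Surf) (e : Fin S.n × Fin 3) (he : (ofSurf S).Flippable e)
    (σ : (Fin S.n × Fin 3) ≃ (Fin Y.n × Fin 3)) (h : Rel ((ofSurf S).flip e he) (ofSurf Y) σ) :
    LinIso S Y (LinearEquiv.refl ℝ ℂ) := by
  refine linIso_crit S Y (LinearEquiv.refl ℝ ℂ) ?_ (measurable_psi e σ) isOpen_GG GG_sub
    (GG_null h) (fun x hx => psi_mem h hx) (psi_inj h) (fun x hx => ?_) (area_eq h) ?_
  · simp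
  · exact psi_loc h hx
  · intro w x y gx gy hxy
    exact hop_straight h gx gy hxy

end Pool.Agent.Helper72.TF
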