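import Pool.Agent.Helper72.TF.BI0

/-!
# MP_e98778_an (full), BASE, block TF-BI4

Transport of cocycles along relabellings and flips. `Trp.of_rel`: BF2 (`Rel.coch`, `Rel.cst`, `Rel.hn2`,
`Rel.qT`, `Rel.act`). `Trp.of_flip`: BF1 (`flipC_*`, `qT_flip`, `flippable_act`, `flip_act`, `flipC_act`) and
`hn2_flip` of BF3, applied to `act T A` (`(act T A).flip e = act (T.flip e) A`). `Trp.of_reach`, `reach_act`,
`reach_conn`: induction on `Reach`. `Trp.act`: `act (act T A) B = act T (A.trans B)` (by `rfl` up to the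
proof fields; the determinant of the composition is one) and `cst (act T A) w = cst T w'` with the transpose
`w'` of `A` applied to `w` (`dot w (A z) = dot w' z`).
-/

set_option autoImplicit false

open MeasureTheory Set Pool.Agent.Helper87.LS Pool.Agent.Helper79.G

namespace Pool.Agent.Helper72.TF

noncomputable section

/-! ### TF-BI4: transport of cocycles along flips, `Eqv` -/

/-- `L` carries the cocycles of `T` to those of `T'` with all structures. -/
structure Trp {H H' : Type} [Fintype H] [Fintype H'] (T : Tri H) (T' : Tri H')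
    (L : (H → ℝ) →ₗ[ℝ] (H' → ℝ)) : Prop where
  mem : ∀ x ∈ Coch T, L x ∈ Coch T'
  surj : ∀ y ∈ Coch T', ∃ x ∈ Coch T, L x = y
  int : ∀ x ∈ Coch T, x ∈ CochZ T ↔ L x ∈ CochZ T'
  cob : ∀ x ∈ Coch T, x ∈ Cob T ↔ L x ∈ Cob T'
  cst : ∀ w : ℂ, L (cst T w) = cst T' w
  hn2 : ∀ x ∈ Coch T, ∀ (A : ℂ ≃ₗ[ℝ] ℂ) (hA : LinearMap.det (A : ℂ →ₗ[ℝ] ℂ) = 1),
    hn2 (act T' A hA) (L x) = hn2 (act T A hA) x
  qT : ∀ x ∈ Coch T, ∀ (A : ℂ ≃ₗ[ℝ] ℂ) (hA : LinearMap.det (A : ℂ →ₗ[ℝ] ℂ) = 1),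
    qT (act T' A hA) (L x) = qT (act T A hA) x

section
variable {H H' H'' : Type} [Fintype H] [Fintype H'] [Fintype H''] {T : Tri H} {T' : Tri H'}
  {T'' : Tri H''}

theorem Trp.refl (T : Tri H) : Trp T T LinearMap.id where
  mem := fun x hx => hx
  surj := fun y hy => ⟨y, hy, rfl⟩
  int := fun x _ => Iff.rfl
  cob := fun x _ => Iff.rfl
  cst := fun w => rfl
  hn2 := fun x _ A hA => rfl
  qT := fun x _ A hA => rfl

theorem Trp.trans {L : (H → ℝ) →ₗ[ℝ] (H' → ℝ)} {L' : (H' → ℝ) →ₗ[ℝ] (H'' → ℝ)}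
    (h : Trp T T' L) (h' : Trp T' T'' L') : Trp T T'' (L'.comp L) where
  mem := fun x hx => h'.mem _ (h.mem x hx)
  surj := by
    intro y hy
    obtain ⟨x', hx', hy'⟩ := h'.surj y hy
    obtain ⟨x, hx, hxx⟩ := h.surj x' hx'
    exact ⟨x, hx, by rw [LinearMap.comp_apply, hxx, hy']⟩
  int := fun x hx => (h.int x hx).trans (h'.int _ (h.mem x hx))
  cob := fun x hx => (h.cob x hx).trans (h'.cob _ (h.mem x hx))
  cst := fun w => by rw [LinearMap.comp_apply, h.cst, h'.cst]
  hn2 := fun x hx A hA => by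
    rw [LinearMap.comp_apply, h'.hn2 _ (h.mem x hx), h.hn2 x hx]
  qT := fun x hx A hA => by
    rw [LinearMap.comp_apply, h'.qT _ (h.mem x hx), h.qT x hx]

/-- The transpose of a linear map, for the scalar product `dot` (helper48). -/
private theorem bi4_transpose (A : ℂ ≃ₗ[ℝ] ℂ) (w : ℂ) : ∃ w' : ℂ, ∀ z : ℂ, dot w (A z) = dot w' z := by
  refine ⟨⟨dot w (A 1), dot w (A Complex.I)⟩, fun z => ?_⟩
  have hz : z = z.re • (1 : ℂ) + z.im • Complex.I := by
    apply Complex.ext <;> simp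
  have hA : A z = z.re • A 1 + z.im • A Complex.I := by
    conv_lhs => rw [hz]
    rw [map_add, map_smul, map_smul]
  rw [hA]
  simp only [dot, Complex.add_re, Complex.add_im, Complex.real_smul, Complex.mul_re, Complex.mul_im,
    Complex.ofReal_re, Complex.ofReal_im]
  ring

private theorem bi4_det (A B : ℂ ≃ₗ[ℝ] ℂ) (hA : LinearMap.det (A : ℂ →ₗ[ℝ] ℂ) = 1)
    (hB : LinearMap.det (B : ℂ →ₗ[ℝ] ℂ) = 1) :
    LinearMap.det ((A.trans B : ℂ ≃ₗ[ℝ] ℂ) : ℂ →ₗ[ℝ] ℂ) = 1 := by
  have : ((A.trans B : ℂ ≃ₗ[ℝ] ℂ) : ℂ →ₗ[ℝ] ℂ) = (B : ℂ →ₗ[ℝ] ℂ) ∘ₗ (A : ℂ →ₗ[ℝ] ℂ) := rfl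
  rw [this, LinearMap.det_comp, hA, hB, one_mul]

theorem Trp.act {L : (H → ℝ) →ₗ[ℝ] (H' → ℝ)} (h : Trp T T' L) (A : ℂ ≃ₗ[ℝ] ℂ)
    (hA : LinearMap.det (A : ℂ →ₗ[ℝ] ℂ) = 1) :
    Trp (Pool.Agent.Helper72.TF.act T A hA) (Pool.Agent.Helper72.TF.act T' A hA) L where
  mem := h.mem
  surj := h.surj
  int := h.int
  cob := h.cob
  cst := by
    intro w
    obtain ⟨w', hw'⟩ := bi4_transpose A w
    have h1 : Pool.Agent.Helper72.TF.cst (Pool.Agent.Helper72.TF.act T A hA) w
        = Pool.Agent.Helper72.TF.cst T w' := by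
      funext e
      exact hw' (T.vec e)
    have h2 : Pool.Agent.Helper72.TF.cst (Pool.Agent.Helper72.TF.act T' A hA) w
        = Pool.Agent.Helper72.TF.cst T' w' := by
      funext e
      exact hw' (T'.vec e)
    rw [h1, h2, h.cst]
  hn2 := fun x hx B hB => h.hn2 x hx (A.trans B) (bi4_det A B hA hB)
  qT := fun x hx B hB => h.qT x hx (A.trans B) (bi4_det A B hA hB)

theorem Trp.of_rel {σ : H ≃ H'} (h : Rel T T' σ) : Trp T T' (relC σ).toLinearMap where
  mem := fun x hx => (h.coch x).1.mpr hx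
  surj := by
    intro y hy
    refine ⟨(relC σ).symm y, ?_, ?_⟩
    · apply (h.coch ((relC σ).symm y)).1.mp
      rw [LinearEquiv.apply_symm_apply]
      exact hy
    · exact LinearEquiv.apply_symm_apply _ _
  int := fun x _ => (h.coch x).2.1.symm
  cob := fun x _ => (h.coch x).2.2.symm
  cst := fun w => h.cst w
  hn2 := fun x _ A hA => (h.act A hA).hn2 x
  qT := fun x _ A hA => (h.act A hA).qT x

theorem Trp.of_flip (T : Tri H) (e : H) (he : T.Flippable e) :
    Trp T (T.flip e he) (flipC T e) where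
  mem := fun x hx => flipC_mem T e he hx
  surj := fun y hy => flipC_surj T e he hy
  int := fun x hx => flipC_int T e he hx
  cob := fun x hx => flipC_cob T e he hx
  cst := fun w => flipC_cst T e he w
  hn2 := by
    intro x hx A hA
    have he' : (Pool.Agent.Helper72.TF.act T A hA).Flippable e := (flippable_act T A hA e).mpr he
    have h1 := hn2_flip (Pool.Agent.Helper72.TF.act T A hA) e he' (x := x) hx
    rw [flip_act T A hA e he he', flipC_act] at h1
    exact h1
  qT := by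
    intro x hx A hA
    have he' : (Pool.Agent.Helper72.TF.act T A hA).Flippable e := (flippable_act T A hA e).mpr he
    have h1 := qT_flip (Pool.Agent.Helper72.TF.act T A hA) e he' (x := x) hx
    rw [flip_act T A hA e he he', flipC_act] at h1
    exact h1

theorem Trp.of_reach {E : Set H} {T T' : Tri H} (h : Reach E T T') :
    ∃ L, Trp T T' L := by
  induction h with
  | refl => exact ⟨_, Trp.refl T⟩
  | flip e he _ _ _ ih =>
    obtain ⟨L, hL⟩ := ih
    exact ⟨_, hL.trans (Trp.of_flip _ e he)⟩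

theorem reach_act {E : Set H} {T T' : Tri H} (h : Reach E T T') (A : ℂ ≃ₗ[ℝ] ℂ)
    (hA : LinearMap.det (A : ℂ →ₗ[ℝ] ℂ) = 1) : Reach E (act T A hA) (act T' A hA) := by
  induction h with
  | refl => exact Reach.refl
  | @flip T₁ e he hE hE' _ ih =>
    have he' : (act T₁ A hA).Flippable e := (flippable_act T₁ A hA e).mpr he
    have h1 := Reach.flip e he' hE hE' ih
    rw [flip_act T₁ A hA e he he'] at h1
    exact h1

theorem reach_conn {E : Set H} {T T' : Tri H} (h : Reach E T T') (hT : T.Conn) : T'.Conn := by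
  induction h with
  | refl => exact hT
  | flip e he _ _ _ ih => exact conn_flip _ e he ih

end

end

end Pool.Agent.Helper72.TF
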