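import Pool.Agent.Helper72.TF.BI1
import Pool.Agent.Helper72.TF.BI2
import Pool.Agent.Helper72.TF.BI3
import Pool.Agent.Helper72.TF.BI4

/-!
# MP_e98778_an (full), BASE, block TF-BI (helper87)

The final statements of the transport: `linIso_of_reach`, `eqv_of_reach`, `Eqv.trans`, `tameAt_of_reach`.
-/

set_option autoImplicit false

open MeasureTheory Set Pool.Agent.Helper87.LS Pool.Agent.Helper79.G

namespace Pool.Agent.Helper72.TF

noncomputable section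

section

variable {H H' H'' : Type} {T : Tri H} {T' : Tri H'} {T'' : Tri H''} {σ : H ≃ H'} {τ : H' ≃ H''}

theorem Rel.trans (h : Rel T T' σ) (h' : Rel T' T'' τ) : Rel T T'' (σ.trans τ) where
  next x := by simp only [Equiv.trans_apply]; rw [h.next, h'.next]
  opp x := by simp only [Equiv.trans_apply]; rw [h.opp, h'.opp]
  vec x := by simp only [Equiv.trans_apply]; rw [h'.vec, h.vec]

theorem act_act (T : Tri H) (A B C : ℂ ≃ₗ[ℝ] ℂ) (hA : LinearMap.det (A : ℂ →ₗ[ℝ] ℂ) = 1)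
    (hB : LinearMap.det (B : ℂ →ₗ[ℝ] ℂ) = 1) (hC : LinearMap.det (C : ℂ →ₗ[ℝ] ℂ) = 1)
    (h : ∀ z, C z = B (A z)) : act (act T A hA) B hB = act T C hC := by
  have hv : (fun x => B (A (T.vec x))) = fun x => C (T.vec x) := by
    funext x; rw [h]
  unfold act
  congr

end

theorem linIso_refl_of_reach (S : Surf) {E : Set (Fin S.n × Fin 3)} {T' : Tri (Fin S.n × Fin 3)}
    (h : Reach E (ofSurf S) T') : ∀ (Y : Surf) (σ : (Fin S.n × Fin 3) ≃ (Fin Y.n × Fin 3)),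
    Rel T' (ofSurf Y) σ → LinIso S Y (LinearEquiv.refl ℝ ℂ) := by
  have : Nonempty (Fin S.n × Fin 3) := ⟨(⟨0, S.pos⟩, 0)⟩
  induction h with
  | refl =>
    intro Y σ hr
    exact linIso_of_rel S Y (LinearEquiv.refl ℝ ℂ) (by simp) σ ⟨hr.next, hr.opp, hr.vec⟩
  | @flip T₁ e he hE hE' _ ih =>
    intro Y σ hr
    obtain ⟨Y', σ', hr'⟩ := exists_surf T₁
    have h1 := ih Y' σ' hr'
    have he' : (ofSurf Y').Flippable (σ' e) := (hr'.flippable e).2 he
    have h2 : Rel (T₁.flip e he) ((ofSurf Y').flip (σ' e) he') σ' := hr'.flip e he he'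
    have h3 := linIso_flip Y' Y (σ' e) he' (σ'.symm.trans σ) (h2.symm.trans hr)
    exact h1.trans h3

/-- Induction along the flips, realising every intermediate triangulation by `exists_surf`. -/
theorem linIso_of_reach (S Y : Surf) {E : Set (Fin S.n × Fin 3)} {T' : Tri (Fin S.n × Fin 3)}
    (h : Reach E (ofSurf S) T') (A : ℂ ≃ₗ[ℝ] ℂ) (hA : LinearMap.det (A : ℂ →ₗ[ℝ] ℂ) = 1)
    (σ : (Fin S.n × Fin 3) ≃ (Fin Y.n × Fin 3)) (hr : Rel (act T' A hA) (ofSurf Y) σ) :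
    LinIso S Y A := by
  have : Nonempty (Fin S.n × Fin 3) := ⟨(⟨0, S.pos⟩, 0)⟩
  obtain ⟨Y', σ', hr'⟩ := exists_surf T'
  have h1 := linIso_refl_of_reach S h Y' σ' hr'
  have h2 : Rel (act T' A hA) (act (ofSurf Y') A hA) σ' := hr'.act A hA
  have h3 := linIso_of_rel Y' Y A hA (σ'.symm.trans σ) (h2.symm.trans hr)
  exact h1.trans h3

theorem eqv_of_reach (S Y : Surf) {E : Set (Fin S.n × Fin 3)} {T' : Tri (Fin S.n × Fin 3)}
    (h : Reach E (ofSurf S) T') (A : ℂ ≃ₗ[ℝ] ℂ) (hA : LinearMap.det (A : ℂ →ₗ[ℝ] ℂ) = 1)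
    (σ : (Fin S.n × Fin 3) ≃ (Fin Y.n × Fin 3)) (hr : Rel (act T' A hA) (ofSurf Y) σ) :
    Eqv S Y A := by
  obtain ⟨L, hL⟩ := Trp.of_reach h
  have h1 := (hL.act A hA).trans (Trp.of_rel hr)
  refine ⟨linIso_of_reach S Y h A hA σ hr, _, h1.mem, h1.surj, h1.int, h1.cob, h1.cst, ?_⟩
  intro x hx B hB C hC hz
  have h2 := h1.hn2 x hx B hB
  have h3 := h1.qT x hx B hB
  rw [act_act (ofSurf S) A B C hA hB hC hz] at h2 h3
  exact ⟨h2, h3⟩

theorem Eqv.trans {S Y Z : Surf} {A B : ℂ ≃ₗ[ℝ] ℂ} (hA : LinearMap.det (A : ℂ →ₗ[ℝ] ℂ) = 1)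
    (h1 : Eqv S Y A) (h2 : Eqv Y Z B) : Eqv S Z (A.trans B) := by
  obtain ⟨L, a1, a2, a3, a4, a5, a6⟩ := h1.coc
  obtain ⟨M, b1, b2, b3, b4, b5, b6⟩ := h2.coc
  refine ⟨h1.iso.trans h2.iso, M.comp L, fun x hx => b1 _ (a1 x hx), ?_, ?_, ?_, ?_, ?_⟩
  · intro z hz
    obtain ⟨y, hy, rfl⟩ := b2 z hz
    obtain ⟨x, hx, rfl⟩ := a2 y hy
    exact ⟨x, hx, rfl⟩
  · intro x hx
    exact (a3 x hx).trans (b3 _ (a1 x hx))
  · intro x hx
    exact (a4 x hx).trans (b4 _ (a1 x hx))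
  · intro w
    -- the transpose of `B`
    obtain ⟨w', hw'⟩ : ∃ w' : ℂ, ∀ z : ℂ, dot w (B z) = dot w' z := by
      refine ⟨⟨dot w (B 1), dot w (B Complex.I)⟩, fun z => ?_⟩
      have hz : z = z.re • (1 : ℂ) + z.im • Complex.I := by
        apply Complex.ext <;> simp
      have hB : B z = z.re • B 1 + z.im • B Complex.I := by
        conv_lhs => rw [hz]
        rw [map_add, map_smul, map_smul]
      rw [hB]
      simp only [dot, Complex.add_re, Complex.add_im, Complex.smul_re, Complex.smul_im, smul_eq_mul]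
      ring
    have e1 : (fun h => dot w ((A.trans B) (S.vec h))) = fun h => dot w' (A (S.vec h)) := by
      funext h
      rw [LinearEquiv.trans_apply, hw']
    rw [LinearMap.comp_apply, e1, a5 w', ← b5 w]
    congr 1
    funext h
    exact (hw' _).symm
  · intro x hx C hC D hD hz
    -- the map `z ↦ C (B z)`
    have hE : LinearMap.det ((B.trans C : ℂ ≃ₗ[ℝ] ℂ) : ℂ →ₗ[ℝ] ℂ) = 1 := by
      have e1 : (D : ℂ →ₗ[ℝ] ℂ) = ((B.trans C : ℂ ≃ₗ[ℝ] ℂ) : ℂ →ₗ[ℝ] ℂ) ∘ₗ (A : ℂ →ₗ[ℝ] ℂ) := by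
        ext z <;> simp [hz]
      rw [e1, LinearMap.det_comp, hA, mul_one] at hD
      exact hD
    obtain ⟨c1, c2⟩ := b6 (L x) (a1 x hx) C hC (B.trans C) hE (fun z => rfl)
    obtain ⟨d1, d2⟩ := a6 x hx (B.trans C) hE D hD (fun z => by rw [hz]; rfl)
    exact ⟨c1.trans d1, c2.trans d2⟩

/-- Tameness in terms of flips gives `TameAt`. -/
theorem tameAt_of_reach (S : Surf) (hS : Connected S) {s u K : ℝ} {E : Set (Fin S.n × Fin 3)}
    {T' : Tri (Fin S.n × Fin 3)} (h : Reach E (ofSurf S) T')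
    (hK : ∀ h, ‖gsu s u (T'.vec h)‖ ≤ K) (har : ∀ h, 1 / K ≤ ar T' h) : TameAt S K s u := by
  have : Nonempty (Fin S.n × Fin 3) := ⟨(⟨0, S.pos⟩, 0)⟩
  obtain ⟨Y, σ, hr⟩ := exists_surf (lev T' s u)
  have hn : Y.n = S.n := by
    have := Fintype.card_congr σ
    simp only [Fintype.card_prod, Fintype.card_fin] at this
    omega
  refine ⟨Y, hn, ?_, ?_, ?_, eqv_of_reach S Y h (gsu s u) (det_gsu s u) σ hr⟩
  · have h1 : T'.Conn := reach_conn h hS
    have h2 : (lev T' s u).Conn := h1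
    exact hr.conn.1 h2
  · intro e
    obtain ⟨g, rfl⟩ := σ.surjective e
    have : Y.vec (σ g) = gsu s u (T'.vec g) := hr.vec g
    rw [this]; exact hK g
  · intro i
    obtain ⟨g, hg⟩ := σ.surjective (i, 0)
    have h1 : Y.area2 i = cr (Y.vec (i, 0)) (Y.vec (i, 0 + 1)) := (Y.cr_vec_succ i 0).symm
    have h2 : Y.vec (i, 0 + 1) = (ofSurf Y).vec ((ofSurf Y).next (σ g)) := by rw [hg]; rfl
    have h3 : Y.vec (i, 0) = (ofSurf Y).vec (σ g) := by rw [hg]; rfl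
    rw [h1, h2, h3, ← hr.next, hr.vec, hr.vec]
    change 1 / K ≤ ar (act T' (gsu s u) (det_gsu s u)) g
    rw [ar_act]
    exact har g

end

end Pool.Agent.Helper72.TF
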