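import Pool.Agent.Helper72.TF.BA1

/-! Block TF-BA2, see the header of BA1.lean. -/

set_option autoImplicit false

open MeasureTheory Set Pool.Agent.Helper87.LS Pool.Agent.Helper79.G

namespace Pool.Agent.Helper72.TF

noncomputable section

variable {H : Type} (T : Tri H)

/-! ### TF-BA2 -/

theorem cob_le_coch : Cob T ≤ Coch T := by
  rintro x ⟨c, hc, rfl⟩
  have hc' : ∀ h, c (T.next (T.opp h)) = c h := hc
  refine ⟨fun h => ?_, fun h => ?_⟩
  · have h1 := hc' h
    have h2 := hc' (T.opp h)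
    rw [T.opp2] at h2
    show c (T.next (T.opp h)) - c (T.opp h) = -(c (T.next h) - c h)
    rw [h1, h2]
    ring
  · show c (T.next h) - c h + (c (T.next (T.next h)) - c (T.next h)) +
      (c (T.next (T.next (T.next h))) - c (T.next (T.next h))) = 0
    rw [T.next3]
    ring

theorem coch_act (A : ℂ ≃ₗ[ℝ] ℂ) (hA : LinearMap.det (A : ℂ →ₗ[ℝ] ℂ) = 1) :
    Coch (act T A hA) = Coch T ∧ Vert (act T A hA) = Vert T ∧ Cob (act T A hA) = Cob T ∧
      CochZ (act T A hA) = CochZ T :=
  ⟨rfl, rfl, rfl, rfl⟩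

variable [Fintype H]

theorem area_pos [Nonempty H] : 0 < T.area := by
  unfold Tri.area
  have h1 : 0 < ∑ h, cr (T.vec h) (T.vec (T.next h)) :=
    Finset.sum_pos (fun h _ => T.pos h) Finset.univ_nonempty
  positivity

theorem qT_add (x y : H → ℝ) : qT T (x + y) = qT T x + qT T y := by
  unfold qT
  rw [← add_div, ← Finset.sum_add_distrib]
  congr 1
  refine Finset.sum_congr rfl fun h _ => ?_
  rw [omega_add, mul_add]

theorem qT_smul (c : ℝ) (x : H → ℝ) : qT T (c • x) = (c : ℂ) * qT T x := by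
  unfold qT
  rw [mul_div_assoc', Finset.mul_sum]
  congr 1
  refine Finset.sum_congr rfl fun h _ => ?_
  rw [omega_smul]
  ring

theorem qT_cst (w : ℂ) : qT T (cst T w) = (T.area : ℂ) * w := by
  unfold qT Tri.area
  have h1 : ∀ h, (ar T h : ℂ) * omega T (cst T w) h = (ar T h : ℂ) * w := fun h => by
    rw [omega_cst]
  simp_rw [h1]
  rw [← Finset.sum_mul]
  have h2 : ((((∑ h, cr (T.vec h) (T.vec (T.next h))) / 6 : ℝ)) : ℂ) = (∑ h, (ar T h : ℂ)) / 6 := by
    push_cast
    rfl
  rw [h2]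
  ring

private theorem ba2_43_ar_omega (x : H → ℝ) (h : H) : (ar T h : ℂ) * omega T x h =
    (x (T.next h) : ℂ) * (Complex.I * T.vec h) - (x h : ℂ) * (Complex.I * T.vec (T.next h)) := by
  unfold omega
  have h1 : (ar T h : ℂ) ≠ 0 := by
    exact_mod_cast (ar_pos T h).ne'
  field_simp

theorem qT_cob {x : H → ℝ} (hx : x ∈ Cob T) : qT T x = 0 := by
  obtain ⟨c, hc, rfl⟩ := hx
  have hc' : ∀ h, c (T.next (T.opp h)) = c h := hc
  have hx : ∀ h, dv T c h = c (T.next h) - c h := fun h => rfl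
  unfold qT
  simp_rw [ba2_43_ar_omega, hx]
  have e1 : ∑ h, (((c (T.next (T.next h)) - c (T.next h) : ℝ) : ℂ)) * (Complex.I * T.vec h) =
      ∑ h, (((c (T.next h) - c h : ℝ) : ℂ)) * (Complex.I * T.vec (T.next (T.next h))) := by
    rw [← Equiv.sum_comp T.next (fun h => (((c (T.next h) - c h : ℝ) : ℂ)) *
      (Complex.I * T.vec (T.next (T.next h))))]
    refine Finset.sum_congr rfl fun h _ => ?_
    rw [T.next3]
  have e2 : ∑ h, ((c (T.next h) : ℝ) : ℂ) * (Complex.I * (T.vec (T.next (T.next h)) - T.vec (T.next h))) =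
      ∑ h, ((c h : ℝ) : ℂ) * (Complex.I * (T.vec (T.next h) - T.vec h)) := by
    rw [← Equiv.sum_comp T.next (fun h => ((c h : ℝ) : ℂ) * (Complex.I * (T.vec (T.next h) - T.vec h)))]
  have e3 : ∑ h, ((c h : ℝ) : ℂ) * T.vec (T.next h) = 0 := by
    have h1 : ∀ h, ((c h : ℝ) : ℂ) * T.vec (T.next h) =
        ((c (T.opp (T.next (T.next h))) : ℝ) : ℂ) * T.vec (T.opp (T.next (T.next h))) -
          ((c h : ℝ) : ℂ) * T.vec h := by
      intro h
      have h2 := hc' (T.opp (T.next (T.next h)))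
      rw [T.opp2, T.next3] at h2
      rw [← h2, T.vec_opp]
      have h3 := T.closed h
      linear_combination ((c h : ℝ) : ℂ) * h3
    simp_rw [h1]
    rw [Finset.sum_sub_distrib]
    have h4 := Equiv.sum_comp ((T.next.trans T.next).trans T.opp) (fun h => ((c h : ℝ) : ℂ) * T.vec h)
    simp only [Equiv.trans_apply] at h4
    rw [h4, sub_self]
  rw [Finset.sum_sub_distrib, e1, ← Finset.sum_sub_distrib]
  have e4 : ∀ h, (((c (T.next h) - c h : ℝ) : ℂ)) * (Complex.I * T.vec (T.next (T.next h))) -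
      (((c (T.next h) - c h : ℝ) : ℂ)) * (Complex.I * T.vec (T.next h)) =
      ((c (T.next h) : ℝ) : ℂ) * (Complex.I * (T.vec (T.next (T.next h)) - T.vec (T.next h))) -
      ((c h : ℝ) : ℂ) * (Complex.I * (T.vec (T.next (T.next h)) - T.vec (T.next h))) := by
    intro h
    push_cast
    ring
  simp_rw [e4]
  rw [Finset.sum_sub_distrib, e2, ← Finset.sum_sub_distrib]
  have e5 : ∀ h, ((c h : ℝ) : ℂ) * (Complex.I * (T.vec (T.next h) - T.vec h)) -
      ((c h : ℝ) : ℂ) * (Complex.I * (T.vec (T.next (T.next h)) - T.vec (T.next h))) =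
      3 * Complex.I * (((c h : ℝ) : ℂ) * T.vec (T.next h)) := by
    intro h
    have h3 := T.closed h
    linear_combination (-((c h : ℝ) : ℂ) * Complex.I) * h3
  simp_rw [e5]
  rw [← Finset.mul_sum, e3]
  simp

theorem qT_act (A : ℂ ≃ₗ[ℝ] ℂ) (hA : LinearMap.det (A : ℂ →ₗ[ℝ] ℂ) = 1) (x : H → ℝ) :
    qT (act T A hA) x = adj A (qT T x) := by
  let B : ℂ →ₗ[ℝ] ℂ :=
    { toFun := adj A
      map_add' := by
        intro z w
        unfold adj
        rw [mul_add, neg_add, map_add, mul_add]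
      map_smul' := by
        intro c z
        unfold adj
        have h1 : -(Complex.I * (c • z)) = c • (-(Complex.I * z)) := by
          rw [mul_smul_comm, smul_neg]
        rw [h1, map_smul, mul_smul_comm]
        rfl }
  have hB : ∀ z, adj A z = B z := fun z => rfl
  have h1 : ∀ (c : ℝ) (z : ℂ), B ((c : ℂ) * z) = (c : ℂ) * B z := by
    intro c z
    have h2 := B.map_smul c z
    rw [Complex.real_smul, Complex.real_smul] at h2
    exact h2
  unfold qT
  rw [hB]
  have h6 : (∑ h, (ar T h : ℂ) * omega T x h) / 6 = (((1 / 6 : ℝ)) : ℂ) * ∑ h, (ar T h : ℂ) * omega T x h := by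
    push_cast
    ring
  rw [h6, h1, map_sum]
  have h7 : ∀ h, (ar (act T A hA) h : ℂ) * omega (act T A hA) x h = B ((ar T h : ℂ) * omega T x h) := by
    intro h
    rw [h1, ar_act, omega_act]
    rfl
  simp_rw [h7]
  push_cast
  ring

end

end Pool.Agent.Helper72.TF
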