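import Pool.Agent.Helper72.TF.BA2

/-!
# BASE, block TF-BE: Lipschitz functions on the surface, energy, Hodge norm

`Op T h` is an open triangle, `Cl T h` its closure, a compact convex set; a Lipschitz function on
`Cl T h` is differentiable almost everywhere in `Op T h` (Rademacher) with `‖grad‖ ≤ C √2`, and
`z ↦ grad (f h) z` is measurable on `Op T h` (e.g. extend `f h` to a Lipschitz function of the plane,
`LipschitzOnWith.extend_real`; on the open set `Op T h` the derivatives agree).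

* `hn2_add_cob`: for `c ∈ Vert T` the function `g h z = c h + dot (omega T (dv T c) h) z` is in `Fn T`
  (it is the affine interpolation of the vertex values) and `grad (g h) = omega T (dv T c) h`, so
  `en T (x + dv T c) f = en T x (f + g)` and `f ↦ f + g` is a bijection of `Fn T`.
* `Fn_act`, `en_act`: change of variables `z ↦ A z` (determinant one); the chain rule holds at every
  point because `A` is invertible.
* `hn2_act_le`: compare the same function.
* `isOpen_close`: for fixed `m, f` the quantity `en (lev T s u) (c Im vec - m) f` is by `en_act` and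
  `adj_gsu` a polynomial in `(c, u)` (with coefficients integrals over the triangles), so
  `{(c,u) : ∃ m f, en ... < δ^2}` is open.
-/

set_option autoImplicit false

open MeasureTheory Set Pool.Agent.Helper87.LS Pool.Agent.Helper79.G

namespace Pool.Agent.Helper72.TF

noncomputable section

variable {H : Type} (T : Tri H)

/-! ### TF-BE1: the triangles (helper93) -/

namespace BE1

theorem ar_pos' (h : H) : 0 < ar T h := T.pos h

theorem v2_eq (h : H) : T.vec (T.prev h) = -T.vec h - T.vec (T.next h) := by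
  have h1 := T.closed h
  unfold Tri.prev
  linear_combination h1

theorem sum_a (h : H) (z : ℂ) : T.a0 h z + T.a1 h z + T.a2 h z = ar T h := by
  unfold Tri.a0 Tri.a1 Tri.a2 ar
  rw [v2_eq]
  simp only [cr, Complex.sub_re, Complex.sub_im, Complex.neg_re, Complex.neg_im]
  ring

theorem cont_a0 (h : H) : Continuous (T.a0 h) := by
  unfold Tri.a0 cr
  fun_prop

theorem cont_a1 (h : H) : Continuous (T.a1 h) := by
  unfold Tri.a1 cr
  fun_prop

theorem cont_a2 (h : H) : Continuous (T.a2 h) := by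
  unfold Tri.a2 cr
  fun_prop

theorem aff_a0 (h : H) (z w : ℂ) (s t : ℝ) (hst : s + t = 1) :
    T.a0 h (s • z + t • w) = s * T.a0 h z + t * T.a0 h w := by
  unfold Tri.a0 cr
  simp only [Complex.real_smul, Complex.add_re, Complex.add_im, Complex.re_ofReal_mul,
    Complex.im_ofReal_mul]
  ring

theorem aff_a1 (h : H) (z w : ℂ) (s t : ℝ) (hst : s + t = 1) :
    T.a1 h (s • z + t • w) = s * T.a1 h z + t * T.a1 h w := by
  unfold Tri.a1 cr
  have ht : t = 1 - s := by linarith
  subst ht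
  simp only [Complex.real_smul, Complex.add_re, Complex.add_im, Complex.re_ofReal_mul,
    Complex.im_ofReal_mul, Complex.sub_re, Complex.sub_im]
  ring

theorem aff_a2 (h : H) (z w : ℂ) (s t : ℝ) (hst : s + t = 1) :
    T.a2 h (s • z + t • w) = s * T.a2 h z + t * T.a2 h w := by
  unfold Tri.a2 cr
  simp only [Complex.real_smul, Complex.add_re, Complex.add_im, Complex.re_ofReal_mul,
    Complex.im_ofReal_mul]
  ring

/-- barycentric coordinates -/
theorem bary (h : H) (z : ℂ) :
    z = (T.a2 h z / ar T h) • T.vec h + (T.a0 h z / ar T h) • (-T.vec (T.prev h)) := by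
  have hp := ar_pos' T h
  have hne : ar T h ≠ 0 := hp.ne'
  have key : (ar T h : ℝ) • z = T.a2 h z • T.vec h + T.a0 h z • (-T.vec (T.prev h)) := by
    rw [v2_eq]
    unfold Tri.a2 Tri.a0 ar
    rw [v2_eq]
    apply Complex.ext <;>
    · simp only [Complex.real_smul, Complex.add_re, Complex.add_im, Complex.re_ofReal_mul,
        Complex.im_ofReal_mul, Complex.neg_re, Complex.neg_im, Complex.sub_re, Complex.sub_im, cr]
      ring
  have h2 : z = (ar T h)⁻¹ • ((ar T h : ℝ) • z) := by
    rw [smul_smul, inv_mul_cancel₀ hne, one_smul]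
  conv_lhs => rw [h2, key]
  rw [smul_add, smul_smul, smul_smul]
  congr 2 <;> · field_simp

theorem a0_next (h : H) (z : ℂ) : T.a0 (T.next h) (z - T.vec h) = T.a1 h z := rfl

theorem a1_next (h : H) (z : ℂ) : T.a1 (T.next h) (z - T.vec h) = T.a2 h z := by
  unfold Tri.a1 Tri.a2
  have h1 : T.next (T.next h) = T.prev h := rfl
  rw [h1, v2_eq]
  simp only [cr, Complex.sub_re, Complex.sub_im, Complex.neg_re, Complex.neg_im]
  ring

theorem a2_next (h : H) (z : ℂ) : T.a2 (T.next h) (z - T.vec h) = T.a0 h z := by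
  unfold Tri.a2 Tri.a0 Tri.prev
  rw [T.next3]
  simp only [cr, Complex.sub_re, Complex.sub_im]
  ring

/-- the centroid -/
def cen (h : H) : ℂ := (1 / 3 : ℝ) • (T.vec h - T.vec (T.prev h))

theorem a0_cen (h : H) : T.a0 h (cen T h) = ar T h / 3 := by
  unfold Tri.a0 cen ar
  rw [v2_eq]
  simp only [cr, Complex.real_smul, Complex.re_ofReal_mul, Complex.im_ofReal_mul, Complex.sub_re,
    Complex.sub_im, Complex.neg_re, Complex.neg_im]
  ring

theorem a1_cen (h : H) : T.a1 h (cen T h) = ar T h / 3 := by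
  unfold Tri.a1 cen ar
  rw [v2_eq]
  simp only [cr, Complex.real_smul, Complex.re_ofReal_mul, Complex.im_ofReal_mul, Complex.sub_re,
    Complex.sub_im, Complex.neg_re, Complex.neg_im]
  ring

theorem a2_cen (h : H) : T.a2 h (cen T h) = ar T h / 3 := by
  unfold Tri.a2 cen ar
  rw [v2_eq]
  simp only [cr, Complex.real_smul, Complex.re_ofReal_mul, Complex.im_ofReal_mul, Complex.sub_re,
    Complex.sub_im, Complex.neg_re, Complex.neg_im]
  ring

theorem convex_Op (h : H) : Convex ℝ (Op T h) := by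
  intro z hz w hw s t hs ht hst
  have hz' : 0 < T.a0 h z ∧ 0 < T.a1 h z ∧ 0 < T.a2 h z := hz
  have hw' : 0 < T.a0 h w ∧ 0 < T.a1 h w ∧ 0 < T.a2 h w := hw
  show 0 < T.a0 h _ ∧ 0 < T.a1 h _ ∧ 0 < T.a2 h _
  rw [aff_a0 T h z w s t hst, aff_a1 T h z w s t hst, aff_a2 T h z w s t hst]
  rcases hs.eq_or_lt with h0 | h0
  · subst h0
    have : t = 1 := by linarith
    subst this
    simpa using hw'
  · refine ⟨?_, ?_, ?_⟩
    · exact add_pos_of_pos_of_nonneg (mul_pos h0 hz'.1) (mul_nonneg ht hw'.1.le)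
    · exact add_pos_of_pos_of_nonneg (mul_pos h0 hz'.2.1) (mul_nonneg ht hw'.2.1.le)
    · exact add_pos_of_pos_of_nonneg (mul_pos h0 hz'.2.2) (mul_nonneg ht hw'.2.2.le)

end BE1

open BE1

theorem isOpen_Op (h : H) : IsOpen (Op T h) := by
  have h1 : Op T h = {z | 0 < T.a0 h z} ∩ ({z | 0 < T.a1 h z} ∩ {z | 0 < T.a2 h z}) := rfl
  rw [h1]
  exact (isOpen_lt continuous_const (cont_a0 T h)).inter
    ((isOpen_lt continuous_const (cont_a1 T h)).inter (isOpen_lt continuous_const (cont_a2 T h)))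

theorem convex_Cl (h : H) : Convex ℝ (Cl T h) := by
  intro z hz w hw s t hs ht hst
  have hz' : 0 ≤ T.a0 h z ∧ 0 ≤ T.a1 h z ∧ 0 ≤ T.a2 h z := hz
  have hw' : 0 ≤ T.a0 h w ∧ 0 ≤ T.a1 h w ∧ 0 ≤ T.a2 h w := hw
  show 0 ≤ T.a0 h _ ∧ 0 ≤ T.a1 h _ ∧ 0 ≤ T.a2 h _
  rw [aff_a0 T h z w s t hst, aff_a1 T h z w s t hst, aff_a2 T h z w s t hst]
  exact ⟨add_nonneg (mul_nonneg hs hz'.1) (mul_nonneg ht hw'.1),
    add_nonneg (mul_nonneg hs hz'.2.1) (mul_nonneg ht hw'.2.1),
    add_nonneg (mul_nonneg hs hz'.2.2) (mul_nonneg ht hw'.2.2)⟩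

/-- The closed triangle is the convex hull of its vertices. -/
theorem Cl_eq (h : H) : Cl T h = convexHull ℝ {0, T.vec h, -T.vec (T.prev h)} := by
  have hp := ar_pos' T h
  apply Set.Subset.antisymm
  · intro z hz
    have hz' : 0 ≤ T.a0 h z ∧ 0 ≤ T.a1 h z ∧ 0 ≤ T.a2 h z := hz
    rw [mem_convexHull_iff]
    intro s hs hconv
    have m0 : (0 : ℂ) ∈ s := hs (by simp)
    have m1 : T.vec h ∈ s := hs (by simp)
    have m2 : -T.vec (T.prev h) ∈ s := hs (by simp)
    have hsum := sum_a T h z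
    have h3 : z = (T.a1 h z / ar T h) • (0 : ℂ) + (T.a2 h z / ar T h) • T.vec h +
        (T.a0 h z / ar T h) • (-T.vec (T.prev h)) := by
      rw [smul_zero, zero_add]
      exact bary T h z
    rw [h3]
    have key := hconv.sum_mem (t := (Finset.univ : Finset (Fin 3)))
      (w := ![T.a1 h z / ar T h, T.a2 h z / ar T h, T.a0 h z / ar T h])
      (z := ![(0 : ℂ), T.vec h, -T.vec (T.prev h)]) ?_ ?_ ?_
    · simpa [Fin.sum_univ_three] using key
    · intro i _
      fin_cases i
      · exact div_nonneg hz'.2.1 hp.le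
      · exact div_nonneg hz'.2.2 hp.le
      · exact div_nonneg hz'.1 hp.le
    · rw [Fin.sum_univ_three]
      show T.a1 h z / ar T h + T.a2 h z / ar T h + T.a0 h z / ar T h = 1
      rw [← add_div, ← add_div, div_eq_one_iff_eq hp.ne']
      linarith
    · intro i _
      fin_cases i
      · exact m0
      · exact m1
      · exact m2
  · refine convexHull_min ?_ (convex_Cl T h)
    intro z hz
    simp only [Set.mem_insert_iff, Set.mem_singleton_iff] at hz
    have hp' : 0 < cr (T.vec h) (T.vec (T.next h)) := hp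
    rcases hz with rfl | rfl | rfl
    · show 0 ≤ T.a0 h 0 ∧ 0 ≤ T.a1 h 0 ∧ 0 ≤ T.a2 h 0
      unfold Tri.a0 Tri.a1 Tri.a2
      simp only [cr, Complex.zero_re, Complex.zero_im, zero_sub, Complex.neg_re, Complex.neg_im] at hp' ⊢
      refine ⟨by linarith, by nlinarith, by linarith⟩
    · show 0 ≤ T.a0 h (T.vec h) ∧ 0 ≤ T.a1 h (T.vec h) ∧ 0 ≤ T.a2 h (T.vec h)
      unfold Tri.a0 Tri.a1 Tri.a2
      rw [v2_eq]
      simp only [cr, sub_self, Complex.zero_re, Complex.zero_im, Complex.sub_re, Complex.sub_im,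
        Complex.neg_re, Complex.neg_im] at hp' ⊢
      refine ⟨by linarith, by linarith, by nlinarith⟩
    · show 0 ≤ T.a0 h (-T.vec (T.prev h)) ∧ 0 ≤ T.a1 h (-T.vec (T.prev h)) ∧
        0 ≤ T.a2 h (-T.vec (T.prev h))
      unfold Tri.a0 Tri.a1 Tri.a2
      rw [v2_eq]
      simp only [cr, Complex.sub_re, Complex.sub_im, Complex.neg_re, Complex.neg_im] at hp' ⊢
      refine ⟨by nlinarith, by nlinarith, by nlinarith⟩

theorem isCompact_Cl (h : H) : IsCompact (Cl T h) := by
  rw [Cl_eq]
  exact Set.Finite.isCompact_convexHull (𝕜 := ℝ) (Set.toFinite _)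

theorem Op_subset_Cl (h : H) : Op T h ⊆ Cl T h := fun _ hz => ⟨hz.1.le, hz.2.1.le, hz.2.2.le⟩

theorem Cl_next (h : H) (z : ℂ) : z - T.vec h ∈ Cl T (T.next h) ↔ z ∈ Cl T h := by
  show (0 ≤ T.a0 (T.next h) (z - T.vec h) ∧ 0 ≤ T.a1 (T.next h) (z - T.vec h) ∧
    0 ≤ T.a2 (T.next h) (z - T.vec h)) ↔ (0 ≤ T.a0 h z ∧ 0 ≤ T.a1 h z ∧ 0 ≤ T.a2 h z)
  rw [a0_next, a1_next, a2_next]
  tauto

theorem Op_next (h : H) (z : ℂ) : z - T.vec h ∈ Op T (T.next h) ↔ z ∈ Op T h := by
  show (0 < T.a0 (T.next h) (z - T.vec h) ∧ 0 < T.a1 (T.next h) (z - T.vec h) ∧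
    0 < T.a2 (T.next h) (z - T.vec h)) ↔ (0 < T.a0 h z ∧ 0 < T.a1 h z ∧ 0 < T.a2 h z)
  rw [a0_next, a1_next, a2_next]
  tauto

namespace BE1

/-- the linear map which sends the standard triangle to the triangle of `h` -/
def lin (h : H) : ℂ →ₗ[ℝ] ℂ where
  toFun z := z.re • T.vec h + z.im • (-T.vec (T.prev h))
  map_add' z w := by
    simp only [Complex.add_re, Complex.add_im, add_smul]
    abel
  map_smul' r z := by
    simp only [Complex.smul_re, Complex.smul_im, smul_add, smul_smul, smul_eq_mul, RingHom.id_apply]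

theorem det_lin (h : H) : LinearMap.det (lin T h) = ar T h := by
  have h1 := LinearMap.det_toLin Complex.basisOneI (LinearMap.toMatrix Complex.basisOneI Complex.basisOneI (lin T h))
  rw [Matrix.toLin_toMatrix] at h1
  rw [h1, Matrix.det_fin_two]
  simp only [LinearMap.toMatrix_apply, Complex.coe_basisOneI_repr, Complex.coe_basisOneI]
  unfold lin ar
  simp only [LinearMap.coe_mk, AddHom.coe_mk, Matrix.cons_val_zero, Matrix.cons_val_one]
  rw [v2_eq]
  simp [cr]
  ring

/-- the standard triangle -/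
def Std : Set ℂ := {z | 0 < z.re ∧ 0 < z.im ∧ z.re + z.im < 1}

theorem volume_Std : volume Std = ENNReal.ofReal (1 / 2) := by
  have h1 : Std = Complex.measurableEquivRealProd ⁻¹' (regionBetween (fun _ => (0:ℝ)) (fun x => 1 - x) (Ioo 0 1)) := by
    ext z
    simp only [Std, Set.mem_setOf_eq, Set.mem_preimage, regionBetween,
      Complex.measurableEquivRealProd_apply, Set.mem_Ioo]
    constructor
    · rintro ⟨h1, h2, h3⟩
      exact ⟨⟨h1, by linarith⟩, h2, by linarith⟩
    · rintro ⟨⟨h1, _⟩, h2, h3⟩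
      exact ⟨h1, h2, by linarith⟩
  have hmeas : MeasurableSet (regionBetween (fun _ => (0:ℝ)) (fun x : ℝ => 1 - x) (Ioo 0 1)) :=
    measurableSet_regionBetween measurable_const (by fun_prop) measurableSet_Ioo
  rw [h1, Complex.volume_preserving_equiv_real_prod.measure_preimage hmeas.nullMeasurableSet]
  have h2 := volume_regionBetween_eq_integral (μ := volume) (f := fun _ => (0:ℝ)) (g := fun x : ℝ => 1 - x)
    (s := Ioo (0:ℝ) 1) (by simp) ?_ measurableSet_Ioo ?_
  · rw [Measure.volume_eq_prod, h2]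
    congr 1
    rw [← integral_Ioc_eq_integral_Ioo, ← intervalIntegral.integral_of_le zero_le_one]
    simp only [Pi.sub_apply, sub_zero]
    rw [intervalIntegral.integral_sub (by simp) (by simp)]
    simp
    norm_num
  · exact (continuous_const.sub continuous_id).continuousOn.integrableOn_Icc.mono_set Ioo_subset_Icc_self
  · intro x hx
    have := hx.2
    show (0:ℝ) ≤ 1 - x
    linarith

theorem image_Std (h : H) : lin T h '' Std = Op T h := by
  have hp := ar_pos' T h
  ext z
  constructor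
  · rintro ⟨w, hw, rfl⟩
    obtain ⟨h1, h2, h3⟩ := hw
    have e0 : T.a0 h (lin T h w) = w.im * ar T h := by
      unfold lin Tri.a0 ar
      simp only [LinearMap.coe_mk, AddHom.coe_mk]
      rw [v2_eq]
      simp only [cr, Complex.real_smul, Complex.add_re, Complex.add_im, Complex.re_ofReal_mul,
        Complex.im_ofReal_mul, Complex.neg_re, Complex.neg_im, Complex.sub_re, Complex.sub_im]
      ring
    have e2 : T.a2 h (lin T h w) = w.re * ar T h := by
      unfold lin Tri.a2 ar
      simp only [LinearMap.coe_mk, AddHom.coe_mk]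
      rw [v2_eq]
      simp only [cr, Complex.real_smul, Complex.add_re, Complex.add_im, Complex.re_ofReal_mul,
        Complex.im_ofReal_mul, Complex.neg_re, Complex.neg_im, Complex.sub_re, Complex.sub_im]
      ring
    have e1 : T.a1 h (lin T h w) = (1 - w.re - w.im) * ar T h := by
      have := sum_a T h (lin T h w)
      rw [e0, e2] at this
      linarith
    show 0 < T.a0 h _ ∧ 0 < T.a1 h _ ∧ 0 < T.a2 h _
    rw [e0, e1, e2]
    exact ⟨mul_pos h2 hp, mul_pos (by linarith) hp, mul_pos h1 hp⟩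
  · intro hz
    have hz' : 0 < T.a0 h z ∧ 0 < T.a1 h z ∧ 0 < T.a2 h z := hz
    refine ⟨⟨T.a2 h z / ar T h, T.a0 h z / ar T h⟩, ⟨div_pos hz'.2.2 hp, div_pos hz'.1 hp, ?_⟩, ?_⟩
    · show T.a2 h z / ar T h + T.a0 h z / ar T h < 1
      rw [← add_div, div_lt_one hp]
      have := sum_a T h z
      linarith
    · exact (bary T h z).symm

end BE1

theorem volume_Op (h : H) : volume (Op T h) = ENNReal.ofReal (ar T h / 2) := by
  have hp := ar_pos' T h
  rw [← image_Std T h, Measure.addHaar_image_linearMap, det_lin, volume_Std, abs_of_pos hp,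
    ← ENNReal.ofReal_mul hp.le]
  congr 1
  ring

theorem Cl_subset_closure (h : H) : Cl T h ⊆ closure (Op T h) := by
  intro z hz
  have hz' : 0 ≤ T.a0 h z ∧ 0 ≤ T.a1 h z ∧ 0 ≤ T.a2 h z := hz
  have hp := ar_pos' T h
  have hlim : Filter.Tendsto (fun n : ℕ => (1 - 1 / ((n : ℝ) + 1)) • z + (1 / ((n : ℝ) + 1)) • cen T h)
      Filter.atTop (nhds ((1 - 0 : ℝ) • z + (0 : ℝ) • cen T h)) := by
    have h1 := tendsto_one_div_add_atTop_nhds_zero_nat (𝕜 := ℝ)
    exact ((tendsto_const_nhds.sub h1).smul_const z).add (h1.smul_const (cen T h))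
  rw [sub_zero, one_smul, zero_smul, add_zero] at hlim
  refine mem_closure_of_tendsto hlim (Filter.Eventually.of_forall fun n => ?_)
  have hn : 0 < 1 / ((n : ℝ) + 1) := by positivity
  have hn1 : 0 ≤ 1 - 1 / ((n : ℝ) + 1) := by
    rw [sub_nonneg, div_le_one (by positivity)]
    have : (0:ℝ) ≤ n := Nat.cast_nonneg n
    linarith
  show 0 < T.a0 h _ ∧ 0 < T.a1 h _ ∧ 0 < T.a2 h _
  have hst : (1 - 1 / ((n : ℝ) + 1)) + 1 / ((n : ℝ) + 1) = 1 := by ring
  rw [aff_a0 T h _ _ _ _ hst, aff_a1 T h _ _ _ _ hst, aff_a2 T h _ _ _ _ hst, a0_cen, a1_cen, a2_cen]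
  exact ⟨add_pos_of_nonneg_of_pos (mul_nonneg hn1 hz'.1) (mul_pos hn (by positivity)),
    add_pos_of_nonneg_of_pos (mul_nonneg hn1 hz'.2.1) (mul_pos hn (by positivity)),
    add_pos_of_nonneg_of_pos (mul_nonneg hn1 hz'.2.2) (mul_pos hn (by positivity))⟩

theorem volume_Cl_diff_Op (h : H) : volume (Cl T h \ Op T h) = 0 := by
  have h1 : Cl T h \ Op T h ⊆ frontier (Op T h) := by
    rw [(isOpen_Op T h).frontier_eq]
    exact Set.diff_subset_diff_left (Cl_subset_closure T h)
  exact measure_mono_null h1 ((convex_Op T h).addHaar_frontier volume)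

end

end Pool.Agent.Helper72.TF
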