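import Pool.Agent.Helper72.TF.BE1

/-! Block TF-BE2, see the header of BE1.lean. (`Fn_pl` needs `[Finite H]`: for infinite `H` the
slopes of `pl T c` may be unbounded.) -/

set_option autoImplicit false

open MeasureTheory Set Pool.Agent.Helper87.LS Pool.Agent.Helper79.G

namespace Pool.Agent.Helper72.TF

noncomputable section

variable {H : Type} (T : Tri H)

/-! ### TF-BE2: `Fn` -/

theorem Fn.zero : Fn T 0 := by
  refine ⟨⟨0, fun h => (LipschitzWith.const (0 : ℝ)).lipschitzOnWith⟩, fun h z _ => rfl,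
    fun h t _ => rfl⟩

variable {T}

theorem Fn.add {f g : H → ℂ → ℝ} (hf : Fn T f) (hg : Fn T g) : Fn T (f + g) := by
  obtain ⟨C, hC⟩ := hf.lip
  obtain ⟨D, hD⟩ := hg.lip
  refine ⟨⟨C + D, fun h => ?_⟩, fun h z hz => ?_, fun h t ht => ?_⟩
  · exact (hC h).add (hD h)
  · show f (T.next h) (z - T.vec h) + g (T.next h) (z - T.vec h) = f h z + g h z
    rw [hf.rot h z hz, hg.rot h z hz]
  · show f (T.opp h) (t * T.vec h - T.vec h) + g (T.opp h) (t * T.vec h - T.vec h)
      = f h (t * T.vec h) + g h (t * T.vec h)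
    rw [hf.edge h t ht, hg.edge h t ht]

theorem Fn.neg {f : H → ℂ → ℝ} (hf : Fn T f) : Fn T (-f) := by
  obtain ⟨C, hC⟩ := hf.lip
  refine ⟨⟨C, fun h => ?_⟩, fun h z hz => ?_, fun h t ht => ?_⟩
  · exact (hC h).neg
  · show -f (T.next h) (z - T.vec h) = -f h z
    rw [hf.rot h z hz]
  · show -f (T.opp h) (t * T.vec h - T.vec h) = -f h (t * T.vec h)
    rw [hf.edge h t ht]

theorem Fn.smul {f : H → ℂ → ℝ} (hf : Fn T f) (c : ℝ) : Fn T (c • f) := by
  obtain ⟨C, hC⟩ := hf.lip
  refine ⟨⟨‖c‖₊ * C, fun h => ?_⟩, fun h z hz => ?_, fun h t ht => ?_⟩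
  · intro z hz w hw
    show edist (c * f h z) (c * f h w) ≤ _
    rw [← smul_eq_mul, ← smul_eq_mul, edist_smul₀]
    have := hC h hz hw
    rw [ENNReal.coe_mul, mul_assoc, ENNReal.smul_def, smul_eq_mul]
    gcongr
  · show c * f (T.next h) (z - T.vec h) = c * f h z
    rw [hf.rot h z hz]
  · show c * f (T.opp h) (t * T.vec h - T.vec h) = c * f h (t * T.vec h)
    rw [hf.edge h t ht]

variable (T)

/-- The affine interpolation of a vertex function. -/
def pl (c : H → ℝ) : H → ℂ → ℝ := fun h z => c h + dot (omega T (dv T c) h) z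

namespace BE2

theorem dot_sub (w a b : ℂ) : dot w (a - b) = dot w a - dot w b := by
  simp only [dot, Complex.sub_re, Complex.sub_im]; ring

theorem dot_mul (w a : ℂ) (t : ℝ) : dot w (t * a) = t * dot w a := by
  simp only [dot, Complex.re_ofReal_mul, Complex.im_ofReal_mul]; ring

theorem abs_dot_le (w a : ℂ) : |dot w a| ≤ ‖w‖ * ‖a‖ := by
  have h1 : dot w a = ((starRingEnd ℂ) w * a).re := by
    simp only [dot, Complex.mul_re, Complex.conj_re, Complex.conj_im]; ring
  rw [h1]
  refine (Complex.abs_re_le_norm _).trans ?_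
  rw [norm_mul, RCLike.norm_conj]

end BE2

open BE2

theorem Fn_pl [Finite H] {c : H → ℝ} (hc : c ∈ Vert T) : Fn T (pl T c) := by
  have hc' : ∀ h, c (T.next (T.opp h)) = c h := hc
  have hx : dv T c ∈ Coch T := cob_le_coch T ⟨c, hc, rfl⟩
  have hd : ∀ h, dv T c h = c (T.next h) - c h := fun h => rfl
  refine ⟨?_, fun h z hz => ?_, fun h t ht => ?_⟩
  · obtain ⟨M, hM⟩ := (Set.finite_range fun h => ‖omega T (dv T c) h‖₊).bddAbove
    refine ⟨M, fun h => LipschitzOnWith.of_dist_le_mul fun z _ w _ => ?_⟩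
    have h1 : ‖omega T (dv T c) h‖₊ ≤ M := hM ⟨h, rfl⟩
    have h1' : ‖omega T (dv T c) h‖ ≤ M := by exact_mod_cast h1
    have h2 : pl T c h z - pl T c h w = dot (omega T (dv T c) h) (z - w) := by
      rw [dot_sub]; unfold pl; ring
    rw [Real.dist_eq, h2, dist_eq_norm]
    exact (abs_dot_le _ _).trans (mul_le_mul_of_nonneg_right h1' (norm_nonneg _))
  · unfold pl
    rw [omega_next T hx h, dot_sub, dot_omega, hd]
    ring
  · unfold pl
    have h1 : (t : ℂ) * T.vec h - T.vec h = ((1 - t : ℝ) : ℂ) * T.vec (T.opp h) := by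
      rw [T.vec_opp]; push_cast; ring
    have h2 : c (T.next h) = c (T.opp h) := by
      have := hc' (T.opp h)
      rwa [T.opp2] at this
    rw [h1, dot_mul, dot_mul, dot_omega, dot_omega, hd, hd, hc' h, h2]
    ring

theorem grad_pl (c : H → ℝ) (h : H) (z : ℂ) : grad (pl T c h) z = omega T (dv T c) h := by
  set w := omega T (dv T c) h with hw
  let L : ℂ →L[ℝ] ℝ := w.re • Complex.reCLM + w.im • Complex.imCLM
  have h1 : pl T c h = fun z => c h + L z := by
    funext z
    simp only [pl, dot, L, ← hw]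
    simp
  have h2 : HasFDerivAt (pl T c h) L z := by
    rw [h1]
    exact L.hasFDerivAt.const_add _
  unfold grad
  rw [h2.fderiv]
  apply Complex.ext <;> simp [L]

end

end Pool.Agent.Helper72.TF
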