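import Pool.Agent.Helper72.TF.BE2

/-! Block TF-BE2b, see the header of BE1.lean. -/

set_option autoImplicit false

open MeasureTheory Set Pool.Agent.Helper87.LS Pool.Agent.Helper79.G

namespace Pool.Agent.Helper72.TF

noncomputable section

variable {H : Type} {T : Tri H}

theorem Fn.ae_diff {f : H → ℂ → ℝ} (hf : Fn T f) (h : H) :
    ∀ᵐ z ∂volume.restrict (Op T h), DifferentiableAt ℝ (f h) z := by
  obtain ⟨C, hC⟩ := hf.lip
  have h1 : LipschitzOnWith C (f h) (Op T h) := (hC h).mono (Op_subset_Cl T h)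
  have h2 := h1.ae_differentiableWithinAt (μ := (volume : Measure ℂ)) (isOpen_Op T h).measurableSet
  have h3 : ∀ᵐ z ∂volume.restrict (Op T h), z ∈ Op T h :=
    ae_restrict_mem (isOpen_Op T h).measurableSet
  filter_upwards [h2, h3] with z hz hm
  exact hz.differentiableAt ((isOpen_Op T h).mem_nhds hm)

theorem Fn.grad_le {f : H → ℂ → ℝ} (hf : Fn T f) : ∃ C : ℝ, 0 ≤ C ∧ ∀ h, ∀ z ∈ Op T h,
    ‖grad (f h) z‖ ≤ C := by
  obtain ⟨C, hC⟩ := hf.lip
  refine ⟨2 * C, by positivity, fun h z hz => ?_⟩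
  have h1 : ‖fderiv ℝ (f h) z‖ ≤ C :=
    norm_fderiv_le_of_lipschitzOn ℝ ((isOpen_Op T h).mem_nhds hz)
      ((hC h).mono (Op_subset_Cl T h))
  have h2 : |fderiv ℝ (f h) z 1| ≤ C := by
    have := (fderiv ℝ (f h) z).le_opNorm 1
    rw [norm_one, mul_one, Real.norm_eq_abs] at this
    exact this.trans h1
  have h3 : |fderiv ℝ (f h) z Complex.I| ≤ C := by
    have := (fderiv ℝ (f h) z).le_opNorm Complex.I
    rw [Complex.norm_I, mul_one, Real.norm_eq_abs] at this
    exact this.trans h1
  have h4 := Complex.norm_le_abs_re_add_abs_im (grad (f h) z)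
  simp only [grad] at h4 ⊢
  linarith

theorem grad_measurable61 (f : ℂ → ℝ) : Measurable (grad f) := by
  have h1 := measurable_fderiv_apply_const ℝ f (1 : ℂ)
  have h2 := measurable_fderiv_apply_const ℝ f Complex.I
  have : grad f = fun z => ((fderiv ℝ f z 1 : ℝ) : ℂ) + ((fderiv ℝ f z Complex.I : ℝ) : ℂ) *
      Complex.I := by
    funext z
    apply Complex.ext <;> simp [grad]
  rw [this]
  exact (Complex.measurable_ofReal.comp h1).add
    ((Complex.measurable_ofReal.comp h2).mul_const Complex.I)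

theorem Fn.aesm {f : H → ℂ → ℝ} (hf : Fn T f) (h : H) :
    AEStronglyMeasurable (grad (f h)) (volume.restrict (Op T h)) :=
  (grad_measurable61 (f h)).aestronglyMeasurable

theorem volume_Op_lt_top61 (T : Tri H) (h : H) : volume (Op T h) < ⊤ :=
  (measure_mono (Op_subset_Cl T h)).trans_lt (isCompact_Cl T h).measure_lt_top

theorem Fn.intOn {f : H → ℂ → ℝ} (hf : Fn T f) (h : H) (w : ℂ) :
    IntegrableOn (fun z => ‖w + grad (f h) z‖ ^ 2) (Op T h) := by
  obtain ⟨C, hC0, hC⟩ := hf.grad_le
  have hm : Measurable fun z => ‖w + grad (f h) z‖ ^ 2 :=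
    ((measurable_const.add (grad_measurable61 (f h))).norm).pow_const 2
  refine Measure.integrableOn_of_bounded (volume_Op_lt_top61 T h).ne hm.aestronglyMeasurable
    (M := (‖w‖ + C) ^ 2) ?_
  have h3 : ∀ᵐ z ∂volume.restrict (Op T h), z ∈ Op T h :=
    ae_restrict_mem (isOpen_Op T h).measurableSet
  filter_upwards [h3] with z hz
  rw [Real.norm_eq_abs, abs_of_nonneg (by positivity)]
  have h1 := norm_add_le w (grad (f h) z)
  have h2 := hC h z hz
  exact pow_le_pow_left₀ (norm_nonneg _) (by linarith) 2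

/-- The energy is the same for the three darts of a triangle. -/
theorem en_term_next {f : H → ℂ → ℝ} (hf : Fn T f) {x : H → ℝ} (hx : x ∈ Coch T) (h : H) :
    ∫ z in Op T (T.next h), ‖omega T x (T.next h) + grad (f (T.next h)) z‖ ^ 2
      = ∫ z in Op T h, ‖omega T x h + grad (f h) z‖ ^ 2 := by
  rw [omega_next T hx h]
  have hmp : MeasurePreserving (fun z : ℂ => z - T.vec h) volume volume :=
    measurePreserving_sub_right volume (T.vec h)
  have hemb : MeasurableEmbedding (fun z : ℂ => z - T.vec h) :=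
    (MeasurableEquiv.subRight (T.vec h)).measurableEmbedding
  have hpre : (fun z : ℂ => z - T.vec h) ⁻¹' (Op T (T.next h)) = Op T h := by
    ext z
    exact Op_next T h z
  have key := hmp.setIntegral_preimage_emb hemb
    (fun z => ‖omega T x h + grad (f (T.next h)) z‖ ^ 2) (Op T (T.next h))
  rw [hpre] at key
  rw [← key]
  refine setIntegral_congr_fun (isOpen_Op T h).measurableSet fun z hz => ?_
  have hev : (f h) =ᶠ[nhds z] fun y => f (T.next h) (y - T.vec h) := by
    filter_upwards [(isOpen_Op T h).mem_nhds hz] with y hy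
    exact (hf.rot h y (Op_subset_Cl T h hy)).symm
  have hd : fderiv ℝ (f h) z = fderiv ℝ (f (T.next h)) (z - T.vec h) := by
    rw [hev.fderiv_eq]
    exact fderiv_comp_sub (𝕜 := ℝ) (f := f (T.next h)) (x := z) (T.vec h)
  simp only [grad, hd]

end

end Pool.Agent.Helper72.TF
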