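import Pool.Agent.Helper72.TF.BE4

/-! Block TF-BE5, see the header of BE1.lean. -/

set_option autoImplicit false

open MeasureTheory Set Pool.Agent.Helper87.LS Pool.Agent.Helper79.G

namespace Pool.Agent.Helper72.TF

noncomputable section

/-! ### TF-BE5: openness -/

/-- the integrand -/
private def h33phi (s : ℝ) (p : ℝ × ℝ) (w : ℂ) : ℝ :=
  (Real.exp (-s) * w.re) ^ 2 + (Real.exp s * (w.im + p.1 + p.2 * w.re)) ^ 2

private theorem h33phi_cont (s : ℝ) : Continuous (fun q : (ℝ × ℝ) × ℂ => h33phi s q.1 q.2) := by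
  unfold h33phi
  have h1 : Continuous (fun q : (ℝ × ℝ) × ℂ => q.2.re) := Complex.continuous_re.comp continuous_snd
  have h2 : Continuous (fun q : (ℝ × ℝ) × ℂ => q.2.im) := Complex.continuous_im.comp continuous_snd
  fun_prop

private theorem h33phi_bound (s : ℝ) {p : ℝ × ℝ} {w : ℂ} {K C : ℝ} (hK1 : |p.1| ≤ K)
    (hK2 : |p.2| ≤ K) (hw : ‖w‖ ≤ C) :
    ‖h33phi s p w‖ ≤ (Real.exp (-s) * C) ^ 2 + (Real.exp s * (C + K + K * C)) ^ 2 := by
  have hre : |w.re| ≤ C := (Complex.abs_re_le_norm w).trans hw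
  have him : |w.im| ≤ C := (Complex.abs_im_le_norm w).trans hw
  have hC : 0 ≤ C := (norm_nonneg w).trans hw
  have hK : 0 ≤ K := (abs_nonneg _).trans hK1
  have h0 : 0 ≤ h33phi s p w := by unfold h33phi; positivity
  rw [Real.norm_of_nonneg h0]
  unfold h33phi
  have e1 : |Real.exp (-s) * w.re| ≤ Real.exp (-s) * C := by
    rw [abs_mul, abs_of_pos (Real.exp_pos _)]
    exact mul_le_mul_of_nonneg_left hre (Real.exp_pos _).le
  have e2 : |Real.exp s * (w.im + p.1 + p.2 * w.re)| ≤ Real.exp s * (C + K + K * C) := by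
    rw [abs_mul, abs_of_pos (Real.exp_pos _)]
    refine mul_le_mul_of_nonneg_left ?_ (Real.exp_pos _).le
    have h3 : |p.2 * w.re| ≤ K * C := by
      rw [abs_mul]; exact mul_le_mul hK2 hre (abs_nonneg _) hK
    have h4 : |w.im + p.1 + p.2 * w.re| ≤ |w.im| + |p.1| + |p.2 * w.re| := by
      refine (abs_add_le _ _).trans ?_
      have := abs_add_le w.im p.1
      linarith
    linarith
  have f1 := sq_le_sq' (by have := abs_le.1 e1; linarith [this.1]) (abs_le.1 e1).2
  have f2 := sq_le_sq' (by have := abs_le.1 e2; linarith [this.1]) (abs_le.1 e2).2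
  linarith

private theorem h33_contInt {H : Type} {T : Tri H} {g : H → ℂ → ℝ} (hg : Fn T g) (s : ℝ) (h : H)
    (w₀ : ℂ) : Continuous (fun p : ℝ × ℝ => ∫ z in Op T h, h33phi s p (w₀ + grad (g h) z)) := by
  obtain ⟨C, hC0, hC⟩ := hg.grad_le
  rw [continuous_iff_continuousAt]
  intro p₀
  set K : ℝ := |p₀.1| + |p₀.2| + 1 with hKdef
  have hvol : volume (Op T h) < ⊤ := by rw [volume_Op]; exact ENNReal.ofReal_lt_top
  haveI : IsFiniteMeasure (volume.restrict (Op T h)) :=
    ⟨by rw [Measure.restrict_apply_univ]; exact hvol⟩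
  refine MeasureTheory.continuousAt_of_dominated
    (bound := fun _ => (Real.exp (-s) * (‖w₀‖ + C)) ^ 2 +
      (Real.exp s * ((‖w₀‖ + C) + K + K * (‖w₀‖ + C))) ^ 2) ?_ ?_ (integrable_const _) ?_
  · refine Filter.Eventually.of_forall fun p => ?_
    have hm : AEStronglyMeasurable (fun z => w₀ + grad (g h) z) (volume.restrict (Op T h)) :=
      aestronglyMeasurable_const.add (hg.aesm h)
    have hc : Continuous (fun w : ℂ => h33phi s p w) :=
      (h33phi_cont s).comp (by fun_prop : Continuous fun w : ℂ => ((p, w) : (ℝ × ℝ) × ℂ))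
    exact hc.comp_aestronglyMeasurable hm
  · have hball : ∀ᶠ p in nhds p₀, dist p p₀ < 1 := Metric.ball_mem_nhds p₀ one_pos
    refine hball.mono fun p hp => ?_
    refine (ae_restrict_iff' (isOpen_Op T h).measurableSet).2 (Filter.Eventually.of_forall ?_)
    intro z hz
    have hw : ‖w₀ + grad (g h) z‖ ≤ ‖w₀‖ + C := (norm_add_le _ _).trans (by linarith [hC h z hz])
    have hp1 : |p.1 - p₀.1| < 1 := by
      have : dist p.1 p₀.1 ≤ dist p p₀ := le_max_left _ _
      rw [Real.dist_eq] at this; linarith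
    have hp2 : |p.2 - p₀.2| < 1 := by
      have : dist p.2 p₀.2 ≤ dist p p₀ := le_max_right _ _
      rw [Real.dist_eq] at this; linarith
    have hq1 : |p.1| ≤ K := by
      have := abs_add_le (p.1 - p₀.1) p₀.1
      rw [sub_add_cancel] at this
      have := abs_nonneg p₀.2
      linarith
    have hq2 : |p.2| ≤ K := by
      have := abs_add_le (p.2 - p₀.2) p₀.2
      rw [sub_add_cancel] at this
      have := abs_nonneg p₀.1
      linarith
    exact h33phi_bound s hq1 hq2 hw
  · refine Filter.Eventually.of_forall fun z => ?_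
    have hc : Continuous (fun p : ℝ × ℝ => h33phi s p (w₀ + grad (g h) z)) :=
      (h33phi_cont s).comp (by fun_prop :
        Continuous fun p : ℝ × ℝ => ((p, w₀ + grad (g h) z) : (ℝ × ℝ) × ℂ))
    exact hc.continuousAt

private theorem h33_en (S : Surf) (s c u : ℝ) (m : Fin S.n × Fin 3 → ℝ)
    (f : Fin S.n × Fin 3 → ℂ → ℝ) :
    en (lev (ofSurf S) s u) (fun h => c * (S.vec h).im - m h) f =
      (∑ h, ∫ z in Op (ofSurf S) h, h33phi s (c, u)
        (-omega (ofSurf S) m h + grad (fun z => f h (gsu s u z)) z)) / 3 := by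
  unfold lev
  rw [en_act]
  congr 1
  refine Finset.sum_congr rfl fun h _ => ?_
  refine integral_congr_ae (Filter.Eventually.of_forall fun z => ?_)
  have hom : omega (ofSurf S) (fun h => c * (S.vec h).im - m h) h =
      (c : ℂ) * Complex.I - omega (ofSurf S) m h := by
    have e1 : (fun h => c * (S.vec h).im - m h) =
        c • cst (ofSurf S) Complex.I + (-1 : ℝ) • m := by
      ext h
      simp only [cst, dot, Pi.add_apply, Pi.smul_apply, smul_eq_mul, Complex.I_re, Complex.I_im,
        zero_mul, zero_add, one_mul]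
      show _ = c * (S.vec h).im + -1 * m h
      ring
    rw [e1, omega_add, omega_smul, omega_smul, omega_cst]
    push_cast
    ring
  simp only [hom]
  rw [adj_gsu, ← Complex.normSq_eq_norm_sq, Complex.normSq_apply]
  simp only [h33phi, Complex.add_re, Complex.add_im, Complex.sub_re, Complex.sub_im,
    Complex.neg_re, Complex.neg_im, Complex.mul_re, Complex.mul_im, Complex.ofReal_re,
    Complex.ofReal_im, Complex.I_re, Complex.I_im]
  ring

theorem isOpen_close (S : Surf) (s δ : ℝ) : IsOpen {p : ℝ × ℝ | Close S s p.2 p.1 δ} := by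
  have key : {p : ℝ × ℝ | Close S s p.2 p.1 δ} =
      ⋃ m ∈ CochZ (ofSurf S), ⋃ g ∈ {g : Fin S.n × Fin 3 → ℂ → ℝ | Fn (ofSurf S) g},
        {p : ℝ × ℝ | (∑ h, ∫ z in Op (ofSurf S) h, h33phi s p
          (-omega (ofSurf S) m h + grad (g h) z)) / 3 < δ ^ 2} := by
    ext p
    obtain ⟨c, u⟩ := p
    simp only [mem_iUnion, exists_prop]
    constructor
    · rintro ⟨m, hm, hlt⟩
      obtain ⟨f, hf, hen⟩ := exists_en_lt hlt
      refine ⟨m, hm, fun h z => f h (gsu s u z), ?_, ?_⟩
      · exact (Fn_act (gsu s u) (det_gsu s u) f).1 hf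
      · have := hen
        rw [h33_en] at this
        exact this
    · rintro ⟨m, hm, g, hg, hlt⟩
      refine ⟨m, hm, ?_⟩
      set f : Fin S.n × Fin 3 → ℂ → ℝ := fun h w => g h ((gsu s u).symm w) with hf
      have hfg : ∀ h, (fun z => f h (gsu s u z)) = g h := by
        intro h; ext z; simp [hf]
      have hfn : Fn (lev (ofSurf S) s u) f := by
        refine (Fn_act (gsu s u) (det_gsu s u) f).2 ?_
        have : (fun h z => f h (gsu s u z)) = g := by ext h z; simp [hf]
        rw [this]; exact hg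
      refine lt_of_le_of_lt (hn2_le hfn _) ?_
      rw [h33_en]
      simp only [hfg]
      exact hlt
  rw [key]
  refine isOpen_iUnion fun m => isOpen_iUnion fun _ => isOpen_iUnion fun g => isOpen_iUnion fun hg =>
    ?_
  refine isOpen_lt ?_ continuous_const
  refine Continuous.div_const ?_ _
  exact continuous_finsetSum _ fun h _ => h33_contInt hg s h _

end

end Pool.Agent.Helper72.TF
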