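import Pool.Agent.Helper72.TF.BA2
import Pool.Agent.Helper79.G.Flip

/-!
# BASE, block TF-BF: flips and relabellings carry cocycles, functions and the Hodge norm

`flipC T e x` is the transport of a cocycle: only the values at `e`, `opp e` change, in the same way
as `vec` changes. `flipV T e c` is the transport of a function of corners (after the flip the dart
`e` starts at `S = start of prev (opp e)` and `opp e` starts at `R = start of prev e`).

TF-BF1 (algebra): case analysis over the six darts (`Tri.cases_six`, `flipNext_*`, `flipVec_*`).
The inverse of `flipC` on cocycles: `x e = -(y (next e) + y (prev e))` (old `next`, `prev`).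

TF-BF3 (functions). Notation of Helper79/G/Flip.lean: quadrilateral `P S Q R`, chart with origin `P`:
`P = 0, Q = vec e, R = -vec b, S = vec c`, closed quadrilateral
`K = {z | z ∈ Cl T e ∨ z - vec e ∈ Cl T (opp e)}`, convex. For `f ∈ Fn T` and `x ∈ Coch T` put
`g z = dot (omega T x e) z + f e z` on `Cl T e` and
`g z = x e + dot (omega T x (opp e)) (z - vec e) + f (opp e) (z - vec e)` on the other triangle; the
two formulas agree on the edge (`dot omega (vec e) = x e`, `Fn.edge`), and `g` is Lipschitz on `K`
(a segment from one triangle to the other meets the common edge). The new function is
`f' h = f h` for `h` outside the quadrilateral and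
`f' h z = g (p + z) - v - dot (omega T' x' h) z` for the six darts, where `(p, v)` is
`(S, x c)` for `e, d`;  `(R, -x b)` for `opp e, b`;  `(P, 0)` for `c`;  `(Q, x e)` for `a`.
(`omega T' x' h` is the gradient of the affine function with values `0, x e, -x b, x c` at
`P, Q, R, S` on the new triangle.) `f'` is in `Fn T'`: on the four sides of the quadrilateral the new
functions coincide with the old ones (both affine functions have the same values at the end points),
on the new diagonal both come from `g`. Energy: `omega T' x' h + grad (f' h) z = grad g (p + z)`
almost everywhere, the two old open triangles and the two new ones cover the quadrilateral up to null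
sets, hence `en T' x' f' = en T x f`. Conversely the same construction from `T'` to `T`
(or: `flip` twice is a relabelling, `Rel.flip_flip` below, and `hn2` is invariant under `Rel`).
-/

set_option autoImplicit false

open MeasureTheory Set Pool.Agent.Helper87.LS Pool.Agent.Helper79.G

namespace Pool.Agent.Helper72.TF

noncomputable section

variable {H : Type} (T : Tri H)

open Classical in
/-- Transport of cocycles by the flip of `e`. -/
def flipC (e : H) : (H → ℝ) →ₗ[ℝ] (H → ℝ) where
  toFun x h := if h = e then x (T.prev (T.opp e)) + x (T.next e)
    else if h = T.opp e then -(x (T.prev (T.opp e)) + x (T.next e)) else x h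
  map_add' x y := by
    ext h; simp only [Pi.add_apply]; split_ifs <;> ring
  map_smul' c x := by
    ext h; simp only [Pi.smul_apply, smul_eq_mul, RingHom.id_apply]; split_ifs <;> ring

open Classical in
/-- Transport of functions of corners by the flip of `e`. -/
def flipV (e : H) (c : H → ℝ) : H → ℝ := fun h =>
  if h = e then c (T.prev (T.opp e)) else if h = T.opp e then c (T.prev e) else c h

end

end Pool.Agent.Helper72.TF
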