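import Pool.Agent.Helper72.TF.BF0

/-! Block TF-BF1, see the header of BF0.lean. -/

set_option autoImplicit false

open MeasureTheory Set Pool.Agent.Helper87.LS Pool.Agent.Helper79.G

namespace Pool.Agent.Helper72.TF

noncomputable section

variable {H : Type} (T : Tri H)

/-! ### TF-BF1 -/

private theorem flipC_e (e : H) (x : H → ℝ) :
    flipC T e x e = x (T.prev (T.opp e)) + x (T.next e) := by
  simp [flipC]

private theorem flipC_e' (e : H) (x : H → ℝ) :
    flipC T e x (T.opp e) = -(x (T.prev (T.opp e)) + x (T.next e)) := by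
  simp [flipC, T.opp_ne e]

private theorem flipC_ne {e h : H} (x : H → ℝ) (h1 : h ≠ e) (h2 : h ≠ T.opp e) :
    flipC T e x h = x h := by
  simp [flipC, h1, h2]

private theorem flipV_e (e : H) (c : H → ℝ) :
    flipV T e c e = c (T.prev (T.opp e)) := by
  simp [flipV]

private theorem flipV_e' (e : H) (c : H → ℝ) :
    flipV T e c (T.opp e) = c (T.prev e) := by
  simp [flipV, T.opp_ne e]

private theorem flipV_ne {e h : H} (c : H → ℝ) (h1 : h ≠ e) (h2 : h ≠ T.opp e) :
    flipV T e c h = c h := by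
  simp [flipV, h1, h2]

private theorem fnext (e : H) (he : T.Flippable e) (h : H) :
    (T.flip e he).next h = T.flipNext e h := rfl

private theorem fopp (e : H) (he : T.Flippable e) (h : H) :
    (T.flip e he).opp h = T.opp h := rfl

private theorem fvec (e : H) (he : T.Flippable e) (h : H) :
    (T.flip e he).vec h = T.flipVec e h := rfl

private theorem coch_opp {x : H → ℝ} (hx : x ∈ Coch T) (h : H) : x (T.opp h) = -x h := hx.1 h

private theorem coch_tri {x : H → ℝ} (hx : x ∈ Coch T) (h : H) :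
    x h + x (T.next h) + x (T.prev h) = 0 := hx.2 h

private theorem opp_ne_of {e h : H} (h2 : h ≠ T.opp e) : T.opp h ≠ e := by
  intro h3; exact h2 (by rw [← h3, T.opp2])

private theorem opp_ne_opp {e h : H} (h1 : h ≠ e) : T.opp h ≠ T.opp e := by
  intro h3; exact h1 (T.opp.injective h3)

theorem flipC_mem (e : H) (he : T.Flippable e) {x : H → ℝ} (hx : x ∈ Coch T) :
    flipC T e x ∈ Coch (T.flip e he) := by
  have hs := T.six e
  have t1 := coch_tri T hx e
  have t2 := coch_tri T hx (T.opp e)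
  have t3 := coch_opp T hx e
  constructor
  · intro h
    rw [fopp]
    by_cases h1 : h = e
    · subst h1; rw [flipC_e', flipC_e]
    by_cases h2 : h = T.opp e
    · subst h2; rw [T.opp2, flipC_e', flipC_e]; ring
    rw [flipC_ne T x h1 h2, flipC_ne T x (opp_ne_of T h2) (opp_ne_opp T h1)]
    exact coch_opp T hx h
  · intro h
    simp only [fnext]
    rcases T.cases_six e h with ho | rfl | rfl | rfl | rfl | rfl | rfl
    · rw [T.flipNext_out ho, T.flipNext_out ho.next, flipC_ne T x ho.1 ho.2.2.2.1,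
        flipC_ne T x ho.next.1 ho.next.2.2.2.1, flipC_ne T x ho.next.next.1 ho.next.next.2.2.2.1]
      exact hx.2 h
    · rw [T.flipNext_e, T.flipNext_b, flipC_e, flipC_ne T x hs.1 (Ne.symm hs.2.2.2.2.2.1),
        flipC_ne T x hs.2.2.2.2.2.2.1 hs.2.2.2.2.2.2.2.2.2.1]
      linarith
    · rw [T.flipNext_a, T.flipNext_e', flipC_e', flipC_ne T x hs.2.1 (Ne.symm hs.2.2.2.2.1),
        flipC_ne T x hs.2.2.2.2.2.2.2.2.2.2.1 hs.2.2.2.2.2.2.2.2.2.2.2.2.2.1]
      ring
    · rw [T.flipNext_b, T.flipNext_c, flipC_e, flipC_ne T x hs.1 (Ne.symm hs.2.2.2.2.2.1),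
        flipC_ne T x hs.2.2.2.2.2.2.1 hs.2.2.2.2.2.2.2.2.2.1]
      linarith
    · rw [T.flipNext_e', T.flipNext_d, flipC_e', flipC_ne T x hs.2.1 (Ne.symm hs.2.2.2.2.1),
        flipC_ne T x hs.2.2.2.2.2.2.2.2.2.2.1 hs.2.2.2.2.2.2.2.2.2.2.2.2.2.1]
      ring
    · rw [T.flipNext_c, T.flipNext_e, flipC_e, flipC_ne T x hs.1 (Ne.symm hs.2.2.2.2.2.1),
        flipC_ne T x hs.2.2.2.2.2.2.1 hs.2.2.2.2.2.2.2.2.2.1]
      linarith
    · rw [T.flipNext_d, T.flipNext_a, flipC_e', flipC_ne T x hs.2.1 (Ne.symm hs.2.2.2.2.1),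
        flipC_ne T x hs.2.2.2.2.2.2.2.2.2.2.1 hs.2.2.2.2.2.2.2.2.2.2.2.2.2.1]
      ring

open Classical in
theorem flipC_surj (e : H) (he : T.Flippable e) {y : H → ℝ} (hy : y ∈ Coch (T.flip e he)) :
    ∃ x ∈ Coch T, flipC T e x = y := by
  have hs := T.six e
  have u1 : y e + y (T.prev e) + y (T.next (T.opp e)) = 0 := by
    have := hy.2 e
    rwa [fnext, fnext, T.flipNext_e, T.flipNext_b] at this
  have u2 : y (T.opp e) + y (T.prev (T.opp e)) + y (T.next e) = 0 := by
    have := hy.2 (T.opp e)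
    rwa [fnext, fnext, T.flipNext_e', T.flipNext_d] at this
  have u3 : y (T.opp e) = -y e := hy.1 e
  let x : H → ℝ := fun h => if h = e then -(y (T.next e) + y (T.prev e))
    else if h = T.opp e then y (T.next e) + y (T.prev e) else y h
  have xe : x e = -(y (T.next e) + y (T.prev e)) := by simp [x]
  have xe' : x (T.opp e) = y (T.next e) + y (T.prev e) := by simp [x, T.opp_ne e]
  have xn : ∀ {h : H}, h ≠ e → h ≠ T.opp e → x h = y h := by
    intro h h1 h2; simp [x, h1, h2]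
  have xa := xn hs.2.1 (Ne.symm hs.2.2.2.2.1)
  have xb := xn hs.1 (Ne.symm hs.2.2.2.2.2.1)
  have xc := xn hs.2.2.2.2.2.2.1 hs.2.2.2.2.2.2.2.2.2.1
  have xd := xn hs.2.2.2.2.2.2.2.2.2.2.1 hs.2.2.2.2.2.2.2.2.2.2.2.2.2.1
  refine ⟨x, ⟨?_, ?_⟩, ?_⟩
  · intro h
    by_cases h1 : h = e
    · subst h1; rw [xe', xe]; ring
    by_cases h2 : h = T.opp e
    · subst h2; rw [T.opp2, xe', xe]
    rw [xn h1 h2, xn (opp_ne_of T h2) (opp_ne_opp T h1)]
    exact hy.1 h
  · intro h
    rcases T.cases_six e h with ho | rfl | rfl | rfl | rfl | rfl | rfl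
    · rw [xn ho.1 ho.2.2.2.1, xn ho.next.1 ho.next.2.2.2.1,
        xn ho.next.next.1 ho.next.next.2.2.2.1]
      have := hy.2 h
      rwa [fnext, fnext, T.flipNext_out ho, T.flipNext_out ho.next] at this
    · rw [T.next_next, xe, xa, xb]; ring
    · rw [T.next_next, T.next_prev, xe, xa, xb]; ring
    · rw [T.next_prev, xe, xa, xb]; ring
    · rw [T.next_next, xe', xc, xd]; linarith
    · rw [T.next_next, T.next_prev, xe', xc, xd]; linarith
    · rw [T.next_prev, xe', xc, xd]; linarith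
  · funext h
    by_cases h1 : h = e
    · subst h1; rw [flipC_e, xd, xa]; linarith
    by_cases h2 : h = T.opp e
    · subst h2; rw [flipC_e', xd, xa]; linarith
    rw [flipC_ne T x h1 h2, xn h1 h2]

theorem flipC_int (e : H) (he : T.Flippable e) {x : H → ℝ} (hx : x ∈ Coch T) :
    x ∈ CochZ T ↔ flipC T e x ∈ CochZ (T.flip e he) := by
  have hs := T.six e
  constructor
  · rintro ⟨_, hi⟩
    refine ⟨flipC_mem T e he hx, fun h => ?_⟩
    by_cases h1 : h = e
    · subst h1
      obtain ⟨m, hm⟩ := hi (T.prev (T.opp h))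
      obtain ⟨k, hk⟩ := hi (T.next h)
      exact ⟨m + k, by rw [flipC_e, hm, hk]; push_cast; ring⟩
    by_cases h2 : h = T.opp e
    · subst h2
      obtain ⟨m, hm⟩ := hi (T.prev (T.opp e))
      obtain ⟨k, hk⟩ := hi (T.next e)
      exact ⟨-(m + k), by rw [flipC_e', hm, hk]; push_cast; ring⟩
    rw [flipC_ne T x h1 h2]
    exact hi h
  · rintro ⟨_, hi⟩
    refine ⟨hx, fun h => ?_⟩
    obtain ⟨m, hm⟩ := hi (T.next e)
    obtain ⟨k, hk⟩ := hi (T.prev e)
    rw [flipC_ne T x hs.2.1 (Ne.symm hs.2.2.2.2.1)] at hm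
    rw [flipC_ne T x hs.1 (Ne.symm hs.2.2.2.2.2.1)] at hk
    have t1 := coch_tri T hx e
    have t3 := coch_opp T hx e
    by_cases h1 : h = e
    · subst h1
      exact ⟨-(m + k), by push_cast; linarith⟩
    by_cases h2 : h = T.opp e
    · subst h2
      exact ⟨m + k, by push_cast; linarith⟩
    have := hi h
    rwa [flipC_ne T x h1 h2] at this

theorem flipV_mem (e : H) (he : T.Flippable e) {c : H → ℝ} :
    c ∈ Vert T → flipV T e c ∈ Vert (T.flip e he) := by
  intro hc
  have hs := T.six e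
  have key : ∀ k : H, c (T.next k) = c (T.opp k) := by
    intro k
    have := hc (T.opp k)
    rwa [T.opp2] at this
  have main : ∀ k : H, flipV T e c (T.flipNext e k) = flipV T e c (T.opp k) := by
    intro k
    rcases T.cases_six e k with ho | rfl | rfl | rfl | rfl | rfl | rfl
    · rw [T.flipNext_out ho, flipV_ne T c ho.next.1 ho.next.2.2.2.1,
        flipV_ne T c (opp_ne_of T ho.2.2.2.1) (opp_ne_opp T ho.1)]
      exact key k
    · rw [T.flipNext_e, flipV_e', flipV_ne T c hs.1 (Ne.symm hs.2.2.2.2.2.1)]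
    · rw [T.flipNext_a, flipV_e',
        flipV_ne T c (opp_ne_of T (Ne.symm hs.2.2.2.2.1)) (opp_ne_opp T hs.2.1), ← key,
        T.next_next]
    · rw [T.flipNext_b, flipV_ne T c hs.2.2.2.2.2.2.1 hs.2.2.2.2.2.2.2.2.2.1,
        flipV_ne T c (opp_ne_of T (Ne.symm hs.2.2.2.2.2.1)) (opp_ne_opp T hs.1), ← key,
        T.next_prev, key, T.opp2]
    · rw [T.flipNext_e', T.opp2, flipV_e,
        flipV_ne T c hs.2.2.2.2.2.2.2.2.2.2.1 hs.2.2.2.2.2.2.2.2.2.2.2.2.2.1]
    · rw [T.flipNext_c, flipV_e,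
        flipV_ne T c (opp_ne_of T hs.2.2.2.2.2.2.2.2.2.1) (opp_ne_opp T hs.2.2.2.2.2.2.1), ← key,
        T.next_next]
    · rw [T.flipNext_d, flipV_ne T c hs.2.1 (Ne.symm hs.2.2.2.2.1),
        flipV_ne T c (opp_ne_of T hs.2.2.2.2.2.2.2.2.2.2.2.2.2.1)
          (opp_ne_opp T hs.2.2.2.2.2.2.2.2.2.2.1), ← key, T.next_prev, key]
  intro h
  rw [fnext, fopp, main, T.opp2]

open Classical in
theorem flipV_surj (e : H) (he : T.Flippable e) {c : H → ℝ} (hc : c ∈ Vert (T.flip e he)) :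
    ∃ c' ∈ Vert T, flipV T e c' = c := by
  have hs := T.six e
  have key : ∀ k : H, c (T.flipNext e k) = c (T.opp k) := by
    intro k
    have := hc (T.opp k)
    rwa [fopp, T.opp2, fnext] at this
  let g : H → ℝ := fun h => if h = e then c (T.next (T.opp e))
    else if h = T.opp e then c (T.next e) else c h
  have ge : g e = c (T.next (T.opp e)) := by simp [g]
  have ge' : g (T.opp e) = c (T.next e) := by simp [g, T.opp_ne e]
  have gn : ∀ {h : H}, h ≠ e → h ≠ T.opp e → g h = c h := by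
    intro h h1 h2; simp [g, h1, h2]
  have gb := gn hs.1 (Ne.symm hs.2.2.2.2.2.1)
  have ga := gn hs.2.1 (Ne.symm hs.2.2.2.2.1)
  have gc := gn hs.2.2.2.2.2.2.1 hs.2.2.2.2.2.2.2.2.2.1
  have gd := gn hs.2.2.2.2.2.2.2.2.2.2.1 hs.2.2.2.2.2.2.2.2.2.2.2.2.2.1
  have k1 := key e
  rw [T.flipNext_e] at k1
  have k2 := key (T.opp e)
  rw [T.flipNext_e', T.opp2] at k2
  have main : ∀ k : H, g (T.next k) = g (T.opp k) := by
    intro k
    rcases T.cases_six e k with ho | rfl | rfl | rfl | rfl | rfl | rfl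
    · rw [gn ho.next.1 ho.next.2.2.2.1, gn (opp_ne_of T ho.2.2.2.1) (opp_ne_opp T ho.1)]
      have := key k
      rwa [T.flipNext_out ho] at this
    · rw [ga, ge']
    · rw [T.next_next, gb, gn (opp_ne_of T (Ne.symm hs.2.2.2.2.1)) (opp_ne_opp T hs.2.1), ← key,
        T.flipNext_a, k1]
    · rw [T.next_prev, ge, gn (opp_ne_of T (Ne.symm hs.2.2.2.2.2.1)) (opp_ne_opp T hs.1), ← key,
        T.flipNext_b]
    · rw [T.opp2, gc, ge]
    · rw [T.next_next, gd,
        gn (opp_ne_of T hs.2.2.2.2.2.2.2.2.2.1) (opp_ne_opp T hs.2.2.2.2.2.2.1), ← key,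
        T.flipNext_c, k2]
    · rw [T.next_prev, ge', gn (opp_ne_of T hs.2.2.2.2.2.2.2.2.2.2.2.2.2.1)
          (opp_ne_opp T hs.2.2.2.2.2.2.2.2.2.2.1), ← key, T.flipNext_d]
  refine ⟨g, ?_, ?_⟩
  · intro h
    rw [main, T.opp2]
  · funext h
    by_cases h1 : h = e
    · subst h1; rw [flipV_e, gd, k2]
    by_cases h2 : h = T.opp e
    · subst h2; rw [flipV_e', gb, k1]
    rw [flipV_ne T g h1 h2, gn h1 h2]

theorem dv_flipV (e : H) (he : T.Flippable e) {c : H → ℝ} (hc : c ∈ Vert T) :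
    dv (T.flip e he) (flipV T e c) = flipC T e (dv T c) := by
  have hs := T.six e
  have key : ∀ k : H, c (T.next k) = c (T.opp k) := by
    intro k
    have := hc (T.opp k)
    rwa [T.opp2] at this
  have k1 := key e
  have k2 := key (T.opp e)
  rw [T.opp2] at k2
  have vb := flipV_ne T c hs.1 (Ne.symm hs.2.2.2.2.2.1)
  have va := flipV_ne T c hs.2.1 (Ne.symm hs.2.2.2.2.1)
  have vc := flipV_ne T c hs.2.2.2.2.2.2.1 hs.2.2.2.2.2.2.2.2.2.1
  have vd := flipV_ne T c hs.2.2.2.2.2.2.2.2.2.2.1 hs.2.2.2.2.2.2.2.2.2.2.2.2.2.1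
  funext h
  change flipV T e c (T.flipNext e h) - flipV T e c h = flipC T e (dv T c) h
  have dvh : ∀ k, dv T c k = c (T.next k) - c k := fun k => rfl
  rcases T.cases_six e h with ho | rfl | rfl | rfl | rfl | rfl | rfl
  · rw [T.flipNext_out ho, flipV_ne T c ho.next.1 ho.next.2.2.2.1,
      flipV_ne T c ho.1 ho.2.2.2.1, flipC_ne T _ ho.1 ho.2.2.2.1, dvh]
  · rw [T.flipNext_e, flipV_e, vb, flipC_e, dvh, dvh, T.next_prev, T.next_next, k1]; ring
  · rw [T.flipNext_a, flipV_e', va, flipC_ne T _ hs.2.1 (Ne.symm hs.2.2.2.2.1), dvh, T.next_next]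
  · rw [T.flipNext_b, vb, vc, flipC_ne T _ hs.1 (Ne.symm hs.2.2.2.2.2.1), dvh, T.next_prev, k2]
  · rw [T.flipNext_e', flipV_e', vd, flipC_e', dvh, dvh, T.next_prev, T.next_next, k1]; ring
  · rw [T.flipNext_c, flipV_e, vc,
      flipC_ne T _ hs.2.2.2.2.2.2.1 hs.2.2.2.2.2.2.2.2.2.1, dvh, T.next_next]
  · rw [T.flipNext_d, va, vd,
      flipC_ne T _ hs.2.2.2.2.2.2.2.2.2.2.1 hs.2.2.2.2.2.2.2.2.2.2.2.2.2.1, dvh, T.next_prev, k1]

private theorem dv_mem {c : H → ℝ} (hc : c ∈ Vert T) : dv T c ∈ Coch T := by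
  have key : ∀ k : H, c (T.next k) = c (T.opp k) := by
    intro k
    have := hc (T.opp k)
    rwa [T.opp2] at this
  constructor
  · intro h
    change c (T.next (T.opp h)) - c (T.opp h) = -(c (T.next h) - c h)
    rw [key (T.opp h), T.opp2, key h]; ring
  · intro h
    change (c (T.next h) - c h) + (c (T.next (T.next h)) - c (T.next h))
      + (c (T.next (T.next (T.next h))) - c (T.next (T.next h))) = 0
    rw [T.next3]; ring

private theorem flipC_inj (e : H) {x y : H → ℝ} (hx : x ∈ Coch T) (hy : y ∈ Coch T)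
    (h : flipC T e x = flipC T e y) : x = y := by
  have hs := T.six e
  have hn : ∀ k, k ≠ e → k ≠ T.opp e → x k = y k := by
    intro k h1 h2
    have := congrFun h k
    rwa [flipC_ne T x h1 h2, flipC_ne T y h1 h2] at this
  have ha := hn _ hs.2.1 (Ne.symm hs.2.2.2.2.1)
  have hb := hn _ hs.1 (Ne.symm hs.2.2.2.2.2.1)
  have t1 := coch_tri T hx e
  have t2 := coch_tri T hy e
  have t3 := coch_opp T hx e
  have t4 := coch_opp T hy e
  funext k
  by_cases h1 : k = e
  · subst h1; linarith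
  by_cases h2 : k = T.opp e
  · subst h2; linarith
  exact hn k h1 h2

theorem flipC_cob (e : H) (he : T.Flippable e) {x : H → ℝ} (hx : x ∈ Coch T) :
    x ∈ Cob T ↔ flipC T e x ∈ Cob (T.flip e he) := by
  constructor
  · rintro ⟨c, hc, rfl⟩
    exact ⟨flipV T e c, flipV_mem T e he hc, dv_flipV T e he hc⟩
  · rintro ⟨c1, hc1, h1⟩
    obtain ⟨c, hc, rfl⟩ := flipV_surj T e he hc1
    rw [dv_flipV T e he hc] at h1
    have := flipC_inj T e (dv_mem T hc) hx h1
    exact ⟨c, hc, this⟩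

private theorem dot_add (w z z' : ℂ) : dot w (z + z') = dot w z + dot w z' := by
  unfold dot; simp; ring

private theorem dot_neg (w z : ℂ) : dot w (-z) = -dot w z := by
  unfold dot; simp; ring

theorem flipC_cst (e : H) (he : T.Flippable e) (w : ℂ) :
    flipC T e (cst T w) = cst (T.flip e he) w := by
  funext h
  change flipC T e (cst T w) h = dot w (T.flipVec e h)
  have ch : ∀ k, cst T w k = dot w (T.vec k) := fun k => rfl
  by_cases h1 : h = e
  · subst h1; rw [flipC_e, T.flipVec_e, dot_add, ch, ch]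
  by_cases h2 : h = T.opp e
  · subst h2; rw [flipC_e', T.flipVec_e', dot_neg, dot_add, ch, ch]
  rw [flipC_ne T _ h1 h2, T.flipVec_ne h1 h2, ch]

theorem conn_flip (e : H) (he : T.Flippable e) (hT : T.Conn) : (T.flip e he).Conn := by
  intro s hs hcl
  refine hT s hs ?_
  have hn : ∀ h ∈ s, T.flipNext e h ∈ s := fun h hh => (hcl h hh).1
  have ho : ∀ h ∈ s, T.opp h ∈ s := fun h hh => (hcl h hh).2
  have hall : e ∈ s → (T.prev e ∈ s ∧ T.next (T.opp e) ∈ s ∧ T.opp e ∈ s ∧
      T.prev (T.opp e) ∈ s ∧ T.next e ∈ s) := by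
    intro h0
    have h1 := hn _ h0
    rw [T.flipNext_e] at h1
    have h2 := hn _ h1
    rw [T.flipNext_b] at h2
    have h3 := ho _ h0
    have h4 := hn _ h3
    rw [T.flipNext_e'] at h4
    have h5 := hn _ h4
    rw [T.flipNext_d] at h5
    exact ⟨h1, h2, h3, h4, h5⟩
  have hopp : T.opp e ∈ s → e ∈ s := by
    intro h0
    have := ho _ h0
    rwa [T.opp2] at this
  intro h hh
  refine ⟨?_, ho h hh⟩
  rcases T.cases_six e h with hout | rfl | rfl | rfl | rfl | rfl | rfl
  · have := hn h hh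
    rwa [T.flipNext_out hout] at this
  · exact (hall hh).2.2.2.2
  · have h1 := hn _ hh
    rw [T.flipNext_a] at h1
    rw [T.next_next]
    exact (hall (hopp h1)).1
  · have h1 := hn _ hh
    rw [T.flipNext_b] at h1
    have h2 := hn _ h1
    rw [T.flipNext_c] at h2
    rw [T.next_prev]
    exact h2
  · exact (hall (hopp hh)).2.1
  · have h2 := hn _ hh
    rw [T.flipNext_c] at h2
    rw [T.next_next]
    exact (hall h2).2.2.2.1
  · have h1 := hn _ hh
    rw [T.flipNext_d] at h1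
    have h2 := hn _ h1
    rw [T.flipNext_a] at h2
    rw [T.next_prev]
    exact h2

private theorem sum_six [Fintype H] {M : Type} [AddCommMonoid M] (e : H) (f : H → M)
    (hf : ∀ h, T.Out e h → f h = 0) :
    ∑ h, f h = f e + (f (T.next e) + (f (T.prev e) + (f (T.opp e) + (f (T.next (T.opp e)) +
      f (T.prev (T.opp e)))))) := by
  classical
  obtain ⟨h1, h2, h3, h4, h5, h6, h7, h8, h9, h10, h11, h12, h13, h14, h15⟩ := T.six e
  have hsub : ∑ h, f h = ∑ h ∈ ({e, T.next e, T.prev e, T.opp e, T.next (T.opp e),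
      T.prev (T.opp e)} : Finset H), f h := by
    symm
    apply Finset.sum_subset (Finset.subset_univ _)
    intro h _ hh
    apply hf
    simp only [Finset.mem_insert, Finset.mem_singleton, not_or] at hh
    exact hh
  rw [hsub, Finset.sum_insert, Finset.sum_insert, Finset.sum_insert, Finset.sum_insert,
    Finset.sum_insert, Finset.sum_singleton]
  · simp only [Finset.mem_singleton]; exact Ne.symm h15
  · simp only [Finset.mem_insert, Finset.mem_singleton, not_or]
    exact ⟨Ne.symm h10, Ne.symm h14⟩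
  · simp only [Finset.mem_insert, Finset.mem_singleton, not_or]
    exact ⟨Ne.symm h6, Ne.symm h9, Ne.symm h13⟩
  · simp only [Finset.mem_insert, Finset.mem_singleton, not_or]
    exact ⟨Ne.symm h3, Ne.symm h5, Ne.symm h8, Ne.symm h12⟩
  · simp only [Finset.mem_insert, Finset.mem_singleton, not_or]
    exact ⟨Ne.symm h2, Ne.symm h1, Ne.symm h4, Ne.symm h7, Ne.symm h11⟩

theorem area_flip [Fintype H] (e : H) (he : T.Flippable e) : (T.flip e he).area = T.area := by
  have hs := T.six e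
  have v1 := T.vec_prev e
  have v2 := T.vec_prev (T.opp e)
  have v3 := T.vec_opp e
  have w1 : T.vec (T.next (T.opp e)) =
      -(T.vec (T.prev (T.opp e)) + T.vec (T.next e) + T.vec (T.prev e)) := by
    rw [v1, v2, v3]; ring
  have w2 : T.vec e = -(T.vec (T.next e) + T.vec (T.prev e)) := by rw [v1]; ring
  have fb := T.flipVec_ne hs.1 (Ne.symm hs.2.2.2.2.2.1)
  have fa := T.flipVec_ne hs.2.1 (Ne.symm hs.2.2.2.2.1)
  have fc := T.flipVec_ne hs.2.2.2.2.2.2.1 hs.2.2.2.2.2.2.2.2.2.1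
  have fd := T.flipVec_ne hs.2.2.2.2.2.2.2.2.2.2.1 hs.2.2.2.2.2.2.2.2.2.2.2.2.2.1
  unfold Tri.area
  congr 1
  rw [← sub_eq_zero, ← Finset.sum_sub_distrib, sum_six T e]
  · simp only [fnext, fvec, T.flipNext_e, T.flipNext_a, T.flipNext_b, T.flipNext_c, T.flipNext_d,
      T.flipNext_e', T.flipVec_e, T.flipVec_e', fa, fb, fc, fd, T.next_next, T.next_prev]
    rw [w1, v3, w2]
    unfold cr
    simp
    ring
  · intro h ho
    rw [fvec, fvec, fnext, T.flipNext_out ho, T.flipVec_ne ho.1 ho.2.2.2.1,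
      T.flipVec_ne ho.next.1 ho.next.2.2.2.1, sub_self]

private theorem ar_omega (x : H → ℝ) (h : H) : (ar T h : ℂ) * omega T x h =
    (x (T.next h) : ℂ) * (Complex.I * T.vec h) - (x h : ℂ) * (Complex.I * T.vec (T.next h)) := by
  unfold omega
  have : (ar T h : ℂ) ≠ 0 := by
    have h1 : (0 : ℝ) < ar T h := T.pos h
    exact_mod_cast h1.ne'
  field_simp

/-- `qT` is invariant: only the two triangles at `e` matter. -/
theorem qT_flip [Fintype H] (e : H) (he : T.Flippable e) {x : H → ℝ} (hx : x ∈ Coch T) :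
    qT (T.flip e he) (flipC T e x) = qT T x := by
  have hs := T.six e
  have v1 := T.vec_prev e
  have v2 := T.vec_prev (T.opp e)
  have v3 := T.vec_opp e
  have w1 : T.vec (T.next (T.opp e)) =
      -(T.vec (T.prev (T.opp e)) + T.vec (T.next e) + T.vec (T.prev e)) := by
    rw [v1, v2, v3]; ring
  have w2 : T.vec e = -(T.vec (T.next e) + T.vec (T.prev e)) := by rw [v1]; ring
  have t1 := coch_tri T hx e
  have t2 := coch_tri T hx (T.opp e)
  have t3 := coch_opp T hx e
  have y2 : x e = -(x (T.next e) + x (T.prev e)) := by linarith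
  have y1 : x (T.next (T.opp e)) =
      -(x (T.prev (T.opp e)) + x (T.next e) + x (T.prev e)) := by linarith
  have fb := T.flipVec_ne hs.1 (Ne.symm hs.2.2.2.2.2.1)
  have fa := T.flipVec_ne hs.2.1 (Ne.symm hs.2.2.2.2.1)
  have fc := T.flipVec_ne hs.2.2.2.2.2.2.1 hs.2.2.2.2.2.2.2.2.2.1
  have fd := T.flipVec_ne hs.2.2.2.2.2.2.2.2.2.2.1 hs.2.2.2.2.2.2.2.2.2.2.2.2.2.1
  have gb := flipC_ne T x hs.1 (Ne.symm hs.2.2.2.2.2.1)
  have ga := flipC_ne T x hs.2.1 (Ne.symm hs.2.2.2.2.1)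
  have gc := flipC_ne T x hs.2.2.2.2.2.2.1 hs.2.2.2.2.2.2.2.2.2.1
  have gd := flipC_ne T x hs.2.2.2.2.2.2.2.2.2.2.1 hs.2.2.2.2.2.2.2.2.2.2.2.2.2.1
  unfold qT
  congr 1
  rw [← sub_eq_zero, ← Finset.sum_sub_distrib, sum_six T e]
  · simp only [ar_omega, fnext, fvec, T.flipNext_e, T.flipNext_a, T.flipNext_b, T.flipNext_c,
      T.flipNext_d, T.flipNext_e', T.flipVec_e, T.flipVec_e', fa, fb, fc, fd, T.next_next,
      T.next_prev, ga, gb, gc, gd, flipC_e, flipC_e']
    rw [w1, v3, w2, t3, y2, y1]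
    push_cast
    ring
  · intro h ho
    rw [ar_omega, ar_omega, fvec, fvec, fnext, T.flipNext_out ho, T.flipVec_ne ho.1 ho.2.2.2.1,
      T.flipVec_ne ho.next.1 ho.next.2.2.2.1, flipC_ne T x ho.1 ho.2.2.2.1,
      flipC_ne T x ho.next.1 ho.next.2.2.2.1, sub_self]

/-- A flip commutes with a linear map. -/
theorem flippable_act (A : ℂ ≃ₗ[ℝ] ℂ) (hA : LinearMap.det (A : ℂ →ₗ[ℝ] ℂ) = 1) (e : H) :
    (act T A hA).Flippable e ↔ T.Flippable e := by
  change (0 < cr (A (T.vec (T.prev e))) (A (T.vec (T.next (T.opp e)))) ∧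
    0 < cr (A (T.vec (T.prev (T.opp e)))) (A (T.vec (T.next e)))) ↔ _
  rw [cr_map, cr_map, hA, one_mul, one_mul]
  rfl

open Classical in
theorem flip_act (A : ℂ ≃ₗ[ℝ] ℂ) (hA : LinearMap.det (A : ℂ →ₗ[ℝ] ℂ) = 1) (e : H)
    (he : T.Flippable e) (he' : (act T A hA).Flippable e) :
    (act T A hA).flip e he' = act (T.flip e he) A hA := by
  have hv : (act T A hA).flipVec e = fun h => A (T.flipVec e h) := by
    funext h
    change (if h = e then A (T.vec (T.prev (T.opp e))) + A (T.vec (T.next e))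
      else if h = T.opp e then -(A (T.vec (T.prev (T.opp e))) + A (T.vec (T.next e)))
      else A (T.vec h)) = A (if h = e then T.vec (T.prev (T.opp e)) + T.vec (T.next e)
      else if h = T.opp e then -(T.vec (T.prev (T.opp e)) + T.vec (T.next e)) else T.vec h)
    split_ifs <;> simp
  unfold Tri.flip
  simp only [act, Tri.mk.injEq]
  refine ⟨?_, trivial, ?_⟩
  · rfl
  · exact hv

theorem flipC_act (A : ℂ ≃ₗ[ℝ] ℂ) (hA : LinearMap.det (A : ℂ →ₗ[ℝ] ℂ) = 1) (e : H) :
    flipC (act T A hA) e = flipC T e := rfl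

end

end Pool.Agent.Helper72.TF
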