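import Pool.Agent.Helper72.TF.BE4
import Pool.Agent.Helper72.TF.BF1

/-! Block TF-BF2, see the header of BF0.lean. -/

set_option autoImplicit false

open MeasureTheory Set Pool.Agent.Helper87.LS Pool.Agent.Helper79.G

namespace Pool.Agent.Helper72.TF

noncomputable section

variable {H : Type} (T : Tri H)

/-! ### TF-BF2: relabelling -/

/-- `T'` is `T` with darts renamed by `σ`. -/
structure Rel {H' : Type} (T : Tri H) (T' : Tri H') (σ : H ≃ H') : Prop where
  next : ∀ h, σ (T.next h) = T'.next (σ h)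
  opp : ∀ h, σ (T.opp h) = T'.opp (σ h)
  vec : ∀ h, T'.vec (σ h) = T.vec h

/-- Transport of functions of darts. -/
def relC {H' : Type} (σ : H ≃ H') : (H → ℝ) ≃ₗ[ℝ] (H' → ℝ) := LinearEquiv.funCongrLeft ℝ ℝ σ.symm

section
variable {H' : Type} {T} {T' : Tri H'} {σ : H ≃ H'}

theorem Rel.symm (h : Rel T T' σ) : Rel T' T σ.symm := by
  refine ⟨fun y => ?_, fun y => ?_, fun y => ?_⟩
  · rw [Equiv.symm_apply_eq, h.next, Equiv.apply_symm_apply]
  · rw [Equiv.symm_apply_eq, h.opp, Equiv.apply_symm_apply]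
  · rw [← h.vec, Equiv.apply_symm_apply]

theorem relC_apply74 (σ : H ≃ H') (x : H → ℝ) (y : H') : relC σ x y = x (σ.symm y) := rfl

theorem relC_apply74' (σ : H ≃ H') (x : H → ℝ) (y : H) : relC σ x (σ y) = x y := by
  rw [relC_apply74, Equiv.symm_apply_apply]

theorem relC_symm74 (σ : H ≃ H') (x : H → ℝ) : relC σ.symm (relC σ x) = x := by
  funext y
  rw [relC_apply74, relC_apply74, Equiv.symm_symm, Equiv.symm_apply_apply]

private theorem Rel.coch_mp74 (h : Rel T T' σ) {x : H → ℝ} (hx : x ∈ Coch T) :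
    relC σ x ∈ Coch T' := by
  refine ⟨fun y => ?_, fun y => ?_⟩
  · rw [relC_apply74, relC_apply74, h.symm.opp]
    exact hx.1 _
  · rw [relC_apply74, relC_apply74, relC_apply74, h.symm.next, h.symm.next, h.symm.next]
    exact hx.2 _

private theorem relC_int74 {x : H → ℝ} (hx : x ∈ IntF H) : relC σ x ∈ IntF H' := by
  intro y
  exact hx _

private theorem Rel.vert_mp74 (h : Rel T T' σ) {x : H → ℝ} (hx : x ∈ Vert T) :
    relC σ x ∈ Vert T' := by
  intro y
  rw [relC_apply74, relC_apply74, h.symm.next, h.symm.opp]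
  exact hx _

private theorem Rel.dv74 (h : Rel T T' σ) (x : H → ℝ) : dv T' (relC σ x) = relC σ (dv T x) := by
  funext y
  change relC σ x (T'.next y) - relC σ x y = x (T.next (σ.symm y)) - x (σ.symm y)
  rw [relC_apply74, relC_apply74, h.symm.next]

private theorem Rel.cob_mp74 (h : Rel T T' σ) {x : H → ℝ} (hx : x ∈ Cob T) :
    relC σ x ∈ Cob T' := by
  obtain ⟨c, hc, rfl⟩ := hx
  exact ⟨relC σ c, h.vert_mp74 hc, h.dv74 c⟩

theorem Rel.coch (h : Rel T T' σ) (x : H → ℝ) :
    (relC σ x ∈ Coch T' ↔ x ∈ Coch T) ∧ (relC σ x ∈ CochZ T' ↔ x ∈ CochZ T) ∧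
      (relC σ x ∈ Cob T' ↔ x ∈ Cob T) := by
  refine ⟨⟨fun hx => ?_, fun hx => h.coch_mp74 hx⟩,
    ⟨fun hx => ?_, fun hx => ⟨h.coch_mp74 hx.1, relC_int74 hx.2⟩⟩,
    ⟨fun hx => ?_, fun hx => h.cob_mp74 hx⟩⟩
  · have := h.symm.coch_mp74 hx
    rwa [relC_symm74] at this
  · have h1 := h.symm.coch_mp74 hx.1
    have h2 : relC σ.symm (relC σ x) ∈ IntF H := relC_int74 hx.2
    rw [relC_symm74] at h1 h2
    exact ⟨h1, h2⟩
  · have := h.symm.cob_mp74 hx
    rwa [relC_symm74] at this

theorem Rel.cst (h : Rel T T' σ) (w : ℂ) : relC σ (cst T w) = cst T' w := by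
  funext y
  change dot w (T.vec (σ.symm y)) = dot w (T'.vec y)
  rw [h.symm.vec]

private theorem Rel.conn_mp74 (h : Rel T T' σ) (hT : T.Conn) : T'.Conn := by
  intro s hs hc
  have h1 : (σ ⁻¹' s) = Set.univ := by
    apply hT
    · obtain ⟨y, hy⟩ := hs
      exact ⟨σ.symm y, by simpa using hy⟩
    · intro x hx
      have := hc (σ x) hx
      rw [← h.next, ← h.opp] at this
      exact this
  rw [Set.eq_univ_iff_forall] at h1 ⊢
  intro y
  have := h1 (σ.symm y)
  simpa using this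

theorem Rel.conn (h : Rel T T' σ) : T.Conn ↔ T'.Conn :=
  ⟨h.conn_mp74, h.symm.conn_mp74⟩

private theorem Rel.prev74 (h : Rel T T' σ) (x : H) : σ (T.prev x) = T'.prev (σ x) := by
  unfold Tri.prev
  rw [h.next, h.next]

private theorem Rel.ar74 (h : Rel T T' σ) (x : H) : ar T' (σ x) = ar T x := by
  unfold ar
  rw [← h.next, h.vec, h.vec]

private theorem Rel.omega74 (h : Rel T T' σ) (x : H → ℝ) (y : H) :
    omega T' (relC σ x) (σ y) = omega T x y := by
  unfold omega
  rw [← h.next, h.vec, h.vec, h.ar74, relC_apply74', relC_apply74']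

theorem Rel.qT [Fintype H] [Fintype H'] (h : Rel T T' σ) (x : H → ℝ) :
    qT T' (relC σ x) = qT T x := by
  unfold TF.qT
  rw [← Equiv.sum_comp σ]
  congr 1
  refine Finset.sum_congr rfl fun y _ => ?_
  rw [h.ar74, h.omega74]

private theorem Rel.Cl74 (h : Rel T T' σ) (x : H) : Cl T' (σ x) = Cl T x := by
  ext z
  unfold Cl
  simp only [Tri.a0, Tri.a1, Tri.a2, Set.mem_ofPred_eq]
  rw [← h.next, ← h.prev74, h.vec, h.vec, h.vec]

private theorem Rel.Op74 (h : Rel T T' σ) (x : H) : Op T' (σ x) = Op T x := by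
  ext z
  unfold Op Tri.Int
  simp only [Tri.a0, Tri.a1, Tri.a2, Set.mem_ofPred_eq]
  rw [← h.next, ← h.prev74, h.vec, h.vec, h.vec]

private theorem Rel.fn74 (h : Rel T T' σ) {f : H → ℂ → ℝ} (hf : Fn T f) :
    Fn T' (fun y => f (σ.symm y)) := by
  obtain ⟨⟨C, hC⟩, hr, he⟩ := hf
  refine ⟨⟨C, fun y => ?_⟩, fun y z hz => ?_, fun y t ht => ?_⟩
  · rw [← h.symm.Cl74 y]
    exact hC _
  · rw [← h.symm.Cl74 y] at hz
    have := hr _ z hz
    rw [h.symm.vec] at this
    rw [h.symm.next]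
    exact this
  · have := he (σ.symm y) t ht
    rw [h.symm.vec] at this
    rw [h.symm.opp]
    exact this

private theorem Rel.en74 [Fintype H] [Fintype H'] (h : Rel T T' σ) (x : H → ℝ)
    (f : H → ℂ → ℝ) : en T' (relC σ x) (fun y => f (σ.symm y)) = en T x f := by
  unfold en
  rw [← Equiv.sum_comp σ]
  congr 1
  refine Finset.sum_congr rfl fun y _ => ?_
  simp only [h.Op74, h.omega74, Equiv.symm_apply_apply]

private theorem Rel.hn2_le74 [Fintype H] [Fintype H'] (h : Rel T T' σ) (x : H → ℝ) :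
    hn2 T' (relC σ x) ≤ hn2 T x := by
  have : Nonempty {f : H → ℂ → ℝ // Fn T f} := ⟨⟨0, Fn.zero T⟩⟩
  refine le_ciInf fun f => ?_
  rw [← h.en74 x f.1]
  exact hn2_le (h.fn74 f.2) _

theorem Rel.hn2 [Fintype H] [Fintype H'] (h : Rel T T' σ) (x : H → ℝ) :
    hn2 T' (relC σ x) = hn2 T x := by
  apply le_antisymm (h.hn2_le74 x)
  have := h.symm.hn2_le74 (relC σ x)
  rwa [relC_symm74] at this

theorem Rel.act (h : Rel T T' σ) (A : ℂ ≃ₗ[ℝ] ℂ) (hA : LinearMap.det (A : ℂ →ₗ[ℝ] ℂ) = 1) :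
    Rel (act T A hA) (act T' A hA) σ := by
  refine ⟨h.next, h.opp, fun y => ?_⟩
  change A (T'.vec (σ y)) = A (T.vec y)
  rw [h.vec]

theorem Rel.flippable (h : Rel T T' σ) (e : H) : T'.Flippable (σ e) ↔ T.Flippable e := by
  unfold Tri.Flippable
  rw [← h.opp, ← h.next, ← h.next, ← h.prev74, ← h.prev74, h.vec, h.vec, h.vec, h.vec]

theorem Rel.flip (h : Rel T T' σ) (e : H) (he : T.Flippable e) (he' : T'.Flippable (σ e)) :
    Rel (T.flip e he) (T'.flip (σ e) he') σ := by
  refine ⟨fun y => ?_, fun y => h.opp y, fun y => ?_⟩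
  · change σ (T.flipNext e y) = T'.flipNext (σ e) (σ y)
    rcases T.cases_six e y with ho | rfl | rfl | rfl | rfl | rfl | rfl
    · have ho' : T'.Out (σ e) (σ y) := by
        obtain ⟨h1, h2, h3, h4, h5, h6⟩ := ho
        refine ⟨?_, ?_, ?_, ?_, ?_, ?_⟩
        · exact fun hc => h1 (σ.injective hc)
        · rw [← h.next]; exact fun hc => h2 (σ.injective hc)
        · rw [← h.prev74]; exact fun hc => h3 (σ.injective hc)
        · rw [← h.opp]; exact fun hc => h4 (σ.injective hc)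
        · rw [← h.opp, ← h.next]; exact fun hc => h5 (σ.injective hc)
        · rw [← h.opp, ← h.prev74]; exact fun hc => h6 (σ.injective hc)
      rw [T.flipNext_out ho, T'.flipNext_out ho', h.next]
    · rw [T.flipNext_e, T'.flipNext_e, h.prev74]
    · rw [T.flipNext_a, h.next, T'.flipNext_a, h.opp]
    · rw [T.flipNext_b, h.prev74, T'.flipNext_b, h.next, h.opp]
    · rw [T.flipNext_e', h.opp, T'.flipNext_e', h.prev74, h.opp]
    · rw [T.flipNext_c, h.next, h.opp, T'.flipNext_c]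
    · rw [T.flipNext_d, h.prev74, h.opp, T'.flipNext_d, h.next]
  · change T'.flipVec (σ e) (σ y) = T.flipVec e y
    by_cases h1 : y = e
    · rw [h1, T'.flipVec_e, T.flipVec_e, ← h.opp, ← h.prev74, ← h.next, h.vec, h.vec]
    by_cases h2 : y = T.opp e
    · rw [h2, h.opp, T'.flipVec_e', T.flipVec_e', ← h.opp, ← h.prev74, ← h.next, h.vec, h.vec]
    rw [T.flipVec_ne h1 h2, T'.flipVec_ne, h.vec]
    · exact fun hc => h1 (σ.injective hc)
    · rw [← h.opp]; exact fun hc => h2 (σ.injective hc)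

end

open Classical in
/-- Flipping twice exchanges the names of `e` and `opp e`. -/
theorem Rel.flip_flip (e : H) (he : T.Flippable e) :
    ∃ he' : (T.flip e he).Flippable e,
      Rel ((T.flip e he).flip e he') T (Equiv.swap e (T.opp e)) := by
  have hs := T.six e
  obtain ⟨s1, s2, s3, s4, s5, s6, s7, s8, s9, s10, s11, s12, s13, s14, s15⟩ := hs
  have n1 : (T.flip e he).next e = T.prev e := T.flipNext_e e
  have n2 : (T.flip e he).prev e = T.next (T.opp e) := by
    change T.flipNext e (T.flipNext e e) = _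
    rw [T.flipNext_e, T.flipNext_b]
  have n3 : (T.flip e he).next (T.opp e) = T.prev (T.opp e) := T.flipNext_e' e
  have n4 : (T.flip e he).prev (T.opp e) = T.next e := by
    change T.flipNext e (T.flipNext e (T.opp e)) = _
    rw [T.flipNext_e', T.flipNext_d]
  have o1 : (T.flip e he).opp = T.opp := rfl
  have vv : ∀ y, y ≠ e → y ≠ T.opp e → (T.flip e he).vec y = T.vec y :=
    fun y h1 h2 => T.flipVec_ne h1 h2
  have he' : (T.flip e he).Flippable e := by
    unfold Tri.Flippable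
    rw [o1, n1, n2, n3, n4, vv _ s7 s10, vv _ s11 s14, vv _ s2 s5.symm, vv _ s1 s6.symm]
    exact ⟨T.pos _, T.pos _⟩
  refine ⟨he', ?_⟩
  have sw : ∀ y, y ≠ e → y ≠ T.opp e → Equiv.swap e (T.opp e) y = y :=
    fun y h1 h2 => Equiv.swap_apply_of_ne_of_ne h1 h2
  refine ⟨fun y => ?_, fun y => ?_, fun y => ?_⟩
  · change Equiv.swap e (T.opp e) ((T.flip e he).flipNext e y) =
      T.next (Equiv.swap e (T.opp e) y)
    rcases T.cases_six e y with ho | rfl | rfl | rfl | rfl | rfl | rfl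
    · have ho' : (T.flip e he).Out e y := by
        obtain ⟨h1, h2, h3, h4, h5, h6⟩ := ho
        unfold Tri.Out
        rw [o1, n1, n2, n3, n4]
        exact ⟨h1, h3, h5, h4, h6, h2⟩
      rw [(T.flip e he).flipNext_out ho', sw y ho.1 ho.2.2.2.1]
      change Equiv.swap e (T.opp e) (T.flipNext e y) = _
      rw [T.flipNext_out ho, sw _ ho.next.1 ho.next.2.2.2.1]
    · rw [(T.flip y he).flipNext_e, n2, sw _ s7 s10, Equiv.swap_apply_left]
    · have h1 := (T.flip e he).flipNext_d e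
      rw [o1, n4, n1] at h1
      rw [h1, sw _ s1 s6.symm, sw _ s2 s5.symm]
      rfl
    · have h1 := (T.flip e he).flipNext_a e
      rw [o1, n1] at h1
      rw [h1, sw _ s1 s6.symm, Equiv.swap_apply_right, T.next_prev]
    · have h1 := (T.flip e he).flipNext_e' e
      rw [o1, n4] at h1
      rw [h1, sw _ s2 s5.symm, Equiv.swap_apply_right]
    · have h1 := (T.flip e he).flipNext_b e
      rw [o1, n2, n3] at h1
      rw [h1, sw _ s11 s14, sw _ s7 s10]
      rfl
    · have h1 := (T.flip e he).flipNext_c e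
      rw [o1, n3] at h1
      rw [h1, sw _ s11 s14, Equiv.swap_apply_left, T.next_prev]
  · change Equiv.swap e (T.opp e) (T.opp y) = T.opp (Equiv.swap e (T.opp e) y)
    by_cases h1 : y = e
    · rw [h1, Equiv.swap_apply_right, Equiv.swap_apply_left, T.opp2]
    by_cases h2 : y = T.opp e
    · rw [h2, Equiv.swap_apply_right, T.opp2, Equiv.swap_apply_left]
    rw [sw y h1 h2, sw]
    · intro h3; exact h2 (by rw [← h3, T.opp2])
    · intro h3; exact h1 (T.opp.injective h3)
  · change T.vec (Equiv.swap e (T.opp e) y) = (T.flip e he).flipVec e y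
    by_cases h1 : y = e
    · rw [h1, Equiv.swap_apply_left, (T.flip e he).flipVec_e, o1, n1, n4, vv _ s2 s5.symm,
        vv _ s1 s6.symm, T.vec_prev, T.vec_opp]
      ring
    by_cases h2 : y = T.opp e
    · rw [h2, Equiv.swap_apply_right]
      have h3 := (T.flip e he).flipVec_e' e
      rw [o1, n1, n4, vv _ s2 s5.symm, vv _ s1 s6.symm, T.vec_prev] at h3
      rw [h3]; ring
    rw [sw y h1 h2, (T.flip e he).flipVec_ne h1 h2, vv y h1 h2]

end

end Pool.Agent.Helper72.TF
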