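import Pool.Agent.Helper72.TF.BF2

/-! Block TF-BF3, see the header of BF0.lean. -/

set_option autoImplicit false

open MeasureTheory Set Pool.Agent.Helper87.LS Pool.Agent.Helper79.G

namespace Pool.Agent.Helper72.TF

noncomputable section

variable {H : Type} (T : Tri H)

/-! ### The quadrilateral -/

/-- The closed quadrilateral of the edge `e` (origin at the start of `e`). -/
def Q4 (e : H) : Set ℂ := {y | 0 ≤ cr (T.vec (T.next e)) (y - T.vec e) ∧ 0 ≤ cr (T.vec (T.prev e)) y ∧
  0 ≤ cr (T.vec (T.next (T.opp e))) y ∧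
  0 ≤ cr (T.vec (T.prev (T.opp e))) (y - T.vec (T.next (T.opp e)))}

/-- The open quadrilateral. -/
def Q4o (e : H) : Set ℂ := {y | 0 < cr (T.vec (T.next e)) (y - T.vec e) ∧ 0 < cr (T.vec (T.prev e)) y ∧
  0 < cr (T.vec (T.next (T.opp e))) y ∧
  0 < cr (T.vec (T.prev (T.opp e))) (y - T.vec (T.next (T.opp e)))}

section ids

variable {E A B C D y : ℂ}

theorem id_c (hA : A = -(E + B)) : cr E A * cr C y = cr B C * cr E y + cr C E * cr B y := by
  subst hA; simp only [cr, Complex.neg_re, Complex.neg_im, Complex.add_re, Complex.add_im]; ring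

theorem id_d (hA : A = -(E + B)) (hD : D = E - C) :
    cr E A * cr D (y - C) = cr A (y - E) * cr C D + cr E y * cr D A := by
  subst hA hD; simp only [cr, Complex.neg_re, Complex.neg_im, Complex.add_re, Complex.add_im,
    Complex.sub_re, Complex.sub_im]; ring

theorem id_a' (hA : A = -(E + B)) (hD : D = E - C) :
    cr C D * cr A (y - E) = cr D (y - C) * cr E A - cr E y * cr D A := by
  subst hA hD; simp only [cr, Complex.neg_re, Complex.neg_im, Complex.add_re, Complex.add_im,
    Complex.sub_re, Complex.sub_im]; ring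

theorem id_b' (hD : D = E - C) :
    cr C D * cr B y = cr C y * cr B E - cr E y * cr B C := by
  subst hD; simp only [cr, Complex.sub_re, Complex.sub_im]; ring

theorem id_a1 (hA : A = -(E + B)) (hD : D = E - C) :
    cr B C * cr A (y - E) = cr (D + A) (y - C) * cr E A + cr B y * cr D A := by
  subst hA hD; simp only [cr, Complex.neg_re, Complex.neg_im, Complex.add_re, Complex.add_im,
    Complex.sub_re, Complex.sub_im]; ring

theorem id_d1 (hA : A = -(E + B)) (hD : D = E - C) :
    cr B C * cr D (y - C) = cr (D + A) (y - C) * cr C D + cr C y * cr D A := by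
  subst hA hD; simp only [cr, Complex.neg_re, Complex.neg_im, Complex.add_re, Complex.add_im,
    Complex.sub_re, Complex.sub_im]; ring

theorem id_b2 (hA : A = -(E + B)) (hD : D = E - C) :
    cr D A * cr B y = cr A (y - E) * cr B C - cr (D + A) (y - C) * cr B E := by
  subst hA hD; simp only [cr, Complex.neg_re, Complex.neg_im, Complex.add_re, Complex.add_im,
    Complex.sub_re, Complex.sub_im]; ring

theorem id_c2 (hA : A = -(E + B)) (hD : D = E - C) :
    cr D A * cr C y = cr D (y - C) * cr B C - cr (D + A) (y - C) * cr C E := by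
  subst hA hD; simp only [cr, Complex.neg_re, Complex.neg_im, Complex.add_re, Complex.add_im,
    Complex.sub_re, Complex.sub_im]; ring

end ids

theorem hvA (e : H) : T.vec (T.next e) = -(T.vec e + T.vec (T.prev e)) := by
  rw [T.vec_prev]; ring

theorem hvD (e : H) : T.vec (T.prev (T.opp e)) = T.vec e - T.vec (T.next (T.opp e)) := by
  rw [T.vec_prev, T.vec_opp]; ring

/-- The positive cross products. -/
theorem quad_pos (e : H) (he : T.Flippable e) :
    0 < cr (T.vec e) (T.vec (T.next e)) ∧ 0 < cr (T.vec (T.prev e)) (T.vec e) ∧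
    0 < cr (T.vec (T.next (T.opp e))) (T.vec e) ∧
    0 < cr (T.vec (T.next (T.opp e))) (T.vec (T.prev (T.opp e))) ∧
    0 < cr (T.vec (T.prev e)) (T.vec (T.next (T.opp e))) ∧
    0 < cr (T.vec (T.prev (T.opp e))) (T.vec (T.next e)) := by
  have h1 := T.pos e
  have h2 := T.pos (T.opp e)
  rw [T.vec_opp] at h2
  obtain ⟨h5, h6⟩ := he
  refine ⟨h1, ?_, ?_, ?_, h5, h6⟩
  · rw [hvA] at h1
    simp only [cr, Complex.neg_re, Complex.neg_im, Complex.add_re, Complex.add_im] at h1 ⊢
    linarith
  · simp only [cr, Complex.neg_re, Complex.neg_im] at h2 ⊢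
    linarith
  · rw [hvD]
    simp only [cr, Complex.neg_re, Complex.neg_im, Complex.sub_re, Complex.sub_im] at h2 ⊢
    linarith

/-! ### Membership in the four triangles -/

section mem

variable {T} {e : H}

theorem a0_opp (y : ℂ) : T.a0 (T.opp e) (y - T.vec e) = -cr (T.vec e) y := by
  simp only [Tri.a0, T.vec_opp, cr, Complex.neg_re, Complex.neg_im, Complex.sub_re, Complex.sub_im]
  ring

theorem a1_opp (y : ℂ) : T.a1 (T.opp e) (y - T.vec e) = cr (T.vec (T.next (T.opp e))) y := by
  simp only [Tri.a1, T.vec_opp]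
  congr 1; ring

theorem a2_opp (y : ℂ) : T.a2 (T.opp e) (y - T.vec e) =
    cr (T.vec (T.prev (T.opp e))) (y - T.vec (T.next (T.opp e))) := by
  simp only [Tri.a2, hvD T e, cr, Complex.sub_re, Complex.sub_im]
  ring

variable {he : T.Flippable e}

theorem fl_vec_e : (T.flip e he).vec e = T.vec (T.prev (T.opp e)) + T.vec (T.next e) :=
  T.flipVec_e e
theorem fl_vec_e' : (T.flip e he).vec (T.opp e) =
    -(T.vec (T.prev (T.opp e)) + T.vec (T.next e)) := T.flipVec_e' e
theorem fl_next_e : (T.flip e he).next e = T.prev e := T.flipNext_e e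
theorem fl_next_b : (T.flip e he).next (T.prev e) = T.next (T.opp e) := T.flipNext_b e
theorem fl_next_c : (T.flip e he).next (T.next (T.opp e)) = e := T.flipNext_c e
theorem fl_next_e' : (T.flip e he).next (T.opp e) = T.prev (T.opp e) := T.flipNext_e' e
theorem fl_next_d : (T.flip e he).next (T.prev (T.opp e)) = T.next e := T.flipNext_d e
theorem fl_next_a : (T.flip e he).next (T.next e) = T.opp e := T.flipNext_a e
theorem fl_vec_a : (T.flip e he).vec (T.next e) = T.vec (T.next e) := by
  have hs := T.six e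
  exact T.flipVec_ne hs.2.1 (Ne.symm hs.2.2.2.2.1)
theorem fl_vec_b : (T.flip e he).vec (T.prev e) = T.vec (T.prev e) := by
  have hs := T.six e
  exact T.flipVec_ne hs.1 (Ne.symm hs.2.2.2.2.2.1)
theorem fl_vec_c : (T.flip e he).vec (T.next (T.opp e)) = T.vec (T.next (T.opp e)) := by
  have hs := T.six e
  exact T.flipVec_ne hs.2.2.2.2.2.2.1 hs.2.2.2.2.2.2.2.2.2.1
theorem fl_vec_d : (T.flip e he).vec (T.prev (T.opp e)) = T.vec (T.prev (T.opp e)) := by
  have hs := T.six e
  exact T.flipVec_ne hs.2.2.2.2.2.2.2.2.2.2.1 hs.2.2.2.2.2.2.2.2.2.2.2.2.2.1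
theorem fl_prev_e : (T.flip e he).prev e = T.next (T.opp e) := by
  unfold Tri.prev; rw [fl_next_e, fl_next_b]
theorem fl_prev_e' : (T.flip e he).prev (T.opp e) = T.next e := by
  unfold Tri.prev; rw [fl_next_e']; exact fl_next_d

theorem a0_V1 (y : ℂ) : (T.flip e he).a0 e (y - T.vec (T.next (T.opp e))) =
    cr (T.vec (T.prev (T.opp e)) + T.vec (T.next e)) (y - T.vec (T.next (T.opp e))) := by
  simp only [Tri.a0, fl_vec_e]

theorem a1_V1 (y : ℂ) : (T.flip e he).a1 e (y - T.vec (T.next (T.opp e))) =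
    cr (T.vec (T.prev e)) y := by
  simp only [Tri.a1, fl_vec_e, fl_next_e, fl_vec_b, hvD T e, hvA T e, cr, Complex.sub_re, Complex.sub_im,
    Complex.add_re, Complex.add_im, Complex.neg_re, Complex.neg_im]
  ring

theorem a2_V1 (y : ℂ) : (T.flip e he).a2 e (y - T.vec (T.next (T.opp e))) =
    cr (T.vec (T.next (T.opp e))) y := by
  simp only [Tri.a2, fl_prev_e, fl_vec_c, cr, Complex.sub_re, Complex.sub_im]
  ring

theorem a0_V2 (y : ℂ) : (T.flip e he).a0 (T.opp e) (y + T.vec (T.prev e)) =
    -cr (T.vec (T.prev (T.opp e)) + T.vec (T.next e)) (y - T.vec (T.next (T.opp e))) := by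
  simp only [Tri.a0, fl_vec_e', hvD T e, hvA T e, cr, Complex.sub_re, Complex.sub_im,
    Complex.add_re, Complex.add_im, Complex.neg_re, Complex.neg_im]
  ring

theorem a1_V2 (y : ℂ) : (T.flip e he).a1 (T.opp e) (y + T.vec (T.prev e)) =
    cr (T.vec (T.prev (T.opp e))) (y - T.vec (T.next (T.opp e))) := by
  simp only [Tri.a1, fl_vec_e', fl_next_e', fl_vec_d, hvD T e, hvA T e, cr, Complex.sub_re, Complex.sub_im,
    Complex.add_re, Complex.add_im, Complex.neg_re, Complex.neg_im]
  ring

theorem a2_V2 (y : ℂ) : (T.flip e he).a2 (T.opp e) (y + T.vec (T.prev e)) =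
    cr (T.vec (T.next e)) (y - T.vec e) := by
  simp only [Tri.a2, fl_prev_e', fl_vec_a, hvA T e, cr, Complex.sub_re, Complex.sub_im,
    Complex.add_re, Complex.add_im, Complex.neg_re, Complex.neg_im]
  ring

variable (he)
include he

theorem mem_U1 (y : ℂ) : y ∈ Cl T e ↔ y ∈ Q4 T e ∧ 0 ≤ cr (T.vec e) y := by
  obtain ⟨p1, p2, p3, p4, p5, p6⟩ := quad_pos T e he
  constructor
  · rintro ⟨h0, h1, h2⟩
    simp only [Tri.a0, Tri.a1, Tri.a2] at h0 h1 h2
    refine ⟨⟨h1, h2, ?_, ?_⟩, h0⟩
    · rw [← mul_nonneg_iff_of_pos_left p1, id_c (hvA T e)]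
      exact add_nonneg (mul_nonneg p5.le h0) (mul_nonneg p3.le h2)
    · rw [← mul_nonneg_iff_of_pos_left p1, id_d (hvA T e) (hvD T e)]
      exact add_nonneg (mul_nonneg h1 p4.le) (mul_nonneg h0 p6.le)
  · rintro ⟨⟨h1, h2, -, -⟩, h0⟩
    exact ⟨h0, h1, h2⟩

theorem mem_U2 (y : ℂ) : y - T.vec e ∈ Cl T (T.opp e) ↔ y ∈ Q4 T e ∧ cr (T.vec e) y ≤ 0 := by
  obtain ⟨p1, p2, p3, p4, p5, p6⟩ := quad_pos T e he
  unfold Cl
  rw [mem_ofPred_eq, a0_opp, a1_opp, a2_opp]
  constructor
  · rintro ⟨h0, h1, h2⟩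
    refine ⟨⟨?_, ?_, h1, h2⟩, by linarith⟩
    · rw [← mul_nonneg_iff_of_pos_left p4, id_a' (hvA T e) (hvD T e)]
      have := mul_nonneg h2 p1.le
      have := mul_nonneg h0 p6.le
      linarith
    · rw [← mul_nonneg_iff_of_pos_left p4, id_b' (hvD T e)]
      have := mul_nonneg h1 p2.le
      have := mul_nonneg h0 p5.le
      linarith
  · rintro ⟨⟨-, -, h1, h2⟩, h0⟩
    exact ⟨by linarith, h1, h2⟩

theorem mem_V1 (y : ℂ) : y - T.vec (T.next (T.opp e)) ∈ Cl (T.flip e he) e ↔
    y ∈ Q4 T e ∧ 0 ≤ cr (T.vec (T.prev (T.opp e)) + T.vec (T.next e))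
      (y - T.vec (T.next (T.opp e))) := by
  obtain ⟨p1, p2, p3, p4, p5, p6⟩ := quad_pos T e he
  unfold Cl
  rw [mem_ofPred_eq, a0_V1, a1_V1, a2_V1]
  constructor
  · rintro ⟨h0, h1, h2⟩
    refine ⟨⟨?_, h1, h2, ?_⟩, h0⟩
    · rw [← mul_nonneg_iff_of_pos_left p5, id_a1 (hvA T e) (hvD T e)]
      exact add_nonneg (mul_nonneg h0 p1.le) (mul_nonneg h1 p6.le)
    · rw [← mul_nonneg_iff_of_pos_left p5, id_d1 (hvA T e) (hvD T e)]
      exact add_nonneg (mul_nonneg h0 p4.le) (mul_nonneg h2 p6.le)
  · rintro ⟨⟨-, h1, h2, -⟩, h0⟩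
    exact ⟨h0, h1, h2⟩

theorem mem_V2 (y : ℂ) : y + T.vec (T.prev e) ∈ Cl (T.flip e he) (T.opp e) ↔
    y ∈ Q4 T e ∧ cr (T.vec (T.prev (T.opp e)) + T.vec (T.next e))
      (y - T.vec (T.next (T.opp e))) ≤ 0 := by
  obtain ⟨p1, p2, p3, p4, p5, p6⟩ := quad_pos T e he
  unfold Cl
  rw [mem_ofPred_eq, a0_V2, a1_V2, a2_V2]
  constructor
  · rintro ⟨h0, h1, h2⟩
    refine ⟨⟨h2, ?_, ?_, h1⟩, by linarith⟩
    · rw [← mul_nonneg_iff_of_pos_left p6, id_b2 (hvA T e) (hvD T e)]
      have := mul_nonneg h2 p5.le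
      have := mul_nonneg h0 p2.le
      linarith
    · rw [← mul_nonneg_iff_of_pos_left p6, id_c2 (hvA T e) (hvD T e)]
      have := mul_nonneg h1 p5.le
      have := mul_nonneg h0 p3.le
      linarith
  · rintro ⟨⟨h2, -, -, h1⟩, h0⟩
    exact ⟨by linarith, h1, h2⟩

end mem

theorem convex_Q4 (e : H) : Convex ℝ (Q4 T e) := by
  intro z hz w hw a b ha hb hab
  obtain ⟨h1, h2, h3, h4⟩ := hz
  obtain ⟨k1, k2, k3, k4⟩ := hw
  refine ⟨?_, ?_, ?_, ?_⟩
  · have : cr (T.vec (T.next e)) (a • z + b • w - T.vec e) =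
        a * cr (T.vec (T.next e)) (z - T.vec e) + b * cr (T.vec (T.next e)) (w - T.vec e) := by
      have hb' : b = 1 - a := by linarith
      subst hb'
      simp only [cr, Complex.sub_re, Complex.sub_im, Complex.add_re, Complex.add_im,
        Complex.real_smul, Complex.mul_re, Complex.mul_im, Complex.ofReal_re, Complex.ofReal_im]
      ring
    rw [this]; exact add_nonneg (mul_nonneg ha h1) (mul_nonneg hb k1)
  · have : cr (T.vec (T.prev e)) (a • z + b • w) =
        a * cr (T.vec (T.prev e)) z + b * cr (T.vec (T.prev e)) w := by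
      simp only [cr, Complex.add_re, Complex.add_im,
        Complex.real_smul, Complex.mul_re, Complex.mul_im, Complex.ofReal_re, Complex.ofReal_im]
      ring
    rw [this]; exact add_nonneg (mul_nonneg ha h2) (mul_nonneg hb k2)
  · have : cr (T.vec (T.next (T.opp e))) (a • z + b • w) =
        a * cr (T.vec (T.next (T.opp e))) z + b * cr (T.vec (T.next (T.opp e))) w := by
      simp only [cr, Complex.add_re, Complex.add_im,
        Complex.real_smul, Complex.mul_re, Complex.mul_im, Complex.ofReal_re, Complex.ofReal_im]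
      ring
    rw [this]; exact add_nonneg (mul_nonneg ha h3) (mul_nonneg hb k3)
  · have : cr (T.vec (T.prev (T.opp e))) (a • z + b • w - T.vec (T.next (T.opp e))) =
        a * cr (T.vec (T.prev (T.opp e))) (z - T.vec (T.next (T.opp e))) +
          b * cr (T.vec (T.prev (T.opp e))) (w - T.vec (T.next (T.opp e))) := by
      have hb' : b = 1 - a := by linarith
      subst hb'
      simp only [cr, Complex.sub_re, Complex.sub_im, Complex.add_re, Complex.add_im,
        Complex.real_smul, Complex.mul_re, Complex.mul_im, Complex.ofReal_re, Complex.ofReal_im]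
      ring
    rw [this]; exact add_nonneg (mul_nonneg ha h4) (mul_nonneg hb k4)

/-- Points of the diagonal. -/
theorem diag_pt {e : H} (he : T.Flippable e) {y : ℂ} (hy : y ∈ Q4 T e) (h0 : cr (T.vec e) y = 0) :
    ∃ t ∈ Icc (0 : ℝ) 1, y = t * T.vec e := by
  obtain ⟨p1, p2, p3, p4, p5, p6⟩ := quad_pos T e he
  obtain ⟨h1, h2, h3, h4⟩ := hy
  have key : (cr (T.vec (T.prev e)) (T.vec e) : ℂ) * y =
      (cr (T.vec (T.prev e)) y : ℂ) * T.vec e - (cr (T.vec e) y : ℂ) * T.vec (T.prev e) := by
    apply Complex.ext <;>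
    simp only [cr, Complex.sub_re, Complex.sub_im, Complex.mul_re, Complex.mul_im,
      Complex.ofReal_re, Complex.ofReal_im] <;> ring
  rw [h0, Complex.ofReal_zero, zero_mul, sub_zero] at key
  set t : ℝ := cr (T.vec (T.prev e)) y / cr (T.vec (T.prev e)) (T.vec e) with ht
  have hy : y = t * T.vec e := by
    have hne : (cr (T.vec (T.prev e)) (T.vec e) : ℂ) ≠ 0 := by
      exact_mod_cast p2.ne'
    have : (t : ℂ) = (cr (T.vec (T.prev e)) y : ℂ) / (cr (T.vec (T.prev e)) (T.vec e) : ℂ) := by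
      rw [ht]; push_cast; rfl
    rw [this]
    field_simp
    linear_combination key
  refine ⟨t, ⟨div_nonneg h2 p2.le, ?_⟩, hy⟩
  rw [hy] at h1
  have h5 : cr (T.vec (T.next e)) (t * T.vec e - T.vec e) =
      (1 - t) * cr (T.vec e) (T.vec (T.next e)) := by
    simp only [cr, Complex.sub_re, Complex.sub_im, Complex.mul_re, Complex.mul_im,
      Complex.ofReal_re, Complex.ofReal_im]
    ring
  rw [h5, mul_nonneg_iff_of_pos_right p1] at h1
  linarith

/-! ### The glued function -/

theorem dot_add_right (w z z' : ℂ) : dot w (z + z') = dot w z + dot w z' := by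
  simp only [dot, Complex.add_re, Complex.add_im]; ring

theorem dot_sub_right (w z z' : ℂ) : dot w (z - z') = dot w z - dot w z' := by
  simp only [dot, Complex.sub_re, Complex.sub_im]; ring

theorem dot_neg_right (w z : ℂ) : dot w (-z) = -dot w z := by
  simp only [dot, Complex.neg_re, Complex.neg_im]; ring

theorem dot_mul_right (w : ℂ) (t : ℝ) (z : ℂ) : dot w (t * z) = t * dot w z := by
  simp only [dot, Complex.mul_re, Complex.mul_im, Complex.ofReal_re, Complex.ofReal_im]; ring

theorem abs_dot_le (w z : ℂ) : |dot w z| ≤ ‖w‖ * ‖z‖ := by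
  have h : dot w z = (starRingEnd ℂ w * z).re := by
    simp [dot, Complex.mul_re]
  rw [h]
  refine (Complex.abs_re_le_norm _).trans ?_
  rw [norm_mul, RCLike.norm_conj]

open Classical in
/-- The function on the quadrilateral. -/
def gq (x : H → ℝ) (f : H → ℂ → ℝ) (e : H) : ℂ → ℝ := fun y =>
  if y ∈ Cl T e then dot (omega T x e) y + f e y
  else x e + dot (omega T x (T.opp e)) (y - T.vec e) + f (T.opp e) (y - T.vec e)

section gq

variable {T} {e : H} {x : H → ℝ} {f : H → ℂ → ℝ}

theorem gq_U1 {y : ℂ} (hy : y ∈ Cl T e) : gq T x f e y = dot (omega T x e) y + f e y := by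
  unfold gq; rw [if_pos hy]

theorem gq_U2 (he : T.Flippable e) (hx : x ∈ Coch T) (hf : Fn T f) {y : ℂ}
    (hy : y - T.vec e ∈ Cl T (T.opp e)) :
    gq T x f e y = x e + dot (omega T x (T.opp e)) (y - T.vec e) +
      f (T.opp e) (y - T.vec e) := by
  by_cases h1 : y ∈ Cl T e
  · rw [gq_U1 h1]
    obtain ⟨hq, h2⟩ := (mem_U2 he y).1 hy
    obtain ⟨-, h3⟩ := (mem_U1 he y).1 h1
    obtain ⟨t, ht, rfl⟩ := diag_pt T he hq (le_antisymm h2 h3)
    rw [hf.edge e t ht, dot_mul_right, dot_omega]
    have h4 : (t : ℂ) * T.vec e - T.vec e = ((1 - t : ℝ) : ℂ) * T.vec (T.opp e) := by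
      rw [T.vec_opp]; push_cast; ring
    rw [h4, dot_mul_right, dot_omega, hx.1 e]
    ring
  · unfold gq; rw [if_neg h1]

theorem lip_dot_add {s : Set ℂ} {φ : ℂ → ℝ} {C : NNReal} (h : LipschitzOnWith C φ s) (w : ℂ) :
    LipschitzOnWith (C + ‖w‖₊) (fun z => dot w z + φ z) s := by
  refine LipschitzOnWith.of_dist_le_mul fun z hz z' hz' => ?_
  have h1 := h.dist_le_mul z hz z' hz'
  have h2 := abs_dot_le w (z - z')
  rw [dot_sub_right] at h2
  rw [Real.dist_eq] at h1 ⊢
  push_cast
  rw [dist_eq_norm] at h1 ⊢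
  have h3 : dot w z + φ z - (dot w z' + φ z') = (dot w z - dot w z') + (φ z - φ z') := by ring
  rw [h3, add_mul]
  refine (abs_add_le _ _).trans ?_
  linarith

/-- `gq` is Lipschitz on the quadrilateral. -/
theorem lip_gq (he : T.Flippable e) (hx : x ∈ Coch T) (hf : Fn T f) :
    ∃ L : NNReal, LipschitzOnWith L (gq T x f e) (Q4 T e) := by
  obtain ⟨C, hC⟩ := hf.lip
  have l1 := lip_dot_add (hC e) (omega T x e)
  have l2 := lip_dot_add (hC (T.opp e)) (omega T x (T.opp e))
  set L : NNReal := (C + ‖omega T x e‖₊) + (C + ‖omega T x (T.opp e)‖₊) with hL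
  have m1 : ∀ z w : ℂ, z ∈ Cl T e → w ∈ Cl T e →
      |gq T x f e z - gq T x f e w| ≤ L * ‖z - w‖ := by
    intro z w hz hw
    rw [gq_U1 hz, gq_U1 hw]
    have := l1.dist_le_mul z hz w hw
    rw [Real.dist_eq, dist_eq_norm] at this
    refine this.trans (mul_le_mul_of_nonneg_right ?_ (norm_nonneg _))
    rw [hL]; push_cast
    have := norm_nonneg (omega T x (T.opp e))
    have := C.2
    simp only [NNReal.val_eq_coe] at this
    linarith
  have m2 : ∀ z w : ℂ, z - T.vec e ∈ Cl T (T.opp e) → w - T.vec e ∈ Cl T (T.opp e) →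
      |gq T x f e z - gq T x f e w| ≤ L * ‖z - w‖ := by
    intro z w hz hw
    rw [gq_U2 he hx hf hz, gq_U2 he hx hf hw]
    have := l2.dist_le_mul _ hz _ hw
    rw [Real.dist_eq, dist_eq_norm, sub_sub_sub_cancel_right] at this
    have h3 : ∀ a b c a' b' : ℝ, c + a + b - (c + a' + b') = a + b - (a' + b') := by
      intros; ring
    rw [h3]
    refine this.trans (mul_le_mul_of_nonneg_right ?_ (norm_nonneg _))
    rw [hL]; push_cast
    have := norm_nonneg (omega T x e)
    have := C.2
    simp only [NNReal.val_eq_coe] at this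
    linarith
  -- mixed pairs
  have m3 : ∀ z w : ℂ, z ∈ Q4 T e → w ∈ Q4 T e → 0 ≤ cr (T.vec e) z → cr (T.vec e) w ≤ 0 →
      |gq T x f e z - gq T x f e w| ≤ L * ‖z - w‖ := by
    intro z w hz hw hz0 hw0
    obtain ⟨s, hs, hs0⟩ : ∃ s ∈ Icc (0 : ℝ) 1,
        cr (T.vec e) z + s * (cr (T.vec e) w - cr (T.vec e) z) = 0 := by
      rcases hz0.eq_or_lt with h0 | h0
      · exact ⟨0, ⟨le_rfl, zero_le_one⟩, by rw [← h0]; ring⟩
      · have hd : 0 < cr (T.vec e) z - cr (T.vec e) w := by linarith
        refine ⟨cr (T.vec e) z / (cr (T.vec e) z - cr (T.vec e) w), ⟨by positivity, ?_⟩, ?_⟩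
        · rw [div_le_one hd]; linarith
        · field_simp
          ring
    set m : ℂ := (1 - s) • z + s • w with hm
    have hmQ : m ∈ Q4 T e := convex_Q4 T e hz hw (by linarith [hs.2]) hs.1 (by ring)
    have hm0 : cr (T.vec e) m = 0 := by
      rw [← hs0, hm]
      simp only [cr, Complex.add_re, Complex.add_im,
        Complex.real_smul, Complex.mul_re, Complex.mul_im, Complex.ofReal_re, Complex.ofReal_im]
      ring
    have a1 := m1 z m ((mem_U1 he z).2 ⟨hz, hz0⟩) ((mem_U1 he m).2 ⟨hmQ, hm0.ge⟩)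
    have a2 := m2 m w ((mem_U2 he m).2 ⟨hmQ, hm0.le⟩) ((mem_U2 he w).2 ⟨hw, hw0⟩)
    have b1 : ‖z - m‖ = s * ‖z - w‖ := by
      have : z - m = s • (z - w) := by
        rw [hm]; simp only [Complex.real_smul]; push_cast; ring
      rw [this, norm_smul, Real.norm_of_nonneg hs.1]
    have b2 : ‖m - w‖ = (1 - s) * ‖z - w‖ := by
      have : m - w = (1 - s) • (z - w) := by
        rw [hm]; simp only [Complex.real_smul]; push_cast; ring
      rw [this, norm_smul, Real.norm_of_nonneg (by linarith [hs.2])]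
    rw [b1] at a1
    rw [b2] at a2
    calc |gq T x f e z - gq T x f e w|
        ≤ |gq T x f e z - gq T x f e m| + |gq T x f e m - gq T x f e w| := abs_sub_le _ _ _
      _ ≤ L * (s * ‖z - w‖) + L * ((1 - s) * ‖z - w‖) := add_le_add a1 a2
      _ = L * ‖z - w‖ := by ring
  refine ⟨L, LipschitzOnWith.of_dist_le_mul fun z hz w hw => ?_⟩
  rw [Real.dist_eq, dist_eq_norm]
  rcases le_total 0 (cr (T.vec e) z) with hz0 | hz0
  · rcases le_total 0 (cr (T.vec e) w) with hw0 | hw0
    · exact m1 z w ((mem_U1 he z).2 ⟨hz, hz0⟩) ((mem_U1 he w).2 ⟨hw, hw0⟩)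
    · exact m3 z w hz hw hz0 hw0
  · rcases le_total 0 (cr (T.vec e) w) with hw0 | hw0
    · rw [abs_sub_comm, norm_sub_rev]
      exact m3 w z hw hz hw0 hz0
    · exact m2 z w ((mem_U2 he z).2 ⟨hz, hz0⟩) ((mem_U2 he w).2 ⟨hw, hw0⟩)

end gq

/-! ### The new function -/

open Classical in
/-- Base points and values (see the header of BF0.lean). -/
def bp (x : H → ℝ) (e : H) : H → ℂ × ℝ := fun h =>
  if h = e then (T.vec (T.next (T.opp e)), x (T.next (T.opp e)))
  else if h = T.prev e then (-T.vec (T.prev e), -x (T.prev e))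
  else if h = T.next (T.opp e) then (0, 0)
  else if h = T.opp e then (-T.vec (T.prev e), -x (T.prev e))
  else if h = T.prev (T.opp e) then (T.vec (T.next (T.opp e)), x (T.next (T.opp e)))
  else (T.vec e, x e)

open Classical in
/-- The transported function. -/
def nf (x : H → ℝ) (f : H → ℂ → ℝ) (e : H) (he : T.Flippable e) : H → ℂ → ℝ := fun h z =>
  if T.Out e h then f h z
  else gq T x f e ((bp T x e h).1 + z) - (bp T x e h).2 -
    dot (omega (T.flip e he) (flipC T e x) h) z

section bp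

variable {T} {x : H → ℝ} {e : H}

theorem bp_e : bp T x e e = (T.vec (T.next (T.opp e)), x (T.next (T.opp e))) := by
  simp [bp]
theorem bp_b : bp T x e (T.prev e) = (-T.vec (T.prev e), -x (T.prev e)) := by
  have h := T.six e; simp only [bp]; simp [h]
theorem bp_c : bp T x e (T.next (T.opp e)) = (0, 0) := by
  have h := T.six e; simp only [bp]; simp [h]
theorem bp_e' : bp T x e (T.opp e) = (-T.vec (T.prev e), -x (T.prev e)) := by
  have h := T.six e; simp only [bp]; simp [h, Ne.symm h.2.2.2.2.2.2.2.2.2.1]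
theorem bp_d : bp T x e (T.prev (T.opp e)) =
    (T.vec (T.next (T.opp e)), x (T.next (T.opp e))) := by
  have h := T.six e; simp only [bp]; simp [h]
theorem bp_a : bp T x e (T.next e) = (T.vec e, x e) := by
  have h := T.six e
  simp only [bp]
  simp [h, Ne.symm h.2.2.1, Ne.symm h.2.2.2.2.1, Ne.symm h.2.2.2.2.2.2.2.1,
    Ne.symm h.2.2.2.2.2.2.2.2.2.2.2.1]

theorem flipC_e : flipC T e x e = x (T.prev (T.opp e)) + x (T.next e) := by
  simp [flipC]
theorem flipC_e' : flipC T e x (T.opp e) = -(x (T.prev (T.opp e)) + x (T.next e)) := by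
  simp [flipC, T.opp_ne e]
theorem flipC_ne {h : H} (h1 : h ≠ e) (h2 : h ≠ T.opp e) : flipC T e x h = x h := by
  simp [flipC, h1, h2]
theorem flipC_a : flipC T e x (T.next e) = x (T.next e) := by
  have hs := T.six e
  exact flipC_ne hs.2.1 (Ne.symm hs.2.2.2.2.1)
theorem flipC_b : flipC T e x (T.prev e) = x (T.prev e) := by
  have hs := T.six e
  exact flipC_ne hs.1 (Ne.symm hs.2.2.2.2.2.1)
theorem flipC_c : flipC T e x (T.next (T.opp e)) = x (T.next (T.opp e)) := by
  have hs := T.six e
  exact flipC_ne hs.2.2.2.2.2.2.1 hs.2.2.2.2.2.2.2.2.2.1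
theorem flipC_d : flipC T e x (T.prev (T.opp e)) = x (T.prev (T.opp e)) := by
  have hs := T.six e
  exact flipC_ne hs.2.2.2.2.2.2.2.2.2.2.1 hs.2.2.2.2.2.2.2.2.2.2.2.2.2.1

theorem coch1 (hx : x ∈ Coch T) : x e + x (T.next e) + x (T.prev e) = 0 := hx.2 e
theorem coch2 (hx : x ∈ Coch T) :
    -x e + x (T.next (T.opp e)) + x (T.prev (T.opp e)) = 0 := by
  have h1 : x (T.opp e) + x (T.next (T.opp e)) + x (T.prev (T.opp e)) = 0 := hx.2 (T.opp e)
  rw [hx.1 e] at h1
  exact h1

theorem not_out_six {h : H} (hh : h = e ∨ h = T.next e ∨ h = T.prev e ∨ h = T.opp e ∨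
    h = T.next (T.opp e) ∨ h = T.prev (T.opp e)) : ¬T.Out e h := by
  unfold Tri.Out
  tauto

/-- The step from a dart of the quadrilateral to the next one. -/
theorem bp_next (he : T.Flippable e) (hx : x ∈ Coch T) {h : H} (hh : ¬T.Out e h) :
    (bp T x e ((T.flip e he).next h)).1 = (bp T x e h).1 + (T.flip e he).vec h ∧
    (bp T x e ((T.flip e he).next h)).2 = (bp T x e h).2 + flipC T e x h ∧
    ¬T.Out e ((T.flip e he).next h) := by
  have c1 := coch1 (e := e) hx
  have c2 := coch2 (e := e) hx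
  rcases T.cases_six e h with ho | rfl | rfl | rfl | rfl | rfl | rfl
  · exact absurd ho hh
  · rw [fl_next_e, bp_b, bp_e, fl_vec_e, flipC_e, hvA T h, hvD T h]
    exact ⟨by ring, by simp only; linarith, not_out_six (by tauto)⟩
  · rw [fl_next_a, bp_e', bp_a, fl_vec_a, flipC_a, hvA T e]
    exact ⟨by ring, by simp only; linarith, not_out_six (by tauto)⟩
  · rw [fl_next_b, bp_c, bp_b, fl_vec_b, flipC_b]
    exact ⟨by simp, by simp, not_out_six (by tauto)⟩
  · rw [fl_next_e', bp_d, bp_e', fl_vec_e', flipC_e', hvA T e, hvD T e]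
    exact ⟨by ring, by simp only; linarith, not_out_six (by tauto)⟩
  · rw [fl_next_c, bp_e, bp_c, fl_vec_c, flipC_c]
    exact ⟨by simp, by simp, not_out_six (by tauto)⟩
  · rw [fl_next_d, bp_a, bp_d, fl_vec_d, flipC_d, hvD T e]
    exact ⟨by ring, by simp only; linarith, not_out_six (by tauto)⟩

theorem cl_step (he : T.Flippable e) (hx : x ∈ Coch T) {h : H} (hh : ¬T.Out e h)
    (hP : ∀ z ∈ Cl (T.flip e he) h, (bp T x e h).1 + z ∈ Q4 T e) :
    ∀ z ∈ Cl (T.flip e he) ((T.flip e he).next h),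
      (bp T x e ((T.flip e he).next h)).1 + z ∈ Q4 T e := by
  intro z hz
  have h1 := (Cl_next (T.flip e he) h (z + (T.flip e he).vec h)).1 (by
    rw [add_sub_cancel_right]; exact hz)
  have h2 := hP _ h1
  rw [(bp_next he hx hh).1]
  have : (bp T x e h).1 + (T.flip e he).vec h + z =
      (bp T x e h).1 + (z + (T.flip e he).vec h) := by ring
  rw [this]; exact h2

/-- The new triangles lie in the quadrilateral. -/
theorem cl_new (he : T.Flippable e) (hx : x ∈ Coch T) {h : H} (hh : ¬T.Out e h) :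
    ∀ z ∈ Cl (T.flip e he) h, (bp T x e h).1 + z ∈ Q4 T e := by
  have h1 : ∀ z ∈ Cl (T.flip e he) e, (bp T x e e).1 + z ∈ Q4 T e := by
    intro z hz
    rw [bp_e]
    have h2 := (mem_V1 he (T.vec (T.next (T.opp e)) + z)).1 (by
      rw [add_sub_cancel_left]; exact hz)
    exact h2.1
  have h1' : ∀ z ∈ Cl (T.flip e he) (T.opp e), (bp T x e (T.opp e)).1 + z ∈ Q4 T e := by
    intro z hz
    rw [bp_e']
    have h2 := (mem_V2 he (-T.vec (T.prev e) + z)).1 (by
      have : -T.vec (T.prev e) + z + T.vec (T.prev e) = z := by ring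
      rw [this]; exact hz)
    exact h2.1
  have s1 := cl_step he hx (not_out_six (by tauto)) h1
  rw [fl_next_e] at s1
  have s2 := cl_step he hx (not_out_six (by tauto)) s1
  rw [fl_next_b] at s2
  have s1' := cl_step he hx (not_out_six (by tauto)) h1'
  rw [fl_next_e'] at s1'
  have s2' := cl_step he hx (not_out_six (by tauto)) s1'
  rw [fl_next_d] at s2'
  rcases T.cases_six e h with ho | rfl | rfl | rfl | rfl | rfl | rfl
  · exact absurd ho hh
  · exact h1
  · exact s2'
  · exact s1
  · exact h1'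
  · exact s2
  · exact s1'

theorem fl_next_out (he : T.Flippable e) {h : H} (ho : T.Out e h) :
    (T.flip e he).next h = T.next h := T.flipNext_out ho
theorem fl_vec_out (he : T.Flippable e) {h : H} (ho : T.Out e h) :
    (T.flip e he).vec h = T.vec h := T.flipVec_ne ho.1 ho.2.2.2.1
theorem fl_prev_out (he : T.Flippable e) {h : H} (ho : T.Out e h) :
    (T.flip e he).prev h = T.prev h := by
  unfold Tri.prev
  rw [fl_next_out he ho, fl_next_out he ho.next]

theorem fl_Cl_out (he : T.Flippable e) {h : H} (ho : T.Out e h) :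
    Cl (T.flip e he) h = Cl T h := by
  unfold Cl Tri.a0 Tri.a1 Tri.a2
  rw [fl_next_out he ho, fl_vec_out he ho, fl_vec_out he ho.next, fl_prev_out he ho]
  have : (T.flip e he).vec (T.prev h) = T.vec (T.prev h) := fl_vec_out he ho.next.next
  rw [this]

theorem fl_Op_out (he : T.Flippable e) {h : H} (ho : T.Out e h) :
    Op (T.flip e he) h = Op T h := by
  unfold Op Tri.Int Tri.a0 Tri.a1 Tri.a2
  rw [fl_next_out he ho, fl_vec_out he ho, fl_vec_out he ho.next, fl_prev_out he ho]
  have : (T.flip e he).vec (T.prev h) = T.vec (T.prev h) := fl_vec_out he ho.next.next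
  rw [this]

theorem fl_omega_out (he : T.Flippable e) {h : H} (ho : T.Out e h) :
    omega (T.flip e he) (flipC T e x) h = omega T x h := by
  unfold omega ar
  rw [fl_next_out he ho, fl_vec_out he ho, fl_vec_out he ho.next,
    flipC_ne ho.1 ho.2.2.2.1, flipC_ne ho.next.1 ho.next.2.2.2.1]

end bp

/-! ### The new function belongs to the flipped surface -/

section nf

variable {T} {x : H → ℝ} {f : H → ℂ → ℝ} {e : H}

theorem nf_out (he : T.Flippable e) {h : H} (ho : T.Out e h) (z : ℂ) :
    nf T x f e he h z = f h z := by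
  unfold nf; rw [if_pos ho]

theorem nf_in (he : T.Flippable e) {h : H} (ho : ¬T.Out e h) (z : ℂ) :
    nf T x f e he h z = gq T x f e ((bp T x e h).1 + z) - (bp T x e h).2 -
      dot (omega (T.flip e he) (flipC T e x) h) z := by
  unfold nf; rw [if_neg ho]

theorem nf_rot (he : T.Flippable e) (hx : x ∈ Coch T) (hf : Fn T f) (h : H) {z : ℂ}
    (hz : z ∈ Cl (T.flip e he) h) :
    nf T x f e he ((T.flip e he).next h) (z - (T.flip e he).vec h) = nf T x f e he h z := by
  by_cases ho : T.Out e h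
  · rw [fl_Cl_out he ho] at hz
    rw [nf_out he ho, fl_next_out he ho, fl_vec_out he ho, nf_out he ho.next]
    exact hf.rot h z hz
  · obtain ⟨b1, b2, b3⟩ := bp_next he hx ho
    rw [nf_in he ho, nf_in he b3, b1, b2, omega_next _ (flipC_mem T e he hx), dot_sub_right,
      dot_omega]
    have : (bp T x e h).1 + (T.flip e he).vec h + (z - (T.flip e he).vec h) =
        (bp T x e h).1 + z := by ring
    rw [this]; ring

theorem Cl_edge (h : H) {t : ℝ} (ht : t ∈ Icc (0 : ℝ) 1) : (t : ℂ) * T.vec h ∈ Cl T h := by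
  have p := T.pos h
  refine ⟨?_, ?_, ?_⟩
  · simp only [Tri.a0]
    rw [cr_mul_right, cr_self, mul_zero]
  · simp only [Tri.a1]
    have : cr (T.vec (T.next h)) (t * T.vec h - T.vec h) =
        (1 - t) * cr (T.vec h) (T.vec (T.next h)) := by
      simp only [cr, Complex.sub_re, Complex.sub_im, Complex.mul_re, Complex.mul_im,
        Complex.ofReal_re, Complex.ofReal_im]
      ring
    rw [this]
    exact mul_nonneg (by linarith [ht.2]) p.le
  · simp only [Tri.a2]
    have : cr (T.vec (T.prev h)) (t * T.vec h) = t * cr (T.vec h) (T.vec (T.next h)) := by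
      rw [T.vec_prev]
      simp only [cr, Complex.neg_re, Complex.neg_im, Complex.add_re, Complex.add_im,
        Complex.mul_re, Complex.mul_im, Complex.ofReal_re, Complex.ofReal_im]
      ring
    rw [this]
    exact mul_nonneg ht.1 p.le

/-- On the sides of the quadrilateral the new functions agree with the old ones. -/
theorem nf_side (he : T.Flippable e) (hx : x ∈ Coch T) (hf : Fn T f) {h : H} (h1 : h ≠ e)
    (h2 : h ≠ T.opp e) {t : ℝ} (ht : t ∈ Icc (0 : ℝ) 1) :
    nf T x f e he h (t * T.vec h) = f h (t * T.vec h) := by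
  have c1 := coch1 (e := e) hx
  have c2 := coch2 (e := e) hx
  have hs := T.six e
  rcases T.cases_six e h with ho | rfl | rfl | rfl | rfl | rfl | rfl
  · exact nf_out he ho _
  · exact absurd rfl h1
  · -- a
    have hd : dot (omega (T.flip e he) (flipC T e x) (T.next e)) (T.vec (T.next e)) =
        x (T.next e) := by
      have := dot_omega (T.flip e he) (flipC T e x) (T.next e)
      rwa [fl_vec_a, flipC_a] at this
    rw [nf_in he (not_out_six (by tauto)), bp_a, dot_mul_right, hd]
    have hc : T.vec e + t * T.vec (T.next e) ∈ Cl T e := by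
      rw [← Cl_next]
      rw [add_sub_cancel_left]; exact Cl_edge _ ht
    have hr := hf.rot e _ hc
    rw [add_sub_cancel_left] at hr
    rw [gq_U1 hc, ← hr, dot_add_right, dot_mul_right, dot_omega, dot_omega_next]
    simp only
    ring
  · -- b
    have hd : dot (omega (T.flip e he) (flipC T e x) (T.prev e)) (T.vec (T.prev e)) =
        x (T.prev e) := by
      have := dot_omega (T.flip e he) (flipC T e x) (T.prev e)
      rwa [fl_vec_b, flipC_b] at this
    rw [nf_in he (not_out_six (by tauto)), bp_b, dot_mul_right, hd]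
    have hc0 := Cl_edge (T := T) (T.prev e) ht
    have hc : -T.vec (T.prev e) + t * T.vec (T.prev e) ∈ Cl T e := by
      have := (Cl_next T (T.prev e) _).2 hc0
      rw [T.next_prev] at this
      convert this using 1; ring
    have hr := hf.rot (T.prev e) _ hc0
    rw [T.next_prev] at hr
    have h3 : -T.vec (T.prev e) + t * T.vec (T.prev e) =
        t * T.vec (T.prev e) - T.vec (T.prev e) := by ring
    rw [gq_U1 hc, h3, hr, dot_sub_right, dot_mul_right, dot_omega_prev T hx]
    simp only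
    ring
  · exact absurd rfl h2
  · -- c
    have hd : dot (omega (T.flip e he) (flipC T e x) (T.next (T.opp e)))
        (T.vec (T.next (T.opp e))) = x (T.next (T.opp e)) := by
      have := dot_omega (T.flip e he) (flipC T e x) (T.next (T.opp e))
      rwa [fl_vec_c, flipC_c] at this
    rw [nf_in he (not_out_six (by tauto)), bp_c, dot_mul_right, hd, zero_add]
    have hc : (t : ℂ) * T.vec (T.next (T.opp e)) - T.vec e ∈ Cl T (T.opp e) := by
      rw [← Cl_next, T.vec_opp, sub_neg_eq_add, sub_add_cancel]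
      exact Cl_edge _ ht
    have hr := hf.rot (T.opp e) _ hc
    rw [T.vec_opp, sub_neg_eq_add, sub_add_cancel] at hr
    rw [gq_U2 he hx hf hc, ← hr, dot_sub_right, dot_mul_right, dot_omega_next]
    have h4 : dot (omega T x (T.opp e)) (T.vec e) = x e := by
      have := dot_omega T x (T.opp e)
      rw [T.vec_opp, dot_neg_right, hx.1 e] at this
      linarith
    rw [h4]
    simp only
    ring
  · -- d
    have hd : dot (omega (T.flip e he) (flipC T e x) (T.prev (T.opp e)))
        (T.vec (T.prev (T.opp e))) = x (T.prev (T.opp e)) := by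
      have := dot_omega (T.flip e he) (flipC T e x) (T.prev (T.opp e))
      rwa [fl_vec_d, flipC_d] at this
    rw [nf_in he (not_out_six (by tauto)), bp_d, dot_mul_right, hd]
    have hc0 := Cl_edge (T := T) (T.prev (T.opp e)) ht
    have h3 : T.vec (T.next (T.opp e)) + t * T.vec (T.prev (T.opp e)) - T.vec e =
        t * T.vec (T.prev (T.opp e)) - T.vec (T.prev (T.opp e)) := by
      rw [hvD T e]; ring
    have hc : T.vec (T.next (T.opp e)) + t * T.vec (T.prev (T.opp e)) - T.vec e ∈
        Cl T (T.opp e) := by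
      have := (Cl_next T (T.prev (T.opp e)) _).2 hc0
      rw [T.next_prev] at this
      rw [h3]; exact this
    have hr := hf.rot (T.prev (T.opp e)) _ hc0
    rw [T.next_prev] at hr
    rw [gq_U2 he hx hf hc, h3, hr, dot_sub_right, dot_mul_right, dot_omega_prev T hx]
    simp only
    linarith

theorem nf_edge (he : T.Flippable e) (hx : x ∈ Coch T) (hf : Fn T f) (h : H) {t : ℝ}
    (ht : t ∈ Icc (0 : ℝ) 1) :
    nf T x f e he (T.opp h) (t * (T.flip e he).vec h - (T.flip e he).vec h) =
      nf T x f e he h (t * (T.flip e he).vec h) := by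
  have c1 := coch1 (e := e) hx
  have c2 := coch2 (e := e) hx
  have hx' := flipC_mem T e he hx
  -- the diagonal
  have key : ∀ t : ℝ, nf T x f e he (T.opp e) (t * (T.flip e he).vec e - (T.flip e he).vec e) =
      nf T x f e he e (t * (T.flip e he).vec e) := by
    intro t
    have hd : dot (omega (T.flip e he) (flipC T e x) e) ((T.flip e he).vec e) =
        x (T.prev (T.opp e)) + x (T.next e) := by
      rw [dot_omega, flipC_e]
    have hd' : dot (omega (T.flip e he) (flipC T e x) (T.opp e)) ((T.flip e he).vec e) =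
        x (T.prev (T.opp e)) + x (T.next e) := by
      have := dot_omega (T.flip e he) (flipC T e x) (T.opp e)
      have h5 : (T.flip e he).vec (T.opp e) = -(T.flip e he).vec e := (T.flip e he).vec_opp e
      rw [h5, dot_neg_right, flipC_e'] at this
      linarith
    rw [nf_in he (not_out_six (by tauto)), nf_in he (not_out_six (by tauto)), bp_e, bp_e',
      dot_sub_right, dot_mul_right, dot_mul_right, hd, hd']
    have h3 : -T.vec (T.prev e) + (t * (T.flip e he).vec e - (T.flip e he).vec e) =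
        T.vec (T.next (T.opp e)) + t * (T.flip e he).vec e := by
      rw [fl_vec_e, hvA T e, hvD T e]; ring
    simp only
    rw [h3]
    linarith
  by_cases h1 : h = e
  · rw [h1]; exact key t
  by_cases h2 : h = T.opp e
  · subst h2
    have h5 : (T.flip e he).vec (T.opp e) = -(T.flip e he).vec e := (T.flip e he).vec_opp e
    rw [T.opp2, h5]
    have := key (1 - t)
    push_cast at this
    have e1 : (1 - (t : ℂ)) * (T.flip e he).vec e - (T.flip e he).vec e =
        t * -(T.flip e he).vec e := by ring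
    have e2 : (1 - (t : ℂ)) * (T.flip e he).vec e =
        t * -(T.flip e he).vec e - -(T.flip e he).vec e := by ring
    rw [e1, e2] at this
    exact this.symm
  · have h3 : (T.flip e he).vec h = T.vec h := T.flipVec_ne h1 h2
    have h4 : T.opp h ≠ e := by intro h5; exact h2 (by rw [← h5, T.opp2])
    have h5 : T.opp h ≠ T.opp e := by intro h6; exact h1 (T.opp.injective h6)
    rw [h3, nf_side he hx hf h1 h2 ht]
    have h6 : (t : ℂ) * T.vec h - T.vec h = ((1 - t : ℝ) : ℂ) * T.vec (T.opp h) := by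
      rw [T.vec_opp]; push_cast; ring
    rw [← hf.edge h t ht, h6, nf_side he hx hf h4 h5 ⟨by linarith [ht.2], by linarith [ht.1]⟩]

theorem nf_lip_one (he : T.Flippable e) (hx : x ∈ Coch T) (hf : Fn T f) (h : H) :
    ∃ L : NNReal, LipschitzOnWith L (nf T x f e he h) (Cl (T.flip e he) h) := by
  by_cases ho : T.Out e h
  · obtain ⟨C, hC⟩ := hf.lip
    refine ⟨C, ?_⟩
    rw [fl_Cl_out he ho]
    have : nf T x f e he h = f h := by ext z; exact nf_out he ho z
    rw [this]; exact hC h
  · obtain ⟨L, hL⟩ := lip_gq he hx hf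
    refine ⟨L + ‖omega (T.flip e he) (flipC T e x) h‖₊, LipschitzOnWith.of_dist_le_mul ?_⟩
    intro z hz w hw
    have h1 := hL.dist_le_mul _ (cl_new he hx ho z hz) _ (cl_new he hx ho w hw)
    rw [nf_in he ho, nf_in he ho, Real.dist_eq]
    rw [Real.dist_eq, dist_eq_norm, add_sub_add_left_eq_sub] at h1
    have h2 := abs_dot_le (omega (T.flip e he) (flipC T e x) h) (z - w)
    rw [dot_sub_right] at h2
    rw [dist_eq_norm]
    push_cast
    have h3 : ∀ a b v c d : ℝ, a - v - c - (b - v - d) = (a - b) - (c - d) := by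
      intros; ring
    rw [h3, add_mul]
    refine (abs_sub _ _).trans ?_
    linarith

theorem Fn_nf [Finite H] (he : T.Flippable e) (hx : x ∈ Coch T) (hf : Fn T f) :
    Fn (T.flip e he) (nf T x f e he) := by
  refine ⟨?_, fun h z hz => nf_rot he hx hf h hz, fun h t ht => nf_edge he hx hf h ht⟩
  choose L hL using fun h => nf_lip_one (f := f) he hx hf h
  have := Fintype.ofFinite H
  refine ⟨∑ h, L h, fun h => (hL h).weaken ?_⟩
  exact Finset.single_le_sum (f := L) (fun _ _ => zero_le) (Finset.mem_univ h)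

end nf

/-! ### The energy -/

theorem grad_congr {φ ψ : ℂ → ℝ} {z : ℂ} (h : φ =ᶠ[nhds z] ψ) : grad φ z = grad ψ z := by
  unfold grad; rw [h.fderiv_eq]

theorem hasFDerivAt_dot (w z : ℂ) : HasFDerivAt (fun y => dot w y)
    (w.re • Complex.reCLM + w.im • Complex.imCLM) z := by
  have h1 := (Complex.reCLM.hasFDerivAt (x := z)).const_smul w.re
  have h2 := (Complex.imCLM.hasFDerivAt (x := z)).const_smul w.im
  exact h1.add h2

/-- Gradient of an affine function plus a translate. -/
theorem grad_aff {φ : ℂ → ℝ} {z p : ℂ} (h : DifferentiableAt ℝ φ (z + p)) (c : ℝ) (w : ℂ) :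
    grad (fun y => c + dot w y + φ (y + p)) z = w + grad φ (z + p) := by
  have h1 : HasFDerivAt (fun y => φ (y + p)) (fderiv ℝ φ (z + p)) z := by
    exact (hasFDerivAt_comp_add_right p).2 h.hasFDerivAt
  have h2 := (hasFDerivAt_dot w z).const_add c
  have h3 : HasFDerivAt (fun y => c + dot w y + φ (y + p))
    (w.re • Complex.reCLM + w.im • Complex.imCLM + fderiv ℝ φ (z + p)) z := h2.add h1
  unfold grad
  rw [h3.fderiv]
  apply Complex.ext <;> simp

theorem diff_aff {φ : ℂ → ℝ} {z p : ℂ} (h : DifferentiableAt ℝ φ (z + p)) (c : ℝ) (w : ℂ) :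
    DifferentiableAt ℝ (fun y => c + dot w y + φ (y + p)) z := by
  have h1 : HasFDerivAt (fun y => φ (y + p)) (fderiv ℝ φ (z + p)) z := by
    exact (hasFDerivAt_comp_add_right p).2 h.hasFDerivAt
  exact (((hasFDerivAt_dot w z).const_add c).add h1).differentiableAt

section en

variable {T} {x : H → ℝ} {f : H → ℂ → ℝ} {e : H}

/-- The second old open triangle in the chart of the quadrilateral. -/
def U2 (T : Tri H) (e : H) : Set ℂ := {y | y - T.vec e ∈ Op T (T.opp e)}

theorem ae_sub {s : Set ℂ} {p : ℂ → Prop} (v : ℂ) (h : ∀ᵐ z ∂volume.restrict s, p z)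
    (hs : MeasurableSet s) : ∀ᵐ y ∂(volume : Measure ℂ), y - v ∈ s → p (y - v) := by
  rw [ae_restrict_iff' hs] at h
  exact (measurePreserving_sub_right volume v).quasiMeasurePreserving.ae h

/-- Near a point of the first open triangle. -/
theorem gq_ev1 {y : ℂ} (hy : y ∈ Op T e) :
    gq T x f e =ᶠ[nhds y] fun z => 0 + dot (omega T x e) z + f e (z + 0) := by
  filter_upwards [(isOpen_Op T e).mem_nhds hy] with z hz
  rw [gq_U1 (Op_subset_Cl T e hz), add_zero, zero_add]

/-- Near a point of the second open triangle. -/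
theorem gq_ev2 (he : T.Flippable e) (hx : x ∈ Coch T) (hf : Fn T f) {y : ℂ} (hy : y ∈ U2 T e) :
    gq T x f e =ᶠ[nhds y] fun z => (x e - dot (omega T x (T.opp e)) (T.vec e)) +
      dot (omega T x (T.opp e)) z + f (T.opp e) (z + -T.vec e) := by
  have ho : IsOpen (U2 T e) := (isOpen_Op T (T.opp e)).preimage (continuous_id.sub continuous_const)
  filter_upwards [ho.mem_nhds hy] with z hz
  rw [gq_U2 he hx hf (Op_subset_Cl T (T.opp e) hz), dot_sub_right, ← sub_eq_add_neg]
  ring

theorem ae_U1 (hf : Fn T f) : ∀ᵐ y ∂(volume : Measure ℂ), y ∈ Op T e →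
    DifferentiableAt ℝ (gq T x f e) y ∧ grad (gq T x f e) y = omega T x e + grad (f e) y := by
  have h := hf.ae_diff e
  rw [ae_restrict_iff' (isOpen_Op T e).measurableSet] at h
  filter_upwards [h] with y hy hyo
  have h1 := gq_ev1 (x := x) (f := f) hyo
  have h2 : DifferentiableAt ℝ (f e) (y + 0) := by rw [add_zero]; exact hy hyo
  refine ⟨(diff_aff h2 0 _).congr_of_eventuallyEq h1, ?_⟩
  rw [grad_congr h1, grad_aff h2, add_zero]

theorem ae_U2 (he : T.Flippable e) (hx : x ∈ Coch T) (hf : Fn T f) :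
    ∀ᵐ y ∂(volume : Measure ℂ), y ∈ U2 T e →
    DifferentiableAt ℝ (gq T x f e) y ∧
      grad (gq T x f e) y = omega T x (T.opp e) + grad (f (T.opp e)) (y - T.vec e) := by
  have h := ae_sub (T.vec e) (hf.ae_diff (T.opp e)) (isOpen_Op T _).measurableSet
  filter_upwards [h] with y hy hyo
  have h1 := gq_ev2 he hx hf hyo
  have h2 : DifferentiableAt ℝ (f (T.opp e)) (y + -T.vec e) := by
    rw [← sub_eq_add_neg]; exact hy hyo
  refine ⟨(diff_aff h2 _ _).congr_of_eventuallyEq h1, ?_⟩
  rw [grad_congr h1, grad_aff h2, ← sub_eq_add_neg]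

theorem null_sub {s : Set ℂ} (v : ℂ) (h : volume s = 0) : volume {y : ℂ | y - v ∈ s} = 0 :=
  (measurePreserving_sub_right volume v).quasiMeasurePreserving.preimage_null h

theorem ae_eq_U (he : T.Flippable e) : (Op T e ∪ U2 T e : Set ℂ) =ᵐ[volume] Q4 T e := by
  have n1 := volume_Cl_diff_Op T e
  have n2 := null_sub (T.vec e) (volume_Cl_diff_Op T (T.opp e))
  have hsub : (Op T e ∪ U2 T e : Set ℂ) ⊆ Q4 T e := by
    rintro y (hy | hy)
    · exact ((mem_U1 he y).1 (Op_subset_Cl T e hy)).1
    · exact ((mem_U2 he y).1 (Op_subset_Cl T _ hy)).1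
  refine (LE.le.eventuallyLE hsub).antisymm ?_
  rw [ae_le_set]
  refine measure_mono_null ?_ (measure_union_null n1 n2)
  rintro y ⟨hy, hn⟩
  rcases le_total 0 (cr (T.vec e) y) with h0 | h0
  · exact Or.inl ⟨(mem_U1 he y).2 ⟨hy, h0⟩, fun h => hn (Or.inl h)⟩
  · exact Or.inr ⟨(mem_U2 he y).2 ⟨hy, h0⟩, fun h => hn (Or.inr h)⟩

/-- The two new open triangles in the chart. -/
def V1 (T : Tri H) (e : H) (he : T.Flippable e) : Set ℂ :=
  {y | y - T.vec (T.next (T.opp e)) ∈ Op (T.flip e he) e}

def V2 (T : Tri H) (e : H) (he : T.Flippable e) : Set ℂ :=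
  {y | y - -T.vec (T.prev e) ∈ Op (T.flip e he) (T.opp e)}

theorem V1_sub (he : T.Flippable e) : V1 T e he ⊆ Q4 T e := fun y hy =>
  ((mem_V1 he y).1 (Op_subset_Cl _ _ hy)).1

theorem V2_sub (he : T.Flippable e) : V2 T e he ⊆ Q4 T e := fun y hy => by
  have := Op_subset_Cl _ _ hy
  rw [sub_neg_eq_add] at this
  exact ((mem_V2 he y).1 this).1

theorem ae_eq_V (he : T.Flippable e) : (V1 T e he ∪ V2 T e he : Set ℂ) =ᵐ[volume] Q4 T e := by
  have n1 := null_sub (T.vec (T.next (T.opp e))) (volume_Cl_diff_Op (T.flip e he) e)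
  have n2 := null_sub (-T.vec (T.prev e)) (volume_Cl_diff_Op (T.flip e he) (T.opp e))
  have hsub : (V1 T e he ∪ V2 T e he : Set ℂ) ⊆ Q4 T e := union_subset (V1_sub he) (V2_sub he)
  refine (LE.le.eventuallyLE hsub).antisymm ?_
  rw [ae_le_set]
  refine measure_mono_null ?_ (measure_union_null n1 n2)
  rintro y ⟨hy, hn⟩
  rcases le_total 0 (cr (T.vec (T.prev (T.opp e)) + T.vec (T.next e))
      (y - T.vec (T.next (T.opp e)))) with h0 | h0
  · exact Or.inl ⟨(mem_V1 he y).2 ⟨hy, h0⟩, fun h => hn (Or.inl h)⟩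
  · refine Or.inr ⟨?_, fun h => hn (Or.inr h)⟩
    rw [sub_neg_eq_add]
    exact (mem_V2 he y).2 ⟨hy, h0⟩

theorem disj_U : Disjoint (Op T e) (U2 T e) := by
  rw [Set.disjoint_left]
  rintro y hy hy'
  have h1 := hy.1
  have h2 := hy'.1
  rw [a0_opp] at h2
  simp only [Tri.a0] at h1
  linarith

theorem disj_V (he : T.Flippable e) : Disjoint (V1 T e he) (V2 T e he) := by
  rw [Set.disjoint_left]
  rintro y hy hy'
  have h1 := hy.1
  have h2 := hy'.1
  rw [a0_V1] at h1
  rw [sub_neg_eq_add, a0_V2] at h2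
  linarith

theorem ae_diff_Q4 (he : T.Flippable e) (hx : x ∈ Coch T) (hf : Fn T f) :
    ∀ᵐ y ∂(volume : Measure ℂ), y ∈ Q4 T e → DifferentiableAt ℝ (gq T x f e) y := by
  filter_upwards [ae_U1 (x := x) (e := e) hf, ae_U2 he hx hf, (ae_eq_U he).mem_iff] with y h1 h2 h3 hy
  rcases h3.2 hy with h | h
  · exact (h1 h).1
  · exact (h2 h).1

/-- Change of variables. -/
theorem int_sub (s : Set ℂ) (v : ℂ) (Φ : ℂ → ℝ) :
    ∫ y in {y | y - v ∈ s}, Φ (y - v) = ∫ z in s, Φ z :=
  (measurePreserving_sub_right volume v).setIntegral_preimage_emb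
    (measurableEmbedding_subRight v) Φ s

theorem int_V (he : T.Flippable e) (hx : x ∈ Coch T) (hf : Fn T f) {h : H} (hh : ¬T.Out e h)
    (hV : ∀ y, y - (bp T x e h).1 ∈ Op (T.flip e he) h → y ∈ Q4 T e) :
    ∫ z in Op (T.flip e he) h,
        ‖omega (T.flip e he) (flipC T e x) h + grad (nf T x f e he h) z‖ ^ 2 =
      ∫ y in {y | y - (bp T x e h).1 ∈ Op (T.flip e he) h}, ‖grad (gq T x f e) y‖ ^ 2 := by
  rw [← int_sub (Op (T.flip e he) h) (bp T x e h).1]
  have hm : MeasurableSet {y : ℂ | y - (bp T x e h).1 ∈ Op (T.flip e he) h} :=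
    ((isOpen_Op _ h).preimage (continuous_id.sub continuous_const)).measurableSet
  refine setIntegral_congr_ae hm ?_
  filter_upwards [ae_diff_Q4 he hx hf] with y hy hyV
  have hd := hy (hV y hyV)
  have hfun : nf T x f e he h = fun z => -(bp T x e h).2 +
      dot (-omega (T.flip e he) (flipC T e x) h) z + gq T x f e (z + (bp T x e h).1) := by
    ext z
    rw [nf_in he hh, add_comm z]
    have : dot (-omega (T.flip e he) (flipC T e x) h) z =
        -dot (omega (T.flip e he) (flipC T e x) h) z := by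
      simp only [dot, Complex.neg_re, Complex.neg_im]; ring
    rw [this]; ring
  have hd' : DifferentiableAt ℝ (gq T x f e) (y - (bp T x e h).1 + (bp T x e h).1) := by
    rw [sub_add_cancel]; exact hd
  rw [hfun, grad_aff hd', sub_add_cancel]
  congr 2
  ring

theorem en_quad (he : T.Flippable e) (hx : x ∈ Coch T) (hf : Fn T f) :
    (∫ z in Op (T.flip e he) e,
        ‖omega (T.flip e he) (flipC T e x) e + grad (nf T x f e he e) z‖ ^ 2) +
      (∫ z in Op (T.flip e he) (T.opp e),
        ‖omega (T.flip e he) (flipC T e x) (T.opp e) + grad (nf T x f e he (T.opp e)) z‖ ^ 2) =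
    (∫ z in Op T e, ‖omega T x e + grad (f e) z‖ ^ 2) +
      ∫ z in Op T (T.opp e), ‖omega T x (T.opp e) + grad (f (T.opp e)) z‖ ^ 2 := by
  have mU2 : MeasurableSet (U2 T e) :=
    ((isOpen_Op _ _).preimage (continuous_id.sub continuous_const)).measurableSet
  have mV2 : MeasurableSet (V2 T e he) :=
    ((isOpen_Op _ _).preimage (continuous_id.sub continuous_const)).measurableSet
  have e1 := int_V he hx hf (h := e) (not_out_six (by tauto)) (fun y hy => by
    rw [bp_e] at hy; exact V1_sub he hy)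
  have e2 := int_V he hx hf (h := T.opp e) (not_out_six (by tauto)) (fun y hy => by
    rw [bp_e'] at hy; exact V2_sub he hy)
  rw [bp_e] at e1
  rw [bp_e'] at e2
  have e3 : ∫ z in Op T e, ‖omega T x e + grad (f e) z‖ ^ 2 =
      ∫ y in Op T e, ‖grad (gq T x f e) y‖ ^ 2 := by
    refine setIntegral_congr_ae (isOpen_Op T e).measurableSet ?_
    filter_upwards [ae_U1 (x := x) (e := e) hf] with y hy hyo
    rw [(hy hyo).2]
  have e4 : ∫ z in Op T (T.opp e), ‖omega T x (T.opp e) + grad (f (T.opp e)) z‖ ^ 2 =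
      ∫ y in U2 T e, ‖grad (gq T x f e) y‖ ^ 2 := by
    rw [← int_sub (Op T (T.opp e)) (T.vec e)]
    refine setIntegral_congr_ae mU2 ?_
    filter_upwards [ae_U2 he hx hf] with y hy hyo
    rw [(hy hyo).2]
  have i1 : IntegrableOn (fun y => ‖grad (gq T x f e) y‖ ^ 2) (Op T e) := by
    refine (hf.intOn e (omega T x e)).congr ?_
    rw [Filter.EventuallyEq, ae_restrict_iff' (isOpen_Op T e).measurableSet]
    filter_upwards [ae_U1 (x := x) (e := e) hf] with y hy hyo
    rw [(hy hyo).2]
  have i2 : IntegrableOn (fun y => ‖grad (gq T x f e) y‖ ^ 2) (U2 T e) := by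
    have h1 := hf.intOn (T.opp e) (omega T x (T.opp e))
    have h2 : IntegrableOn (fun y => ‖omega T x (T.opp e) +
        grad (f (T.opp e)) (y - T.vec e)‖ ^ 2) (U2 T e) :=
      ((measurePreserving_sub_right volume (T.vec e)).integrableOn_comp_preimage
        (measurableEmbedding_subRight (T.vec e))).2 h1
    refine h2.congr ?_
    rw [Filter.EventuallyEq, ae_restrict_iff' mU2]
    filter_upwards [ae_U2 he hx hf] with y hy hyo
    rw [(hy hyo).2]
  have iQ : IntegrableOn (fun y => ‖grad (gq T x f e) y‖ ^ 2) (Q4 T e) :=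
    (i1.union i2).congr_set_ae (ae_eq_U he).symm
  have s1 := setIntegral_union disj_U mU2 i1 i2
  have s2 := setIntegral_union (disj_V he) mV2 (iQ.mono_set (V1_sub he)) (iQ.mono_set (V2_sub he))
  rw [setIntegral_congr_set (ae_eq_U he)] at s1
  rw [setIntegral_congr_set (ae_eq_V he)] at s2
  rw [e3, e4, ← s1, s2]
  exact congrArg₂ (· + ·) e1 e2

end en

/-- Sum over the darts of the quadrilateral. -/
theorem sum_six [Fintype H] (e : H) (I J : H → ℝ) (hout : ∀ h, T.Out e h → I h = J h)
    (a1 : I (T.next e) + I (T.prev e) + I (T.next (T.opp e)) + I (T.prev (T.opp e)) =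
      2 * (I e + I (T.opp e)))
    (a2 : J (T.next e) + J (T.prev e) + J (T.next (T.opp e)) + J (T.prev (T.opp e)) =
      2 * (J e + J (T.opp e)))
    (h2 : I e + I (T.opp e) = J e + J (T.opp e)) : ∑ h, I h = ∑ h, J h := by
  classical
  rw [← sub_eq_zero, ← Finset.sum_sub_distrib]
  have hs := T.six e
  set s : Finset H := {e, T.next e, T.prev e, T.opp e, T.next (T.opp e), T.prev (T.opp e)} with hsd
  have h3 : ∑ h, (I h - J h) = ∑ h ∈ s, (I h - J h) := by
    symm
    refine Finset.sum_subset (Finset.subset_univ s) fun h _ hh => ?_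
    rcases T.cases_six e h with ho | hc
    · rw [hout h ho, sub_self]
    · exfalso; apply hh
      rw [hsd]
      simp only [Finset.mem_insert, Finset.mem_singleton]
      exact hc
  rw [h3, hsd]
  obtain ⟨s1, s2, s3, s4, s5, s6, s7, s8, s9, s10, s11, s12, s13, s14, s15⟩ := hs
  rw [Finset.sum_insert, Finset.sum_insert, Finset.sum_insert, Finset.sum_insert,
    Finset.sum_insert, Finset.sum_singleton]
  · linarith
  · simp only [Finset.mem_singleton]; exact Ne.symm s15
  · simp only [Finset.mem_insert, Finset.mem_singleton, not_or]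
    exact ⟨Ne.symm s10, Ne.symm s14⟩
  · simp only [Finset.mem_insert, Finset.mem_singleton, not_or]
    exact ⟨Ne.symm s6, Ne.symm s9, Ne.symm s13⟩
  · simp only [Finset.mem_insert, Finset.mem_singleton, not_or]
    exact ⟨Ne.symm s3, Ne.symm s5, Ne.symm s8, Ne.symm s12⟩
  · simp only [Finset.mem_insert, Finset.mem_singleton, not_or]
    exact ⟨Ne.symm s2, Ne.symm s1, Ne.symm s4, Ne.symm s7, Ne.symm s11⟩

/-! ### TF-BF3 -/

/-- Transport of functions (construction in the header). -/
theorem exists_flip_fn [Fintype H] (e : H) (he : T.Flippable e) {x : H → ℝ} (hx : x ∈ Coch T)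
    {f : H → ℂ → ℝ} (hf : Fn T f) :
    ∃ f' : H → ℂ → ℝ, Fn (T.flip e he) f' ∧ en (T.flip e he) (flipC T e x) f' = en T x f := by
  have hF := Fn_nf he hx hf
  have hx' := flipC_mem T e he hx
  refine ⟨nf T x f e he, hF, ?_⟩
  unfold en
  congr 1
  have n1 := en_term_next hF hx' e
  have n2 := en_term_next hF hx' (T.prev e)
  have n3 := en_term_next hF hx' (T.opp e)
  have n4 := en_term_next hF hx' (T.prev (T.opp e))
  rw [fl_next_e] at n1
  rw [fl_next_b] at n2
  rw [fl_next_e'] at n3
  rw [fl_next_d] at n4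
  have m1 := en_term_next hf hx e
  have m2 := en_term_next hf hx (T.next e)
  have m3 := en_term_next hf hx (T.opp e)
  have m4 := en_term_next hf hx (T.next (T.opp e))
  rw [T.next_next] at m2 m4
  refine sum_six T e _ _ (fun h ho => ?_) ?_ ?_ (en_quad he hx hf)
  · rw [fl_Op_out he ho, fl_omega_out he ho]
    have : nf T x f e he h = f h := by ext z; exact nf_out he ho z
    rw [this]
  · linarith
  · linarith

/-- Invariance of the Hodge norm. -/
theorem hn2_flip [Fintype H] (e : H) (he : T.Flippable e) {x : H → ℝ} (hx : x ∈ Coch T) :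
    hn2 (T.flip e he) (flipC T e x) = hn2 T x := by
  classical
  have key : ∀ (T : Tri H) (he : T.Flippable e) {x : H → ℝ} (_ : x ∈ Coch T),
      hn2 (T.flip e he) (flipC T e x) ≤ hn2 T x := by
    intro T he x hx
    have : Nonempty {f : H → ℂ → ℝ // Fn T f} := ⟨⟨0, Fn.zero T⟩⟩
    refine le_ciInf fun f => ?_
    obtain ⟨f', hf', h1⟩ := exists_flip_fn T e he hx f.2
    rw [← h1]
    exact hn2_le hf' _
  refine le_antisymm (key T he hx) ?_
  have hx' := flipC_mem T e he hx
  obtain ⟨he', hr⟩ := Rel.flip_flip T e he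
  have h1 := key (T.flip e he) he' hx'
  rw [← hr.hn2] at h1
  have h2 : relC (Equiv.swap e (T.opp e)) (flipC (T.flip e he) e (flipC T e x)) = x := by
    have c1 := coch1 (e := e) hx
    ext h
    have h3 : relC (Equiv.swap e (T.opp e)) (flipC (T.flip e he) e (flipC T e x)) h =
        flipC (T.flip e he) e (flipC T e x) (Equiv.swap e (T.opp e) h) := by
      simp [relC, LinearEquiv.funCongrLeft_apply, LinearMap.funLeft_apply]
    rw [h3]
    by_cases ha : h = e
    · rw [ha, Equiv.swap_apply_left]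
      have := flipC_e' (T := T.flip e he) (e := e) (x := flipC T e x)
      change flipC (T.flip e he) e (flipC T e x) (T.opp e) =
        -(flipC T e x ((T.flip e he).prev (T.opp e)) + flipC T e x ((T.flip e he).next e)) at this
      rw [this, fl_prev_e', fl_next_e, flipC_a, flipC_b]
      linarith
    by_cases hb : h = T.opp e
    · rw [hb, Equiv.swap_apply_right]
      have := flipC_e (T := T.flip e he) (e := e) (x := flipC T e x)
      change flipC (T.flip e he) e (flipC T e x) e =
        flipC T e x ((T.flip e he).prev (T.opp e)) + flipC T e x ((T.flip e he).next e) at this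
      rw [this, fl_prev_e', fl_next_e, flipC_a, flipC_b, hx.1 e]
      linarith
    · rw [Equiv.swap_apply_of_ne_of_ne ha hb]
      have := flipC_ne (T := T.flip e he) (x := flipC T e x) (h := h) ha hb
      rw [this, flipC_ne ha hb]
  rw [h2] at h1
  exact h1

end

end Pool.Agent.Helper72.TF
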