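import Pool.Agent.Helper72.TF.BF3
import Pool.Agent.Helper87.LS.AeS
import Pool.Agent.Helper87.LS.Return
import Pool.Agent.Helper87.LS.Bad

/-!
# MP_e98778_an (full), BASE, block TF-BI0

`sim`. Let `ψ` be measure preserving `S.μ → Y.μ` such that for every `w`, for a.e. `x`:
if `x` has a hop of vector `w`, then `Y.Straight (A w) (ψ x) (ψ (S.F w x))`. Then
`ψ (S.F v x) = Y.F (A v) (ψ x)` for a.e. `x`, every `v`. Proof: for `N ≥ 1` and `w = v / N` the set of
`x` without a hop of vector `w` has measure `≤ C ‖v‖² / N²` (`Surf.bad_bound`, Helper87/LS/Bad.lean; points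
outside `S.D` are null); off this set (and a null set) `ψ (F w x) = Y.F (A w) (ψ x)` (`Surf.F_eq`,
Str.lean). Iterate `N` times with `Surf.F_comp_ae` (AeS.lean) on both sides (transport the a.e. statement of
`Y` through `hψ.quasiMeasurePreserving.ae`; `ae_straight_iterate` in Return.lean may help): the exceptional
set for `v` has measure `≤ N · C ‖v‖²/N²` for every `N` (`S.F` is measure preserving), so it is null.
`v = 0`: `S.F 0 x = x` on `D`.

`LinIso.refl/trans/symm`: transport of a.e. statements along measure preserving maps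
(`MeasurePreserving.quasiMeasurePreserving`, `.ae`). `symm`: from `Φ (S.F (A⁻¹ v) x) = Y.F v (Φ x)` a.e. `x`,
put `x = Ψ y`: `Φ (S.F _ (Ψ y)) = Y.F v (Φ (Ψ y)) = Y.F v y`, apply `Ψ` (`Ψ Φ = id` at a.e. point, hence at
`S.F _ (Ψ y)` for a.e. `y`).
-/

set_option autoImplicit false

open MeasureTheory Set Pool.Agent.Helper87.LS Pool.Agent.Helper79.G

namespace Pool.Agent.Helper72.TF

noncomputable section

/-- The point with position `z` relative to the start of `h`. -/
def pt (S : Surf) (h : Fin S.n × Fin 3) (z : ℂ) : ℂ := S.P h.1 h.2 + z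

theorem pt_mem (S : Surf) (h : Fin S.n × Fin 3) (z : ℂ) :
    pt S h z ∈ tri (S.P h.1) ↔ z ∈ Op (ofSurf S) h := by
  obtain ⟨i, k⟩ := h
  rw [S.mem_tri]
  have e0 : S.ell (i, k) (pt S (i, k) z) = (ofSurf S).a0 (i, k) z := by
    change cr (S.vec (i, k)) (S.P i k + z - S.P i k) = cr (S.vec (i, k)) z
    rw [add_sub_cancel_left]
  have e1 : S.ell (i, k + 1) (pt S (i, k) z) = (ofSurf S).a1 (i, k) z := by
    change cr (S.vec (i, k + 1)) (S.P i k + z - S.P i (k + 1))
      = cr (S.vec (i, k + 1)) (z - (S.P i (k + 1) - S.P i k))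
    congr 1; ring
  have e2 : S.ell (i, k + 1 + 1) (pt S (i, k) z) = (ofSurf S).a2 (i, k) z := by
    change cr (S.vec (i, k + 1 + 1)) (S.P i k + z - S.P i (k + 1 + 1))
      = cr (S.vec (i, k + 1 + 1)) z
    have hk : k + 1 + 1 + 1 = k := by clear e0 e1; revert k; decide
    have hv : S.vec (i, k + 1 + 1) = S.P i k - S.P i (k + 1 + 1) := by
      change S.P i (k + 1 + 1 + 1) - S.P i (k + 1 + 1) = _
      rw [hk]
    have : S.P i k + z - S.P i (k + 1 + 1) = S.vec (i, k + 1 + 1) + z := by rw [hv]; ring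
    rw [this, cr_add_right, cr_self, zero_add]
  constructor
  · intro h
    exact ⟨by rw [← e0]; exact h k, by rw [← e1]; exact h (k + 1),
      by rw [← e2]; exact h (k + 1 + 1)⟩
  · rintro ⟨h0, h1, h2⟩ l
    rw [← e0] at h0
    rw [← e1] at h1
    rw [← e2] at h2
    have hl : l = k ∨ l = k + 1 ∨ l = k + 1 + 1 := by
      clear e0 e1 e2 h0 h1 h2
      revert k l; decide
    rcases hl with rfl | rfl | rfl
    · exact h0
    · exact h1
    · exact h2

/-! ### TF-BI0 -/

theorem sim (S Y : Surf) (A : ℂ ≃ₗ[ℝ] ℂ) {ψ : ℂ → ℂ} (hψ : MeasurePreserving ψ S.μ Y.μ)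
    (h : ∀ w : ℂ, ∀ᵐ x ∂S.μ, (∃ y, S.Hop w x y) → Y.Straight (A w) (ψ x) (ψ (S.F w x)))
    (v : ℂ) : ∀ᵐ x ∂S.μ, ψ (S.F v x) = Y.F (A v) (ψ x) := by
  obtain ⟨C, hC, hbad⟩ := S.bad_bound
  have hb : ∀ n : ℕ, S.μ {x | ¬ ψ (S.F v x) = Y.F (A v) (ψ x)} ≤
      ENNReal.ofReal (C * ‖v‖ ^ 2 / ((n : ℝ) + 1)) := by
    intro n
    have hn : (0 : ℝ) < (n : ℝ) + 1 := by positivity
    set w : ℂ := v / ((n : ℝ) + 1 : ℝ) with hw
    have e : (((n + 1 : ℕ) : ℝ) : ℂ) * w = v := by
      have : (((n + 1 : ℕ) : ℝ) : ℂ) = (((n : ℝ) + 1 : ℝ) : ℂ) := by push_cast; ring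
      rw [this, hw]
      exact mul_div_cancel₀ v (Complex.ofReal_ne_zero.2 hn.ne')
    have eA : (((n + 1 : ℕ) : ℝ) : ℂ) * A w = A v := by
      rw [← e]
      have h1 : ∀ (r : ℝ) (z : ℂ), A ((r : ℂ) * z) = (r : ℂ) * A z := by
        intro r z
        rw [← Complex.real_smul, ← Complex.real_smul, map_smul]
      exact (h1 _ _).symm
    set Bad : Set ℂ := {x | ¬ ∃ y, S.Hop w x y} with hBad
    set f := S.F w with hf
    set g := Y.F (A w) with hg
    have hfm : ∀ j, MeasurePreserving (f^[j]) S.μ S.μ := fun j =>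
      (S.measurePreserving_F w).iterate j
    -- one step
    have h1 : ∀ᵐ x ∂S.μ, x ∉ Bad → ψ (f x) = g (ψ x) := by
      filter_upwards [h w] with x hx hxB
      have hx' : ∃ y, S.Hop w x y := not_not.1 hxB
      exact (Surf.F_eq (hx hx')).symm
    have h2 : ∀ᵐ x ∂S.μ, ∀ j : ℕ, f^[j] x ∉ Bad → ψ (f (f^[j] x)) = g (ψ (f^[j] x)) := by
      rw [ae_all_iff]
      intro j
      exact (hfm j).quasiMeasurePreserving.ae h1
    have h3 : ∀ᵐ x ∂S.μ, f^[n + 1] x = S.F v x := by
      filter_upwards [S.ae_straight_iterate w (n + 1) (by omega)] with x hx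
      rw [e] at hx
      exact (Surf.F_eq hx).symm
    have h4 : ∀ᵐ x ∂S.μ, g^[n + 1] (ψ x) = Y.F (A v) (ψ x) := by
      refine hψ.quasiMeasurePreserving.ae (p := fun y => g^[n + 1] y = Y.F (A v) y) ?_
      filter_upwards [Y.ae_straight_iterate (A w) (n + 1) (by omega)] with y hy
      rw [eA] at hy
      exact (Surf.F_eq hy).symm
    have hsub : {x | ¬ ψ (S.F v x) = Y.F (A v) (ψ x)} ≤ᵐ[S.μ]
        ⋃ j ∈ Finset.range (n + 1), (f^[j]) ⁻¹' Bad := by
      filter_upwards [h2, h3, h4] with x hx2 hx3 hx4 hx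
      by_contra hcon
      apply hx
      have hnb : ∀ j, j < n + 1 → f^[j] x ∉ Bad := by
        intro j hj hjB
        apply hcon
        exact mem_iUnion₂.2 ⟨j, Finset.mem_range.2 hj, hjB⟩
      have hind : ∀ m, m ≤ n + 1 → ψ (f^[m] x) = g^[m] (ψ x) := by
        intro m
        induction m with
        | zero => intro _; rfl
        | succ m ih =>
          intro hm
          rw [Function.iterate_succ_apply', Function.iterate_succ_apply', ← ih (by omega)]
          exact hx2 m (hnb m (by omega))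
      have := hind (n + 1) le_rfl
      rw [hx3, hx4] at this
      exact this
    have hpre : ∀ j, S.μ ((f^[j]) ⁻¹' Bad) ≤ S.μ Bad := by
      intro j
      calc S.μ ((f^[j]) ⁻¹' Bad) ≤ S.μ ((f^[j]) ⁻¹' (toMeasurable S.μ Bad)) :=
            measure_mono (preimage_mono (subset_toMeasurable _ _))
        _ = S.μ (toMeasurable S.μ Bad) :=
            (hfm j).measure_preimage (measurableSet_toMeasurable _ _).nullMeasurableSet
        _ = S.μ Bad := measure_toMeasurable _
    calc S.μ {x | ¬ ψ (S.F v x) = Y.F (A v) (ψ x)}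
        ≤ S.μ (⋃ j ∈ Finset.range (n + 1), (f^[j]) ⁻¹' Bad) := measure_mono_ae hsub
      _ ≤ ∑ j ∈ Finset.range (n + 1), S.μ ((f^[j]) ⁻¹' Bad) :=
          measure_biUnion_finset_le _ _
      _ ≤ ∑ _j ∈ Finset.range (n + 1), S.μ Bad := Finset.sum_le_sum fun j _ => hpre j
      _ = ((n : ENNReal) + 1) * S.μ Bad := by
          rw [Finset.sum_const, Finset.card_range, nsmul_eq_mul]; push_cast; ring
      _ ≤ ((n : ENNReal) + 1) * ENNReal.ofReal (C * ‖w‖ ^ 2) := by
          gcongr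
          exact hbad w
      _ ≤ ENNReal.ofReal (C * ‖v‖ ^ 2 / ((n : ℝ) + 1)) := by
          have e2 : ((n : ENNReal) + 1) = ENNReal.ofReal ((n : ℝ) + 1) := by
            rw [ENNReal.ofReal_add (by positivity) zero_le_one, ENNReal.ofReal_natCast,
              ENNReal.ofReal_one]
          rw [e2, ← ENNReal.ofReal_mul hn.le]
          refine ENNReal.ofReal_le_ofReal (le_of_eq ?_)
          rw [hw, norm_div, Complex.norm_real, Real.norm_of_nonneg hn.le]
          field_simp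
  have ht : Filter.Tendsto (fun n : ℕ => ENNReal.ofReal (C * ‖v‖ ^ 2 / ((n : ℝ) + 1)))
      Filter.atTop (nhds 0) := by
    have h := (tendsto_const_div_atTop_nhds_zero_nat (C * ‖v‖ ^ 2)).comp
      (Filter.tendsto_add_atTop_nat 1)
    have h2 := ENNReal.tendsto_ofReal h
    rw [ENNReal.ofReal_zero] at h2
    refine h2.congr fun n => ?_
    simp
  rw [ae_iff]
  exact le_antisymm (ge_of_tendsto' ht hb) zero_le

theorem LinIso.refl (S : Surf) : LinIso S S (LinearEquiv.refl ℝ ℂ) :=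
  ⟨id, id, MeasurePreserving.id _, MeasurePreserving.id _, Filter.Eventually.of_forall fun _ => rfl,
    Filter.Eventually.of_forall fun _ => rfl, fun _ => Filter.Eventually.of_forall fun _ => rfl⟩

theorem LinIso.trans {S Y Z : Surf} {A B : ℂ ≃ₗ[ℝ] ℂ} (h1 : LinIso S Y A) (h2 : LinIso Y Z B) :
    LinIso S Z (A.trans B) := by
  obtain ⟨Φ, Ψ, p1, p2, p3, p4, p5⟩ := h1
  obtain ⟨Φ', Ψ', q1, q2, q3, q4, q5⟩ := h2
  refine ⟨Φ' ∘ Φ, Ψ ∘ Ψ', q1.comp p1, p2.comp q2, ?_, ?_, fun v => ?_⟩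
  · filter_upwards [p3, p1.quasiMeasurePreserving.ae q3] with x hx1 hx2
    simp only [Function.comp]
    rw [hx2, hx1]
  · filter_upwards [q4, q2.quasiMeasurePreserving.ae p4] with x hx1 hx2
    simp only [Function.comp]
    rw [hx2, hx1]
  · filter_upwards [p5 v, p1.quasiMeasurePreserving.ae (q5 (A v))] with x hx1 hx2
    simp only [Function.comp, LinearEquiv.trans_apply]
    rw [hx1, hx2]

theorem LinIso.symm {S Y : Surf} {A : ℂ ≃ₗ[ℝ] ℂ} (h : LinIso S Y A) : LinIso Y S A.symm := by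
  obtain ⟨Φ, Ψ, p1, p2, p3, p4, p5⟩ := h
  refine ⟨Ψ, Φ, p2, p1, p4, p3, fun v => ?_⟩
  have h1 := p2.quasiMeasurePreserving.ae (p5 (A.symm v))
  have h2 := ((S.measurePreserving_F (A.symm v)).comp p2).quasiMeasurePreserving.ae p3
  filter_upwards [h1, h2, p4] with y hy1 hy2 hy3
  rw [LinearEquiv.apply_symm_apply, hy3] at hy1
  simp only [Function.comp] at hy2
  rw [← hy1, hy2]

end

end Pool.Agent.Helper72.TF
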