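import Pool.Agent.Helper72.TF.BI0

/-!
# MP_e98778_an (full), BASE, block TF-BI1

`exists_surf`: every triangulation is realised by a `Surf`.
-/

set_option autoImplicit false

open MeasureTheory Set Pool.Agent.Helper87.LS Pool.Agent.Helper79.G

namespace Pool.Agent.Helper72.TF

noncomputable section

/-! ### Orbits of `next` -/

section orb

variable {H : Type} (T : Tri H)

/-- The triangles as classes of darts. -/
def orb : Setoid H where
  r a b := b = a ∨ b = T.next a ∨ b = T.next (T.next a)
  iseqv := by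
    refine ⟨fun a => Or.inl rfl, ?_, ?_⟩
    · rintro a b (rfl | rfl | rfl)
      · exact Or.inl rfl
      · right; right; rw [T.next3]
      · right; left; rw [T.next3]
    · rintro a b c (rfl | rfl | rfl) (rfl | rfl | rfl)
      · exact Or.inl rfl
      · exact Or.inr (Or.inl rfl)
      · exact Or.inr (Or.inr rfl)
      · exact Or.inr (Or.inl rfl)
      · exact Or.inr (Or.inr rfl)
      · left; rw [T.next3]
      · exact Or.inr (Or.inr rfl)
      · left; rw [T.next3]
      · right; left; rw [T.next3]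

/-- The three darts of a class. -/
def dart (q : Quotient (orb T)) (k : Fin 3) : H := (T.next)^[(k : ℕ)] q.out

theorem dart_succ (q : Quotient (orb T)) (k : Fin 3) : dart T q (k + 1) = T.next (dart T q k) := by
  fin_cases k
  · rfl
  · rfl
  · change q.out = T.next (T.next (T.next q.out))
    rw [T.next3]

theorem mk_dart (q : Quotient (orb T)) (k : Fin 3) : Quotient.mk (orb T) (dart T q k) = q := by
  have h : (Quotient.mk (orb T) (dart T q k)) = Quotient.mk (orb T) q.out := by
    apply Quotient.sound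
    apply (orb T).symm
    fin_cases k
    · exact Or.inl rfl
    · exact Or.inr (Or.inl rfl)
    · exact Or.inr (Or.inr rfl)
  rw [h, Quotient.out_eq]

theorem dart_bij : Function.Bijective fun p : Quotient (orb T) × Fin 3 => dart T p.1 p.2 := by
  constructor
  · rintro ⟨q, k⟩ ⟨q', k'⟩ h
    simp only at h
    have hq : q = q' := by rw [← mk_dart T q k, ← mk_dart T q' k', h]
    subst hq
    have h1 := T.next_ne q.out
    have h2 : T.next (T.next q.out) ≠ T.next q.out := T.next_ne _
    have h3 : T.next (T.next q.out) ≠ q.out := T.prev_ne q.out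
    have : k = k' := by
      fin_cases k <;> fin_cases k' <;> simp [dart] at h ⊢
      · exact h1 h.symm
      · exact h3 h.symm
      · exact h1 h
      · exact h1 h.symm
      · exact h3 h
      · exact h1 h
    rw [this]
  · intro h
    have h0 : (orb T).r (Quotient.mk (orb T) h).out h := Quotient.exact (Quotient.out_eq _)
    rcases h0 with h0 | h0 | h0
    · exact ⟨(Quotient.mk (orb T) h, 0), h0.symm⟩
    · exact ⟨(Quotient.mk (orb T) h, 1), h0.symm⟩
    · exact ⟨(Quotient.mk (orb T) h, 2), h0.symm⟩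

/-- Normal form of the darts. -/
theorem exists_norm {H : Type} [Fintype H] [Nonempty H] (T : Tri H) :
    ∃ (n : ℕ) (_ : 0 < n) (σ : Fin n × Fin 3 ≃ H), ∀ i k, T.next (σ (i, k)) = σ (i, k + 1) := by
  classical
  have e := Equiv.ofBijective _ (dart_bij T)
  have hfin : Finite (Quotient (orb T)) := inferInstance
  let _ : Fintype (Quotient (orb T)) := Fintype.ofFinite _
  have hne : Nonempty (Quotient (orb T)) := ⟨Quotient.mk (orb T) (Classical.arbitrary H)⟩
  let f : Fin (Fintype.card (Quotient (orb T))) ≃ Quotient (orb T) :=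
    (Fintype.equivFin (Quotient (orb T))).symm
  refine ⟨Fintype.card (Quotient (orb T)), Fintype.card_pos,
    (f.prodCongr (Equiv.refl (Fin 3))).trans (Equiv.ofBijective _ (dart_bij T)), ?_⟩
  intro i k
  simp only [Equiv.trans_apply, Equiv.prodCongr_apply, Prod.map_apply, Equiv.refl_apply,
    Equiv.ofBijective_apply]
  exact (dart_succ T (f i) k).symm

end orb

/-! ### Points of a triangle are convex combinations -/

theorem tri_comb {Q : Fin 3 → ℂ} (hQ : 0 < cr (Q 1 - Q 0) (Q 2 - Q 0)) {z : ℂ} (hz : z ∈ tri Q) :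
    ∃ a b c : ℝ, 0 < a ∧ 0 < b ∧ 0 < c ∧ a + b + c = 1 ∧ z = a * Q 0 + b * Q 1 + c * Q 2 := by
  have h0 := hz 0
  have h1 := hz 1
  have h2 := hz 2
  simp only [Fin.isValue, zero_add, show (1 : Fin 3) + 1 = 2 from rfl,
    show (2 : Fin 3) + 1 = 0 from rfl] at h0 h1 h2
  set A := cr (Q 1 - Q 0) (Q 2 - Q 0) with hA
  have hA' : A ≠ 0 := hQ.ne'
  refine ⟨cr (Q 2 - Q 1) (z - Q 1) / A, cr (Q 0 - Q 2) (z - Q 2) / A, cr (Q 1 - Q 0) (z - Q 0) / A,
    div_pos h1 hQ, div_pos h2 hQ, div_pos h0 hQ, ?_, ?_⟩
  · rw [← add_div, ← add_div, div_eq_one_iff_eq hA', hA]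
    simp only [cr, Complex.sub_re, Complex.sub_im]; ring
  · have hAc : (A : ℂ) ≠ 0 := by exact_mod_cast hA'
    push_cast
    field_simp
    apply Complex.ext
    · simp only [hA, cr, Complex.sub_re, Complex.sub_im, Complex.mul_re, Complex.add_re,
        Complex.ofReal_re, Complex.ofReal_im, Complex.ofReal_sub, Complex.ofReal_mul,
        Complex.mul_im, Complex.add_im, Complex.sub_re]
      ring
    · simp only [hA, cr, Complex.sub_re, Complex.sub_im, Complex.mul_re, Complex.add_re,
        Complex.ofReal_re, Complex.ofReal_im, Complex.ofReal_sub, Complex.ofReal_mul,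
        Complex.mul_im, Complex.add_im, Complex.sub_re]
      ring

theorem tri_re_bound {Q : Fin 3 → ℂ} (hQ : 0 < cr (Q 1 - Q 0) (Q 2 - Q 0)) {z : ℂ} (hz : z ∈ tri Q)
    {c r : ℝ} (h : ∀ k, |(Q k).re - c| < r) : |z.re - c| < r := by
  obtain ⟨α, β, γ, ha, hb, hc, hs, rfl⟩ := tri_comb hQ hz
  have e : ((α : ℂ) * Q 0 + β * Q 1 + γ * Q 2).re - c
      = α * ((Q 0).re - c) + β * ((Q 1).re - c) + γ * ((Q 2).re - c) := by
    have hc' : c = (α + β + γ) * c := by rw [hs, one_mul]
    simp only [Complex.add_re, Complex.mul_re, Complex.ofReal_re, Complex.ofReal_im, zero_mul,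
      sub_zero]
    linear_combination -hc'
  rw [e]
  have h0 := h 0
  have h1 := h 1
  have h2 := h 2
  rw [abs_lt] at h0 h1 h2 ⊢
  have hr : r = α * r + β * r + γ * r := by rw [← add_mul, ← add_mul, hs, one_mul]
  constructor
  · nlinarith [mul_pos ha (by linarith [h0.1] : 0 < (Q 0).re - c + r),
      mul_pos hb (by linarith [h1.1] : 0 < (Q 1).re - c + r),
      mul_pos hc (by linarith [h2.1] : 0 < (Q 2).re - c + r)]
  · nlinarith [mul_pos ha (by linarith [h0.2] : 0 < r - ((Q 0).re - c)),
      mul_pos hb (by linarith [h1.2] : 0 < r - ((Q 1).re - c)),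
      mul_pos hc (by linarith [h2.2] : 0 < r - ((Q 2).re - c))]

/-! ### Realisation -/

/-- Every triangulation is realised by a `Surf`. -/
theorem exists_surf {H : Type} [Fintype H] [Nonempty H] (T : Tri H) :
    ∃ (S : Surf) (σ : H ≃ Fin S.n × Fin 3), Rel T (ofSurf S) σ := by
  classical
  obtain ⟨n, hn, σ, hσ⟩ := exists_norm T
  set M : ℝ := 1 + ∑ h, ‖T.vec h‖ with hM
  have hMh : ∀ h, ‖T.vec h‖ < M := fun h => by
    have := Finset.single_le_sum (f := fun h => ‖T.vec h‖) (fun _ _ => norm_nonneg _)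
      (Finset.mem_univ h)
    linarith
  have hM0 : 0 < M := lt_of_le_of_lt (norm_nonneg _) (hMh (σ (⟨0, hn⟩, 0)))
  let C : Fin n → ℂ := fun i => ((6 * M * (i : ℕ) : ℝ) : ℂ)
  let P : Fin n → Fin 3 → ℂ := fun i k =>
    if k = 0 then C i else if k = 1 then C i + T.vec (σ (i, 0))
      else C i + T.vec (σ (i, 0)) + T.vec (σ (i, 1))
  have hclosed : ∀ i, T.vec (σ (i, 0)) + T.vec (σ (i, 1)) + T.vec (σ (i, 2)) = 0 := by
    intro i
    have h := T.closed (σ (i, 0))
    rw [hσ, hσ] at h
    exact h
  have hP : ∀ i k, P i (k + 1) - P i k = T.vec (σ (i, k)) := by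
    intro i k
    fin_cases k
    · simp [P]
    · simp [P]
    · have := hclosed i
      simp only [P, Fin.reduceFinMk, Fin.isValue, show (2 : Fin 3) + 1 = 0 from rfl, if_true,
        show ¬ ((2 : Fin 3) = 0) by decide, show ¬ ((2 : Fin 3) = 1) by decide, if_false]
      linear_combination -this
  have horient : ∀ i, 0 < cr (P i 1 - P i 0) (P i 2 - P i 0) := by
    intro i
    have h := T.pos (σ (i, 0))
    rw [hσ] at h
    have h1 := hP i 0
    have h2 := hP i 1
    simp only [zero_add, show (1 : Fin 3) + 1 = 2 from rfl] at h1 h2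
    have e : P i 2 - P i 0 = T.vec (σ (i, 0)) + T.vec (σ (i, 1)) := by
      rw [← h1, ← h2]; ring
    rw [h1, e, cr_add_right, cr_self, zero_add]
    exact h
  let g : Fin n × Fin 3 → Fin n × Fin 3 := fun e => σ.symm (T.opp (σ e))
  have hre : ∀ i k, |(P i k).re - 6 * M * (i : ℕ)| < 3 * M := by
    intro i k
    have b0 := (Complex.abs_re_le_norm _).trans_lt (hMh (σ (i, 0)))
    have b1 := (Complex.abs_re_le_norm _).trans_lt (hMh (σ (i, 1)))
    rw [abs_lt] at b0 b1 ⊢
    fin_cases k
    · simp only [P, C, Fin.zero_eta, Fin.isValue, if_true, Complex.ofReal_re]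
      constructor <;> linarith
    · simp only [P, C, Fin.mk_one, Fin.isValue, one_ne_zero, if_false, if_true, Complex.add_re,
        Complex.ofReal_re]
      constructor <;> linarith [b0.1, b0.2]
    · simp only [P, C, Fin.reduceFinMk, Fin.isValue, show ¬ ((2 : Fin 3) = 0) by decide,
        show ¬ ((2 : Fin 3) = 1) by decide, if_false, Complex.add_re, Complex.ofReal_re]
      constructor <;> linarith [b0.1, b0.2, b1.1, b1.2]
  have hdisj : ∀ i j, i ≠ j → Disjoint (tri (P i)) (tri (P j)) := by
    intro i j hij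
    rw [Set.disjoint_left]
    intro z hi hj
    have h1 := tri_re_bound (horient i) hi (hre i)
    have h2 := tri_re_bound (horient j) hj (hre j)
    rw [abs_lt] at h1 h2
    rcases lt_or_gt_of_ne (fun h => hij (Fin.ext h) : (i : ℕ) ≠ (j : ℕ)) with h | h
    · have h3 : ((i : ℕ) : ℝ) + 1 ≤ (j : ℕ) := by exact_mod_cast h
      nlinarith
    · have h3 : ((j : ℕ) : ℝ) + 1 ≤ (i : ℕ) := by exact_mod_cast h
      nlinarith
  let Y : Surf :=
    { n := n
      pos := hn
      P := P
      glue := g
      invol := by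
        intro e
        simp only [g, Equiv.apply_symm_apply, T.opp2, Equiv.symm_apply_apply]
      orient := horient
      opp := by
        intro e
        rw [hP, hP]
        have : σ ((g e).1, (g e).2) = T.opp (σ e) := by
          simp only [g, Prod.mk.eta, Equiv.apply_symm_apply]
        rw [this, T.vec_opp]
      disj := hdisj }
  refine ⟨Y, σ.symm, ⟨?_, ?_, ?_⟩⟩
  · intro h
    obtain ⟨⟨i, k⟩, rfl⟩ := σ.surjective h
    rw [Equiv.symm_apply_apply, hσ, Equiv.symm_apply_apply]
    rfl
  · intro h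
    obtain ⟨e, rfl⟩ := σ.surjective h
    rw [Equiv.symm_apply_apply]
    rfl
  · intro h
    obtain ⟨⟨i, k⟩, rfl⟩ := σ.surjective h
    rw [Equiv.symm_apply_apply]
    exact hP i k

end

end Pool.Agent.Helper72.TF
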