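import Pool.Agent.Helper72.TF.BI0

/-!
# MP_e98778_an (full), BASE, block TF-BI3a (helper87)

A criterion for `LinIso`: a one-sided map `ψ` which is locally affine and injective on an open conull
set and which carries hops to straight segments.
-/

set_option autoImplicit false

open MeasureTheory Set Filter Topology Pool.Agent.Helper87.LS Pool.Agent.Helper79.G

namespace Pool.Agent.Helper72.TF

noncomputable section

/-- A measure preserving map which is injective on a conull set has an inverse. -/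
theorem exists_inv_mp {μ ν : Measure ℂ} {ψ : ℂ → ℂ} (h : MeasurePreserving ψ μ ν) {G : Set ℂ}
    (hG : MeasurableSet G) (hGc : μ Gᶜ = 0) (hinj : InjOn ψ G) :
    ∃ Ψ : ℂ → ℂ, MeasurePreserving Ψ ν μ ∧ (∀ᵐ x ∂μ, Ψ (ψ x) = x) ∧ (∀ᵐ y ∂ν, ψ (Ψ y) = y) := by
  have hemb : MeasurableEmbedding (fun x : G => ψ x) := by
    have := hG.standardBorel
    have : MeasurableEmbedding (G.restrict ψ) :=
      Measurable.measurableEmbedding (h.measurable.comp measurable_subtype_coe)
        (injOn_iff_injective.1 hinj)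
    exact this
  obtain ⟨Ψ, hΨm, hΨ⟩ := hemb.exists_measurable_extend measurable_subtype_coe (fun _ => inferInstance)
  have hG' : ∀ᵐ x ∂μ, x ∈ G := by
    rw [ae_iff]; exact hGc
  have h1 : ∀ᵐ x ∂μ, Ψ (ψ x) = x := by
    filter_upwards [hG'] with x hx
    exact congrFun hΨ ⟨x, hx⟩
  have h2 : MeasurePreserving Ψ ν μ := by
    refine ⟨hΨm, ?_⟩
    rw [← h.map_eq, Measure.map_map hΨm h.measurable]
    have : Measure.map (Ψ ∘ ψ) μ = Measure.map id μ := Measure.map_congr h1
    rw [this, Measure.map_id]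
  refine ⟨Ψ, h2, h1, ?_⟩
  have hm : MeasurableSet {y | ψ (Ψ y) = y} :=
    measurableSet_eq_fun (h.measurable.comp hΨm) measurable_id
  rw [← h.map_eq, ae_map_iff h.measurable.aemeasurable hm]
  filter_upwards [h1] with x hx
  rw [hx]

/-- Locally affine injective maps preserve the measure. -/
theorem mp_of_local {D D' : Set ℂ} (hD : MeasurableSet D) (hD' : MeasurableSet D')
    (hfin : volume D' < ⊤) (A : ℂ ≃ₗ[ℝ] ℂ) (hA : LinearMap.det (A : ℂ →ₗ[ℝ] ℂ) = 1)
    {ψ : ℂ → ℂ} (hψ : Measurable ψ) {G : Set ℂ} (hG : IsOpen G) (hGD : G ⊆ D)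
    (hGc : volume (D \ G) = 0) (hmap : ∀ x ∈ G, ψ x ∈ D') (hinj : InjOn ψ G)
    (hloc : ∀ x ∈ G, ∀ᶠ w in 𝓝 (0 : ℂ), ψ (x + w) = ψ x + A w) (hvol : volume D = volume D') :
    MeasurePreserving ψ (volume.restrict D) (volume.restrict D') := by
  let A' : ℂ →L[ℝ] ℂ := LinearMap.toContinuousLinearMap (A : ℂ →ₗ[ℝ] ℂ)
  have hdet : A'.det = 1 := by
    rw [← hA]; rfl
  have hder : ∀ x ∈ G, HasFDerivWithinAt ψ A' G x := by
    intro x hx
    have h1 : HasFDerivAt (fun x' : ℂ => ψ x + A' (x' - x)) A' x := by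
      have h2 : HasFDerivAt (fun x' : ℂ => A' (x' - x)) A' x := by
        have e : (fun x' : ℂ => A' (x' - x)) = fun x' => A' x' - A' x := by
          funext x'; rw [map_sub]
        rw [e]
        exact A'.hasFDerivAt.sub_const (A' x)
      exact h2.const_add _
    refine (h1.congr_of_eventuallyEq ?_).hasFDerivWithinAt
    have h3 := hloc x hx
    have h4 : Tendsto (fun x' : ℂ => x' - x) (𝓝 x) (𝓝 0) := by
      have : Tendsto (fun x' : ℂ => x' - x) (𝓝 x) (𝓝 (x - x)) :=
        (continuous_id.sub continuous_const).tendsto x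
      rwa [sub_self] at this
    filter_upwards [h4.eventually h3] with x' hx'
    rw [add_sub_cancel] at hx'
    exact hx'
  have himg : MeasurableSet (ψ '' G) :=
    measurable_image_of_fderivWithin hG.measurableSet hder hinj
  have key : ∀ B : Set ℂ, MeasurableSet B → volume (B ∩ ψ '' G) = volume (ψ ⁻¹' B ∩ G) := by
    intro B hB
    have h1 := lintegral_image_eq_lintegral_abs_det_fderiv_mul volume hG.measurableSet hder hinj
      (B.indicator 1)
    rw [hdet] at h1
    simp only [abs_one, ENNReal.ofReal_one, one_mul] at h1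
    rw [lintegral_indicator_one hB, Measure.restrict_apply hB] at h1
    have h2 : ∀ x, B.indicator (1 : ℂ → ENNReal) (ψ x) = (ψ ⁻¹' B).indicator 1 x := by
      intro x; rfl
    simp only [h2] at h1
    rw [lintegral_indicator_one (hψ hB), Measure.restrict_apply (hψ hB)] at h1
    exact h1
  have hsub : ψ '' G ⊆ D' := by
    rintro _ ⟨x, hx, rfl⟩; exact hmap x hx
  have hDG : volume G = volume D := by
    refine le_antisymm (measure_mono hGD) ?_
    calc volume D ≤ volume (G ∪ D \ G) := measure_mono (by intro x hx; by_cases h : x ∈ G <;> simp [h, hx])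
      _ ≤ volume G + volume (D \ G) := measure_union_le _ _
      _ = volume G := by rw [hGc, add_zero]
  have hD'G : volume (D' \ ψ '' G) = 0 := by
    have h1 := key univ MeasurableSet.univ
    rw [univ_inter, preimage_univ, univ_inter, hDG, hvol] at h1
    rw [measure_diff hsub himg.nullMeasurableSet (by rw [h1]; exact hfin.ne), h1, tsub_self]
  refine ⟨hψ, ?_⟩
  ext B hB
  rw [Measure.map_apply hψ hB, Measure.restrict_apply (hψ hB), Measure.restrict_apply hB]
  have e1 : volume (ψ ⁻¹' B ∩ D) = volume (ψ ⁻¹' B ∩ G) := by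
    refine le_antisymm ?_ (measure_mono (inter_subset_inter_right _ hGD))
    calc volume (ψ ⁻¹' B ∩ D) ≤ volume (ψ ⁻¹' B ∩ G ∪ D \ G) := measure_mono (by
          rintro x ⟨h1, h2⟩; by_cases h : x ∈ G
          · exact Or.inl ⟨h1, h⟩
          · exact Or.inr ⟨h2, h⟩)
      _ ≤ volume (ψ ⁻¹' B ∩ G) + volume (D \ G) := measure_union_le _ _
      _ = volume (ψ ⁻¹' B ∩ G) := by rw [hGc, add_zero]
  have e2 : volume (B ∩ D') = volume (B ∩ ψ '' G) := by
    refine le_antisymm ?_ (measure_mono (inter_subset_inter_right _ hsub))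
    calc volume (B ∩ D') ≤ volume (B ∩ ψ '' G ∪ D' \ ψ '' G) := measure_mono (by
          rintro x ⟨h1, h2⟩; by_cases h : x ∈ ψ '' G
          · exact Or.inl ⟨h1, h⟩
          · exact Or.inr ⟨h2, h⟩)
      _ ≤ volume (B ∩ ψ '' G) + volume (D' \ ψ '' G) := measure_union_le _ _
      _ = volume (B ∩ ψ '' G) := by rw [hD'G, add_zero]
  rw [e1, e2, key B hB]

/-- The criterion. -/
theorem linIso_crit (S Y : Surf) (A : ℂ ≃ₗ[ℝ] ℂ) (hA : LinearMap.det (A : ℂ →ₗ[ℝ] ℂ) = 1)
    {ψ : ℂ → ℂ} (hψ : Measurable ψ) {G : Set ℂ} (hG : IsOpen G) (hGD : G ⊆ S.D)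
    (hGc : volume (S.D \ G) = 0) (hmap : ∀ x ∈ G, ψ x ∈ Y.D) (hinj : InjOn ψ G)
    (hloc : ∀ x ∈ G, ∀ᶠ w in 𝓝 (0 : ℂ), ψ (x + w) = ψ x + A w)
    (hvol : volume S.D = volume Y.D)
    (hhop : ∀ w x y, x ∈ G → y ∈ G → S.Hop w x y → Y.Straight (A w) (ψ x) (ψ y)) :
    LinIso S Y A := by
  have hmp : MeasurePreserving ψ S.μ Y.μ :=
    mp_of_local S.measurableSet_D Y.measurableSet_D Y.volume_D_lt_top A hA hψ hG hGD hGc hmap hinj
      hloc hvol
  have hGμ : S.μ Gᶜ = 0 := by
    unfold Surf.μ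
    rw [Measure.restrict_apply hG.measurableSet.compl]
    have : Gᶜ ∩ S.D = S.D \ G := by
      ext x; simp [and_comm]
    rw [this, hGc]
  obtain ⟨Ψ, h1, h2, h3⟩ := exists_inv_mp hmp hG.measurableSet hGμ hinj
  refine ⟨ψ, Ψ, hmp, h1, h2, h3, ?_⟩
  have hG' : ∀ᵐ x ∂S.μ, x ∈ G := by
    rw [ae_iff]; exact hGμ
  refine sim S Y A hmp fun w => ?_
  filter_upwards [hG', (S.measurePreserving_F w).quasiMeasurePreserving.ae hG'] with x hx hx'
  rintro ⟨y, hy⟩
  have hF : S.F w x = y := Surf.F_eq (Surf.Straight.hop hy)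
  rw [hF] at hx' ⊢
  exact hhop w x y hx hx' hy

end

end Pool.Agent.Helper72.TF
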