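import Pool.Agent.Helper72.TF.BI3a

/-!
# MP_e98778_an (full), BASE, block TF-BI3b (helper87)

Plane geometry of a strictly convex quadrilateral `P S Q R` with `P = 0`, `Q = E`, `R = -B`, `S = C`,
sides `C : P → S`, `D : S → Q`, `A : Q → R`, `B : R → P`, diagonals `E : P → Q` and `D + A : S → R`.
General facts on darts of a `Surf`.
-/

set_option autoImplicit false

open MeasureTheory Set Filter Topology Pool.Agent.Helper87.LS Pool.Agent.Helper79.G

namespace Pool.Agent.Helper72.TF

namespace FL87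

noncomputable section

section plane

variable {E A B C D z : ℂ}

theorem quad_pos (h1 : E + A + B = 0) (h2 : C + D = E) (hEA : 0 < cr E A) (hCD : 0 < cr C D)
    (hBC : 0 < cr B C) (hDA : 0 < cr D A) (z1 : 0 < cr E z) (z2 : 0 < cr A (z - E))
    (z3 : 0 < cr B z) : 0 < cr C z ∧ 0 < cr D (z - C) := by
  subst h2
  have hB : B = -(C + D + A) := by linear_combination h1
  subst hB
  have k1 : cr (C + D) A * cr C z = cr (-(C + D + A)) z * cr C D + cr (C + D) z * cr (-(C + D + A)) C := by
    simp only [cr, Complex.add_re, Complex.add_im, Complex.neg_re, Complex.neg_im]; ring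
  have k2 : cr (C + D) A * cr D (z - C) = cr A (z - (C + D)) * cr C D + cr (C + D) z * cr D A := by
    simp only [cr, Complex.add_re, Complex.add_im, Complex.sub_re, Complex.sub_im]; ring
  constructor
  · refine (mul_pos_iff_of_pos_left hEA).1 ?_
    rw [k1]; positivity
  · refine (mul_pos_iff_of_pos_left hEA).1 ?_
    rw [k2]; positivity

/-- The open quadrilateral. -/
structure InK (E A B C D z : ℂ) : Prop where
  a : 0 < cr A (z - E)
  b : 0 < cr B z
  c : 0 < cr C z
  d : 0 < cr D (z - C)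

/-- The hypotheses on the quadrilateral. -/
structure Quad (E A B C D : ℂ) : Prop where
  s1 : E + A + B = 0
  s2 : C + D = E
  ea : 0 < cr E A
  cd : 0 < cr C D
  bc : 0 < cr B C
  da : 0 < cr D A

theorem Quad.ab (h : Quad E A B C D) : 0 < cr A B := by
  have e : cr A B = cr E A := by
    have hB : B = -(E + A) := by linear_combination h.s1
    rw [hB]; simp only [cr, Complex.add_re, Complex.add_im, Complex.neg_re, Complex.neg_im]; ring
  rw [e]; exact h.ea

theorem Quad.mem1 (h : Quad E A B C D) :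
    (0 < cr E z ∧ 0 < cr A (z - E) ∧ 0 < cr B z) ↔ InK E A B C D z ∧ 0 < cr E z := by
  constructor
  · rintro ⟨z1, z2, z3⟩
    obtain ⟨k1, k2⟩ := quad_pos h.s1 h.s2 h.ea h.cd h.bc h.da z1 z2 z3
    exact ⟨⟨z2, z3, k1, k2⟩, z1⟩
  · rintro ⟨k, z1⟩
    exact ⟨z1, k.a, k.b⟩

theorem Quad.mem2 (h : Quad E A B C D) :
    (0 < cr (-E) (z - E) ∧ 0 < cr C z ∧ 0 < cr D (z - C)) ↔ InK E A B C D z ∧ cr E z < 0 := by
  have e1 : cr (-E) (z - E) = -cr E z := by
    simp only [cr, Complex.neg_re, Complex.neg_im, Complex.sub_re, Complex.sub_im]; ring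
  have e2 : cr D (z - E) = cr D (z - C) := by
    rw [← h.s2]; simp only [cr, Complex.add_re, Complex.add_im, Complex.sub_re, Complex.sub_im]; ring
  have e3 : z - E + E = z := by ring
  have e4 : cr B (z - E - A) = cr B z := by
    have hE : E = -(A + B) := by linear_combination h.s1
    rw [hE]
    simp only [cr, Complex.add_re, Complex.add_im, Complex.neg_re, Complex.neg_im, Complex.sub_re,
      Complex.sub_im]; ring
  have e5 : cr (-E) C = cr C D := by
    rw [← h.s2]; simp only [cr, Complex.add_re, Complex.add_im, Complex.neg_re, Complex.neg_im]; ring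
  constructor
  · rintro ⟨z1, z2, z3⟩
    obtain ⟨k1, k2⟩ := quad_pos (E := -E) (A := C) (B := D) (C := A) (D := B) (z := z - E)
      (by linear_combination h.s2) (by linear_combination h.s1) (by rw [e5]; exact h.cd) h.ab h.da h.bc
      z1 (by rw [sub_neg_eq_add, e3]; exact z2) (by rw [e2]; exact z3)
    exact ⟨⟨k1, by rwa [e4] at k2, z2, z3⟩, by rw [e1] at z1; linarith⟩
  · rintro ⟨k, z1⟩
    exact ⟨by rw [e1]; linarith, k.c, k.d⟩

theorem Quad.mem3 (h : Quad E A B C D) :
    (0 < cr (D + A) (z - C) ∧ 0 < cr B z ∧ 0 < cr C z) ↔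
      InK E A B C D z ∧ 0 < cr (D + A) (z - C) := by
  have hs : D + A + B + C = 0 := by linear_combination h.s1 + h.s2
  have e1 : cr (D + A) B = cr B C := by
    have : D + A = -(B + C) := by linear_combination hs
    rw [this]; simp only [cr, Complex.add_re, Complex.add_im, Complex.neg_re, Complex.neg_im]; ring
  have e2 : cr B (z - C - (D + A)) = cr B z := by
    have : z - C - (D + A) = z + B := by linear_combination -hs
    rw [this]; simp only [cr, Complex.add_re, Complex.add_im]; ring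
  have e3 : cr C (z - C) = cr C z := by
    simp only [cr, Complex.sub_re, Complex.sub_im]; ring
  have e4 : z - C - D = z - E := by linear_combination -h.s2
  constructor
  · rintro ⟨z1, z2, z3⟩
    obtain ⟨k1, k2⟩ := quad_pos (E := D + A) (A := B) (B := C) (C := D) (D := A) (z := z - C)
      hs rfl (by rw [e1]; exact h.bc) h.da h.cd h.ab
      z1 (by rw [e2]; exact z2) (by rw [e3]; exact z3)
    exact ⟨⟨by rwa [e4] at k2, z2, z3, k1⟩, z1⟩
  · rintro ⟨k, z1⟩
    exact ⟨z1, k.b, k.c⟩

theorem Quad.mem4 (h : Quad E A B C D) :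
    (0 < cr (-(D + A)) (z + B) ∧ 0 < cr D (z - C) ∧ 0 < cr A (z - E)) ↔
      InK E A B C D z ∧ cr (D + A) (z - C) < 0 := by
  have hs : D + A + B + C = 0 := by linear_combination h.s1 + h.s2
  have e0 : cr (-(D + A)) (z + B) = -cr (D + A) (z - C) := by
    have : B = -(D + A + C) := by linear_combination hs
    rw [this]
    simp only [cr, Complex.add_re, Complex.add_im, Complex.neg_re, Complex.neg_im, Complex.sub_re,
      Complex.sub_im]; ring
  have e1 : cr (-(D + A)) D = cr D A := by
    simp only [cr, Complex.add_re, Complex.add_im, Complex.neg_re, Complex.neg_im]; ring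
  have e2 : z + B - -(D + A) = z - C := by linear_combination hs
  have e3 : cr A (z + B) = cr A (z - E) := by
    have : z + B = z - E - A := by linear_combination h.s1
    rw [this]; simp only [cr, Complex.sub_re, Complex.sub_im]; ring
  have e4 : cr B (z + B) = cr B z := by
    simp only [cr, Complex.add_re, Complex.add_im]; ring
  have e5 : z + B - B = z := by ring
  constructor
  · rintro ⟨z1, z2, z3⟩
    obtain ⟨k1, k2⟩ := quad_pos (E := -(D + A)) (A := D) (B := A) (C := B) (D := C) (z := z + B)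
      (by ring) (by linear_combination hs) (by rw [e1]; exact h.da) h.bc h.ab h.cd
      z1 (by rw [e2]; exact z2) (by rw [e3]; exact z3)
    exact ⟨⟨z3, by rwa [e4] at k1, by rwa [e5] at k2, z2⟩, by rw [e0] at z1; linarith⟩
  · rintro ⟨k, z1⟩
    exact ⟨by rw [e0]; linarith, k.d, k.a⟩

end plane

/-! ### Darts of a `Surf` -/

section darts

theorem fin3_cases (k l : Fin 3) : l = k ∨ l = k + 1 ∨ l = k + 1 + 1 := by
  revert k l; decide

theorem fin3_two (k : Fin 3) : k + 2 = k + 1 + 1 := by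
  revert k; decide

variable (S : Surf)

/-- The start of a dart. -/
def sp (g : Fin S.n × Fin 3) : ℂ := S.P g.1 g.2

theorem ell_sp (g : Fin S.n × Fin 3) (x : ℂ) : S.ell g x = cr (S.vec g) (x - sp S g) := rfl

theorem next_fst (g : Fin S.n × Fin 3) : ((ofSurf S).next g).1 = g.1 := rfl

theorem prev_fst (g : Fin S.n × Fin 3) : ((ofSurf S).prev g).1 = g.1 := rfl

theorem sp_next (g : Fin S.n × Fin 3) : sp S ((ofSurf S).next g) = sp S g + S.vec g := by
  change S.P g.1 (g.2 + 1) = S.P g.1 g.2 + (S.P g.1 (g.2 + 1) - S.P g.1 g.2)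
  ring

theorem mem_tri_dart (g : Fin S.n × Fin 3) (x : ℂ) :
    x ∈ tri (S.P g.1) ↔ 0 < S.ell g x ∧ 0 < S.ell ((ofSurf S).next g) x ∧
      0 < S.ell ((ofSurf S).prev g) x := by
  rw [S.mem_tri]
  obtain ⟨i, k⟩ := g
  change (∀ l, 0 < S.ell (i, l) x) ↔ 0 < S.ell (i, k) x ∧ 0 < S.ell (i, k + 1) x ∧
    0 < S.ell (i, k + 1 + 1) x
  constructor
  · intro h; exact ⟨h _, h _, h _⟩
  · rintro ⟨h1, h2, h3⟩ l
    rcases fin3_cases k l with h | h | h
    · rw [h]; exact h1
    · rw [h]; exact h2
    · rw [h]; exact h3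

theorem mem_edge_dart (g : Fin S.n × Fin 3) (x : ℂ) :
    x ∈ openSegment ℝ (S.P g.1 g.2) (S.P g.1 (g.2 + 1)) ↔
      S.ell g x = 0 ∧ 0 < S.ell ((ofSurf S).next g) x ∧ 0 < S.ell ((ofSurf S).prev g) x := by
  obtain ⟨i, k⟩ := g
  have h := S.mem_openSegment_iff i k x
  rw [fin3_two] at h
  exact h

/-- Darts of the same triangle. -/
theorem same_fst {g g' : Fin S.n × Fin 3} (h : g'.1 = g.1) :
    g' = g ∨ g' = (ofSurf S).next g ∨ g' = (ofSurf S).prev g := by
  obtain ⟨i, k⟩ := g
  obtain ⟨j, l⟩ := g'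
  simp only at h
  subst h
  change (j, l) = (j, k) ∨ (j, l) = (j, k + 1) ∨ (j, l) = (j, k + 1 + 1)
  rcases fin3_cases k l with h | h | h
  · exact Or.inl (by rw [h])
  · exact Or.inr (Or.inl (by rw [h]))
  · exact Or.inr (Or.inr (by rw [h]))

theorem glue_eq_opp (g : Fin S.n × Fin 3) : S.glue g = (ofSurf S).opp g := rfl

theorem shift_sp (g : Fin S.n × Fin 3) :
    S.shift g = sp S (S.glue g) - (sp S g + S.vec g) := by
  change S.P (S.glue g).1 (S.glue g).2 - S.P g.1 (g.2 + 1) =
    S.P (S.glue g).1 (S.glue g).2 - (S.P g.1 g.2 + (S.P g.1 (g.2 + 1) - S.P g.1 g.2))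
  ring

/-- Hop across the edge `g`. -/
theorem hop_cross (g : Fin S.n × Fin 3) {v x y : ℂ} (hx : x ∈ tri (S.P g.1))
    (hy : y ∈ tri (S.P (S.glue g).1)) (hxy : y = x + v + S.shift g) {s : ℝ} (hs0 : 0 < s)
    (hs1 : s < 1) (hs : x + (s : ℂ) * v ∈ openSegment ℝ (S.P g.1 g.2) (S.P g.1 (g.2 + 1))) :
    S.Hop v x y :=
  ⟨g.1, hx, Or.inr ⟨g.2, hy, hxy, s, ⟨hs0, hs1⟩, hs⟩⟩

theorem exists_ell_pos_div {p q : ℝ} (hp : 0 < p) (hq : q < 0) :
    ∃ s : ℝ, 0 < s ∧ s < 1 ∧ p + s * (q - p) = 0 := by
  refine ⟨p / (p - q), by apply div_pos <;> linarith, ?_, ?_⟩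
  · rw [div_lt_one (by linarith)]; linarith
  · have : p - q ≠ 0 := by linarith
    field_simp
    ring

end darts

/-! ### Area -/

theorem volume_D (S : Surf) : volume S.D = ENNReal.ofReal ((ofSurf S).area) := by
  have hD : S.D = ⋃ i, tri (S.P i) := rfl
  have hOp : ∀ i : Fin S.n, volume (tri (S.P i)) = ENNReal.ofReal (S.area2 i / 2) := by
    intro i
    have h1 : tri (S.P i) = (fun z => z - S.P i 0) ⁻¹' Op (ofSurf S) (i, 0) := by
      ext z
      have := pt_mem S (i, 0) (z - S.P i 0)
      simp only [pt, add_sub_cancel] at this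
      exact this
    rw [h1, (measurePreserving_sub_right volume (S.P i 0)).measure_preimage_emb
      (MeasurableEquiv.subRight (S.P i 0)).measurableEmbedding, volume_Op]
    congr 2
    have := S.cr_vec_succ i 0
    exact this
  rw [hD, measure_iUnion (fun i j hij => S.disj i j hij) (fun i => (S.isOpen_tri i).measurableSet),
    tsum_fintype]
  simp only [hOp]
  rw [← ENNReal.ofReal_sum_of_nonneg (fun i _ => by have := S.area2_pos i; positivity)]
  congr 1
  unfold Tri.area
  rw [Fintype.sum_prod_type]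
  have : ∀ i : Fin S.n, ∑ k : Fin 3, cr ((ofSurf S).vec (i, k)) ((ofSurf S).vec ((ofSurf S).next (i, k)))
      = 3 * S.area2 i := by
    intro i
    have h : ∀ k : Fin 3, cr ((ofSurf S).vec (i, k)) ((ofSurf S).vec ((ofSurf S).next (i, k)))
        = S.area2 i := fun k => S.cr_vec_succ i k
    simp only [h, Finset.sum_const, Finset.card_univ, Fintype.card_fin, nsmul_eq_mul]
    norm_num
  simp only [this]
  rw [Finset.sum_div]
  refine Finset.sum_congr rfl fun i _ => ?_
  ring

end

end FL87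

end Pool.Agent.Helper72.TF
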