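import Pool.Agent.Helper72.TF.BI3b

/-!
# MP_e98778_an (full), BASE, block TF-BI3c (helper87)

The map `psi : S → Y` for a flip, and its values on the pieces.
-/

set_option autoImplicit false

open MeasureTheory Set Filter Topology Pool.Agent.Helper87.LS Pool.Agent.Helper79.G

namespace Pool.Agent.Helper72.TF

namespace FL87

noncomputable section

variable {S Y : Surf} {e : Fin S.n × Fin 3} {he : (ofSurf S).Flippable e}
  {σ : (Fin S.n × Fin 3) ≃ (Fin Y.n × Fin 3)}

theorem quad_of (he : (ofSurf S).Flippable e) : Quad (S.vec e) (S.vec ((ofSurf S).next e))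
    (S.vec ((ofSurf S).prev e)) (S.vec ((ofSurf S).next ((ofSurf S).opp e)))
    (S.vec ((ofSurf S).prev ((ofSurf S).opp e))) where
  s1 := (ofSurf S).closed e
  s2 := by
    have h1 := (ofSurf S).closed ((ofSurf S).opp e)
    have h2 := (ofSurf S).vec_opp e
    change S.vec ((ofSurf S).opp e) + S.vec ((ofSurf S).next ((ofSurf S).opp e)) +
      S.vec ((ofSurf S).prev ((ofSurf S).opp e)) = 0 at h1
    change S.vec ((ofSurf S).opp e) = - S.vec e at h2
    rw [h2] at h1
    linear_combination h1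
  ea := (ofSurf S).pos e
  cd := (ofSurf S).pos ((ofSurf S).next ((ofSurf S).opp e))
  bc := he.1
  da := he.2

section rel

variable (h : Rel ((ofSurf S).flip e he) (ofSurf Y) σ)

include h

theorem rel_next (g : Fin S.n × Fin 3) :
    (ofSurf Y).next (σ g) = σ ((ofSurf S).flipNext e g) := (h.next g).symm

theorem rel_opp (g : Fin S.n × Fin 3) :
    Y.glue (σ g) = σ (S.glue g) := (h.opp g).symm

theorem rel_vec (g : Fin S.n × Fin 3) : Y.vec (σ g) = (ofSurf S).flipVec e g := h.vec g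

theorem rel_vec_ne {g : Fin S.n × Fin 3} (h1 : g ≠ e) (h2 : g ≠ (ofSurf S).opp e) :
    Y.vec (σ g) = S.vec g := by
  rw [rel_vec h, (ofSurf S).flipVec_ne h1 h2]; rfl

theorem rel_fst (g : Fin S.n × Fin 3) : (σ ((ofSurf S).flipNext e g)).1 = (σ g).1 := by
  rw [← rel_next h]; rfl

theorem rel_sp (g : Fin S.n × Fin 3) :
    sp Y (σ ((ofSurf S).flipNext e g)) = sp Y (σ g) + (ofSurf S).flipVec e g := by
  rw [← rel_next h, sp_next, rel_vec h]

theorem spY_b : sp Y (σ ((ofSurf S).prev e)) = sp Y (σ e) +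
    (S.vec ((ofSurf S).prev ((ofSurf S).opp e)) + S.vec ((ofSurf S).next e)) := by
  have h1 := rel_sp h e
  rw [(ofSurf S).flipNext_e, (ofSurf S).flipVec_e] at h1
  exact h1

theorem spY_c : sp Y (σ ((ofSurf S).next ((ofSurf S).opp e))) = sp Y (σ ((ofSurf S).prev e)) +
    S.vec ((ofSurf S).prev e) := by
  have hs := (ofSurf S).six e
  have h1 := rel_sp h ((ofSurf S).prev e)
  rw [(ofSurf S).flipNext_b, (ofSurf S).flipVec_ne hs.1 (Ne.symm hs.2.2.2.2.2.1)] at h1
  exact h1

theorem spY_e : sp Y (σ e) = sp Y (σ ((ofSurf S).next ((ofSurf S).opp e))) +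
    S.vec ((ofSurf S).next ((ofSurf S).opp e)) := by
  have hs := (ofSurf S).six e
  have h1 := rel_sp h ((ofSurf S).next ((ofSurf S).opp e))
  rw [(ofSurf S).flipNext_c, (ofSurf S).flipVec_ne hs.2.2.2.2.2.2.1 hs.2.2.2.2.2.2.2.2.2.1] at h1
  exact h1

theorem spY_d : sp Y (σ ((ofSurf S).prev ((ofSurf S).opp e))) = sp Y (σ ((ofSurf S).opp e)) -
    (S.vec ((ofSurf S).prev ((ofSurf S).opp e)) + S.vec ((ofSurf S).next e)) := by
  have h1 := rel_sp h ((ofSurf S).opp e)
  rw [(ofSurf S).flipNext_e', (ofSurf S).flipVec_e'] at h1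
  rw [h1]
  change _ + -(S.vec _ + S.vec _) = _
  ring

theorem spY_a : sp Y (σ ((ofSurf S).next e)) = sp Y (σ ((ofSurf S).prev ((ofSurf S).opp e))) +
    S.vec ((ofSurf S).prev ((ofSurf S).opp e)) := by
  have hs := (ofSurf S).six e
  have h1 := rel_sp h ((ofSurf S).prev ((ofSurf S).opp e))
  rw [(ofSurf S).flipNext_d, (ofSurf S).flipVec_ne hs.2.2.2.2.2.2.2.2.2.2.1
    hs.2.2.2.2.2.2.2.2.2.2.2.2.2.1] at h1
  exact h1

/-- Membership in the new triangle of `e`. -/
theorem memY1 (z : ℂ) : z + sp Y (σ ((ofSurf S).next ((ofSurf S).opp e))) ∈ tri (Y.P (σ e).1) ↔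
    InK (S.vec e) (S.vec ((ofSurf S).next e))
      (S.vec ((ofSurf S).prev e)) (S.vec ((ofSurf S).next ((ofSurf S).opp e)))
      (S.vec ((ofSurf S).prev ((ofSurf S).opp e))) z ∧
    0 < cr (S.vec ((ofSurf S).prev ((ofSurf S).opp e)) + S.vec ((ofSurf S).next e))
      (z - S.vec ((ofSurf S).next ((ofSurf S).opp e))) := by
  have hs := (ofSurf S).six e
  rw [mem_tri_dart, ← (quad_of he).mem3]
  have e1 : (ofSurf Y).next (σ e) = σ ((ofSurf S).prev e) := by
    rw [rel_next h, (ofSurf S).flipNext_e]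
  have e2 : (ofSurf Y).prev (σ e) = σ ((ofSurf S).next ((ofSurf S).opp e)) := by
    change (ofSurf Y).next ((ofSurf Y).next (σ e)) = _
    rw [e1, rel_next h, (ofSurf S).flipNext_b]
  rw [e1, e2, ell_sp, ell_sp, ell_sp, rel_vec h, rel_vec_ne h hs.1 (Ne.symm hs.2.2.2.2.2.1),
    rel_vec_ne h hs.2.2.2.2.2.2.1 hs.2.2.2.2.2.2.2.2.2.1, (ofSurf S).flipVec_e]
  have f1 : z + sp Y (σ ((ofSurf S).next ((ofSurf S).opp e))) - sp Y (σ e) =
      z - S.vec ((ofSurf S).next ((ofSurf S).opp e)) := by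
    rw [spY_e h]; ring
  have f2 : z + sp Y (σ ((ofSurf S).next ((ofSurf S).opp e))) - sp Y (σ ((ofSurf S).prev e)) =
      z + S.vec ((ofSurf S).prev e) := by
    rw [spY_c h]; ring
  have f3 : z + sp Y (σ ((ofSurf S).next ((ofSurf S).opp e))) -
      sp Y (σ ((ofSurf S).next ((ofSurf S).opp e))) = z := by ring
  rw [f1, f2, f3, cr_add_right, cr_self, add_zero]
  rfl

/-- Membership in the new triangle of `opp e`. -/
theorem memY2 (z : ℂ) : z + (sp Y (σ ((ofSurf S).prev ((ofSurf S).opp e))) -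
      S.vec ((ofSurf S).next ((ofSurf S).opp e))) ∈ tri (Y.P (σ ((ofSurf S).opp e)).1) ↔
    InK (S.vec e) (S.vec ((ofSurf S).next e))
      (S.vec ((ofSurf S).prev e)) (S.vec ((ofSurf S).next ((ofSurf S).opp e)))
      (S.vec ((ofSurf S).prev ((ofSurf S).opp e))) z ∧
    cr (S.vec ((ofSurf S).prev ((ofSurf S).opp e)) + S.vec ((ofSurf S).next e))
      (z - S.vec ((ofSurf S).next ((ofSurf S).opp e))) < 0 := by
  have hs := (ofSurf S).six e
  have hq := quad_of he
  rw [mem_tri_dart, ← hq.mem4]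
  have e1 : (ofSurf Y).next (σ ((ofSurf S).opp e)) = σ ((ofSurf S).prev ((ofSurf S).opp e)) := by
    rw [rel_next h, (ofSurf S).flipNext_e']
  have e2 : (ofSurf Y).prev (σ ((ofSurf S).opp e)) = σ ((ofSurf S).next e) := by
    change (ofSurf Y).next ((ofSurf Y).next (σ ((ofSurf S).opp e))) = _
    rw [e1, rel_next h, (ofSurf S).flipNext_d]
  rw [e1, e2, ell_sp, ell_sp, ell_sp, rel_vec h, rel_vec_ne h hs.2.2.2.2.2.2.2.2.2.2.1
    hs.2.2.2.2.2.2.2.2.2.2.2.2.2.1, rel_vec_ne h hs.2.1 (Ne.symm hs.2.2.2.2.1),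
    (ofSurf S).flipVec_e']
  have f1 : z + (sp Y (σ ((ofSurf S).prev ((ofSurf S).opp e))) -
      S.vec ((ofSurf S).next ((ofSurf S).opp e))) - sp Y (σ ((ofSurf S).opp e)) =
      z + S.vec ((ofSurf S).prev e) := by
    rw [spY_d h]
    linear_combination -hq.s1 - hq.s2
  have f2 : z + (sp Y (σ ((ofSurf S).prev ((ofSurf S).opp e))) -
      S.vec ((ofSurf S).next ((ofSurf S).opp e))) - sp Y (σ ((ofSurf S).prev ((ofSurf S).opp e))) =
      z - S.vec ((ofSurf S).next ((ofSurf S).opp e)) := by ring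
  have f3 : z + (sp Y (σ ((ofSurf S).prev ((ofSurf S).opp e))) -
      S.vec ((ofSurf S).next ((ofSurf S).opp e))) - sp Y (σ ((ofSurf S).next e)) =
      z - S.vec e := by
    rw [spY_a h]
    linear_combination -hq.s2
  rw [f1, f2, f3]
  rfl

end rel

/-- Membership in the old triangle of `e`. -/
theorem memS1 (he : (ofSurf S).Flippable e) (z : ℂ) : z + sp S e ∈ tri (S.P e.1) ↔
    InK (S.vec e) (S.vec ((ofSurf S).next e))
      (S.vec ((ofSurf S).prev e)) (S.vec ((ofSurf S).next ((ofSurf S).opp e)))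
      (S.vec ((ofSurf S).prev ((ofSurf S).opp e))) z ∧ 0 < cr (S.vec e) z := by
  rw [mem_tri_dart, ← (quad_of he).mem1, ell_sp, ell_sp, ell_sp]
  have f1 : z + sp S e - sp S e = z := by ring
  have f2 : z + sp S e - sp S ((ofSurf S).next e) = z - S.vec e := by
    rw [sp_next]; ring
  have f3 : z + sp S e - sp S ((ofSurf S).prev e) = z + S.vec ((ofSurf S).prev e) := by
    have : sp S ((ofSurf S).prev e) = sp S e + S.vec e + S.vec ((ofSurf S).next e) := by
      change sp S ((ofSurf S).next ((ofSurf S).next e)) = _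
      rw [sp_next, sp_next]
    rw [this]
    linear_combination -(quad_of he).s1
  rw [f1, f2, f3, cr_add_right, cr_self, add_zero]

/-- Membership in the old triangle of `opp e`. -/
theorem memS2 (he : (ofSurf S).Flippable e) (z : ℂ) :
    z + sp S ((ofSurf S).next ((ofSurf S).opp e)) ∈ tri (S.P ((ofSurf S).opp e).1) ↔
    InK (S.vec e) (S.vec ((ofSurf S).next e))
      (S.vec ((ofSurf S).prev e)) (S.vec ((ofSurf S).next ((ofSurf S).opp e)))
      (S.vec ((ofSurf S).prev ((ofSurf S).opp e))) z ∧ cr (S.vec e) z < 0 := by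
  rw [mem_tri_dart, ← (quad_of he).mem2, ell_sp, ell_sp, ell_sp]
  have hv : S.vec ((ofSurf S).opp e) = - S.vec e := (ofSurf S).vec_opp e
  have f1 : z + sp S ((ofSurf S).next ((ofSurf S).opp e)) - sp S ((ofSurf S).opp e) =
      z - S.vec e := by
    rw [sp_next, hv]; ring
  have f2 : z + sp S ((ofSurf S).next ((ofSurf S).opp e)) -
      sp S ((ofSurf S).next ((ofSurf S).opp e)) = z := by ring
  have f3 : z + sp S ((ofSurf S).next ((ofSurf S).opp e)) -
      sp S ((ofSurf S).prev ((ofSurf S).opp e)) =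
      z - S.vec ((ofSurf S).next ((ofSurf S).opp e)) := by
    have : sp S ((ofSurf S).prev ((ofSurf S).opp e)) = sp S ((ofSurf S).next ((ofSurf S).opp e)) +
        S.vec ((ofSurf S).next ((ofSurf S).opp e)) := by
      change sp S ((ofSurf S).next ((ofSurf S).next ((ofSurf S).opp e))) = _
      rw [sp_next]
    rw [this]; ring
  rw [f1, f2, f3, hv]

/-! ### The translations and the map -/

/-- The translation attached to the dart `g`. -/
def tr (σ : (Fin S.n × Fin 3) ≃ (Fin Y.n × Fin 3)) (g : Fin S.n × Fin 3) : ℂ :=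
  sp Y (σ g) - sp S g

section rel2

variable (h : Rel ((ofSurf S).flip e he) (ofSurf Y) σ)

include h

theorem tr_b : tr σ ((ofSurf S).prev e) =
    sp Y (σ ((ofSurf S).next ((ofSurf S).opp e))) - sp S e := by
  have : sp S ((ofSurf S).prev e) = sp S e + S.vec e + S.vec ((ofSurf S).next e) := by
    change sp S ((ofSurf S).next ((ofSurf S).next e)) = _
    rw [sp_next, sp_next]
  unfold tr
  rw [this, spY_c h]
  linear_combination -(quad_of he).s1

theorem tr_a : tr σ ((ofSurf S).next e) =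
    sp Y (σ ((ofSurf S).prev ((ofSurf S).opp e))) - S.vec ((ofSurf S).next ((ofSurf S).opp e)) -
      sp S e := by
  unfold tr
  rw [sp_next, spY_a h]
  linear_combination (quad_of he).s2

omit h in
theorem tr_c : tr σ ((ofSurf S).next ((ofSurf S).opp e)) =
    sp Y (σ ((ofSurf S).next ((ofSurf S).opp e))) - sp S ((ofSurf S).next ((ofSurf S).opp e)) := rfl

omit h in
theorem tr_d : tr σ ((ofSurf S).prev ((ofSurf S).opp e)) =
    sp Y (σ ((ofSurf S).prev ((ofSurf S).opp e))) - S.vec ((ofSurf S).next ((ofSurf S).opp e)) -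
      sp S ((ofSurf S).next ((ofSurf S).opp e)) := by
  have : sp S ((ofSurf S).prev ((ofSurf S).opp e)) = sp S ((ofSurf S).next ((ofSurf S).opp e)) +
      S.vec ((ofSurf S).next ((ofSurf S).opp e)) := by
    change sp S ((ofSurf S).next ((ofSurf S).next ((ofSurf S).opp e))) = _
    rw [sp_next]
  unfold tr
  rw [this]; ring

theorem tr_next_out {g : Fin S.n × Fin 3} (hg : (ofSurf S).Out e g) :
    tr σ ((ofSurf S).next g) = tr σ g := by
  have h1 := rel_sp h g
  rw [(ofSurf S).flipNext_out hg, (ofSurf S).flipVec_ne hg.1 hg.2.2.2.1] at h1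
  unfold tr
  rw [h1, sp_next]
  change _ + S.vec g - _ = _
  ring

/-- The functions `ell` of the darts different from `e`, `opp e` are transported. -/
theorem ell_tr {g : Fin S.n × Fin 3} (h1 : g ≠ e) (h2 : g ≠ (ofSurf S).opp e) (x : ℂ) :
    Y.ell (σ g) (x + tr σ g) = S.ell g x := by
  rw [ell_sp, ell_sp, rel_vec_ne h h1 h2]
  unfold tr
  congr 1
  ring

theorem memY_out {g : Fin S.n × Fin 3} (hg : (ofSurf S).Out e g) {x : ℂ}
    (hx : x ∈ tri (S.P g.1)) : x + tr σ g ∈ tri (Y.P (σ g).1) := by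
  rw [mem_tri_dart] at hx ⊢
  have hg1 := hg.next
  have hg2 := hg1.next
  have e1 : (ofSurf Y).next (σ g) = σ ((ofSurf S).next g) := by
    rw [rel_next h, (ofSurf S).flipNext_out hg]
  have e2 : (ofSurf Y).prev (σ g) = σ ((ofSurf S).prev g) := by
    change (ofSurf Y).next ((ofSurf Y).next (σ g)) = _
    rw [e1, rel_next h, (ofSurf S).flipNext_out hg1]; rfl
  rw [e1, e2]
  refine ⟨by rw [ell_tr h hg.1 hg.2.2.2.1]; exact hx.1, ?_, ?_⟩
  · rw [← tr_next_out h hg, ell_tr h hg1.1 hg1.2.2.2.1]; exact hx.2.1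
  · rw [← tr_next_out h hg, ← tr_next_out h hg1]
    change 0 < Y.ell (σ ((ofSurf S).prev g)) (x + tr σ ((ofSurf S).prev g))
    rw [ell_tr h (g := (ofSurf S).prev g) hg2.1 hg2.2.2.2.1]; exact hx.2.2

end rel2

open Classical in
/-- The local translation. -/
def tau (e : Fin S.n × Fin 3) (σ : (Fin S.n × Fin 3) ≃ (Fin Y.n × Fin 3)) (i : Fin S.n) (x : ℂ) : ℂ :=
  if i = e.1 then
    if 0 < cr (S.vec ((ofSurf S).prev ((ofSurf S).opp e)) + S.vec ((ofSurf S).next e))
      (x - sp S e - S.vec ((ofSurf S).next ((ofSurf S).opp e))) then tr σ ((ofSurf S).prev e)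
    else tr σ ((ofSurf S).next e)
  else if i = ((ofSurf S).opp e).1 then
    if 0 < cr (S.vec ((ofSurf S).prev ((ofSurf S).opp e)) + S.vec ((ofSurf S).next e))
      (x - sp S ((ofSurf S).next ((ofSurf S).opp e)) - S.vec ((ofSurf S).next ((ofSurf S).opp e)))
    then tr σ ((ofSurf S).next ((ofSurf S).opp e))
    else tr σ ((ofSurf S).prev ((ofSurf S).opp e))
  else tr σ (i, 0)

/-- The map. -/
def psi (e : Fin S.n × Fin 3) (σ : (Fin S.n × Fin 3) ≃ (Fin Y.n × Fin 3)) (x : ℂ) : ℂ :=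
  x + ∑ i, (tri (S.P i)).indicator (tau e σ i) x

theorem measurable_tau (e : Fin S.n × Fin 3) (σ : (Fin S.n × Fin 3) ≃ (Fin Y.n × Fin 3))
    (i : Fin S.n) : Measurable (tau e σ i) := by
  have hc : ∀ u p q : ℂ, MeasurableSet {x : ℂ | 0 < cr u (x - p - q)} := by
    intro u p q
    have : Continuous fun x : ℂ => cr u (x - p - q) := by unfold cr; fun_prop
    exact (isOpen_lt continuous_const this).measurableSet
  unfold tau
  by_cases h1 : i = e.1
  · simp only [h1, if_true]
    exact Measurable.ite (hc _ _ _) measurable_const measurable_const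
  · by_cases h2 : i = ((ofSurf S).opp e).1
    · simp only [h1, h2, if_false, if_true]
      have h3 : ¬ ((ofSurf S).opp e).1 = e.1 := fun h => h1 (h2.trans h)
      simp only [h3, if_false]
      exact Measurable.ite (hc _ _ _) measurable_const measurable_const
    · simp only [h1, h2, if_false]
      exact measurable_const

theorem measurable_psi (e : Fin S.n × Fin 3) (σ : (Fin S.n × Fin 3) ≃ (Fin Y.n × Fin 3)) :
    Measurable (psi e σ) := by
  unfold psi
  refine measurable_id.add (Finset.measurable_sum _ fun i _ => ?_)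
  exact (measurable_tau e σ i).indicator (S.isOpen_tri i).measurableSet

theorem psi_of_mem (e : Fin S.n × Fin 3) (σ : (Fin S.n × Fin 3) ≃ (Fin Y.n × Fin 3))
    {i : Fin S.n} {x : ℂ} (hx : x ∈ tri (S.P i)) : psi e σ x = x + tau e σ i x := by
  unfold psi
  rw [Finset.sum_eq_single i]
  · rw [indicator_of_mem hx]
  · intro j _ hj
    rw [indicator_of_notMem]
    intro hxj
    exact hj (S.tri_unique hxj hx)
  · intro hi; exact absurd (Finset.mem_univ i) hi

theorem opp_fst_ne (e : Fin S.n × Fin 3) : ((ofSurf S).opp e).1 ≠ e.1 := by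
  intro h
  have hs := (ofSurf S).six e
  rcases same_fst S h with h | h | h
  · exact (ofSurf S).opp_ne e h
  · exact (ofSurf S).opp_ne_next e h
  · exact (ofSurf S).opp_ne_prev e h

end

end FL87

end Pool.Agent.Helper72.TF
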