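import Pool.Agent.Helper72.TF.BI3c

/-!
# MP_e98778_an (full), BASE, block TF-BI3d (helper87)

The pieces of the map `psi`, hops are carried to straight segments.
-/

set_option autoImplicit false

open MeasureTheory Set Filter Topology Pool.Agent.Helper87.LS Pool.Agent.Helper79.G

namespace Pool.Agent.Helper72.TF

namespace FL87

noncomputable section

variable {S Y : Surf} {e : Fin S.n × Fin 3} {he : (ofSurf S).Flippable e}
  {σ : (Fin S.n × Fin 3) ≃ (Fin Y.n × Fin 3)}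

/-- The dart `g` (a side of the quadrilateral or a dart outside) describes `psi` near `x`. -/
def Val (e : Fin S.n × Fin 3) (σ : (Fin S.n × Fin 3) ≃ (Fin Y.n × Fin 3))
    (g : Fin S.n × Fin 3) (x : ℂ) : Prop :=
  g ≠ e ∧ g ≠ (ofSurf S).opp e ∧ x ∈ tri (S.P g.1) ∧ x + tr σ g ∈ tri (Y.P (σ g).1)

/-- The good points. -/
def GG (e : Fin S.n × Fin 3) (σ : (Fin S.n × Fin 3) ≃ (Fin Y.n × Fin 3)) : Set ℂ :=
  {x | ∃ g, Val e σ g x}

/-- The function which decides the new triangle. -/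
def dq (e : Fin S.n × Fin 3) (z : ℂ) : ℝ :=
  cr (S.vec ((ofSurf S).prev ((ofSurf S).opp e)) + S.vec ((ofSurf S).next e))
    (z - S.vec ((ofSurf S).next ((ofSurf S).opp e)))

open Classical in
/-- The point of `Y` with position `z` in the quadrilateral. -/
def yq (e : Fin S.n × Fin 3) (σ : (Fin S.n × Fin 3) ≃ (Fin Y.n × Fin 3)) (z : ℂ) : ℂ :=
  if 0 < dq e z then z + sp Y (σ ((ofSurf S).next ((ofSurf S).opp e)))
  else z + (sp Y (σ ((ofSurf S).prev ((ofSurf S).opp e))) -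
      S.vec ((ofSurf S).next ((ofSurf S).opp e)))

/-- Position in the open quadrilateral. -/
def Kq (e : Fin S.n × Fin 3) (z : ℂ) : Prop :=
  InK (S.vec e) (S.vec ((ofSurf S).next e))
      (S.vec ((ofSurf S).prev e)) (S.vec ((ofSurf S).next ((ofSurf S).opp e)))
      (S.vec ((ofSurf S).prev ((ofSurf S).opp e))) z

theorem isOpen_Val (g : Fin S.n × Fin 3) : IsOpen {x | Val e σ g x} := by
  have : {x | Val e σ g x} = {x | g ≠ e ∧ g ≠ (ofSurf S).opp e} ∩
      (tri (S.P g.1) ∩ (fun x => x + tr σ g) ⁻¹' tri (Y.P (σ g).1)) := by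
    ext x; simp [Val, and_assoc]
  rw [this]
  refine IsOpen.inter ?_ ((S.isOpen_tri _).inter
    ((Y.isOpen_tri _).preimage (continuous_id.add continuous_const)))
  by_cases h : g ≠ e ∧ g ≠ (ofSurf S).opp e
  · simp [h]
  · simp [h]

theorem isOpen_GG : IsOpen (GG e σ) := by
  have : GG e σ = ⋃ g, {x | Val e σ g x} := by
    ext x; simp [GG]
  rw [this]
  exact isOpen_iUnion fun g => isOpen_Val g

theorem GG_sub : GG e σ ⊆ S.D := by
  rintro x ⟨g, hg⟩
  exact mem_iUnion.2 ⟨g.1, hg.2.2.1⟩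

theorem out_of_fst {g : Fin S.n × Fin 3} (h1 : g.1 ≠ e.1) (h2 : g.1 ≠ ((ofSurf S).opp e).1) :
    (ofSurf S).Out e g := by
  refine ⟨?_, ?_, ?_, ?_, ?_, ?_⟩
  · intro h; exact h1 (by rw [h])
  · intro h; exact h1 (by rw [h]; rfl)
  · intro h; exact h1 (by rw [h]; rfl)
  · intro h; exact h2 (by rw [h])
  · intro h; exact h2 (by rw [h]; rfl)
  · intro h; exact h2 (by rw [h]; rfl)

theorem fst_of_out {g : Fin S.n × Fin 3} (h : (ofSurf S).Out e g) :
    g.1 ≠ e.1 ∧ g.1 ≠ ((ofSurf S).opp e).1 := by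
  obtain ⟨h1, h2, h3, h4, h5, h6⟩ := h
  constructor
  · intro h
    rcases same_fst S h with h | h | h
    · exact h1 h
    · exact h2 h
    · exact h3 h
  · intro h
    rcases same_fst S h with h | h | h
    · exact h4 h
    · exact h5 h
    · exact h6 h

section rel

variable (h : Rel ((ofSurf S).flip e he) (ofSurf Y) σ)

include h

theorem mY1 (z : ℂ) : z + sp Y (σ ((ofSurf S).next ((ofSurf S).opp e))) ∈ tri (Y.P (σ e).1) ↔
    Kq e z ∧ 0 < dq e z := memY1 h z

theorem mY2 (z : ℂ) : z + (sp Y (σ ((ofSurf S).prev ((ofSurf S).opp e))) -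
      S.vec ((ofSurf S).next ((ofSurf S).opp e))) ∈ tri (Y.P (σ ((ofSurf S).opp e)).1) ↔
    Kq e z ∧ dq e z < 0 := memY2 h z

theorem fstY_b : (σ ((ofSurf S).prev e)).1 = (σ e).1 := by
  have := rel_fst h e
  rwa [(ofSurf S).flipNext_e] at this

theorem fstY_c : (σ ((ofSurf S).next ((ofSurf S).opp e))).1 = (σ e).1 := by
  have := rel_fst h ((ofSurf S).prev e)
  rw [(ofSurf S).flipNext_b] at this
  rw [this, fstY_b h]

theorem fstY_d : (σ ((ofSurf S).prev ((ofSurf S).opp e))).1 = (σ ((ofSurf S).opp e)).1 := by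
  have := rel_fst h ((ofSurf S).opp e)
  rwa [(ofSurf S).flipNext_e'] at this

theorem fstY_a : (σ ((ofSurf S).next e)).1 = (σ ((ofSurf S).opp e)).1 := by
  have := rel_fst h ((ofSurf S).prev ((ofSurf S).opp e))
  rw [(ofSurf S).flipNext_d] at this
  rw [this, fstY_d h]

theorem tr_out0 {g : Fin S.n × Fin 3} (hg : (ofSurf S).Out e g) : tr σ (g.1, 0) = tr σ g := by
  have h0 : ((g.1, (0 : Fin 3)) : Fin S.n × Fin 3).1 = g.1 := rfl
  rcases same_fst S h0 with h1 | h1 | h1
  · rw [h1]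
  · rw [h1, tr_next_out h hg]
  · rw [h1]
    change tr σ ((ofSurf S).next ((ofSurf S).next g)) = _
    rw [tr_next_out h hg.next, tr_next_out h hg]

/-- Values in the triangle of `e`. -/
theorem psi_S1 {z : ℂ} (hz : z + sp S e ∈ tri (S.P e.1)) : psi e σ (z + sp S e) = yq e σ z := by
  rw [psi_of_mem e σ hz]
  unfold tau yq dq
  rw [if_pos rfl, add_sub_cancel_right, tr_b h, tr_a h]
  split_ifs <;> ring

/-- Values in the triangle of `opp e`. -/
theorem psi_S2 {z : ℂ} (hz : z + sp S ((ofSurf S).next ((ofSurf S).opp e)) ∈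
    tri (S.P ((ofSurf S).opp e).1)) :
    psi e σ (z + sp S ((ofSurf S).next ((ofSurf S).opp e))) = yq e σ z := by
  rw [psi_of_mem e σ hz]
  unfold tau yq dq
  rw [if_neg (opp_fst_ne e), if_pos rfl, add_sub_cancel_right, tr_c, tr_d]
  split_ifs <;> ring

theorem psi_out {g : Fin S.n × Fin 3} (hg : (ofSurf S).Out e g) {x : ℂ}
    (hx : x ∈ tri (S.P g.1)) : psi e σ x = x + tr σ g := by
  rw [psi_of_mem e σ hx]
  unfold tau
  obtain ⟨h1, h2⟩ := fst_of_out hg
  rw [if_neg h1, if_neg h2, tr_out0 h hg]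

/-- `psi` on the pieces. -/
theorem psi_Val {g : Fin S.n × Fin 3} {x : ℂ} (hg : Val e σ g x) : psi e σ x = x + tr σ g := by
  obtain ⟨h1, h2, h3, h4⟩ := hg
  rcases (ofSurf S).cases_six e g with ho | rfl | rfl | rfl | rfl | rfl | rfl
  · exact psi_out h ho h3
  · exact absurd rfl h1
  · -- a
    obtain ⟨z, rfl⟩ : ∃ z, x = z + sp S e := ⟨x - sp S e, by ring⟩
    rw [psi_S1 h h3]
    rw [fstY_a h, tr_a h] at h4
    have e1 : z + sp S e + (sp Y (σ ((ofSurf S).prev ((ofSurf S).opp e))) -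
      S.vec ((ofSurf S).next ((ofSurf S).opp e)) - sp S e) =
      z + (sp Y (σ ((ofSurf S).prev ((ofSurf S).opp e))) -
      S.vec ((ofSurf S).next ((ofSurf S).opp e))) := by ring
    rw [e1, mY2 h] at h4
    unfold yq
    rw [if_neg (not_lt.2 h4.2.le), tr_a h]; ring
  · -- b
    obtain ⟨z, rfl⟩ : ∃ z, x = z + sp S e := ⟨x - sp S e, by ring⟩
    rw [psi_S1 h h3]
    rw [fstY_b h, tr_b h] at h4
    have e1 : z + sp S e + (sp Y (σ ((ofSurf S).next ((ofSurf S).opp e))) - sp S e) =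
      z + sp Y (σ ((ofSurf S).next ((ofSurf S).opp e))) := by ring
    rw [e1, mY1 h] at h4
    unfold yq
    rw [if_pos h4.2, tr_b h]; ring
  · exact absurd rfl h2
  · -- c
    obtain ⟨z, rfl⟩ : ∃ z, x = z + sp S ((ofSurf S).next ((ofSurf S).opp e)) :=
      ⟨x - sp S ((ofSurf S).next ((ofSurf S).opp e)), by ring⟩
    rw [psi_S2 h h3]
    rw [fstY_c h, tr_c] at h4
    have e1 : z + sp S ((ofSurf S).next ((ofSurf S).opp e)) +
      (sp Y (σ ((ofSurf S).next ((ofSurf S).opp e))) - sp S ((ofSurf S).next ((ofSurf S).opp e))) =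
      z + sp Y (σ ((ofSurf S).next ((ofSurf S).opp e))) := by ring
    rw [e1, mY1 h] at h4
    unfold yq
    rw [if_pos h4.2, tr_c]; ring
  · -- d
    obtain ⟨z, rfl⟩ : ∃ z, x = z + sp S ((ofSurf S).next ((ofSurf S).opp e)) :=
      ⟨x - sp S ((ofSurf S).next ((ofSurf S).opp e)), by ring⟩
    rw [psi_S2 h h3]
    rw [fstY_d h, tr_d] at h4
    have e1 : z + sp S ((ofSurf S).next ((ofSurf S).opp e)) +
      (sp Y (σ ((ofSurf S).prev ((ofSurf S).opp e))) -
      S.vec ((ofSurf S).next ((ofSurf S).opp e)) - sp S ((ofSurf S).next ((ofSurf S).opp e))) =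
      z + (sp Y (σ ((ofSurf S).prev ((ofSurf S).opp e))) -
      S.vec ((ofSurf S).next ((ofSurf S).opp e))) := by ring
    rw [e1, mY2 h] at h4
    unfold yq
    rw [if_neg (not_lt.2 h4.2.le), tr_d]; ring

/-- A point of the triangle of `e` is good if and only if it is off the new diagonal. -/
theorem GG_S1 {z : ℂ} (hz : z + sp S e ∈ tri (S.P e.1)) : z + sp S e ∈ GG e σ ↔ dq e z ≠ 0 := by
  have hs := (ofSurf S).six e
  have hK : Kq e z := ((memS1 he z).1 hz).1
  constructor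
  · rintro ⟨g, h1, h2, h3, h4⟩
    have hg : g.1 = e.1 := S.tri_unique h3 hz
    rcases same_fst S hg with rfl | rfl | rfl
    · exact absurd rfl h1
    · rw [fstY_a h, tr_a h] at h4
      have e1 : z + sp S e + (sp Y (σ ((ofSurf S).prev ((ofSurf S).opp e))) -
        S.vec ((ofSurf S).next ((ofSurf S).opp e)) - sp S e) =
        z + (sp Y (σ ((ofSurf S).prev ((ofSurf S).opp e))) -
        S.vec ((ofSurf S).next ((ofSurf S).opp e))) := by ring
      rw [e1, mY2 h] at h4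
      exact h4.2.ne
    · rw [fstY_b h, tr_b h] at h4
      have e1 : z + sp S e + (sp Y (σ ((ofSurf S).next ((ofSurf S).opp e))) - sp S e) =
        z + sp Y (σ ((ofSurf S).next ((ofSurf S).opp e))) := by ring
      rw [e1, mY1 h] at h4
      exact h4.2.ne'
  · intro hd
    rcases lt_or_gt_of_ne hd with hd | hd
    · refine ⟨(ofSurf S).next e, hs.2.1, Ne.symm hs.2.2.2.2.1, hz, ?_⟩
      rw [fstY_a h, tr_a h]
      have e1 : z + sp S e + (sp Y (σ ((ofSurf S).prev ((ofSurf S).opp e))) -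
        S.vec ((ofSurf S).next ((ofSurf S).opp e)) - sp S e) =
        z + (sp Y (σ ((ofSurf S).prev ((ofSurf S).opp e))) -
        S.vec ((ofSurf S).next ((ofSurf S).opp e))) := by ring
      rw [e1, mY2 h]
      exact ⟨hK, hd⟩
    · refine ⟨(ofSurf S).prev e, hs.1, Ne.symm hs.2.2.2.2.2.1, hz, ?_⟩
      rw [fstY_b h, tr_b h]
      have e1 : z + sp S e + (sp Y (σ ((ofSurf S).next ((ofSurf S).opp e))) - sp S e) =
        z + sp Y (σ ((ofSurf S).next ((ofSurf S).opp e))) := by ring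
      rw [e1, mY1 h]
      exact ⟨hK, hd⟩

/-- A point of the triangle of `opp e` is good if and only if it is off the new diagonal. -/
theorem GG_S2 {z : ℂ} (hz : z + sp S ((ofSurf S).next ((ofSurf S).opp e)) ∈
    tri (S.P ((ofSurf S).opp e).1)) :
    z + sp S ((ofSurf S).next ((ofSurf S).opp e)) ∈ GG e σ ↔ dq e z ≠ 0 := by
  have hs := (ofSurf S).six e
  have hK : Kq e z := ((memS2 he z).1 hz).1
  constructor
  · rintro ⟨g, h1, h2, h3, h4⟩
    have hg : g.1 = ((ofSurf S).opp e).1 := S.tri_unique h3 hz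
    rcases same_fst S hg with rfl | rfl | rfl
    · exact absurd rfl h2
    · rw [fstY_c h, tr_c] at h4
      have e1 : z + sp S ((ofSurf S).next ((ofSurf S).opp e)) +
        (sp Y (σ ((ofSurf S).next ((ofSurf S).opp e))) - sp S ((ofSurf S).next ((ofSurf S).opp e))) =
        z + sp Y (σ ((ofSurf S).next ((ofSurf S).opp e))) := by ring
      rw [e1, mY1 h] at h4
      exact h4.2.ne'
    · rw [fstY_d h, tr_d] at h4
      have e1 : z + sp S ((ofSurf S).next ((ofSurf S).opp e)) +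
        (sp Y (σ ((ofSurf S).prev ((ofSurf S).opp e))) -
        S.vec ((ofSurf S).next ((ofSurf S).opp e)) - sp S ((ofSurf S).next ((ofSurf S).opp e))) =
        z + (sp Y (σ ((ofSurf S).prev ((ofSurf S).opp e))) -
        S.vec ((ofSurf S).next ((ofSurf S).opp e))) := by ring
      rw [e1, mY2 h] at h4
      exact h4.2.ne
  · intro hd
    rcases lt_or_gt_of_ne hd with hd | hd
    · refine ⟨(ofSurf S).prev ((ofSurf S).opp e), hs.2.2.2.2.2.2.2.2.2.2.1,
        hs.2.2.2.2.2.2.2.2.2.2.2.2.2.1, hz, ?_⟩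
      rw [fstY_d h, tr_d]
      have e1 : z + sp S ((ofSurf S).next ((ofSurf S).opp e)) +
        (sp Y (σ ((ofSurf S).prev ((ofSurf S).opp e))) -
        S.vec ((ofSurf S).next ((ofSurf S).opp e)) - sp S ((ofSurf S).next ((ofSurf S).opp e))) =
        z + (sp Y (σ ((ofSurf S).prev ((ofSurf S).opp e))) -
        S.vec ((ofSurf S).next ((ofSurf S).opp e))) := by ring
      rw [e1, mY2 h]
      exact ⟨hK, hd⟩
    · refine ⟨(ofSurf S).next ((ofSurf S).opp e), hs.2.2.2.2.2.2.1,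
        hs.2.2.2.2.2.2.2.2.2.1, hz, ?_⟩
      rw [fstY_c h, tr_c]
      have e1 : z + sp S ((ofSurf S).next ((ofSurf S).opp e)) +
        (sp Y (σ ((ofSurf S).next ((ofSurf S).opp e))) - sp S ((ofSurf S).next ((ofSurf S).opp e))) =
        z + sp Y (σ ((ofSurf S).next ((ofSurf S).opp e))) := by ring
      rw [e1, mY1 h]
      exact ⟨hK, hd⟩

theorem yq_mem {z : ℂ} (hK : Kq e z) (hd : dq e z ≠ 0) : yq e σ z ∈ Y.D := by
  unfold yq
  rcases lt_or_gt_of_ne hd with hd | hd
  · rw [if_neg (not_lt.2 hd.le)]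
    exact mem_iUnion.2 ⟨_, (mY2 h z).2 ⟨hK, hd⟩⟩
  · rw [if_pos hd]
    exact mem_iUnion.2 ⟨_, (mY1 h z).2 ⟨hK, hd⟩⟩

omit h in
/-- The open quadrilateral is convex. -/
theorem Kq_convex {z w : ℂ} {s : ℝ} (hz : Kq e z) (hw : Kq e (z + w)) (h0 : 0 ≤ s) (h1 : s ≤ 1) :
    Kq e (z + s * w) := by
  have key : ∀ u p : ℂ, 0 < cr u (z - p) → 0 < cr u (z + w - p) → 0 < cr u (z + s * w - p) := by
    intro u p k1 k2
    have e1 : cr u (z + s * w - p) = (1 - s) * cr u (z - p) + s * cr u (z + w - p) := by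
      simp only [cr, Complex.add_re, Complex.add_im, Complex.sub_re, Complex.sub_im,
        Complex.re_ofReal_mul, Complex.im_ofReal_mul]
      ring
    rw [e1]
    rcases h0.lt_or_eq with h0 | h0
    · have := mul_pos h0 k2
      have : 0 ≤ (1 - s) * cr u (z - p) := mul_nonneg (by linarith) k1.le
      linarith
    · rw [← h0]; simpa using k1
  have key0 : ∀ u : ℂ, 0 < cr u z → 0 < cr u (z + w) → 0 < cr u (z + s * w) := by
    intro u k1 k2
    have := key u 0 (by simpa using k1) (by simpa using k2)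
    simpa using this
  exact ⟨key _ _ hz.a hw.a, key0 _ hz.b hw.b, key0 _ hz.c hw.c, key _ _ hz.d hw.d⟩

omit h in
theorem dq_line (z w : ℂ) (s : ℝ) : dq e (z + s * w) = dq e z + s * (dq e (z + w) - dq e z) := by
  unfold dq
  simp only [cr, Complex.add_re, Complex.add_im, Complex.sub_re, Complex.sub_im,
    Complex.re_ofReal_mul, Complex.im_ofReal_mul]
  ring

/-- A point of the quadrilateral on the new diagonal is an interior point of the edge `σ e`. -/
theorem yq_edge {z : ℂ} (hK : Kq e z) (hd : dq e z = 0) :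
    z + sp Y (σ ((ofSurf S).next ((ofSurf S).opp e))) ∈
      openSegment ℝ (Y.P (σ e).1 (σ e).2) (Y.P (σ e).1 ((σ e).2 + 1)) := by
  have hs := (ofSurf S).six e
  rw [mem_edge_dart]
  have e1 : (ofSurf Y).next (σ e) = σ ((ofSurf S).prev e) := by
    rw [rel_next h, (ofSurf S).flipNext_e]
  have e2 : (ofSurf Y).prev (σ e) = σ ((ofSurf S).next ((ofSurf S).opp e)) := by
    change (ofSurf Y).next ((ofSurf Y).next (σ e)) = _
    rw [e1, rel_next h, (ofSurf S).flipNext_b]
  rw [e1, e2, ell_sp, ell_sp, ell_sp, rel_vec h, rel_vec_ne h hs.1 (Ne.symm hs.2.2.2.2.2.1),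
    rel_vec_ne h hs.2.2.2.2.2.2.1 hs.2.2.2.2.2.2.2.2.2.1, (ofSurf S).flipVec_e]
  have f1 : z + sp Y (σ ((ofSurf S).next ((ofSurf S).opp e))) - sp Y (σ e) =
      z - S.vec ((ofSurf S).next ((ofSurf S).opp e)) := by
    rw [spY_e h]; ring
  have f2 : z + sp Y (σ ((ofSurf S).next ((ofSurf S).opp e))) - sp Y (σ ((ofSurf S).prev e)) =
      z + S.vec ((ofSurf S).prev e) := by
    rw [spY_c h]; ring
  have f3 : z + sp Y (σ ((ofSurf S).next ((ofSurf S).opp e))) -
      sp Y (σ ((ofSurf S).next ((ofSurf S).opp e))) = z := by ring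
  rw [f1, f2, f3, cr_add_right, cr_self, add_zero]
  exact ⟨hd, hK.b, hK.c⟩

/-- Movement inside the quadrilateral from the new triangle of `e` to the one of `opp e`. -/
theorem hop_diag {z w : ℂ} (hz : Kq e z) (hw : Kq e (z + w)) (h1 : 0 < dq e z)
    (h2 : dq e (z + w) < 0) : Y.Hop w (yq e σ z) (yq e σ (z + w)) := by
  obtain ⟨s, hs0, hs1, hs⟩ := exists_ell_pos_div h1 h2
  have hzs : Kq e (z + s * w) := Kq_convex hz hw hs0.le hs1.le
  have hds : dq e (z + s * w) = 0 := by rw [dq_line]; exact hs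
  have hm1 : yq e σ z = z + sp Y (σ ((ofSurf S).next ((ofSurf S).opp e))) := by
    unfold yq; rw [if_pos h1]
  have hm2 : yq e σ (z + w) = z + w + (sp Y (σ ((ofSurf S).prev ((ofSurf S).opp e))) -
      S.vec ((ofSurf S).next ((ofSurf S).opp e))) := by
    unfold yq; rw [if_neg (not_lt.2 h2.le)]
  rw [hm1, hm2]
  refine hop_cross Y (σ e) (s := s) ((mY1 h z).2 ⟨hz, h1⟩) ?_ ?_ hs0 hs1 ?_
  · rw [rel_opp h]
    exact (mY2 h (z + w)).2 ⟨hw, h2⟩
  · rw [shift_sp, rel_opp h, rel_vec h, (ofSurf S).flipVec_e, spY_e h, spY_d h]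
    change _ = _ + (sp Y (σ ((ofSurf S).opp e)) - (_ + (S.vec _ + S.vec _)))
    ring
  · have := yq_edge h hzs hds
    have e1 : z + (s : ℂ) * w + sp Y (σ ((ofSurf S).next ((ofSurf S).opp e))) =
      z + sp Y (σ ((ofSurf S).next ((ofSurf S).opp e))) + (s : ℂ) * w := by ring
    rw [e1] at this
    exact this

/-- Movement inside the quadrilateral. -/
theorem hop_quad {z w : ℂ} (hz : Kq e z) (hw : Kq e (z + w)) (h1 : dq e z ≠ 0)
    (h2 : dq e (z + w) ≠ 0) : Y.Hop w (yq e σ z) (yq e σ (z + w)) := by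
  rcases lt_or_gt_of_ne h1 with h1 | h1 <;> rcases lt_or_gt_of_ne h2 with h2 | h2
  · have hm1 : yq e σ z = z + (sp Y (σ ((ofSurf S).prev ((ofSurf S).opp e))) -
      S.vec ((ofSurf S).next ((ofSurf S).opp e))) := by
      unfold yq; rw [if_neg (not_lt.2 h1.le)]
    have hm2 : yq e σ (z + w) = z + w + (sp Y (σ ((ofSurf S).prev ((ofSurf S).opp e))) -
        S.vec ((ofSurf S).next ((ofSurf S).opp e))) := by
      unfold yq; rw [if_neg (not_lt.2 h2.le)]
    have k1 := (mY2 h z).2 ⟨hz, h1⟩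
    have k2 := (mY2 h (z + w)).2 ⟨hw, h2⟩
    rw [hm1, hm2]
    have e1 : z + w + (sp Y (σ ((ofSurf S).prev ((ofSurf S).opp e))) -
        S.vec ((ofSurf S).next ((ofSurf S).opp e))) =
        z + (sp Y (σ ((ofSurf S).prev ((ofSurf S).opp e))) -
      S.vec ((ofSurf S).next ((ofSurf S).opp e))) + w := by ring
    rw [e1] at k2 ⊢
    exact Y.hop_inside k1 k2
  · have := hop_diag h (z := z + w) (w := -w) hw (by rw [add_neg_cancel_right]; exact hz) h2
      (by rw [add_neg_cancel_right]; exact h1)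
    rw [add_neg_cancel_right] at this
    have h3 := this.symm
    rwa [neg_neg] at h3
  · exact hop_diag h hz hw h1 h2
  · have hm1 : yq e σ z = z + sp Y (σ ((ofSurf S).next ((ofSurf S).opp e))) := by
      unfold yq; rw [if_pos h1]
    have hm2 : yq e σ (z + w) = z + w + sp Y (σ ((ofSurf S).next ((ofSurf S).opp e))) := by
      unfold yq; rw [if_pos h2]
    have k1 := (mY1 h z).2 ⟨hz, h1⟩
    have k2 := (mY1 h (z + w)).2 ⟨hw, h2⟩
    rw [hm1, hm2]
    have e1 : z + w + sp Y (σ ((ofSurf S).next ((ofSurf S).opp e))) =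
      z + sp Y (σ ((ofSurf S).next ((ofSurf S).opp e))) + w := by ring
    rw [e1] at k2 ⊢
    exact Y.hop_inside k1 k2

/-- Movement between two good points of one triangle. -/
theorem hop_same {i : Fin S.n} {x w : ℂ} (hx : x ∈ tri (S.P i)) (hy : x + w ∈ tri (S.P i))
    (gx : x ∈ GG e σ) (gy : x + w ∈ GG e σ) : Y.Hop w (psi e σ x) (psi e σ (x + w)) := by
  by_cases h1 : i = e.1
  · subst h1
    obtain ⟨z, rfl⟩ : ∃ z, x = z + sp S e := ⟨x - sp S e, by ring⟩
    have e1 : z + sp S e + w = z + w + sp S e := by ring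
    rw [e1] at hy gy ⊢
    rw [psi_S1 h hx, psi_S1 h hy]
    exact hop_quad h ((memS1 he z).1 hx).1 ((memS1 he (z + w)).1 hy).1 ((GG_S1 h hx).1 gx)
      ((GG_S1 h hy).1 gy)
  by_cases h2 : i = ((ofSurf S).opp e).1
  · subst h2
    obtain ⟨z, rfl⟩ : ∃ z, x = z + sp S ((ofSurf S).next ((ofSurf S).opp e)) :=
      ⟨x - sp S ((ofSurf S).next ((ofSurf S).opp e)), by ring⟩
    have e1 : z + sp S ((ofSurf S).next ((ofSurf S).opp e)) + w =
      z + w + sp S ((ofSurf S).next ((ofSurf S).opp e)) := by ring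
    rw [e1] at hy gy ⊢
    rw [psi_S2 h hx, psi_S2 h hy]
    exact hop_quad h ((memS2 he z).1 hx).1 ((memS2 he (z + w)).1 hy).1 ((GG_S2 h hx).1 gx)
      ((GG_S2 h hy).1 gy)
  have ho : (ofSurf S).Out e (i, 0) := out_of_fst h1 h2
  have k1 := memY_out h ho hx
  have k2 := memY_out h ho hy
  rw [psi_out h ho hx, psi_out h ho hy]
  have e1 : x + w + tr σ (i, 0) = x + tr σ (i, 0) + w := by ring
  rw [e1] at k2 ⊢
  exact Y.hop_inside k1 k2

end rel

end

end FL87

end Pool.Agent.Helper72.TF
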