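import Pool.Agent.Helper72.TF.Core

/-! Connectedness in terms of triangles. -/

set_option autoImplicit false

open MeasureTheory Set Pool.Agent.Helper87.LS Pool.Agent.Helper79.G

namespace Pool.Agent.Helper72.TF

theorem connected_of (S : Surf)
    (hS : ∀ s : Set (Fin S.n), s.Nonempty → (∀ i ∈ s, ∀ k : Fin 3, (S.glue (i, k)).1 ∈ s) →
      s = Set.univ) : Connected S := by
  intro s hs hcl
  have hrot : ∀ i : Fin S.n, ∀ k l : Fin 3, (i, k) ∈ s → (i, l) ∈ s := by
    intro i k l h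
    have h1 : (i, k + 1) ∈ s := (hcl _ h).1
    have h2 : (i, k + 1 + 1) ∈ s := (hcl _ h1).1
    have h3 : ∀ k l : Fin 3, l = k ∨ l = k + 1 ∨ l = k + 1 + 1 := by decide
    rcases h3 k l with rfl | rfl | rfl
    · exact h
    · exact h1
    · exact h2
  have h0 : {i : Fin S.n | (i, 0) ∈ s} = Set.univ := by
    refine hS _ ?_ ?_
    · obtain ⟨⟨i, k⟩, h⟩ := hs
      exact ⟨i, hrot i k 0 h⟩
    · intro i hi k
      have h1 : (i, k) ∈ s := hrot i 0 k hi
      have h2 : S.glue (i, k) ∈ s := (hcl _ h1).2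
      exact hrot _ _ 0 h2
  ext ⟨i, k⟩
  simp only [mem_univ, iff_true]
  have : i ∈ {i : Fin S.n | (i, 0) ∈ s} := by rw [h0]; exact mem_univ _
  exact hrot i 0 k this

end Pool.Agent.Helper72.TF
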