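import Pool.Agent.Helper72.TF.BE5

/-!
# Assembly: modules I and L contradict each other (Fubini)
-/

set_option autoImplicit false

open MeasureTheory Set Pool.Agent.Helper87.LS Pool.Agent.Helper79.G

namespace Pool.Agent.Helper72.TF

noncomputable section

/-- The frequency class at the slope `u`. -/
def fr (ξ u : ℝ) : ℝ := ξ / (2 * Real.pi) * Real.sqrt (1 + u ^ 2)

theorem continuous_fr : Continuous fun p : ℝ × ℝ => fr p.1 p.2 := by
  unfold fr; fun_prop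

/-- The relevant set in the plane of `(ξ, u)`. -/
def CS (S : Surf) (s δ b₁ b₂ a b : ℝ) : Set (ℝ × ℝ) :=
  {p | p.1 ∈ Icc b₁ b₂ ∧ p.2 ∈ Icc a b ∧ Close S s p.2 (fr p.1 p.2) δ}

theorem measurableSet_CS (S : Surf) (s δ b₁ b₂ a b : ℝ) :
    MeasurableSet (CS S s δ b₁ b₂ a b) := by
  have h1 : MeasurableSet {p : ℝ × ℝ | Close S s p.2 (fr p.1 p.2) δ} := by
    have h2 := isOpen_close S s δ
    have h3 : Continuous fun p : ℝ × ℝ => ((fr p.1 p.2, p.2) : ℝ × ℝ) :=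
      continuous_fr.prodMk continuous_snd
    exact (h2.preimage h3).measurableSet
  have h4 : MeasurableSet {p : ℝ × ℝ | p.1 ∈ Icc b₁ b₂} := measurable_fst measurableSet_Icc
  have h5 : MeasurableSet {p : ℝ × ℝ | p.2 ∈ Icc a b} := measurable_snd measurableSet_Icc
  exact h4.inter (h5.inter h1)

theorem contra (S : Surf) {c₁ b₁ b₂ M U : ℝ} (hc : 0 < c₁)
    (hI : ∀ δ : ℝ, 0 < δ →
      ∃ σ : Measure ℝ, σ univ ≤ ENNReal.ofReal M ∧ ∃ a b : ℝ, -U ≤ a ∧ a < b ∧ b ≤ U ∧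
        ∀ N : ℝ, ∃ s : ℝ, N ≤ s ∧ ENNReal.ofReal (8 / 10 * (b - a)) ≤
          volume {u ∈ Icc a b | ENNReal.ofReal c₁ ≤
            σ {ξ ∈ Icc b₁ b₂ | Close S s u (fr ξ u) δ}})
    (hL : ∃ C c : ℝ, 0 < C ∧ 0 < c ∧ ∀ δ : ℝ, 0 < δ → δ < 1 → ∀ a b : ℝ, -U ≤ a → a < b → b ≤ U →
      ∀ ξ ∈ Icc b₁ b₂, ∃ s₀ : ℝ, ∀ s : ℝ, s₀ ≤ s →
        volume {u ∈ Icc a b | Close S s u (fr ξ u) δ} ≤
          ENNReal.ofReal (C * δ ^ c * (b - a))) : False := by
  obtain ⟨C, c, hC, hcc, hL⟩ := hL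
  -- choice of δ
  obtain ⟨δ, hδ, hδ1, hδc⟩ : ∃ δ : ℝ, 0 < δ ∧ δ < 1 ∧ |M| * (C * δ ^ c) ≤ c₁ / 10 := by
    have hcont : Filter.Tendsto (fun δ : ℝ => |M| * (C * δ ^ c)) (nhdsWithin 0 (Ioi 0)) (nhds 0) := by
      have h1 : ContinuousAt (fun δ : ℝ => |M| * (C * δ ^ c)) 0 := by
        have := Real.continuousAt_rpow_const 0 c (Or.inr hcc.le)
        exact continuousAt_const.mul (continuousAt_const.mul this)
      have h2 : |M| * (C * (0 : ℝ) ^ c) = 0 := by rw [Real.zero_rpow hcc.ne']; ring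
      have h3 := h1.tendsto
      rw [h2] at h3
      exact h3.mono_left nhdsWithin_le_nhds
    have h4 : ∀ᶠ δ in nhdsWithin (0 : ℝ) (Ioi 0), |M| * (C * δ ^ c) < c₁ / 10 :=
      hcont.eventually (gt_mem_nhds (by positivity))
    have h5 : ∀ᶠ δ in nhdsWithin (0 : ℝ) (Ioi 0), δ ∈ Ioo (0 : ℝ) 1 :=
      Ioo_mem_nhdsGT one_pos
    obtain ⟨δ, h6, h7⟩ := (h4.and h5).exists
    exact ⟨δ, h7.1, h7.2, h6.le⟩
  obtain ⟨σ, hσ, a, b, hUa, hab, hbU, hs⟩ := hI δ hδ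
  have hfin : IsFiniteMeasure σ := ⟨hσ.trans_lt ENNReal.ofReal_lt_top⟩
  choose sq hsq1 hsq2 using hs
  have hba : 0 < b - a := sub_pos.2 hab
  -- section functions
  let R : ℝ → ℝ → ENNReal := fun s ξ => volume (Prod.mk ξ ⁻¹' CS S s δ b₁ b₂ a b)
  have hRle : ∀ s ξ, R s ξ ≤ ENNReal.ofReal (b - a) := by
    intro s ξ
    calc R s ξ ≤ volume (Icc a b) := measure_mono (fun u hu => hu.2.1)
      _ = ENNReal.ofReal (b - a) := Real.volume_Icc
  have hRmeas : ∀ s, Measurable (R s) := fun s =>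
    measurable_measure_prodMk_left (measurableSet_CS S s δ b₁ b₂ a b)
  have hReq : ∀ s, ∀ ξ ∈ Icc b₁ b₂, R s ξ = volume {u ∈ Icc a b | Close S s u (fr ξ u) δ} := by
    intro s ξ hξ
    refine congrArg volume ?_
    ext u
    exact ⟨fun h => ⟨h.2.1, h.2.2⟩, fun h => ⟨hξ, h.1, h.2⟩⟩
  have hRzero : ∀ s, ∀ ξ ∉ Icc b₁ b₂, R s ξ = 0 := by
    intro s ξ hξ
    have : Prod.mk ξ ⁻¹' CS S s δ b₁ b₂ a b = ∅ := by
      rw [eq_empty_iff_forall_notMem]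
      exact fun u h => hξ h.1
    change volume (Prod.mk ξ ⁻¹' CS S s δ b₁ b₂ a b) = 0
    rw [this, measure_empty]
  -- Tonelli
  have hTon : ∀ s, ENNReal.ofReal c₁ * volume {u ∈ Icc a b | ENNReal.ofReal c₁ ≤
      σ {ξ ∈ Icc b₁ b₂ | Close S s u (fr ξ u) δ}} ≤ ∫⁻ ξ in Icc b₁ b₂, R s ξ ∂σ := by
    intro s
    have hm := measurableSet_CS S s δ b₁ b₂ a b
    have e1 : ∫⁻ ξ in Icc b₁ b₂, R s ξ ∂σ = (σ.prod volume) (CS S s δ b₁ b₂ a b) := by
      rw [Measure.prod_apply hm, ← lintegral_indicator measurableSet_Icc]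
      refine lintegral_congr fun ξ => ?_
      by_cases hξ : ξ ∈ Icc b₁ b₂
      · rw [indicator_of_mem hξ]
      · rw [indicator_of_notMem hξ]
        exact (hRzero s ξ hξ).symm
    have e2 : (σ.prod volume) (CS S s δ b₁ b₂ a b)
        = ∫⁻ u, σ ((fun ξ => (ξ, u)) ⁻¹' CS S s δ b₁ b₂ a b) :=
      Measure.prod_apply_symm hm
    have hmeas : Measurable fun u => σ ((fun ξ => (ξ, u)) ⁻¹' CS S s δ b₁ b₂ a b) :=
      measurable_measure_prodMk_right hm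
    rw [e1, e2]
    calc ENNReal.ofReal c₁ * volume {u ∈ Icc a b | ENNReal.ofReal c₁ ≤
          σ {ξ ∈ Icc b₁ b₂ | Close S s u (fr ξ u) δ}}
        ≤ ENNReal.ofReal c₁ * volume {u | ENNReal.ofReal c₁ ≤
            σ ((fun ξ => (ξ, u)) ⁻¹' CS S s δ b₁ b₂ a b)} := by
          refine mul_le_mul_right (measure_mono fun u hu => ?_) _
          refine hu.2.trans (measure_mono fun ξ hξ => ?_)
          exact ⟨hξ.1, hu.1, hξ.2⟩
      _ ≤ ∫⁻ u, σ ((fun ξ => (ξ, u)) ⁻¹' CS S s δ b₁ b₂ a b) :=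
          mul_meas_ge_le_lintegral hmeas _
  -- good sets
  have hlim : ∀ᵐ ξ ∂(σ.restrict (Icc b₁ b₂)),
      Filter.limsup (fun k : ℕ => R (sq k) ξ) Filter.atTop ≤ ENNReal.ofReal (C * δ ^ c * (b - a)) := by
    rw [ae_restrict_iff' measurableSet_Icc]
    refine Filter.Eventually.of_forall fun ξ hξ => ?_
    obtain ⟨s₀, hs₀⟩ := hL δ hδ hδ1 a b hUa hab hbU ξ hξ
    refine Filter.limsup_le_of_le (by isBoundedDefault) ?_
    filter_upwards [Filter.eventually_ge_atTop ⌈s₀⌉₊] with k hk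
    rw [hReq _ ξ hξ]
    apply hs₀
    have h1 : s₀ ≤ (⌈s₀⌉₊ : ℝ) := Nat.le_ceil _
    have h2 : ((⌈s₀⌉₊ : ℕ) : ℝ) ≤ (k : ℝ) := by exact_mod_cast hk
    exact h1.trans (h2.trans (hsq1 k))
  have hFatou : Filter.limsup (fun k : ℕ => ∫⁻ ξ in Icc b₁ b₂, R (sq k) ξ ∂σ) Filter.atTop ≤
      ∫⁻ ξ in Icc b₁ b₂, Filter.limsup (fun k : ℕ => R (sq k) ξ) Filter.atTop ∂σ := by
    refine limsup_lintegral_le (fun _ => ENNReal.ofReal (b - a)) (fun k => hRmeas _) ?_ ?_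
    · exact fun k => Filter.Eventually.of_forall fun ξ => hRle _ ξ
    · rw [setLIntegral_const]
      exact (ENNReal.mul_lt_top ENNReal.ofReal_lt_top (measure_lt_top _ _)).ne
  have hup : ∫⁻ ξ in Icc b₁ b₂, Filter.limsup (fun k : ℕ => R (sq k) ξ) Filter.atTop ∂σ ≤
      ENNReal.ofReal (C * δ ^ c * (b - a)) * ENNReal.ofReal M := by
    calc ∫⁻ ξ in Icc b₁ b₂, Filter.limsup (fun k : ℕ => R (sq k) ξ) Filter.atTop ∂σ
        ≤ ∫⁻ _ in Icc b₁ b₂, ENNReal.ofReal (C * δ ^ c * (b - a)) ∂σ := lintegral_mono_ae hlim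
      _ = ENNReal.ofReal (C * δ ^ c * (b - a)) * σ (Icc b₁ b₂) := by
          rw [setLIntegral_const]
      _ ≤ _ := by gcongr; exact (measure_mono (subset_univ _)).trans hσ
  have hlow : ENNReal.ofReal (c₁ * (8 / 10 * (b - a))) ≤
      Filter.limsup (fun k : ℕ => ∫⁻ ξ in Icc b₁ b₂, R (sq k) ξ ∂σ) Filter.atTop := by
    refine Filter.le_limsup_of_frequently_le ?_ (by isBoundedDefault)
    refine Filter.Eventually.frequently (Filter.Eventually.of_forall fun k => ?_)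
    refine le_trans ?_ (hTon (sq k))
    rw [ENNReal.ofReal_mul hc.le]
    gcongr
    exact hsq2 k
  have hfinal := hlow.trans (hFatou.trans hup)
  rw [← ENNReal.ofReal_mul (by positivity)] at hfinal
  have h1 : C * δ ^ c * (b - a) * M ≤ c₁ / 10 * (b - a) := by
    have : C * δ ^ c * M ≤ c₁ / 10 := by
      calc C * δ ^ c * M ≤ C * δ ^ c * |M| := by
            gcongr
            exact le_abs_self M
        _ = |M| * (C * δ ^ c) := by ring
        _ ≤ c₁ / 10 := hδc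
    nlinarith
  have h2 := hfinal.trans (ENNReal.ofReal_le_ofReal h1)
  rw [ENNReal.ofReal_le_ofReal_iff (by positivity)] at h2
  nlinarith

end

end Pool.Agent.Helper72.TF
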