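import Pool.Agent.Helper79.G.NonDiv
import Pool.Agent.Helper79.G.InsX
import Pool.Agent.Helper86.TF.Assem
import Pool.Agent.Helper58.TF.Tame

/-!
# The inputs of the tail and large deviation estimates

The field `kms` of `Inputs` from the nondivergence theorem `kms_tri` of module G.
-/

set_option autoImplicit false

open MeasureTheory Set Pool.Agent.Helper87.LS Pool.Agent.Helper79.G

namespace Pool.Agent.Helper72.TF

open Pool.Agent.Helper86.TF in
theorem kms_input {H : Type} [Fintype H] [Nonempty H] (area : ℝ) (ha : 0 < area) :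
    ∃ C α ρ : ℝ, 0 < C ∧ 0 < α ∧ 0 < ρ ∧ ∀ Y : Tri H, Y.Conn → Y.area = area →
      ∀ t r : ℝ, 0 ≤ t → 0 < r →
        volume {w : ℝ | |w| ≤ 1 ∧ sys (lev Y t w) ≤ r} ≤
          ENNReal.ofReal (C * (r / min ρ (sys Y * Real.exp t)) ^ α) := by
  obtain ⟨C, α, hC, hα, h⟩ := kms_tri (H := H) (fun X => insertionX H X) area ha
  have hcard : (0 : ℝ) < Fintype.card H := by exact_mod_cast Fintype.card_pos
  have hρ : 0 < Real.sqrt (area / Fintype.card H) := Real.sqrt_pos.2 (div_pos ha hcard)
  refine ⟨C * 2 ^ α, α, Real.sqrt (area / Fintype.card H), by positivity, hα, hρ, ?_⟩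
  intro Y hY hYa t r ht hr
  have hsys : 0 < sys Y := Pool.Agent.Helper58.TF.sys_pos Y
  have hm : 0 < min (Real.sqrt (area / Fintype.card H)) (sys Y * Real.exp t) :=
    lt_min hρ (mul_pos hsys (Real.exp_pos _))
  have h0 : ∀ z : ℂ, ‖gsu 0 0 z‖ = ‖z‖ := by
    intro z
    congr 1
    apply Complex.ext
    · rw [gsu_re]; simp
    · rw [gsu_im]; simp
  have h1 := h Y hY hYa 0 0 t (sys Y) ht hsys (fun T' hT' g => by
    rw [h0]; exact sys_le hT' g) (2 * r) (by positivity)
  have h2 : (2 * r / min (Real.sqrt (area / Fintype.card H)) (sys Y * Real.exp t)) ^ α =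
      2 ^ α * (r / min (Real.sqrt (area / Fintype.card H)) (sys Y * Real.exp t)) ^ α := by
    rw [mul_div_assoc, Real.mul_rpow (by norm_num) (by positivity)]
  refine le_trans (measure_mono ?_) (h1.trans (le_of_eq ?_))
  · rintro w ⟨hw, hw'⟩
    refine ⟨by simpa using hw, ?_⟩
    have h3 : sys (lev Y t w) < 2 * r := by linarith
    rw [sys_lt_iff] at h3
    obtain ⟨T', g, h4, h5⟩ := h3
    obtain ⟨T'', h6, rfl⟩ := reach_act' _ _ h4
    refine ⟨T'', h6, g, ?_⟩
    rw [zero_add]
    exact le_of_lt h5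
  · rw [h2]
    congr 1
    simp only [mul_zero, Real.exp_zero, mul_one]
    ring

end Pool.Agent.Helper72.TF
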