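import Pool.Agent.Helper72.TF.KmsIn
import Pool.Agent.Helper72.TF.Fin
import Pool.Agent.Helper72.TF.ConnS
import Pool.Agent.Helper19.TF.Glue
import Pool.Agent.Helper58.TF.Cyl
import Pool.Agent.Helper35.E98.ModL
import Pool.Agent.Helper21.H3.Main
import Pool.Agent.Helper49.H4.Per

/-!
# MP_e98778: the theorem for every connected translation surface

Assembly of the modules: the estimates for the tame surfaces (module G), the Hodge norm (module H),
the ergodic part (module I) and the lattices (module L).
-/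

set_option autoImplicit false

open MeasureTheory Set Pool.Agent.Helper87.LS Pool.Agent.Helper79.G

namespace Pool.Agent.Helper72.TF

theorem inputs (S : Surf) (hS : Connected S) [Nonempty (Fin S.n × Fin 3)] :
    Pool.Agent.Helper86.TF.Inputs S :=
  ⟨kms_input _ (area_pos _), Pool.Agent.Helper58.TF.pos_input S, Pool.Agent.Helper58.TF.tame_input S hS⟩

theorem main (S : Surf) (hS : Connected S) (θ₀ : ℝ) : volume {θ : ℝ | S.FlowIso θ θ₀} = 0 := by
  by_contra h
  have hn : Nonempty (Fin S.n × Fin 3) := ⟨(⟨0, S.pos⟩, 0)⟩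
  have I := inputs S hS
  have htail := Pool.Agent.Helper86.TF.tail_of_inputs I hS
  have hld := Pool.Agent.Helper86.TF.ld_of_inputs I hS
  obtain ⟨c₁, b₁, b₂, M, U, hc₁, hb₁, -, -, hI⟩ :=
    Pool.Agent.TF.I.mod_I S htail (Pool.Agent.Helper58.TF.cyl_all S.n) θ₀ h
  exact contra S hc₁ hI
    (Pool.Agent.Helper35.E98.mod_L_of_modules S htail hld Pool.Agent.Helper21.H3.gap
      Pool.Agent.Helper49.H4.periods_le b₁ b₂ U hb₁)

end Pool.Agent.Helper72.TF
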