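import Pool.Agent.Helper72.TF.Core

/-!
# MP_e98778_an (full): skeleton. The theorems through which the modules talk to each other.

Everything is for a fixed connected surface `S`; constants may depend on `S` (in particular on the
number of triangles and on the area), on `U` (bound for the slopes) and on `b1, b2` (frequency band),
never on the arc `[a, b]`.  Arcs: all statements hold for levels `s ≥ s₀`, `s₀` may depend on the arc.
-/

set_option autoImplicit false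

open MeasureTheory Set Pool.Agent.Helper87.LS Pool.Agent.Helper79.G

namespace Pool.Agent.Helper72.TF

noncomputable section

/-! ### Module G (helper79, helper86, helper58) -/

/-- TAIL: the surface `g_{s,u} S` is `K`-tame except for a proportion `C K^{-β}` of the slopes. -/
theorem tail (S : Surf) (hS : Connected S) : ∃ C β : ℝ, 0 < C ∧ 0 < β ∧ ∀ a b : ℝ, a < b →
    ∃ s₀ : ℝ, ∀ s K : ℝ, s₀ ≤ s → 1 ≤ K →
      volume ({u | ¬ TameAt S K s u} ∩ Icc a b) ≤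
        ENNReal.ofReal (C * K ^ (-β) * (b - a)) := by
  sorry

/-- LD: at least the proportion `ε₁` of the levels `s, s + 1, ..., s + t` is `K`-tame, except for a
proportion `C e^{-c t}` of the slopes. -/
theorem ld (S : Surf) (hS : Connected S) : ∃ K ε₁ C c : ℝ, 1 ≤ K ∧ 0 < ε₁ ∧ 0 < C ∧ 0 < c ∧
    ∀ a b : ℝ, a < b → ∃ s₀ : ℝ, ∀ s : ℝ, s₀ ≤ s → ∀ N : ℕ,
      volume ({u | ({j : ℕ | j < N ∧ TameAt S K (s + j) u}.ncard : ℝ) < ε₁ * N} ∩ Icc a b) ≤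
        ENNReal.ofReal (C * Real.exp (-(c * N)) * (b - a)) := by
  sorry

/-- CYL: every tame surface has a cylinder. -/
theorem cyl (n : ℕ) (K : ℝ) : ∃ G a : ℝ, 0 < a ∧ ∀ Y : Surf, Y.n = n → Connected Y →
    (∀ e, ‖Y.vec e‖ ≤ K) → (∀ i, 1 / K ≤ Y.area2 i) →
      ∃ w : ℂ, w ≠ 0 ∧ ‖w‖ ≤ G ∧ a ≤ Y.μ.real {x | Y.Straight w x x} := by
  sorry

/-! ### Module H (helper57, helper21, helper83, helper35) -/

/-- GAP. -/
theorem gap (n : ℕ) (K : ℝ) : ∃ lam : ℝ, 0 ≤ lam ∧ lam < 1 ∧ ∀ Y : Surf, Y.n = n → Connected Y →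
    (∀ e, ‖Y.vec e‖ ≤ K) → (∀ i, 1 / K ≤ Y.area2 i) →
      ∀ x ∈ Coch (ofSurf Y), qT (ofSurf Y) x = 0 → ∀ t : ℝ, 0 ≤ t → t ≤ 1 →
        hn2 (lev (ofSurf Y) t 0) x ≤
          (Real.cosh (2 * t) + lam * Real.sinh (2 * t)) * hn2 (ofSurf Y) x := by
  sorry

/-- Lower bound of the Hodge norm by the periods modulo coboundaries (contains the discreteness H4
and the positivity of the norm). -/
theorem periods_le (n : ℕ) : ∃ C : ℝ, 0 < C ∧ ∀ K : ℝ, 1 ≤ K → ∀ Y : Surf, Y.n = n →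
    (∀ e, ‖Y.vec e‖ ≤ K) → (∀ i, 1 / K ≤ Y.area2 i) →
      ∀ x ∈ Coch (ofSurf Y), ∃ b ∈ Vert (ofSurf Y), ∀ h,
        |x h - dv (ofSurf Y) b h| ≤ C * K ^ C * Real.sqrt (hn2 (ofSurf Y) x) := by
  sorry

-- NS, in the form of helper45's structure `Sys`, is stated for `sysOf S` in the BASE files.

/-! ### Module I (helper19, helper9, helper64) -/

theorem mod_I (S : Surf) (hS : Connected S) (θ₀ : ℝ) (h : volume {θ : ℝ | S.FlowIso θ θ₀} ≠ 0) :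
    ∃ c₁ b₁ b₂ M U : ℝ, 0 < c₁ ∧ 0 < b₁ ∧ b₁ < b₂ ∧ 0 < U ∧ ∀ δ : ℝ, 0 < δ →
      ∃ σ : Measure ℝ, σ univ ≤ ENNReal.ofReal M ∧ ∃ a b : ℝ, -U ≤ a ∧ a < b ∧ b ≤ U ∧
        ∀ N : ℝ, ∃ s : ℝ, N ≤ s ∧ ENNReal.ofReal (8 / 10 * (b - a)) ≤
          volume {u ∈ Icc a b | ENNReal.ofReal c₁ ≤
            σ {ξ ∈ Icc b₁ b₂ | Close S s u (ξ / (2 * Real.pi) * Real.sqrt (1 + u ^ 2)) δ}} := by
  sorry

/-! ### Module L (helper45, helper17, helper32) with BASE -/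

theorem mod_L (S : Surf) (hS : Connected S) (b₁ b₂ U : ℝ) (hb : 0 < b₁) :
    ∃ C c : ℝ, 0 < C ∧ 0 < c ∧ ∀ δ : ℝ, 0 < δ → δ < 1 → ∀ a b : ℝ, -U ≤ a → a < b → b ≤ U →
      ∀ ξ ∈ Icc b₁ b₂, ∃ s₀ : ℝ, ∀ s : ℝ, s₀ ≤ s →
        volume {u ∈ Icc a b | Close S s u (ξ / (2 * Real.pi) * Real.sqrt (1 + u ^ 2)) δ} ≤
          ENNReal.ofReal (C * δ ^ c * (b - a)) := by
  sorry

/-! ### Assembly (BASE) -/

/-- The set of `(ξ, u)` with `Close` is open. -/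
theorem isOpen_close (S : Surf) (s δ : ℝ) :
    IsOpen {p : ℝ × ℝ | Close S s p.2 p.1 δ} := by
  sorry

theorem main (S : Surf) (hS : Connected S) (θ₀ : ℝ) : volume {θ : ℝ | S.FlowIso θ θ₀} = 0 := by
  sorry

end

end Pool.Agent.Helper72.TF
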